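import Pool.Agent.T9h16.Branch

set_option autoImplicit false
set_option linter.unusedSectionVars false

namespace Pool.Agent.T9h16

open Finset
open scoped Classical

/-- A variable or a constant, as a function of the set `z` of variables that are true. -/
def Leaf {E : Type} (p : Set E → Prop) : Prop :=
  (∃ e, ∀ z, p z ↔ e ∈ z) ∨ (∃ b : Prop, ∀ z, p z ↔ b)

/-- A leaf or one of the first `s` gates. -/
def Avail {E : Type} (g : ℕ → Set E → Prop) (s : ℕ) (p : Set E → Prop) : Prop :=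
  Leaf p ∨ ∃ j < s, ∀ z, p z ↔ g j z

/-- A monotone straight-line program with `s` gates (constants are free). -/
def IsSLP {E : Type} (g : ℕ → Set E → Prop) (s : ℕ) : Prop :=
  ∀ i < s, Leaf (g i) ∨ ∃ p q, Avail g i p ∧ Avail g i q ∧
    ((∀ z, g i z ↔ (p z ∧ q z)) ∨ (∀ z, g i z ↔ (p z ∨ q z)))

section
variable {I E : Type} [Fintype I] [Fintype E] [DecidableEq I] [DecidableEq E] (w A c ℓ : ℕ) (a b : E → I × Fin w)

/-- The positive test given by the transversal `φ`. -/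
def posT {w : ℕ} (a b : E → I × Fin w) (φ : I → Fin w) : Set E :=
  {e | φ (a e).1 = (a e).2 ∧ φ (b e).1 = (b e).2}

/-- The negative test given by `χ`: the variable `e` is false iff `χ e = 0`. -/
def negT {A : ℕ} (χ : E → Fin A) : Set E := {e | (χ e).val ≠ 0}

/-- The set `F` of variables hits the set `W` of points. -/
def Hit {w : ℕ} (a b : E → I × Fin w) (F : Finset E) (W : Finset (I × Fin w)) : Prop :=
  ∃ e ∈ F, a e ∈ W ∧ b e ∈ W

/-- `h` has a pair of approximators, correct outside of the error sets. -/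
def Approx (PE : Finset (I → Fin w)) (NE : Finset (E → Fin A)) (h : Set E → Prop) : Prop :=
  ∃ (𝒲 : Set (Finset (I × Fin w))) (𝒞 : Set (Finset E)),
    (∀ W ∈ 𝒲, W.card ≤ ℓ) ∧ (∀ F ∈ 𝒞, F.card ≤ c) ∧ (∀ W ∈ 𝒲, ∀ F ∈ 𝒞, Hit a b F W) ∧
    (∀ φ, φ ∉ PE → h (posT a b φ) → ∃ W ∈ 𝒲, ∀ v ∈ W, φ v.1 = v.2) ∧
    (∀ χ, χ ∉ NE → ¬ h (negT χ) → ∃ F ∈ 𝒞, ∀ e ∈ F, (χ e).val = 0)

variable {w A c ℓ a b}

theorem Approx.mono {PE PE' : Finset (I → Fin w)} {NE NE' : Finset (E → Fin A)}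
    {h : Set E → Prop} (hP : PE ⊆ PE') (hN : NE ⊆ NE') (H : Approx w A c ℓ a b PE NE h) :
    Approx w A c ℓ a b PE' NE' h := by
  obtain ⟨𝒲, 𝒞, h1, h2, h3, h4, h5⟩ := H
  exact ⟨𝒲, 𝒞, h1, h2, h3, fun φ hφ => h4 φ (fun h => hφ (hP h)),
    fun χ hχ => h5 χ (fun h => hχ (hN h))⟩

theorem Approx.congr {PE : Finset (I → Fin w)} {NE : Finset (E → Fin A)}
    {h h' : Set E → Prop} (hh : ∀ z, h' z ↔ h z) (H : Approx w A c ℓ a b PE NE h) :
    Approx w A c ℓ a b PE NE h' := by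
  obtain ⟨𝒲, 𝒞, h1, h2, h3, h4, h5⟩ := H
  exact ⟨𝒲, 𝒞, h1, h2, h3, fun φ hφ h => h4 φ hφ ((hh _).1 h),
    fun χ hχ h => h5 χ hχ (fun h' => h ((hh _).2 h'))⟩

theorem approx_leaf (hℓ : 2 ≤ ℓ) (hc : 1 ≤ c) {h : Set E → Prop} (hh : Leaf h) :
    Approx w A c ℓ a b ∅ ∅ h := by
  rcases hh with ⟨e, he⟩ | ⟨t, ht⟩
  · refine ⟨{{a e, b e}}, {{e}}, ?_, ?_, ?_, ?_, ?_⟩
    · rintro W rfl
      exact (card_le_two).trans hℓ
    · rintro F rfl
      simpa using hc
    · rintro W rfl F rfl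
      exact ⟨e, by simp, by simp, by simp⟩
    · intro φ _ hφ
      refine ⟨_, rfl, ?_⟩
      have := (he _).1 hφ
      intro v hv
      rw [mem_insert, mem_singleton] at hv
      rcases hv with rfl | rfl
      · exact this.1
      · exact this.2
    · intro χ _ hχ
      refine ⟨_, rfl, ?_⟩
      intro e' he'
      rw [mem_singleton] at he'
      subst he'
      rw [he] at hχ
      simpa [negT] using hχ
  · by_cases t
    case pos htt =>
      refine ⟨{∅}, ∅, ?_, ?_, ?_, ?_, ?_⟩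
      · rintro W rfl; simp
      · intro F hF; exact hF.elim
      · intro W _ F hF; exact hF.elim
      · intro φ _ _
        exact ⟨∅, rfl, by simp⟩
      · intro χ _ hχ
        exact (hχ ((ht _).2 htt)).elim
    case neg htt =>
      refine ⟨∅, {∅}, ?_, ?_, ?_, ?_, ?_⟩
      · intro F hF; exact hF.elim
      · rintro W rfl; simp
      · intro W hW; exact hW.elim
      · intro φ _ hφ
        exact (htt ((ht _).1 hφ)).elim
      · intro χ _ _
        exact ⟨∅, rfl, by simp⟩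

theorem approx_and (hw : 1 ≤ w) (hc : 1 ≤ c) {PE : Finset (I → Fin w)}
    {NE : Finset (E → Fin A)} {p q : Set E → Prop}
    (hp : Approx w A c ℓ a b PE NE p) (hq : Approx w A c ℓ a b PE NE q) :
    ∃ D : Finset (I → Fin w), D.card * w ^ (ℓ + 1) ≤ c ^ (ℓ + 1) * Fintype.card (I → Fin w) ∧
      Approx w A c ℓ a b (PE ∪ D) NE (fun z => p z ∧ q z) := by
  obtain ⟨𝒲₁, 𝒞₁, h1, h2, h3, h4, h5⟩ := hp
  obtain ⟨𝒲₂, 𝒞₂, k1, k2, k3, k4, k5⟩ := hq
  set R : Set (Finset (Finset (I × Fin w))) :=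
    {r | ∃ F ∈ 𝒞₁ ∪ 𝒞₂, r = F.image fun e => {a e, b e}} with hR
  have hRc : ∀ r ∈ R, r.card ≤ c := by
    rintro r ⟨F, hF, rfl⟩
    refine card_image_le.trans ?_
    rcases hF with hF | hF
    · exact h2 F hF
    · exact k2 F hF
  have hbr := branching (Ω := I → Fin w) (X := I × Fin w) (fun φ v => φ v.1 = v.2) w c ℓ hw hc
    (fun Y => by convert card_prescribed w Y) R hRc
  refine ⟨_, hbr, ?_⟩
  refine ⟨{W | W.card ≤ ℓ ∧ ∀ F ∈ 𝒞₁ ∪ 𝒞₂, Hit a b F W}, 𝒞₁ ∪ 𝒞₂, fun W hW => hW.1, ?_,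
    fun W hW F hF => hW.2 F hF, ?_, ?_⟩
  · rintro F (hF | hF)
    · exact h2 F hF
    · exact k2 F hF
  · rintro φ hφ ⟨hpz, hqz⟩
    rw [notMem_union] at hφ
    obtain ⟨W₁, hW₁, hφ₁⟩ := h4 φ hφ.1 hpz
    obtain ⟨W₂, hW₂, hφ₂⟩ := k4 φ hφ.1 hqz
    have hD := hφ.2
    simp only [mem_filter, mem_univ, true_and, not_and, not_forall, not_exists] at hD
    have hsat : ∀ r ∈ R, ∃ O ∈ r, ∀ v ∈ O, φ v.1 = v.2 := by
      rintro r ⟨F, hF, rfl⟩
      rcases hF with hF | hF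
      · obtain ⟨e, he, hae, hbe⟩ := h3 W₁ hW₁ F hF
        refine ⟨_, mem_image_of_mem _ he, ?_⟩
        intro v hv
        rw [mem_insert, mem_singleton] at hv
        rcases hv with rfl | rfl
        · exact hφ₁ _ hae
        · exact hφ₁ _ hbe
      · obtain ⟨e, he, hae, hbe⟩ := k3 W₂ hW₂ F hF
        refine ⟨_, mem_image_of_mem _ he, ?_⟩
        intro v hv
        rw [mem_insert, mem_singleton] at hv
        rcases hv with rfl | rfl
        · exact hφ₂ _ hae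
        · exact hφ₂ _ hbe
    obtain ⟨Y, hYc, hYφ, hY⟩ := hD hsat
    refine ⟨Y, ⟨hYc, ?_⟩, hYφ⟩
    intro F hF
    obtain ⟨O, hO, hOY⟩ := hY (F.image fun e => {a e, b e}) ⟨F, hF, rfl⟩
    rw [not_not] at hOY
    rw [mem_image] at hO
    obtain ⟨e, he, rfl⟩ := hO
    exact ⟨e, he, hOY (by simp), hOY (by simp)⟩
  · intro χ hχ hnot
    rw [not_and_or] at hnot
    rcases hnot with hnot | hnot
    · obtain ⟨F, hF, hFχ⟩ := h5 χ hχ hnot
      exact ⟨F, Or.inl hF, hFχ⟩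
    · obtain ⟨F, hF, hFχ⟩ := k5 χ hχ hnot
      exact ⟨F, Or.inr hF, hFχ⟩

theorem approx_or (hA : 1 ≤ A) (hℓ : 1 ≤ ℓ)
    (hinj : ∀ e e', a e = a e' → b e = b e' → e = e') {PE : Finset (I → Fin w)}
    {NE : Finset (E → Fin A)} {p q : Set E → Prop}
    (hp : Approx w A c ℓ a b PE NE p) (hq : Approx w A c ℓ a b PE NE q) :
    ∃ D : Finset (E → Fin A), D.card * A ^ (c + 1) ≤ (ℓ ^ 2) ^ (c + 1) * Fintype.card (E → Fin A) ∧
      Approx w A c ℓ a b PE (NE ∪ D) (fun z => p z ∨ q z) := by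
  obtain ⟨𝒲₁, 𝒞₁, h1, h2, h3, h4, h5⟩ := hp
  obtain ⟨𝒲₂, 𝒞₂, k1, k2, k3, k4, k5⟩ := hq
  set R : Set (Finset (Finset E)) :=
    {r | ∃ W ∈ 𝒲₁ ∪ 𝒲₂, r = (univ.filter fun e => a e ∈ W ∧ b e ∈ W).image fun e => {e}} with hR
  have hWc : ∀ W ∈ 𝒲₁ ∪ 𝒲₂, W.card ≤ ℓ := by
    rintro W (hW | hW)
    · exact h1 W hW
    · exact k1 W hW
  have hRc : ∀ r ∈ R, r.card ≤ ℓ ^ 2 := by
    rintro r ⟨W, hW, rfl⟩
    refine card_image_le.trans ?_
    have : (univ.filter fun e => a e ∈ W ∧ b e ∈ W).card ≤ (W ×ˢ W).card := by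
      apply card_le_card_of_injOn (fun e => (a e, b e))
      · intro e he
        simp only [coe_filter, mem_univ, true_and, Set.mem_ofPred_eq] at he
        simp [he.1, he.2]
      · intro e _ e' _ hee
        exact hinj e e' (Prod.ext_iff.1 hee).1 (Prod.ext_iff.1 hee).2
    refine this.trans ?_
    rw [card_product, sq]
    exact Nat.mul_le_mul (hWc W hW) (hWc W hW)
  have hbr := branching (Ω := E → Fin A) (X := E) (fun χ e => (χ e).val = 0) A (ℓ ^ 2) c hA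
    (Nat.pow_pos hℓ) (fun Y => by convert card_zero A hA Y) R hRc
  refine ⟨_, hbr, ?_⟩
  refine ⟨𝒲₁ ∪ 𝒲₂, {F | F.card ≤ c ∧ ∀ W ∈ 𝒲₁ ∪ 𝒲₂, Hit a b F W}, hWc, fun F hF => hF.1,
    fun W hW F hF => hF.2 W hW, ?_, ?_⟩
  · rintro φ hφ (h | h)
    · obtain ⟨W, hW, hWφ⟩ := h4 φ hφ h
      exact ⟨W, Or.inl hW, hWφ⟩
    · obtain ⟨W, hW, hWφ⟩ := k4 φ hφ h
      exact ⟨W, Or.inr hW, hWφ⟩
  · intro χ hχ hnot
    rw [not_or] at hnot
    rw [notMem_union] at hχ
    obtain ⟨F₁, hF₁, hχ₁⟩ := h5 χ hχ.1 hnot.1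
    obtain ⟨F₂, hF₂, hχ₂⟩ := k5 χ hχ.1 hnot.2
    have hD := hχ.2
    simp only [mem_filter, mem_univ, true_and, not_and, not_forall, not_exists] at hD
    have hsat : ∀ r ∈ R, ∃ O ∈ r, ∀ e ∈ O, (χ e).val = 0 := by
      rintro r ⟨W, hW, rfl⟩
      rcases hW with hW | hW
      · obtain ⟨e, he, hae, hbe⟩ := h3 W hW F₁ hF₁
        refine ⟨{e}, mem_image_of_mem _ (by simp [hae, hbe]), ?_⟩
        intro e' he'
        rw [mem_singleton] at he'
        subst he'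
        exact hχ₁ _ he
      · obtain ⟨e, he, hae, hbe⟩ := k3 W hW F₂ hF₂
        refine ⟨{e}, mem_image_of_mem _ (by simp [hae, hbe]), ?_⟩
        intro e' he'
        rw [mem_singleton] at he'
        subst he'
        exact hχ₂ _ he
    obtain ⟨Y, hYc, hYχ, hY⟩ := hD hsat
    refine ⟨Y, ⟨hYc, ?_⟩, hYχ⟩
    intro W hW
    obtain ⟨O, hO, hOY⟩ := hY _ ⟨W, hW, rfl⟩
    rw [not_not] at hOY
    rw [mem_image] at hO
    obtain ⟨e, he, rfl⟩ := hO
    simp only [mem_filter, mem_univ, true_and] at he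
    exact ⟨e, hOY (by simp), he.1, he.2⟩

/-- Approximation of a whole straight-line program. -/
theorem approx_slp (hw : 1 ≤ w) (hA : 1 ≤ A) (hℓ : 2 ≤ ℓ) (hc : 1 ≤ c)
    (hinj : ∀ e e', a e = a e' → b e = b e' → e = e') (g : ℕ → Set E → Prop) (s : ℕ)
    (hg : IsSLP g s) :
    ∃ (PE : Finset (I → Fin w)) (NE : Finset (E → Fin A)),
      PE.card * w ^ (ℓ + 1) ≤ s * (c ^ (ℓ + 1) * Fintype.card (I → Fin w)) ∧
      NE.card * A ^ (c + 1) ≤ s * ((ℓ ^ 2) ^ (c + 1) * Fintype.card (E → Fin A)) ∧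
      ∀ i < s, Approx w A c ℓ a b PE NE (g i) := by
  induction s with
  | zero => exact ⟨∅, ∅, by simp, by simp, by intro i hi; omega⟩
  | succ s ih =>
    obtain ⟨PE, NE, hPE, hNE, happ⟩ := ih (fun i hi => hg i (by omega))
    have havail : ∀ p, Avail g s p → Approx w A c ℓ a b PE NE p := by
      rintro p (hp | ⟨j, hj, hp⟩)
      · exact (approx_leaf hℓ hc hp).mono (by simp) (by simp)
      · exact (happ j hj).congr hp
    rcases hg s (by omega) with hleaf | ⟨p, q, hp, hq, hgs⟩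
    · refine ⟨PE, NE, hPE.trans (Nat.mul_le_mul_right _ (by omega)),
        hNE.trans (Nat.mul_le_mul_right _ (by omega)), ?_⟩
      intro i hi
      rcases Nat.lt_succ_iff_lt_or_eq.1 hi with hi | rfl
      · exact happ i hi
      · exact (approx_leaf hℓ hc hleaf).mono (by simp) (by simp)
    · rcases hgs with hgs | hgs
      · obtain ⟨D, hD, hap⟩ := approx_and hw hc (havail p hp) (havail q hq)
        refine ⟨PE ∪ D, NE, ?_, hNE.trans (Nat.mul_le_mul_right _ (by omega)), ?_⟩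
        · calc (PE ∪ D).card * w ^ (ℓ + 1) ≤ (PE.card + D.card) * w ^ (ℓ + 1) :=
                Nat.mul_le_mul_right _ (card_union_le _ _)
            _ = PE.card * w ^ (ℓ + 1) + D.card * w ^ (ℓ + 1) := by ring
            _ ≤ s * (c ^ (ℓ + 1) * Fintype.card (I → Fin w)) +
                c ^ (ℓ + 1) * Fintype.card (I → Fin w) := Nat.add_le_add hPE hD
            _ = (s + 1) * (c ^ (ℓ + 1) * Fintype.card (I → Fin w)) := by ring
        · intro i hi
          rcases Nat.lt_succ_iff_lt_or_eq.1 hi with hi | rfl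
          · exact (happ i hi).mono subset_union_left (by simp)
          · exact hap.congr hgs
      · obtain ⟨D, hD, hap⟩ := approx_or hA (by omega) hinj (havail p hp) (havail q hq)
        refine ⟨PE, NE ∪ D, hPE.trans (Nat.mul_le_mul_right _ (by omega)), ?_, ?_⟩
        · calc (NE ∪ D).card * A ^ (c + 1) ≤ (NE.card + D.card) * A ^ (c + 1) :=
                Nat.mul_le_mul_right _ (card_union_le _ _)
            _ = NE.card * A ^ (c + 1) + D.card * A ^ (c + 1) := by ring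
            _ ≤ s * ((ℓ ^ 2) ^ (c + 1) * Fintype.card (E → Fin A)) +
                (ℓ ^ 2) ^ (c + 1) * Fintype.card (E → Fin A) := Nat.add_le_add hNE hD
            _ = (s + 1) * ((ℓ ^ 2) ^ (c + 1) * Fintype.card (E → Fin A)) := by ring
        · intro i hi
          rcases Nat.lt_succ_iff_lt_or_eq.1 hi with hi | rfl
          · exact (happ i hi).mono (by simp) subset_union_left
          · exact hap.congr hgs

end

end Pool.Agent.T9h16
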