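import Pool.Agent.T9h16.Branch

set_option autoImplicit false
set_option linter.unusedSectionVars false

namespace Pool.Agent.T9h16

open Finset
open scoped Classical

theorem pow_self_le (K : ℕ) : K ^ K ≤ 3 ^ K * K.factorial := by
  have h1 := Real.pow_div_factorial_le_exp (K : ℝ) (Nat.cast_nonneg K) K
  have h2 : Real.exp (K : ℝ) ≤ 3 ^ K := by
    have h3 : Real.exp (K : ℝ) = (Real.exp 1) ^ K := by
      rw [← Real.exp_nat_mul, mul_one]
    rw [h3]
    exact pow_le_pow_left₀ (Real.exp_pos 1).le (by
      have := Real.exp_one_lt_d9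
      linarith) K
  have h4 : (0 : ℝ) < (K.factorial : ℝ) := by exact_mod_cast K.factorial_pos
  have h5 : (K : ℝ) ^ K ≤ 3 ^ K * (K.factorial : ℝ) := by
    have := h1.trans h2
    rwa [div_le_iff₀ h4] at this
  exact_mod_cast h5

theorem pow_le_desc (K z t : ℕ) (h : z + t ≤ K) : K ^ t ≤ 3 ^ K * (K - z).descFactorial t := by
  rcases Nat.eq_zero_or_pos K with h0 | hK
  · subst h0
    have : t = 0 := by omega
    subst this
    simp
  have h1 : K.factorial = (K - z).factorial * K.descFactorial z :=
    (Nat.factorial_mul_descFactorial (by omega)).symm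
  have h2 : (K - z).factorial = (K - z - t).factorial * (K - z).descFactorial t :=
    (Nat.factorial_mul_descFactorial (by omega)).symm
  have h3 : (K - z - t).factorial ≤ K ^ (K - z - t) :=
    (Nat.factorial_le_pow _).trans (Nat.pow_le_pow_left (by omega) _)
  have h4 : K.descFactorial z ≤ K ^ z := Nat.descFactorial_le_pow K z
  have h5 : K.factorial ≤ K ^ (K - z - t) * (K - z).descFactorial t * K ^ z := by
    rw [h1, h2]
    exact Nat.mul_le_mul (Nat.mul_le_mul_right _ h3) h4
  have h6 := pow_self_le K
  have h7 : K ^ K = K ^ t * (K ^ (K - z - t) * K ^ z) := by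
    rw [← pow_add, ← pow_add]
    congr 1
    omega
  have h8 : K ^ t * (K ^ (K - z - t) * K ^ z) ≤
      3 ^ K * (K - z).descFactorial t * (K ^ (K - z - t) * K ^ z) := by
    calc K ^ t * (K ^ (K - z - t) * K ^ z) = K ^ K := h7.symm
      _ ≤ 3 ^ K * K.factorial := h6
      _ ≤ 3 ^ K * (K ^ (K - z - t) * (K - z).descFactorial t * K ^ z) :=
          Nat.mul_le_mul_left _ h5
      _ = _ := by ring
  exact Nat.le_of_mul_le_mul_right h8 (by positivity)

section
variable {V : Type} [Fintype V] [DecidableEq V] {K : ℕ}

/-- The colourings which agree with `γ` on `X`. -/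
def Ext (X : Finset V) (γ : V → Fin K) : Finset (V → Fin K) :=
  univ.filter fun χ => ∀ v ∈ X, χ v = γ v

theorem mem_Ext {X : Finset V} {γ χ : V → Fin K} : χ ∈ Ext X γ ↔ ∀ v ∈ X, χ v = γ v := by
  simp [Ext]

theorem inj_step (X : Finset V) (γ : V → Fin K) (S : Finset V) (v : V) (hvX : v ∉ X)
    (hvS : v ∉ S) :
    ((Ext X γ).filter fun χ => Set.InjOn χ (S : Set V)).card * (K - S.card) ≤
      ((Ext X γ).filter fun χ => Set.InjOn χ ((insert v S : Finset V) : Set V)).card * K := by
  set A := (Ext X γ).filter fun χ => Set.InjOn χ (S : Set V) with hA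
  set B := (Ext X γ).filter fun χ => Set.InjOn χ ((insert v S : Finset V) : Set V) with hB
  set P : Finset (Σ _ : V → Fin K, Fin K) := A.sigma fun χ => univ.filter fun κ => κ ∉ S.image χ
    with hP
  have h1 : A.card * (K - S.card) ≤ P.card := by
    rw [hP, card_sigma, ← smul_eq_mul, ← sum_const]
    apply sum_le_sum
    intro χ _
    have h2 : (univ.filter fun κ : Fin K => κ ∉ S.image χ) = (S.image χ)ᶜ := by
      ext κ
      simp
    rw [h2, card_compl, Fintype.card_fin]
    have : (S.image χ).card ≤ S.card := card_image_le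
    omega
  have h3 : P.card ≤ (B ×ˢ (univ : Finset (Fin K))).card := by
    apply card_le_card_of_injOn (fun q => (Function.update q.1 v q.2, q.1 v))
    · rintro ⟨χ, κ⟩ hq
      rw [mem_coe, hP, mem_sigma] at hq
      simp only at hq
      obtain ⟨hχ, hκ⟩ := hq
      rw [hA, mem_filter, mem_Ext] at hχ
      simp only [mem_filter, mem_univ, true_and] at hκ
      rw [mem_coe, mem_product]
      refine ⟨?_, mem_univ _⟩
      rw [hB, mem_filter, mem_Ext]
      refine ⟨fun u hu => ?_, ?_⟩
      · simp only
        rw [Function.update_of_ne (fun h : u = v => hvX (h ▸ hu)), hχ.1 u hu]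
      · rw [coe_insert, Set.injOn_insert (by simpa using hvS)]
        have hS : ∀ u ∈ S, Function.update χ v κ u = χ u := by
          intro u hu
          rw [Function.update_of_ne (fun h : u = v => hvS (h ▸ hu))]
        refine ⟨?_, ?_⟩
        · intro u hu u' hu' h
          simp only at h
          rw [hS u hu, hS u' hu'] at h
          exact hχ.2 hu hu' h
        · simp only
          rw [Function.update_self]
          rintro ⟨u, hu, h⟩
          simp only at h
          rw [hS u hu] at h
          exact hκ (mem_image.2 ⟨u, hu, h⟩)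
    · rintro ⟨χ, κ⟩ _ ⟨χ', κ'⟩ _ h
      simp only [Prod.mk.injEq] at h
      obtain ⟨h1, h2⟩ := h
      have hκ : κ = κ' := by
        have := congrFun h1 v
        rwa [Function.update_self, Function.update_self] at this
      have hχ : χ = χ' := by
        funext u
        by_cases hu : u = v
        · rw [hu, h2]
        · have := congrFun h1 u
          rwa [Function.update_of_ne hu, Function.update_of_ne hu] at this
      rw [hκ, hχ]
  rw [card_product, card_univ, Fintype.card_fin] at h3
  exact h1.trans h3

theorem inj_count (X : Finset V) (γ : V → Fin K) (W : Finset V)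
    (hinj : Set.InjOn γ ((W ∩ X : Finset V) : Set V)) (T : Finset V) (hT : T ⊆ W \ X) :
    (Ext X γ).card * (K - (W ∩ X).card).descFactorial T.card ≤
      ((Ext X γ).filter fun χ => Set.InjOn χ (((W ∩ X) ∪ T : Finset V) : Set V)).card *
        K ^ T.card := by
  induction T using Finset.induction_on with
  | empty =>
    simp only [card_empty, Nat.descFactorial_zero, mul_one, pow_zero]
    apply card_le_card
    intro χ hχ
    rw [mem_filter]
    refine ⟨hχ, ?_⟩
    rw [mem_Ext] at hχ
    intro u hu u' hu' h
    rw [union_empty, mem_coe] at hu hu'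
    rw [hχ u (mem_inter.1 hu).2, hχ u' (mem_inter.1 hu').2] at h
    exact hinj hu hu' h
  | insert v T hvT ih =>
    have hT' : T ⊆ W \ X := fun u hu => hT (mem_insert_of_mem hu)
    have hv : v ∈ W \ X := hT (mem_insert_self v T)
    rw [mem_sdiff] at hv
    have hvS : v ∉ (W ∩ X) ∪ T := by
      rw [mem_union, mem_inter]
      rintro (h | h)
      · exact hv.2 h.2
      · exact hvT h
    have hstep := inj_step X γ ((W ∩ X) ∪ T) v hv.2 hvS
    have hcard : ((W ∩ X) ∪ T).card = (W ∩ X).card + T.card := by
      apply card_union_of_disjoint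
      rw [disjoint_left]
      intro u hu hu'
      exact (mem_sdiff.1 (hT' hu')).2 (mem_inter.1 hu).2
    rw [hcard] at hstep
    have hins : (W ∩ X) ∪ insert v T = insert v ((W ∩ X) ∪ T) := by
      rw [union_insert]
    rw [hins, card_insert_of_notMem hvT, Nat.descFactorial_succ, pow_succ]
    have ih' := ih hT'
    calc (Ext X γ).card * ((K - (W ∩ X).card - T.card) * (K - (W ∩ X).card).descFactorial T.card)
        = ((Ext X γ).card * (K - (W ∩ X).card).descFactorial T.card) *
            (K - ((W ∩ X).card + T.card)) := by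
          rw [Nat.sub_sub]; ring
      _ ≤ (((Ext X γ).filter fun χ => Set.InjOn χ (((W ∩ X) ∪ T : Finset V) : Set V)).card *
            K ^ T.card) * (K - ((W ∩ X).card + T.card)) := Nat.mul_le_mul_right _ ih'
      _ = (((Ext X γ).filter fun χ => Set.InjOn χ (((W ∩ X) ∪ T : Finset V) : Set V)).card *
            (K - ((W ∩ X).card + T.card))) * K ^ T.card := by ring
      _ ≤ _ := by
          refine (Nat.mul_le_mul_right _ hstep).trans (le_of_eq ?_)
          ring

/-- A random colouring is injective on a small set with probability at least `1 / 3 ^ K`. -/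
theorem rainbow (X : Finset V) (γ : V → Fin K) (W : Finset V) (hWK : W.card ≤ K)
    (hinj : Set.InjOn γ ((W ∩ X : Finset V) : Set V)) :
    (Ext X γ).card ≤ 3 ^ K * ((Ext X γ).filter fun χ => Set.InjOn χ (W : Set V)).card := by
  have h := inj_count X γ W hinj (W \ X) subset_rfl
  have hW : (W ∩ X) ∪ (W \ X) = W := by
    ext u
    simp only [mem_union, mem_inter, mem_sdiff]
    tauto
  rw [hW] at h
  have hsum : (W ∩ X).card + (W \ X).card = W.card := by
    rw [add_comm]
    exact card_sdiff_add_card_inter W X
  rcases Nat.eq_zero_or_pos K with h0 | hK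
  · subst h0
    simp only [pow_zero, one_mul]
    apply card_le_card
    intro χ hχ
    rw [mem_filter]
    refine ⟨hχ, ?_⟩
    intro u _
    exact (χ u).elim0
  have h2 := pow_le_desc K (W ∩ X).card (W \ X).card (by omega)
  have h3 : (Ext X γ).card * K ^ (W \ X).card ≤
      3 ^ K * ((Ext X γ).filter fun χ => Set.InjOn χ (W : Set V)).card * K ^ (W \ X).card := by
    calc (Ext X γ).card * K ^ (W \ X).card
        ≤ (Ext X γ).card * (3 ^ K * (K - (W ∩ X).card).descFactorial (W \ X).card) :=
          Nat.mul_le_mul_left _ h2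
      _ = 3 ^ K * ((Ext X γ).card * (K - (W ∩ X).card).descFactorial (W \ X).card) := by ring
      _ ≤ 3 ^ K * (((Ext X γ).filter fun χ => Set.InjOn χ (W : Set V)).card *
            K ^ (W \ X).card) := Nat.mul_le_mul_left _ h
      _ = _ := by ring
  exact Nat.le_of_mul_le_mul_right h3 (by positivity)

/-- The partial colouring `F` hits the set `W`: two elements of `W` get the same colour. -/
def HitC (F : Finset (V × Fin K)) (W : Finset V) : Prop :=
  ∃ u ∈ W, ∃ v ∈ W, u ≠ v ∧ ∃ κ, (u, κ) ∈ F ∧ (v, κ) ∈ F

/-- The query bound: a random colouring is injective on some `W ∈ 𝒲`, or a small part of it hits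
all of them, except with small probability. -/
theorem query (ℓ c : ℕ) (𝒲 : Set (Finset V)) (hW : ∀ W ∈ 𝒲, W.card ≤ ℓ) (hℓ : ℓ ≤ K) (j : ℕ) :
    ∀ (X : Finset V) (γ : V → Fin K), X.card + j * ℓ ≤ c →
    ((Ext X γ).filter fun χ => (∀ W ∈ 𝒲, ¬ Set.InjOn χ (W : Set V)) ∧
      ∀ F : Finset (V × Fin K), F.card ≤ c → (∀ p ∈ F, χ p.1 = p.2) → ∃ W ∈ 𝒲, ¬ HitC F W).card
        * (3 ^ K) ^ j ≤ (3 ^ K - 1) ^ j * (Ext X γ).card := by
  set bad : (V → Fin K) → Prop := fun χ => (∀ W ∈ 𝒲, ¬ Set.InjOn χ (W : Set V)) ∧
      ∀ F : Finset (V × Fin K), F.card ≤ c → (∀ p ∈ F, χ p.1 = p.2) → ∃ W ∈ 𝒲, ¬ HitC F W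
    with hbad
  induction j with
  | zero =>
    intro X γ _
    simpa using card_le_card (filter_subset _ _)
  | succ j ih =>
    intro X γ hX
    by_cases hall : ∀ W ∈ 𝒲, HitC (X.image fun v => (v, γ v)) W
    · have hempty : (Ext X γ).filter bad = ∅ := by
        rw [filter_eq_empty_iff]
        intro χ hχ hb
        rw [mem_Ext] at hχ
        obtain ⟨W, hWW, hnot⟩ := hb.2 (X.image fun v => (v, γ v))
          (card_image_le.trans (by have : X.card ≤ X.card + (j + 1) * ℓ := by omega
                                   omega)) (by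
          intro p hp
          rw [mem_image] at hp
          obtain ⟨v, hv, rfl⟩ := hp
          exact hχ v hv)
        exact hnot (hall W hWW)
      rw [hempty]
      simp
    · push Not at hall
      obtain ⟨W, hWW, hnot⟩ := hall
      have hinj : Set.InjOn γ ((W ∩ X : Finset V) : Set V) := by
        intro u hu v hv huv
        by_contra hne
        apply hnot
        rw [mem_coe, mem_inter] at hu hv
        refine ⟨u, hu.1, v, hv.1, hne, γ u, ?_, ?_⟩
        · exact mem_image.2 ⟨u, hu.2, rfl⟩
        · exact mem_image.2 ⟨v, hv.2, by rw [huv]⟩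
      have hWc := hW W hWW
      have hrain := rainbow X γ W (hWc.trans hℓ) hinj
      set N := (Ext X γ).filter fun χ => ¬ Set.InjOn χ (W : Set V) with hN
      have hNcard : N.card + ((Ext X γ).filter fun χ => Set.InjOn χ (W : Set V)).card =
          (Ext X γ).card := by
        rw [add_comm, hN]
        exact card_filter_add_card_filter_not (s := Ext X γ) _
      have hNQ : N.card * 3 ^ K ≤ (3 ^ K - 1) * (Ext X γ).card := by
        obtain ⟨q, hq⟩ : ∃ q, (3 : ℕ) ^ K = q + 1 :=
          ⟨3 ^ K - 1, by have : 0 < (3 : ℕ) ^ K := by positivity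
                         omega⟩
        rw [hq] at hrain ⊢
        rw [Nat.add_sub_cancel]
        generalize ((Ext X γ).filter fun χ => Set.InjOn χ (W : Set V)).card = I at *
        generalize (Ext X γ).card = E at *
        generalize N.card = n at *
        nlinarith
      -- restriction to `W`
      set ρ : (V → Fin K) → ({u // u ∈ W} → Fin K) := fun χ u => χ u.1 with hρ
      have hmain : (N.filter bad).card * (3 ^ K) ^ j ≤ (3 ^ K - 1) ^ j * N.card := by
        rw [card_eq_sum_card_fiberwise (f := ρ) (t := univ) (fun _ _ => mem_univ _), sum_mul,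
          card_eq_sum_card_fiberwise (s := N) (f := ρ) (t := univ) (fun _ _ => mem_univ _),
          mul_sum]
        apply sum_le_sum
        intro δ _
        by_cases hne : ((N.filter bad).filter fun χ => ρ χ = δ).Nonempty
        · obtain ⟨χ₀, hχ₀⟩ := hne
          rw [mem_filter, mem_filter, hN, mem_filter, mem_Ext] at hχ₀
          obtain ⟨⟨⟨h1, h2⟩, h3⟩, h4⟩ := hχ₀
          have hEq : (N.filter fun χ => ρ χ = δ) = Ext (X ∪ W) χ₀ := by
            ext χ
            rw [mem_filter, hN, mem_filter, mem_Ext, mem_Ext]
            constructor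
            · rintro ⟨⟨ha, -⟩, hb⟩ u hu
              rcases mem_union.1 hu with hu | hu
              · rw [ha u hu, h1 u hu]
              · have := congrFun (hb.trans h4.symm) ⟨u, hu⟩
                exact this
            · intro ha
              have hWag : ∀ u ∈ W, χ u = χ₀ u := fun u hu => ha u (mem_union_right _ hu)
              refine ⟨⟨fun u hu => ?_, ?_⟩, ?_⟩
              · rw [ha u (mem_union_left _ hu), h1 u hu]
              · intro hi
                apply h2
                intro u hu v hv huv
                apply hi hu hv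
                rw [hWag u hu, hWag v hv, huv]
              · rw [← h4]
                funext u
                exact hWag u.1 u.2
          have hEq2 : ((N.filter bad).filter fun χ => ρ χ = δ) = (Ext (X ∪ W) χ₀).filter bad := by
            rw [← hEq]
            ext χ
            simp only [mem_filter]
            tauto
          rw [hEq, hEq2]
          apply ih
          have : (X ∪ W).card ≤ X.card + W.card := card_union_le _ _
          have h5 : (j + 1) * ℓ = j * ℓ + ℓ := by ring
          omega
        · rw [not_nonempty_iff_eq_empty] at hne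
          rw [hne]
          simp
      have hsub : (Ext X γ).filter bad ⊆ N.filter bad := by
        intro χ hχ
        rw [mem_filter] at hχ
        rw [mem_filter, hN, mem_filter]
        exact ⟨⟨hχ.1, hχ.2.1 W hWW⟩, hχ.2⟩
      calc ((Ext X γ).filter bad).card * (3 ^ K) ^ (j + 1)
          ≤ (N.filter bad).card * (3 ^ K) ^ (j + 1) := Nat.mul_le_mul_right _ (card_le_card hsub)
        _ = ((N.filter bad).card * (3 ^ K) ^ j) * 3 ^ K := by rw [pow_succ]; ring
        _ ≤ ((3 ^ K - 1) ^ j * N.card) * 3 ^ K := Nat.mul_le_mul_right _ hmain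
        _ = (3 ^ K - 1) ^ j * (N.card * 3 ^ K) := by ring
        _ ≤ (3 ^ K - 1) ^ j * ((3 ^ K - 1) * (Ext X γ).card) := Nat.mul_le_mul_left _ hNQ
        _ = (3 ^ K - 1) ^ (j + 1) * (Ext X γ).card := by rw [pow_succ]; ring

end

end Pool.Agent.T9h16
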