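import Pool.Agent.T9h16.Approx
import Pool.Agent.T9h16.Query

set_option autoImplicit false
set_option linter.unusedSectionVars false

namespace Pool.Agent.T9h16

open Finset
open scoped Classical

section
variable {I E : Type} [Fintype I] [DecidableEq I] (w K c ℓ : ℕ) (a b : E → I × Fin w)

/-- The negative test given by the colouring `χ` of the points: the variables whose two ends have
different colours are true. -/
def negC {w K : ℕ} (a b : E → I × Fin w) (χ : I × Fin w → Fin K) : Set E := {e | χ (a e) ≠ χ (b e)}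

/-- `h` has a pair of approximators, correct outside of the error sets. -/
def ApproxC (PE : Finset (I → Fin w)) (NE : Finset (I × Fin w → Fin K)) (h : Set E → Prop) : Prop :=
  ∃ (𝒲 : Set (Finset (I × Fin w))) (𝒞 : Set (Finset ((I × Fin w) × Fin K))),
    (∀ W ∈ 𝒲, W.card ≤ ℓ) ∧ (∀ F ∈ 𝒞, F.card ≤ c) ∧ (∀ W ∈ 𝒲, ∀ F ∈ 𝒞, HitC F W) ∧
    (∀ φ, φ ∉ PE → h (posT a b φ) → ∃ W ∈ 𝒲, ∀ v ∈ W, φ v.1 = v.2) ∧
    (∀ χ, χ ∉ NE → ¬ h (negC a b χ) → ∃ F ∈ 𝒞, ∀ p ∈ F, χ p.1 = p.2)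

variable {w K c ℓ a b}

theorem ApproxC.mono {PE PE' : Finset (I → Fin w)} {NE NE' : Finset (I × Fin w → Fin K)}
    {h : Set E → Prop} (hP : PE ⊆ PE') (hN : NE ⊆ NE') (H : ApproxC w K c ℓ a b PE NE h) :
    ApproxC w K c ℓ a b PE' NE' h := by
  obtain ⟨𝒲, 𝒞, h1, h2, h3, h4, h5⟩ := H
  exact ⟨𝒲, 𝒞, h1, h2, h3, fun φ hφ => h4 φ (fun h => hφ (hP h)),
    fun χ hχ => h5 χ (fun h => hχ (hN h))⟩

theorem ApproxC.congr {PE : Finset (I → Fin w)} {NE : Finset (I × Fin w → Fin K)}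
    {h h' : Set E → Prop} (hh : ∀ z, h' z ↔ h z) (H : ApproxC w K c ℓ a b PE NE h) :
    ApproxC w K c ℓ a b PE NE h' := by
  obtain ⟨𝒲, 𝒞, h1, h2, h3, h4, h5⟩ := H
  exact ⟨𝒲, 𝒞, h1, h2, h3, fun φ hφ h => h4 φ hφ ((hh _).1 h),
    fun χ hχ h => h5 χ hχ (fun h' => h ((hh _).2 h'))⟩

theorem approxC_leaf (hℓ : 2 ≤ ℓ) (hc : 2 ≤ c) (hab : ∀ e, a e ≠ b e) {h : Set E → Prop}
    (hh : Leaf h) : ApproxC w K c ℓ a b ∅ ∅ h := by
  rcases hh with ⟨e, he⟩ | ⟨t, ht⟩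
  · refine ⟨{{a e, b e}}, {F | ∃ κ, F = {(a e, κ), (b e, κ)}}, ?_, ?_, ?_, ?_, ?_⟩
    · rintro W rfl
      exact (card_le_two).trans hℓ
    · rintro F ⟨κ, rfl⟩
      exact (card_le_two).trans hc
    · rintro W rfl F ⟨κ, rfl⟩
      exact ⟨a e, by simp, b e, by simp, hab e, κ, by simp, by simp⟩
    · intro φ _ hφ
      refine ⟨_, rfl, ?_⟩
      have := (he _).1 hφ
      intro v hv
      rw [mem_insert, mem_singleton] at hv
      rcases hv with rfl | rfl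
      · exact this.1
      · exact this.2
    · intro χ _ hχ
      refine ⟨_, ⟨χ (a e), rfl⟩, ?_⟩
      rw [he] at hχ
      have h2 : χ (a e) = χ (b e) := by
        by_contra hne
        exact hχ hne
      intro p hp
      rw [mem_insert, mem_singleton] at hp
      rcases hp with rfl | rfl
      · rfl
      · exact h2.symm
  · by_cases t
    case pos htt =>
      refine ⟨{∅}, ∅, ?_, ?_, ?_, ?_, ?_⟩
      · rintro W rfl; simp
      · intro F hF; exact hF.elim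
      · intro W _ F hF; exact hF.elim
      · intro φ _ _
        exact ⟨∅, rfl, by simp⟩
      · intro χ _ hχ
        exact (hχ ((ht _).2 htt)).elim
    case neg htt =>
      refine ⟨∅, {∅}, ?_, ?_, ?_, ?_, ?_⟩
      · intro F hF; exact hF.elim
      · rintro W rfl; simp
      · intro W hW; exact hW.elim
      · intro φ _ hφ
        exact (htt ((ht _).1 hφ)).elim
      · intro χ _ _
        exact ⟨∅, rfl, by simp⟩

theorem approxC_and (hw : 1 ≤ w) (hc : 1 ≤ c) {PE : Finset (I → Fin w)}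
    {NE : Finset (I × Fin w → Fin K)} {p q : Set E → Prop}
    (hp : ApproxC w K c ℓ a b PE NE p) (hq : ApproxC w K c ℓ a b PE NE q) :
    ∃ D : Finset (I → Fin w),
      D.card * w ^ (ℓ + 1) ≤ (c ^ 2) ^ (ℓ + 1) * Fintype.card (I → Fin w) ∧
      ApproxC w K c ℓ a b (PE ∪ D) NE (fun z => p z ∧ q z) := by
  obtain ⟨𝒲₁, 𝒞₁, h1, h2, h3, h4, h5⟩ := hp
  obtain ⟨𝒲₂, 𝒞₂, k1, k2, k3, k4, k5⟩ := hq
  set req : Finset ((I × Fin w) × Fin K) → Finset (Finset (I × Fin w)) := fun F =>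
    ((F ×ˢ F).filter fun q => q.1.1 ≠ q.2.1 ∧ q.1.2 = q.2.2).image fun q => {q.1.1, q.2.1}
    with hreq
  set R : Set (Finset (Finset (I × Fin w))) := {r | ∃ F ∈ 𝒞₁ ∪ 𝒞₂, r = req F} with hR
  have hCc : ∀ F ∈ 𝒞₁ ∪ 𝒞₂, F.card ≤ c := by
    rintro F (hF | hF)
    · exact h2 F hF
    · exact k2 F hF
  have hRc : ∀ r ∈ R, r.card ≤ c ^ 2 := by
    rintro r ⟨F, hF, rfl⟩
    refine card_image_le.trans ((card_filter_le _ _).trans ?_)
    rw [card_product, sq]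
    exact Nat.mul_le_mul (hCc F hF) (hCc F hF)
  have hbr := branching (Ω := I → Fin w) (X := I × Fin w) (fun φ v => φ v.1 = v.2) w (c ^ 2) ℓ hw
    (Nat.pow_pos hc) (fun Y => by convert card_prescribed w Y) R hRc
  refine ⟨_, hbr, ?_⟩
  refine ⟨{W | W.card ≤ ℓ ∧ ∀ F ∈ 𝒞₁ ∪ 𝒞₂, HitC F W}, 𝒞₁ ∪ 𝒞₂, fun W hW => hW.1, hCc,
    fun W hW F hF => hW.2 F hF, ?_, ?_⟩
  · rintro φ hφ ⟨hpz, hqz⟩
    rw [notMem_union] at hφ
    obtain ⟨W₁, hW₁, hφ₁⟩ := h4 φ hφ.1 hpz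
    obtain ⟨W₂, hW₂, hφ₂⟩ := k4 φ hφ.1 hqz
    have hD := hφ.2
    simp only [mem_filter, mem_univ, true_and, not_and, not_forall, not_exists] at hD
    have hhit : ∀ F W, HitC F W → (∀ v ∈ W, φ v.1 = v.2) →
        ∃ O ∈ req F, ∀ v ∈ O, φ v.1 = v.2 := by
      rintro F W ⟨u, hu, v, hv, huv, κ, hF1, hF2⟩ hφW
      refine ⟨{u, v}, ?_, ?_⟩
      · rw [hreq, mem_image]
        refine ⟨((u, κ), (v, κ)), ?_, rfl⟩
        rw [mem_filter, mem_product]
        exact ⟨⟨hF1, hF2⟩, huv, rfl⟩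
      · intro x hx
        rw [mem_insert, mem_singleton] at hx
        rcases hx with rfl | rfl
        · exact hφW _ hu
        · exact hφW _ hv
    have hsat : ∀ r ∈ R, ∃ O ∈ r, ∀ v ∈ O, φ v.1 = v.2 := by
      rintro r ⟨F, hF, rfl⟩
      rcases hF with hF | hF
      · exact hhit F W₁ (h3 W₁ hW₁ F hF) hφ₁
      · exact hhit F W₂ (k3 W₂ hW₂ F hF) hφ₂
    obtain ⟨Y, hYc, hYφ, hY⟩ := hD hsat
    refine ⟨Y, ⟨hYc, ?_⟩, hYφ⟩
    intro F hF
    obtain ⟨O, hO, hOY⟩ := hY (req F) ⟨F, hF, rfl⟩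
    rw [not_not] at hOY
    rw [hreq, mem_image] at hO
    obtain ⟨⟨⟨u, κ⟩, ⟨v, κ'⟩⟩, hq, rfl⟩ := hO
    rw [mem_filter, mem_product] at hq
    obtain ⟨⟨hF1, hF2⟩, hne, hκ⟩ := hq
    simp only at hF1 hF2 hne hκ hOY
    subst hκ
    exact ⟨u, hOY (by simp), v, hOY (by simp), hne, κ, hF1, hF2⟩
  · intro χ hχ hnot
    rw [not_and_or] at hnot
    rcases hnot with hnot | hnot
    · obtain ⟨F, hF, hFχ⟩ := h5 χ hχ hnot
      exact ⟨F, Or.inl hF, hFχ⟩
    · obtain ⟨F, hF, hFχ⟩ := k5 χ hχ hnot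
      exact ⟨F, Or.inr hF, hFχ⟩

theorem approxC_or (P : ℕ) (hP : P * ℓ ≤ c) (hℓK : ℓ ≤ K) {PE : Finset (I → Fin w)}
    {NE : Finset (I × Fin w → Fin K)} {p q : Set E → Prop}
    (hp : ApproxC w K c ℓ a b PE NE p) (hq : ApproxC w K c ℓ a b PE NE q) :
    ∃ D : Finset (I × Fin w → Fin K),
      D.card * (3 ^ K) ^ P ≤ (3 ^ K - 1) ^ P * Fintype.card (I × Fin w → Fin K) ∧
      ApproxC w K c ℓ a b PE (NE ∪ D) (fun z => p z ∨ q z) := by
  obtain ⟨𝒲₁, 𝒞₁, h1, h2, h3, h4, h5⟩ := hp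
  obtain ⟨𝒲₂, 𝒞₂, k1, k2, k3, k4, k5⟩ := hq
  have hWc : ∀ W ∈ 𝒲₁ ∪ 𝒲₂, W.card ≤ ℓ := by
    rintro W (hW | hW)
    · exact h1 W hW
    · exact k1 W hW
  by_cases hne : Nonempty (I × Fin w → Fin K)
  swap
  · refine ⟨∅, by simp, ?_⟩
    refine ⟨𝒲₁ ∪ 𝒲₂, {F | F.card ≤ c ∧ ∀ W ∈ 𝒲₁ ∪ 𝒲₂, HitC F W}, hWc, fun F hF => hF.1,
      fun W hW F hF => hF.2 W hW, ?_, ?_⟩
    · rintro φ hφ (h | h)
      · obtain ⟨W, hW, hWφ⟩ := h4 φ hφ h
        exact ⟨W, Or.inl hW, hWφ⟩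
      · obtain ⟨W, hW, hWφ⟩ := k4 φ hφ h
        exact ⟨W, Or.inr hW, hWφ⟩
    · intro χ
      exact (hne ⟨χ⟩).elim
  obtain ⟨χ₀⟩ := hne
  have hq := query (V := I × Fin w) (K := K) ℓ c (𝒲₁ ∪ 𝒲₂) hWc hℓK P ∅ χ₀ (by simpa using hP)
  have hE : Ext (∅ : Finset (I × Fin w)) χ₀ = univ := by
    ext χ
    simp [mem_Ext]
  rw [hE, card_univ] at hq
  refine ⟨_, hq, ?_⟩
  refine ⟨𝒲₁ ∪ 𝒲₂, {F | F.card ≤ c ∧ ∀ W ∈ 𝒲₁ ∪ 𝒲₂, HitC F W}, hWc, fun F hF => hF.1,
    fun W hW F hF => hF.2 W hW, ?_, ?_⟩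
  · rintro φ hφ (h | h)
    · obtain ⟨W, hW, hWφ⟩ := h4 φ hφ h
      exact ⟨W, Or.inl hW, hWφ⟩
    · obtain ⟨W, hW, hWφ⟩ := k4 φ hφ h
      exact ⟨W, Or.inr hW, hWφ⟩
  · intro χ hχ hnot
    rw [not_or] at hnot
    rw [notMem_union] at hχ
    obtain ⟨F₁, hF₁, hχ₁⟩ := h5 χ hχ.1 hnot.1
    obtain ⟨F₂, hF₂, hχ₂⟩ := k5 χ hχ.1 hnot.2
    have hD := hχ.2
    simp only [mem_filter, mem_univ, true_and, not_and, not_forall, not_exists] at hD
    have hhit : ∀ F W, HitC F W → (∀ p ∈ F, χ p.1 = p.2) →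
        ¬ Set.InjOn χ ((W : Finset (I × Fin w)) : Set (I × Fin w)) := by
      rintro F W ⟨u, hu, v, hv, huv, κ, hF1, hF2⟩ hF hinj
      exact huv (hinj hu hv ((hF _ hF1).trans (hF _ hF2).symm))
    have hsat : ∀ W ∈ 𝒲₁ ∪ 𝒲₂, ¬ Set.InjOn χ (W : Set (I × Fin w)) := by
      rintro W (hW | hW)
      · exact hhit F₁ W (h3 W hW F₁ hF₁) hχ₁
      · exact hhit F₂ W (k3 W hW F₂ hF₂) hχ₂
    obtain ⟨F, hFc, hFχ, hF⟩ := hD hsat
    refine ⟨F, ⟨hFc, ?_⟩, hFχ⟩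
    intro W hW
    by_contra hcon
    exact hF W hW hcon

/-- Approximation of a whole straight-line program. -/
theorem approxC_slp (hw : 1 ≤ w) (hℓ : 2 ≤ ℓ) (hc : 2 ≤ c) (hab : ∀ e, a e ≠ b e) (P : ℕ)
    (hP : P * ℓ ≤ c) (hℓK : ℓ ≤ K) (g : ℕ → Set E → Prop) (s : ℕ) (hg : IsSLP g s) :
    ∃ (PE : Finset (I → Fin w)) (NE : Finset (I × Fin w → Fin K)),
      PE.card * w ^ (ℓ + 1) ≤ s * ((c ^ 2) ^ (ℓ + 1) * Fintype.card (I → Fin w)) ∧
      NE.card * (3 ^ K) ^ P ≤ s * ((3 ^ K - 1) ^ P * Fintype.card (I × Fin w → Fin K)) ∧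
      ∀ i < s, ApproxC w K c ℓ a b PE NE (g i) := by
  induction s with
  | zero => exact ⟨∅, ∅, by simp, by simp, by intro i hi; omega⟩
  | succ s ih =>
    obtain ⟨PE, NE, hPE, hNE, happ⟩ := ih (fun i hi => hg i (by omega))
    have havail : ∀ p, Avail g s p → ApproxC w K c ℓ a b PE NE p := by
      rintro p (hp | ⟨j, hj, hp⟩)
      · exact (approxC_leaf hℓ hc hab hp).mono (by simp) (by simp)
      · exact (happ j hj).congr hp
    rcases hg s (by omega) with hleaf | ⟨p, q, hp, hq, hgs⟩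
    · refine ⟨PE, NE, hPE.trans (Nat.mul_le_mul_right _ (by omega)),
        hNE.trans (Nat.mul_le_mul_right _ (by omega)), ?_⟩
      intro i hi
      rcases Nat.lt_succ_iff_lt_or_eq.1 hi with hi | rfl
      · exact happ i hi
      · exact (approxC_leaf hℓ hc hab hleaf).mono (by simp) (by simp)
    · rcases hgs with hgs | hgs
      · obtain ⟨D, hD, hap⟩ := approxC_and hw (by omega) (havail p hp) (havail q hq)
        refine ⟨PE ∪ D, NE, ?_, hNE.trans (Nat.mul_le_mul_right _ (by omega)), ?_⟩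
        · calc (PE ∪ D).card * w ^ (ℓ + 1) ≤ (PE.card + D.card) * w ^ (ℓ + 1) :=
                Nat.mul_le_mul_right _ (card_union_le _ _)
            _ = PE.card * w ^ (ℓ + 1) + D.card * w ^ (ℓ + 1) := by ring
            _ ≤ s * ((c ^ 2) ^ (ℓ + 1) * Fintype.card (I → Fin w)) +
                (c ^ 2) ^ (ℓ + 1) * Fintype.card (I → Fin w) := Nat.add_le_add hPE hD
            _ = (s + 1) * ((c ^ 2) ^ (ℓ + 1) * Fintype.card (I → Fin w)) := by ring
        · intro i hi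
          rcases Nat.lt_succ_iff_lt_or_eq.1 hi with hi | rfl
          · exact (happ i hi).mono subset_union_left (by simp)
          · exact hap.congr hgs
      · obtain ⟨D, hD, hap⟩ := approxC_or P hP hℓK (havail p hp) (havail q hq)
        refine ⟨PE, NE ∪ D, hPE.trans (Nat.mul_le_mul_right _ (by omega)), ?_, ?_⟩
        · calc (NE ∪ D).card * (3 ^ K) ^ P ≤ (NE.card + D.card) * (3 ^ K) ^ P :=
                Nat.mul_le_mul_right _ (card_union_le _ _)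
            _ = NE.card * (3 ^ K) ^ P + D.card * (3 ^ K) ^ P := by ring
            _ ≤ s * ((3 ^ K - 1) ^ P * Fintype.card (I × Fin w → Fin K)) +
                (3 ^ K - 1) ^ P * Fintype.card (I × Fin w → Fin K) := Nat.add_le_add hNE hD
            _ = (s + 1) * ((3 ^ K - 1) ^ P * Fintype.card (I × Fin w → Fin K)) := by ring
        · intro i hi
          rcases Nat.lt_succ_iff_lt_or_eq.1 hi with hi | rfl
          · exact (happ i hi).mono (by simp) subset_union_left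
          · exact hap.congr hgs

/-- The monotone lower bound with sharp exponent: a monotone straight-line program with
`s ≤ 2 ^ r` gates cannot separate the transversals (`K + 1` groups of `w` points) from the colourings
with `K` colours if `s * (c ^ 2) ^ (K + 1) < w ^ (K + 1)` with `c = K * 3 ^ K * (r + 2 K + 1)`. -/
theorem hardC (hK : 2 ≤ K) (hab : ∀ e, a e ≠ b e) (r s : ℕ)
    (hs : s ≤ 2 ^ r) (hw : 1 ≤ w)
    (hsw : s * ((3 ^ K * (r + 2 * K + 1) * K) ^ 2) ^ (K + 1) < w ^ (K + 1))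
    (gt : ℕ → Set E → Prop) (hg : IsSLP gt s)
    (O : Set (Set E → Prop)) (hO : ∀ o ∈ O, Avail gt s o)
    (hpos : ∀ φ : I → Fin w, ∃ o ∈ O, o (posT a b φ))
    (hneg : ∀ χ : I × Fin w → Fin K, ∀ o ∈ O, ¬ o (negC a b χ)) : False := by
  set L := r + 2 * K + 1 with hL
  set P := 3 ^ K * L with hP
  have hPpos : 1 ≤ P := by
    rw [hP]
    exact Nat.mul_pos (by positivity) (by omega)
  have hc2 : 2 ≤ P * K := by
    calc 2 = 1 * 2 := by norm_num
      _ ≤ P * K := Nat.mul_le_mul hPpos hK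
  obtain ⟨PE, NE, hPE, hNE, happ⟩ := approxC_slp (w := w) (K := K) (c := P * K) (ℓ := K)
    (a := a) (b := b) hw hK hc2 hab P le_rfl le_rfl gt s hg
  have hNΦ : 0 < Fintype.card (I → Fin w) := by
    rw [Fintype.card_fun, Fintype.card_fin]
    exact Nat.pow_pos hw
  have hNX : 0 < Fintype.card (I × Fin w → Fin K) := by
    rw [Fintype.card_fun, Fintype.card_fin]
    exact Nat.pow_pos (by omega)
  have hPElt : PE.card < Fintype.card (I → Fin w) := by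
    by_contra hcon
    rw [not_lt] at hcon
    have h1 : w ^ (K + 1) * Fintype.card (I → Fin w) ≤
        (s * ((P * K) ^ 2) ^ (K + 1)) * Fintype.card (I → Fin w) := by
      calc w ^ (K + 1) * Fintype.card (I → Fin w)
          = Fintype.card (I → Fin w) * w ^ (K + 1) := by ring
        _ ≤ PE.card * w ^ (K + 1) := Nat.mul_le_mul_right _ hcon
        _ ≤ _ := hPE
        _ = _ := by ring
    have h2 := Nat.le_of_mul_le_mul_right h1 hNΦ
    omega
  obtain ⟨φ, hφ⟩ : ∃ φ, φ ∉ PE := by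
    by_contra hcon
    push Not at hcon
    have : PE = univ := by
      ext φ; simp [hcon φ]
    rw [this, card_univ] at hPElt
    exact lt_irrefl _ hPElt
  obtain ⟨o, hoO, hoφ⟩ := hpos φ
  have hoapp : ApproxC w K (P * K) K a b PE NE o := by
    rcases hO o hoO with ho | ⟨j, hj, ho⟩
    · exact (approxC_leaf hK hc2 hab ho).mono (by simp) (by simp)
    · exact (happ j hj).congr ho
  obtain ⟨𝒲, 𝒞, h1, h2, h3, h4, h5⟩ := hoapp
  obtain ⟨W, hW, -⟩ := h4 φ hφ hoφ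
  have hχ₀ : Nonempty (I × Fin w → Fin K) := ⟨fun _ => ⟨0, by omega⟩⟩
  obtain ⟨χ₀⟩ := hχ₀
  have hrain := rainbow (V := I × Fin w) (K := K) ∅ χ₀ W (h1 W hW) (by simp)
  have hE : Ext (∅ : Finset (I × Fin w)) χ₀ = univ := by
    ext χ
    simp [mem_Ext]
  rw [hE, card_univ] at hrain
  have hsub : (univ.filter fun χ : I × Fin w → Fin K => Set.InjOn χ (W : Set (I × Fin w))) ⊆ NE := by
    intro χ hχ
    rw [mem_filter] at hχ
    by_contra hnot
    obtain ⟨F, hF, hFχ⟩ := h5 χ hnot (hneg χ o hoO)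
    obtain ⟨u, hu, v, hv, huv, κ, hF1, hF2⟩ := h3 W hW F hF
    exact huv (hχ.2 hu hv ((hFχ _ hF1).trans (hFχ _ hF2).symm))
  have hNEge : Fintype.card (I × Fin w → Fin K) ≤ 3 ^ K * NE.card :=
    hrain.trans (Nat.mul_le_mul_left _ (card_le_card hsub))
  have hQ : 1 ≤ 3 ^ K := by
    have : 0 < (3 : ℕ) ^ K := by positivity
    omega
  have htwo : (3 ^ K - 1) ^ P * 2 ^ L ≤ (3 ^ K) ^ P := by
    rw [hP, pow_mul (3 ^ K - 1) (3 ^ K) L, pow_mul (3 ^ K) (3 ^ K) L, ← mul_pow]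
    apply Nat.pow_le_pow_left
    have hb : ∀ n m : ℕ, n ^ (m + 1) + (m + 1) * n ^ m ≤ (n + 1) ^ (m + 1) := by
      intro n m
      induction m with
      | zero => simp
      | succ m ih =>
        calc n ^ (m + 2) + (m + 2) * n ^ (m + 1)
            ≤ (n + 1) * (n ^ (m + 1) + (m + 1) * n ^ m) := by
              have : (n + 1) * (n ^ (m + 1) + (m + 1) * n ^ m) =
                n ^ (m + 2) + (m + 2) * n ^ (m + 1) + (m + 1) * n ^ m := by ring
              omega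
          _ ≤ (n + 1) * (n + 1) ^ (m + 1) := Nat.mul_le_mul_left _ ih
          _ = (n + 1) ^ (m + 2) := by ring
    obtain ⟨q, hq⟩ : ∃ q, 3 ^ K = q + 1 := ⟨3 ^ K - 1, by omega⟩
    rw [hq]
    have h3 := hb q q
    have h4 : q ^ (q + 1) ≤ (q + 1) * q ^ q := by
      rw [pow_succ, mul_comm]
      exact Nat.mul_le_mul_right _ (Nat.le_succ q)
    simp only [Nat.add_sub_cancel]
    omega
  have h6 : NE.card * 2 ^ L ≤ s * Fintype.card (I × Fin w → Fin K) := by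
    have hpp : 0 < (3 ^ K) ^ P := by positivity
    have h7 : NE.card * 2 ^ L * (3 ^ K) ^ P ≤
        s * Fintype.card (I × Fin w → Fin K) * (3 ^ K) ^ P := by
      calc NE.card * 2 ^ L * (3 ^ K) ^ P = (NE.card * (3 ^ K) ^ P) * 2 ^ L := by ring
        _ ≤ (s * ((3 ^ K - 1) ^ P * Fintype.card (I × Fin w → Fin K))) * 2 ^ L :=
            Nat.mul_le_mul_right _ hNE
        _ = s * Fintype.card (I × Fin w → Fin K) * ((3 ^ K - 1) ^ P * 2 ^ L) := by ring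
        _ ≤ _ := Nat.mul_le_mul_left _ htwo
    exact Nat.le_of_mul_le_mul_right h7 hpp
  have h8 : 3 ^ K * s < 2 ^ L := by
    calc 3 ^ K * s ≤ 4 ^ K * 2 ^ r :=
          Nat.mul_le_mul (Nat.pow_le_pow_left (by norm_num) _) hs
      _ = 2 ^ (r + 2 * K) := by
          rw [show (4 : ℕ) = 2 ^ 2 by norm_num, ← pow_mul, ← pow_add]
          congr 1
          omega
      _ < 2 ^ L := Nat.pow_lt_pow_right (by norm_num) (by omega)
  have h9 : Fintype.card (I × Fin w → Fin K) * 2 ^ L ≤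
      Fintype.card (I × Fin w → Fin K) * (3 ^ K * s) := by
    calc Fintype.card (I × Fin w → Fin K) * 2 ^ L ≤ (3 ^ K * NE.card) * 2 ^ L :=
          Nat.mul_le_mul_right _ hNEge
      _ = 3 ^ K * (NE.card * 2 ^ L) := by ring
      _ ≤ 3 ^ K * (s * Fintype.card (I × Fin w → Fin K)) := Nat.mul_le_mul_left _ h6
      _ = _ := by ring
  have := Nat.le_of_mul_le_mul_left h9 hNX
  omega

end

end Pool.Agent.T9h16
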