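import Pool.Agent.T9h16.Closure

set_option autoImplicit false
set_option linter.unusedSectionVars false

namespace Pool.Agent.T9h16

open Finset
open scoped Classical

section
variable {I E : Type} [Fintype I] [DecidableEq I] (w K D ℓ : ℕ) (a b : E → I × Fin w)

/-- `h` has an approximator (a closed family), correct outside of the error sets. -/
def ApproxR (PE : Finset (I → Fin w)) (NE : Finset (I × Fin w → Fin K)) (h : Set E → Prop) : Prop :=
  ∃ 𝒜 : Set (Finset (I × Fin w)), ClosedF K D ℓ 𝒜 ∧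
    (∀ φ, φ ∉ PE → h (posT a b φ) → ∃ A ∈ 𝒜, ∀ v ∈ A, φ v.1 = v.2) ∧
    (∀ χ, χ ∉ NE → Acc 𝒜 χ → h (negC a b χ))

variable {w K D ℓ a b}

theorem ApproxR.mono {PE PE' : Finset (I → Fin w)} {NE NE' : Finset (I × Fin w → Fin K)}
    {h : Set E → Prop} (hP : PE ⊆ PE') (hN : NE ⊆ NE') (H : ApproxR w K D ℓ a b PE NE h) :
    ApproxR w K D ℓ a b PE' NE' h := by
  obtain ⟨𝒜, h1, h2, h3⟩ := H
  exact ⟨𝒜, h1, fun φ hφ => h2 φ (fun h => hφ (hP h)), fun χ hχ => h3 χ (fun h => hχ (hN h))⟩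

theorem ApproxR.congr {PE : Finset (I → Fin w)} {NE : Finset (I × Fin w → Fin K)}
    {h h' : Set E → Prop} (hh : ∀ z, h' z ↔ h z) (H : ApproxR w K D ℓ a b PE NE h) :
    ApproxR w K D ℓ a b PE NE h' := by
  obtain ⟨𝒜, h1, h2, h3⟩ := H
  exact ⟨𝒜, h1, fun φ hφ h => h2 φ hφ ((hh _).1 h), fun χ hχ h => (hh _).2 (h3 χ hχ h)⟩

/-- Approximation by the closure of a family of small sets. -/
theorem approxR_closure (𝒜 : Set (Finset (I × Fin w))) (hA : ∀ A ∈ 𝒜, A.card ≤ ℓ)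
    {PE : Finset (I → Fin w)} {NE : Finset (I × Fin w → Fin K)} {h : Set E → Prop}
    (h2 : ∀ φ, φ ∉ PE → h (posT a b φ) → ∃ A ∈ 𝒜, ∀ v ∈ A, φ v.1 = v.2)
    (h3 : ∀ χ, χ ∉ NE → Acc 𝒜 χ → h (negC a b χ)) :
    ∃ N : Finset (I × Fin w → Fin K),
      N.card * D ≤ UU (I × Fin w) ℓ * Fintype.card (I × Fin w → Fin K) ∧
      ApproxR w K D ℓ a b PE (NE ∪ N) h := by
  obtain ⟨ℬ, hsub, hcl, herr⟩ := exists_closure K D ℓ 𝒜 hA
  refine ⟨_, herr, ℬ, hcl, ?_, ?_⟩
  · intro φ hφ hh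
    obtain ⟨A, hA', hAφ⟩ := h2 φ hφ hh
    exact ⟨A, hsub hA', hAφ⟩
  · intro χ hχ hacc
    rw [notMem_union, mem_filter] at hχ
    apply h3 χ hχ.1
    by_contra hnot
    exact hχ.2 ⟨mem_univ _, hacc, hnot⟩

theorem approxR_leaf (hℓ : 2 ≤ ℓ) {PE : Finset (I → Fin w)} {NE : Finset (I × Fin w → Fin K)}
    (hab : ∀ e, a e ≠ b e) {h : Set E → Prop} (hh : Leaf h) :
    ∃ N : Finset (I × Fin w → Fin K),
      N.card * D ≤ UU (I × Fin w) ℓ * Fintype.card (I × Fin w → Fin K) ∧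
      ApproxR w K D ℓ a b PE (NE ∪ N) h := by
  rcases hh with ⟨e, he⟩ | ⟨t, ht⟩
  · apply approxR_closure {{a e, b e}}
    · rintro W rfl
      exact card_le_two.trans hℓ
    · intro φ _ hφ
      refine ⟨_, rfl, ?_⟩
      have := (he _).1 hφ
      intro v hv
      rw [mem_insert, mem_singleton] at hv
      rcases hv with rfl | rfl
      · exact this.1
      · exact this.2
    · rintro χ _ ⟨A, rfl, hinj⟩
      rw [he]
      intro heq
      exact hab e (hinj (by simp) (by simp) heq)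
  · by_cases t
    case pos htt =>
      apply approxR_closure {∅}
      · rintro W rfl; simp
      · intro φ _ _
        exact ⟨∅, rfl, by simp⟩
      · intro χ _ _
        exact (ht _).2 htt
    case neg htt =>
      apply approxR_closure ∅
      · intro W hW; exact hW.elim
      · intro φ _ hφ
        exact (htt ((ht _).1 hφ)).elim
      · rintro χ _ ⟨A, hA, -⟩
        exact hA.elim

theorem approxR_or {PE : Finset (I → Fin w)} {NE : Finset (I × Fin w → Fin K)}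
    {p q : Set E → Prop} (hp : ApproxR w K D ℓ a b PE NE p) (hq : ApproxR w K D ℓ a b PE NE q) :
    ∃ N : Finset (I × Fin w → Fin K),
      N.card * D ≤ UU (I × Fin w) ℓ * Fintype.card (I × Fin w → Fin K) ∧
      ApproxR w K D ℓ a b PE (NE ∪ N) (fun z => p z ∨ q z) := by
  obtain ⟨𝒜₁, h1, h2, h3⟩ := hp
  obtain ⟨𝒜₂, k1, k2, k3⟩ := hq
  apply approxR_closure (𝒜₁ ∪ 𝒜₂)
  · rintro W (hW | hW)
    · exact h1.1 W hW
    · exact k1.1 W hW
  · rintro φ hφ (h | h)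
    · obtain ⟨A, hA, hAφ⟩ := h2 φ hφ h
      exact ⟨A, Or.inl hA, hAφ⟩
    · obtain ⟨A, hA, hAφ⟩ := k2 φ hφ h
      exact ⟨A, Or.inr hA, hAφ⟩
  · rintro χ hχ ⟨A, hA | hA, hinj⟩
    · exact Or.inl (h3 χ hχ ⟨A, hA, hinj⟩)
    · exact Or.inr (k3 χ hχ ⟨A, hA, hinj⟩)

theorem approxR_and (hw : 1 ≤ w) (μ : ℕ)
    (hμ : ∀ 𝒜 : Set (Finset (I × Fin w)), ClosedF K D ℓ 𝒜 → (MinF 𝒜).card ≤ μ)
    {PE : Finset (I → Fin w)} {NE : Finset (I × Fin w → Fin K)} {p q : Set E → Prop}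
    (hp : ApproxR w K D ℓ a b PE NE p) (hq : ApproxR w K D ℓ a b PE NE q) :
    ∃ P : Finset (I → Fin w), P.card * w ^ (ℓ + 1) ≤ μ ^ 2 * Fintype.card (I → Fin w) ∧
      ApproxR w K D ℓ a b (PE ∪ P) NE (fun z => p z ∧ q z) := by
  obtain ⟨𝒜₁, h1, h2, h3⟩ := hp
  obtain ⟨𝒜₂, k1, k2, k3⟩ := hq
  set P := ((MinF 𝒜₁ ×ˢ MinF 𝒜₂).filter fun q => ℓ + 1 ≤ (q.1 ∪ q.2).card).biUnion
    fun q => univ.filter fun φ : I → Fin w => ∀ v ∈ q.1 ∪ q.2, φ v.1 = v.2 with hP
  refine ⟨P, ?_, 𝒜₁ ∩ 𝒜₂, h1.inter k1, ?_, ?_⟩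
  · calc P.card * w ^ (ℓ + 1)
        ≤ (∑ q ∈ (MinF 𝒜₁ ×ˢ MinF 𝒜₂).filter fun q => ℓ + 1 ≤ (q.1 ∪ q.2).card,
          (univ.filter fun φ : I → Fin w => ∀ v ∈ q.1 ∪ q.2, φ v.1 = v.2).card) *
            w ^ (ℓ + 1) := Nat.mul_le_mul_right _ card_biUnion_le
      _ = ∑ q ∈ (MinF 𝒜₁ ×ˢ MinF 𝒜₂).filter fun q => ℓ + 1 ≤ (q.1 ∪ q.2).card,
          (univ.filter fun φ : I → Fin w => ∀ v ∈ q.1 ∪ q.2, φ v.1 = v.2).card *
            w ^ (ℓ + 1) := by rw [sum_mul]
      _ ≤ ∑ q ∈ (MinF 𝒜₁ ×ˢ MinF 𝒜₂).filter fun q => ℓ + 1 ≤ (q.1 ∪ q.2).card,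
          Fintype.card (I → Fin w) := by
          apply sum_le_sum
          intro q hq
          rw [mem_filter] at hq
          have h := card_prescribed w (q.1 ∪ q.2)
          refine le_trans ?_ h
          refine Nat.mul_le_mul (le_of_eq ?_) (Nat.pow_le_pow_right hw hq.2)
          apply filter_card_congr
          intro φ _
          exact Iff.rfl
      _ ≤ μ ^ 2 * Fintype.card (I → Fin w) := by
          rw [sum_const, smul_eq_mul]
          apply Nat.mul_le_mul_right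
          refine (card_filter_le _ _).trans ?_
          rw [card_product, sq]
          exact Nat.mul_le_mul (hμ _ h1) (hμ _ k1)
  · rintro φ hφ ⟨hpz, hqz⟩
    rw [notMem_union] at hφ
    obtain ⟨A₁, hA₁, hφ₁⟩ := h2 φ hφ.1 hpz
    obtain ⟨A₂, hA₂, hφ₂⟩ := k2 φ hφ.1 hqz
    obtain ⟨B₁, hB₁, hBA₁⟩ := exists_min hA₁
    obtain ⟨B₂, hB₂, hBA₂⟩ := exists_min hA₂
    have hBφ : ∀ v ∈ B₁ ∪ B₂, φ v.1 = v.2 := by
      intro v hv
      rcases mem_union.1 hv with h | h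
      · exact hφ₁ v (hBA₁ h)
      · exact hφ₂ v (hBA₂ h)
    have hm₁ : B₁ ∈ 𝒜₁ := by
      rw [MinF, mem_filter] at hB₁
      exact hB₁.2.1
    have hm₂ : B₂ ∈ 𝒜₂ := by
      rw [MinF, mem_filter] at hB₂
      exact hB₂.2.1
    by_cases hcard : ℓ + 1 ≤ (B₁ ∪ B₂).card
    · exfalso
      apply hφ.2
      rw [hP, mem_biUnion]
      refine ⟨(B₁, B₂), ?_, ?_⟩
      · rw [mem_filter, mem_product]
        exact ⟨⟨hB₁, hB₂⟩, hcard⟩
      · rw [mem_filter]
        exact ⟨mem_univ _, hBφ⟩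
    · have hle : (B₁ ∪ B₂).card ≤ ℓ := by omega
      exact ⟨B₁ ∪ B₂, ⟨h1.up hm₁ subset_union_left hle, k1.up hm₂ subset_union_right hle⟩, hBφ⟩
  · rintro χ hχ ⟨A, hA, hinj⟩
    exact ⟨h3 χ hχ ⟨A, hA.1, hinj⟩, k3 χ hχ ⟨A, hA.2, hinj⟩⟩

/-- Approximation of a whole straight-line program. -/
theorem approxR_slp (hw : 1 ≤ w) (hℓ : 2 ≤ ℓ) (hab : ∀ e, a e ≠ b e) (μ : ℕ)
    (hμ : ∀ 𝒜 : Set (Finset (I × Fin w)), ClosedF K D ℓ 𝒜 → (MinF 𝒜).card ≤ μ)
    (g : ℕ → Set E → Prop) (s : ℕ) (hg : IsSLP g s) :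
    ∃ (PE : Finset (I → Fin w)) (NE : Finset (I × Fin w → Fin K)),
      PE.card * w ^ (ℓ + 1) ≤ s * (μ ^ 2 * Fintype.card (I → Fin w)) ∧
      NE.card * D ≤ 3 * s * (UU (I × Fin w) ℓ * Fintype.card (I × Fin w → Fin K)) ∧
      ∀ i < s, ApproxR w K D ℓ a b PE NE (g i) := by
  induction s with
  | zero => exact ⟨∅, ∅, by simp, by simp, by intro i hi; omega⟩
  | succ s ih =>
    obtain ⟨PE, NE, hPE, hNE, happ⟩ := ih (fun i hi => hg i (by omega))
    set X := UU (I × Fin w) ℓ * Fintype.card (I × Fin w → Fin K) with hX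
    have havail : ∀ p, Avail g s p → ∀ NE' : Finset (I × Fin w → Fin K),
        ∃ N : Finset (I × Fin w → Fin K), N.card * D ≤ X ∧
          ApproxR w K D ℓ a b PE (NE ∪ NE' ∪ N) p := by
      rintro p (hp | ⟨j, hj, hp⟩) NE'
      · exact approxR_leaf hℓ hab hp
      · refine ⟨∅, by simp, ?_⟩
        rw [union_empty]
        exact ((happ j hj).mono subset_rfl subset_union_left).congr hp
    have hP1 : PE.card * w ^ (ℓ + 1) ≤ (s + 1) * (μ ^ 2 * Fintype.card (I → Fin w)) :=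
      hPE.trans (Nat.mul_le_mul_right _ (by omega))
    rcases hg s (by omega) with hleaf | ⟨p, q, hp, hq, hgs⟩
    · obtain ⟨N, hN, hap⟩ := approxR_leaf (w := w) (K := K) (D := D) (ℓ := ℓ) (a := a) (b := b)
        (PE := PE) (NE := NE) hℓ hab hleaf
      refine ⟨PE, NE ∪ N, hP1, ?_, ?_⟩
      · calc (NE ∪ N).card * D ≤ (NE.card + N.card) * D :=
              Nat.mul_le_mul_right _ (card_union_le _ _)
          _ = NE.card * D + N.card * D := by ring
          _ ≤ 3 * s * X + X := Nat.add_le_add hNE hN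
          _ ≤ 3 * (s + 1) * X := by nlinarith
      · intro i hi
        rcases Nat.lt_succ_iff_lt_or_eq.1 hi with hi | rfl
        · exact (happ i hi).mono subset_rfl subset_union_left
        · exact hap
    · obtain ⟨N₁, hN₁, hap₁⟩ := havail p hp ∅
      obtain ⟨N₂, hN₂, hap₂⟩ := havail q hq N₁
      have hap₁' : ApproxR w K D ℓ a b PE (NE ∪ N₁ ∪ N₂) p := by
        refine hap₁.mono subset_rfl ?_
        rw [union_empty]
        exact subset_union_left
      have hNN : ∀ N₃ : Finset (I × Fin w → Fin K), N₃.card * D ≤ X →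
          (NE ∪ N₁ ∪ N₂ ∪ N₃).card * D ≤ 3 * (s + 1) * X := by
        intro N₃ hN₃
        calc (NE ∪ N₁ ∪ N₂ ∪ N₃).card * D
            ≤ (NE.card + N₁.card + N₂.card + N₃.card) * D := by
              apply Nat.mul_le_mul_right
              have e1 := card_union_le NE N₁
              have e2 := card_union_le (NE ∪ N₁) N₂
              have e3 := card_union_le (NE ∪ N₁ ∪ N₂) N₃
              omega
          _ = NE.card * D + N₁.card * D + N₂.card * D + N₃.card * D := by ring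
          _ ≤ 3 * s * X + X + X + X := by omega
          _ = 3 * (s + 1) * X := by ring
      have hsubN : NE ⊆ NE ∪ N₁ ∪ N₂ := subset_union_left.trans subset_union_left
      rcases hgs with hgs | hgs
      · obtain ⟨P, hP, hap⟩ := approxR_and hw μ hμ hap₁' hap₂
        refine ⟨PE ∪ P, NE ∪ N₁ ∪ N₂, ?_, ?_, ?_⟩
        · calc (PE ∪ P).card * w ^ (ℓ + 1) ≤ (PE.card + P.card) * w ^ (ℓ + 1) :=
                Nat.mul_le_mul_right _ (card_union_le _ _)
            _ = PE.card * w ^ (ℓ + 1) + P.card * w ^ (ℓ + 1) := by ring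
            _ ≤ s * (μ ^ 2 * Fintype.card (I → Fin w)) + μ ^ 2 * Fintype.card (I → Fin w) :=
                Nat.add_le_add hPE hP
            _ = (s + 1) * (μ ^ 2 * Fintype.card (I → Fin w)) := by ring
        · have := hNN ∅ (by simp)
          rwa [union_empty] at this
        · intro i hi
          rcases Nat.lt_succ_iff_lt_or_eq.1 hi with hi | rfl
          · exact (happ i hi).mono subset_union_left hsubN
          · exact hap.congr hgs
      · obtain ⟨N₃, hN₃, hap⟩ := approxR_or hap₁' hap₂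
        refine ⟨PE, NE ∪ N₁ ∪ N₂ ∪ N₃, hP1, hNN N₃ hN₃, ?_⟩
        intro i hi
        rcases Nat.lt_succ_iff_lt_or_eq.1 hi with hi | rfl
        · exact (happ i hi).mono subset_rfl (hsubN.trans subset_union_left)
        · exact hap.congr hgs

/-- The monotone lower bound with sharp exponent, polynomial loss: a monotone straight-line program
with `s` gates cannot separate the transversals (groups of `w` points) from the colourings with `K`
colours if `s * (κ ^ 2) ^ (K + 1) < w ^ (K + 1)`, where `κ = 8 R ^ 2 K ^ 2` and `2 ^ R` is larger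
than `3 ^ K * (3 s + 1)` times the number of sets of at most `K` points. -/
theorem hardR (hK : 2 ≤ K) (hab : ∀ e, a e ≠ b e) (R s : ℕ) (hR : 1 ≤ R) (hw : 1 ≤ w)
    (hRs : 3 ^ K * ((3 * s + 1) * UU (I × Fin w) K) < 2 ^ R)
    (hsw : s * ((8 * R ^ 2 * K ^ 2) ^ 2) ^ (K + 1) < w ^ (K + 1))
    (gt : ℕ → Set E → Prop) (hg : IsSLP gt s)
    (O : Set (Set E → Prop)) (hO : ∀ o ∈ O, Avail gt s o)
    (hpos : ∀ φ : I → Fin w, ∃ o ∈ O, o (posT a b φ))
    (hneg : ∀ χ : I × Fin w → Fin K, ∀ o ∈ O, ¬ o (negC a b χ)) : False := by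
  obtain ⟨PE, NE, hPE, hNE, happ⟩ := approxR_slp (w := w) (K := K) (D := 2 ^ R) (ℓ := K)
    (a := a) (b := b) hw hK hab ((8 * R ^ 2 * K ^ 2) ^ (K + 1))
    (fun 𝒜 h𝒜 => card_MinF_le R K hR (by omega) le_rfl h𝒜) gt s hg
  have hNΦ : 0 < Fintype.card (I → Fin w) := by
    rw [Fintype.card_fun, Fintype.card_fin]
    exact Nat.pow_pos hw
  have hNX : 0 < Fintype.card (I × Fin w → Fin K) := by
    rw [Fintype.card_fun, Fintype.card_fin]
    exact Nat.pow_pos (by omega)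
  have hPElt : PE.card < Fintype.card (I → Fin w) := by
    by_contra hcon
    rw [not_lt] at hcon
    have h1 : w ^ (K + 1) * Fintype.card (I → Fin w) ≤
        (s * ((8 * R ^ 2 * K ^ 2) ^ 2) ^ (K + 1)) * Fintype.card (I → Fin w) := by
      calc w ^ (K + 1) * Fintype.card (I → Fin w)
          = Fintype.card (I → Fin w) * w ^ (K + 1) := by ring
        _ ≤ PE.card * w ^ (K + 1) := Nat.mul_le_mul_right _ hcon
        _ ≤ _ := hPE
        _ = _ := by rw [pow_right_comm (8 * R ^ 2 * K ^ 2) (K + 1) 2]; ring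
    have h2 := Nat.le_of_mul_le_mul_right h1 hNΦ
    omega
  obtain ⟨φ, hφ⟩ : ∃ φ, φ ∉ PE := by
    by_contra hcon
    push Not at hcon
    have : PE = univ := by
      ext φ; simp [hcon φ]
    rw [this, card_univ] at hPElt
    exact lt_irrefl _ hPElt
  obtain ⟨o, hoO, hoφ⟩ := hpos φ
  obtain ⟨N, hN, hoapp⟩ : ∃ N : Finset (I × Fin w → Fin K),
      N.card * 2 ^ R ≤ UU (I × Fin w) K * Fintype.card (I × Fin w → Fin K) ∧
      ApproxR w K (2 ^ R) K a b PE (NE ∪ N) o := by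
    rcases hO o hoO with ho | ⟨j, hj, ho⟩
    · exact approxR_leaf hK hab ho
    · refine ⟨∅, by simp, ?_⟩
      rw [union_empty]
      exact (happ j hj).congr ho
  obtain ⟨𝒜, h1, h2, h3⟩ := hoapp
  obtain ⟨W, hW, -⟩ := h2 φ hφ hoφ
  obtain ⟨χ₀⟩ : Nonempty (I × Fin w → Fin K) := ⟨fun _ => ⟨0, by omega⟩⟩
  have hrain := rainbow (V := I × Fin w) (K := K) ∅ χ₀ W (h1.1 W hW) (by simp)
  have hE : Ext (∅ : Finset (I × Fin w)) χ₀ = univ := by
    ext χ
    simp [mem_Ext]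
  rw [hE, card_univ] at hrain
  have hsub : (univ.filter fun χ : I × Fin w → Fin K => Set.InjOn χ (W : Set (I × Fin w))) ⊆
      NE ∪ N := by
    intro χ hχ
    rw [mem_filter] at hχ
    by_contra hnot
    exact hneg χ o hoO (h3 χ hnot ⟨W, hW, hχ.2⟩)
  have hNEge : Fintype.card (I × Fin w → Fin K) ≤ 3 ^ K * (NE ∪ N).card :=
    hrain.trans (Nat.mul_le_mul_left _ (card_le_card hsub))
  have h6 : (NE ∪ N).card * 2 ^ R ≤
      ((3 * s + 1) * UU (I × Fin w) K) * Fintype.card (I × Fin w → Fin K) := by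
    calc (NE ∪ N).card * 2 ^ R ≤ (NE.card + N.card) * 2 ^ R :=
          Nat.mul_le_mul_right _ (card_union_le _ _)
      _ = NE.card * 2 ^ R + N.card * 2 ^ R := by ring
      _ ≤ 3 * s * (UU (I × Fin w) K * Fintype.card (I × Fin w → Fin K)) +
          UU (I × Fin w) K * Fintype.card (I × Fin w → Fin K) := Nat.add_le_add hNE hN
      _ = _ := by ring
  have h9 : Fintype.card (I × Fin w → Fin K) * 2 ^ R ≤
      Fintype.card (I × Fin w → Fin K) * (3 ^ K * ((3 * s + 1) * UU (I × Fin w) K)) := by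
    calc Fintype.card (I × Fin w → Fin K) * 2 ^ R ≤ (3 ^ K * (NE ∪ N).card) * 2 ^ R :=
          Nat.mul_le_mul_right _ hNEge
      _ = 3 ^ K * ((NE ∪ N).card * 2 ^ R) := by ring
      _ ≤ 3 ^ K * (((3 * s + 1) * UU (I × Fin w) K) * Fintype.card (I × Fin w → Fin K)) :=
          Nat.mul_le_mul_left _ h6
      _ = _ := by ring
  have := Nat.le_of_mul_le_mul_left h9 hNX
  omega

end

end Pool.Agent.T9h16
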