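import Pool.Agent.T9h16.Hard

set_option autoImplicit false

namespace Pool.Agent.T9h16

theorem pow_eight_le (m : ℕ) : m ^ 8 ≤ 2 ^ 17 * 2 ^ m := by
  by_cases hm : m ≤ 12
  · interval_cases m <;> norm_num
  · have h12 : 12 ≤ m := by omega
    clear hm
    induction m, h12 using Nat.le_induction with
    | base => norm_num
    | succ m hm ih =>
      have h1 : (m + 1) * 12 ≤ 13 * m := by omega
      have h2 : ((m + 1) * 12) ^ 8 ≤ (13 * m) ^ 8 := Nat.pow_le_pow_left h1 8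
      rw [mul_pow, mul_pow] at h2
      have h3 : (13 : ℕ) ^ 8 ≤ 2 * 12 ^ 8 := by norm_num
      have h4 : (m + 1) ^ 8 * 12 ^ 8 ≤ (2 * m ^ 8) * 12 ^ 8 := by
        calc (m + 1) ^ 8 * 12 ^ 8 ≤ 13 ^ 8 * m ^ 8 := h2
          _ ≤ (2 * 12 ^ 8) * m ^ 8 := Nat.mul_le_mul_right _ h3
          _ = (2 * m ^ 8) * 12 ^ 8 := by ring
      have h5 : (m + 1) ^ 8 ≤ 2 * m ^ 8 := Nat.le_of_mul_le_mul_right h4 (by norm_num)
      calc (m + 1) ^ 8 ≤ 2 * m ^ 8 := h5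
        _ ≤ 2 * (2 ^ 17 * 2 ^ m) := Nat.mul_le_mul_left _ ih
        _ = 2 ^ 17 * 2 ^ (m + 1) := by ring

theorem LL_pow_four (r : ℕ) (hr : 1 ≤ r) : LL r ^ 4 ≤ 2 ^ 11 * r := by
  have h1 : 2 ^ LL r ≤ 16 * r ^ 2 := by
    have hr2 : 1 < 4 * r ^ 2 := by nlinarith
    have := Nat.pow_pred_clog_lt_self (b := 2) (by norm_num) hr2
    have hc : 0 < Nat.clog 2 (4 * r ^ 2) := Nat.clog_pos (by norm_num) hr2
    have hLL : LL r = (Nat.clog 2 (4 * r ^ 2)).pred + 2 := by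
      rw [LL, Nat.pred_eq_sub_one]
      omega
    rw [hLL, pow_add]
    omega
  have h2 := pow_eight_le (LL r)
  have h3 : (LL r ^ 4) ^ 2 ≤ (2 ^ 11 * r) ^ 2 := by
    calc (LL r ^ 4) ^ 2 = LL r ^ 8 := by ring
      _ ≤ 2 ^ 17 * 2 ^ LL r := h2
      _ ≤ 2 ^ 17 * (16 * r ^ 2) := Nat.mul_le_mul_left _ h1
      _ ≤ (2 ^ 11 * r) ^ 2 := by
        rw [mul_pow]
        have : (2:ℕ) ^ 17 * (16 * r ^ 2) = 2 ^ 21 * r ^ 2 := by ring
        rw [this]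
        apply Nat.mul_le_mul_right
        norm_num
  exact (Nat.pow_le_pow_iff_left (by norm_num)).1 h3

theorem LL_sq (r : ℕ) (hr : 1 ≤ r) : LL r ^ 2 ≤ 2 ^ 11 * r := by
  refine le_trans ?_ (LL_pow_four r hr)
  exact Nat.pow_le_pow_right (one_le_LL r) (by norm_num)

/-- Numbers: from the counting bounds for all admissible parameters to the final inequality. -/
theorem arith_nat (n s P r : ℕ) (hP : 1 ≤ P) (hr : 2 ≤ r)
    (H : 2 * GG r ≤ Nat.sqrt n + 1 → ∀ p, 2 * (p * (GG r * (2 * r))) + (Nat.sqrt n + 1 - 2 * GG r) ≤ n →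
      p * p + 1 ≤ P) : n ^ 2 ≤ 2 ^ 23 * P * r ^ 9 := by
  have hr9 : 1 ≤ r ^ 9 := Nat.one_le_pow _ _ (by omega)
  by_cases hA : 2 * GG r ≤ Nat.sqrt n + 1
  · have hr2 : 4 ≤ r ^ 2 := by nlinarith
    have hGG : 16 ≤ GG r := by
      rw [GG]
      calc 16 = 4 * 4 * 1 := rfl
        _ ≤ 4 * r ^ 2 * LL r := Nat.mul_le_mul (Nat.mul_le_mul_left _ hr2) (one_le_LL r)
    have hsq : 31 ≤ Nat.sqrt n := by omega
    have hn : Nat.sqrt n * Nat.sqrt n ≤ n := Nat.sqrt_le n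
    have hn2 : 2 * (Nat.sqrt n + 1) ≤ n := by nlinarith
    set a := GG r * (2 * r) with ha
    have hapos : 0 < a := by rw [ha]; positivity
    set q := n - (Nat.sqrt n + 1 - 2 * GG r) with hq
    have hqn : n ≤ 2 * q := by omega
    set p := q / (2 * a) with hp
    have hpq : 2 * a * p ≤ q := Nat.mul_div_le q (2 * a)
    have hpq' : q < 2 * a * (p + 1) := Nat.lt_mul_div_succ q (by omega)
    have h1 := H hA p (by
      have : 2 * (p * a) = 2 * a * p := by ring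
      rw [this]
      omega)
    have h2 : n < 4 * a * (p + 1) := by
      calc n ≤ 2 * q := hqn
        _ < 2 * (2 * a * (p + 1)) := by omega
        _ = 4 * a * (p + 1) := by ring
    have h3 : (p + 1) ^ 2 ≤ 2 * (p * p + 1) := by nlinarith [sq_nonneg (p - 1 : ℤ), Nat.zero_le p]
    have h4 : a ^ 2 ≤ 2 ^ 17 * r ^ 7 := by
      have h5 : a ^ 2 = 64 * r ^ 6 * LL r ^ 2 := by rw [ha, GG]; ring
      rw [h5]
      calc 64 * r ^ 6 * LL r ^ 2 ≤ 64 * r ^ 6 * (2 ^ 11 * r) :=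
            Nat.mul_le_mul_left _ (LL_sq r (by omega))
        _ = 2 ^ 17 * r ^ 7 := by ring
    calc n ^ 2 ≤ (4 * a * (p + 1)) ^ 2 := Nat.pow_le_pow_left h2.le 2
      _ = 16 * a ^ 2 * (p + 1) ^ 2 := by ring
      _ ≤ 16 * (2 ^ 17 * r ^ 7) * (2 * (p * p + 1)) :=
          Nat.mul_le_mul (Nat.mul_le_mul_left _ h4) h3
      _ ≤ 16 * (2 ^ 17 * r ^ 9) * (2 * P) := by
          apply Nat.mul_le_mul
          · apply Nat.mul_le_mul_left
            apply Nat.mul_le_mul_left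
            exact Nat.pow_le_pow_right (by omega) (by norm_num)
          · exact Nat.mul_le_mul_left _ h1
      _ = 2 ^ 22 * P * r ^ 9 := by ring
      _ ≤ 2 ^ 23 * P * r ^ 9 := by
          apply Nat.mul_le_mul_right
          apply Nat.mul_le_mul_right
          norm_num
  · have h1 : Nat.sqrt n + 1 ≤ 2 * GG r := by omega
    have h2 : n < (2 * GG r) ^ 2 := by
      calc n < (Nat.sqrt n + 1) * (Nat.sqrt n + 1) := Nat.lt_succ_sqrt n
        _ ≤ (2 * GG r) * (2 * GG r) := Nat.mul_le_mul h1 h1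
        _ = (2 * GG r) ^ 2 := by ring
    calc n ^ 2 ≤ ((2 * GG r) ^ 2) ^ 2 := Nat.pow_le_pow_left h2.le 2
      _ = 2 ^ 12 * r ^ 8 * LL r ^ 4 := by rw [GG]; ring
      _ ≤ 2 ^ 12 * r ^ 8 * (2 ^ 11 * r) := Nat.mul_le_mul_left _ (LL_pow_four r (by omega))
      _ = 2 ^ 23 * 1 * r ^ 9 := by ring
      _ ≤ 2 ^ 23 * P * r ^ 9 := Nat.mul_le_mul_right _ (Nat.mul_le_mul_left _ hP)

/-- The exponent attached to a size. -/
theorem exists_exponent (s : ℕ) (hs : 1 ≤ s) :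
    ∃ r : ℕ, 2 ≤ r ∧ s ≤ 2 ^ r ∧ (r : ℝ) ≤ 3 * Real.logb 2 (s + 1) := by
  have hs1 : (2 : ℝ) ≤ (s : ℝ) + 1 := by
    have : (1 : ℝ) ≤ s := by exact_mod_cast hs
    linarith
  have hL : 1 ≤ Real.logb 2 ((s : ℝ) + 1) := by
    rw [Real.le_logb_iff_rpow_le (by norm_num) (by linarith)]
    simpa using hs1
  refine ⟨⌈Real.logb 2 ((s : ℝ) + 1)⌉₊ + 1, ?_, ?_, ?_⟩
  · have : 0 < ⌈Real.logb 2 ((s : ℝ) + 1)⌉₊ := Nat.ceil_pos.2 (by linarith)
    omega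
  · have h1 : (s : ℝ) + 1 ≤ (2 : ℝ) ^ ((⌈Real.logb 2 ((s : ℝ) + 1)⌉₊ : ℕ) : ℝ) := by
      rw [← Real.logb_le_iff_le_rpow (by norm_num) (by linarith)]
      exact Nat.le_ceil _
    rw [Real.rpow_natCast] at h1
    have h2 : (s : ℝ) ≤ ((2 ^ (⌈Real.logb 2 ((s : ℝ) + 1)⌉₊ + 1) : ℕ) : ℝ) := by
      push_cast
      rw [pow_succ]
      have : (0 : ℝ) < 2 ^ ⌈Real.logb 2 ((s : ℝ) + 1)⌉₊ := by positivity
      linarith
    exact_mod_cast h2
  · push_cast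
    have := Nat.ceil_lt_add_one (a := Real.logb 2 ((s : ℝ) + 1)) (by linarith)
    linarith

theorem arith (n s P : ℕ) (hs : 1 ≤ s) (hP : 1 ≤ P)
    (H : ∀ r, 2 ≤ r → s ≤ 2 ^ r → 2 * GG r ≤ Nat.sqrt n + 1 →
      ∀ p, 2 * (p * (GG r * (2 * r))) + (Nat.sqrt n + 1 - 2 * GG r) ≤ n → p * p + 1 ≤ P) :
    (n : ℝ) ^ 2 ≤ 2 ^ 38 * P * Real.logb 2 (s + 1) ^ 9 := by
  obtain ⟨r, hr, hsr, hrL⟩ := exists_exponent s hs
  have h1 := arith_nat n s P r hP hr (fun h p hp => H r hr hsr h p hp)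
  have h2 : (n : ℝ) ^ 2 ≤ 2 ^ 23 * P * (r : ℝ) ^ 9 := by exact_mod_cast h1
  have h3 : (r : ℝ) ^ 9 ≤ (3 * Real.logb 2 (s + 1)) ^ 9 :=
    pow_le_pow_left₀ (by positivity) hrL 9
  have hL0 : 0 ≤ Real.logb 2 ((s : ℝ) + 1) ^ 9 := by
    have : 0 ≤ Real.logb 2 ((s : ℝ) + 1) := by
      have : (0 : ℝ) ≤ r := by positivity
      linarith
    positivity
  calc (n : ℝ) ^ 2 ≤ 2 ^ 23 * P * (r : ℝ) ^ 9 := h2
    _ ≤ 2 ^ 23 * P * (3 * Real.logb 2 (s + 1)) ^ 9 := by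
        apply mul_le_mul_of_nonneg_left h3
        positivity
    _ = (2 ^ 23 * 19683) * P * Real.logb 2 (s + 1) ^ 9 := by ring
    _ ≤ 2 ^ 38 * P * Real.logb 2 (s + 1) ^ 9 := by
        apply mul_le_mul_of_nonneg_right _ hL0
        apply mul_le_mul_of_nonneg_right _ (by positivity)
        norm_num

/-- Cliques with more than `√n` vertices. -/
theorem sqrt_lt_iff (n m : ℕ) : Real.sqrt (n : ℝ) < (m : ℝ) ↔ Nat.sqrt n + 1 ≤ m := by
  rw [Real.sqrt_lt (by positivity) (by positivity), Nat.succ_le_iff, Nat.sqrt_lt']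
  exact_mod_cast Iff.rfl

end Pool.Agent.T9h16
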