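import Mathlib

set_option autoImplicit false

namespace Pool.Agent.T9h16

open Finset
open scoped Classical

/-- Branching bound.  `S ω` is a random set, spread with parameter `κ`.  Every requirement
`r ∈ R` is a family of at most `B` options, and it is met by a set containing one of the options.
The outcomes `ω` for which `S ω` meets all requirements although no subset of `S ω` with at most `ℓ`
elements does are at most a fraction `(B / κ) ^ (ℓ + 1)` of all outcomes. -/
theorem branching {Ω X : Type} [Fintype Ω] (S : Ω → X → Prop) (κ B ℓ : ℕ) (hκ : 1 ≤ κ)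
    (hB : 1 ≤ B)
    (spread : ∀ Y : Finset X,
      (univ.filter fun ω => ∀ x ∈ Y, S ω x).card * κ ^ Y.card ≤ Fintype.card Ω)
    (R : Set (Finset (Finset X))) (hR : ∀ r ∈ R, r.card ≤ B) :
    (univ.filter fun ω => (∀ r ∈ R, ∃ O ∈ r, ∀ x ∈ O, S ω x) ∧
        ∀ Y : Finset X, Y.card ≤ ℓ → (∀ x ∈ Y, S ω x) → ∃ r ∈ R, ∀ O ∈ r, ¬ O ⊆ Y).card
        * κ ^ (ℓ + 1) ≤ B ^ (ℓ + 1) * Fintype.card Ω := by
  set bad : Ω → Prop := fun ω => (∀ r ∈ R, ∃ O ∈ r, ∀ x ∈ O, S ω x) ∧
        ∀ Y : Finset X, Y.card ≤ ℓ → (∀ x ∈ Y, S ω x) → ∃ r ∈ R, ∀ O ∈ r, ¬ O ⊆ Y with hbad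
  have base : ∀ Y : Finset X, ℓ + 1 ≤ Y.card →
      (univ.filter fun ω => bad ω ∧ ∀ x ∈ Y, S ω x).card * κ ^ (ℓ + 1) ≤ Fintype.card Ω := by
    intro Y hY
    calc (univ.filter fun ω => bad ω ∧ ∀ x ∈ Y, S ω x).card * κ ^ (ℓ + 1)
        ≤ (univ.filter fun ω => ∀ x ∈ Y, S ω x).card * κ ^ Y.card := by
          apply Nat.mul_le_mul
          · apply card_le_card
            intro ω hω
            simp only [mem_filter, mem_univ, true_and] at hω ⊢
            exact hω.2
          · exact Nat.pow_le_pow_right hκ hY
      _ ≤ Fintype.card Ω := spread Y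
  have key : ∀ j : ℕ, ∀ Y : Finset X, ℓ + 1 ≤ Y.card + j →
      (univ.filter fun ω => bad ω ∧ ∀ x ∈ Y, S ω x).card * κ ^ (ℓ + 1)
        ≤ B ^ j * Fintype.card Ω := by
    intro j
    induction j with
    | zero =>
      intro Y hY
      simpa using base Y (by simpa using hY)
    | succ j ih =>
      intro Y hY
      by_cases hY' : ℓ + 1 ≤ Y.card
      · refine (base Y hY').trans ?_
        exact Nat.le_mul_of_pos_left _ (Nat.pow_pos hB)
      · by_cases h : ∃ r ∈ R, ∀ O ∈ r, ¬ O ⊆ Y
        · obtain ⟨r, hrR, hr⟩ := h
          have hsub : (univ.filter fun ω => bad ω ∧ ∀ x ∈ Y, S ω x) ⊆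
              r.biUnion (fun O => univ.filter fun ω => bad ω ∧ ∀ x ∈ Y ∪ O, S ω x) := by
            intro ω hω
            simp only [mem_filter, mem_univ, true_and] at hω
            obtain ⟨O, hO, hOS⟩ := hω.1.1 r hrR
            simp only [mem_biUnion, mem_filter, mem_univ, true_and]
            refine ⟨O, hO, hω.1, ?_⟩
            intro x hx
            rcases mem_union.1 hx with h1 | h1
            · exact hω.2 x h1
            · exact hOS x h1
          calc (univ.filter fun ω => bad ω ∧ ∀ x ∈ Y, S ω x).card * κ ^ (ℓ + 1)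
              ≤ (∑ O ∈ r, (univ.filter fun ω => bad ω ∧ ∀ x ∈ Y ∪ O, S ω x).card)
                  * κ ^ (ℓ + 1) := by
                apply Nat.mul_le_mul_right
                exact (card_le_card hsub).trans card_biUnion_le
            _ = ∑ O ∈ r, (univ.filter fun ω => bad ω ∧ ∀ x ∈ Y ∪ O, S ω x).card
                  * κ ^ (ℓ + 1) := by rw [sum_mul]
            _ ≤ ∑ O ∈ r, B ^ j * Fintype.card Ω := by
                apply sum_le_sum
                intro O hO
                apply ih
                have hlt : Y.card < (Y ∪ O).card := by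
                  apply card_lt_card
                  refine ⟨subset_union_left, fun hcon => hr O hO ?_⟩
                  exact subset_union_right.trans hcon
                omega
            _ = r.card * (B ^ j * Fintype.card Ω) := by rw [sum_const, smul_eq_mul]
            _ ≤ B * (B ^ j * Fintype.card Ω) := Nat.mul_le_mul_right _ (hR r hrR)
            _ = B ^ (j + 1) * Fintype.card Ω := by ring
        · have hempty : (univ.filter fun ω => bad ω ∧ ∀ x ∈ Y, S ω x) = ∅ := by
            rw [filter_eq_empty_iff]
            rintro ω - ⟨hω, hYS⟩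
            exact h (hω.2 Y (by omega) hYS)
          rw [hempty]
          simp
  have := key (ℓ + 1) ∅ (by simp)
  simpa using this

/-- Prescribing the values of a function on the index pairs in `Y`. -/
theorem card_prescribed {J : Type} [Fintype J] [DecidableEq J] (m : ℕ) (Y : Finset (J × Fin m)) :
    (univ.filter fun φ : J → Fin m => ∀ v ∈ Y, φ v.1 = v.2).card * m ^ Y.card
      ≤ Fintype.card (J → Fin m) := by
  by_cases hne : (univ.filter fun φ : J → Fin m => ∀ v ∈ Y, φ v.1 = v.2).Nonempty
  · obtain ⟨φ₀, hφ₀⟩ := hne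
    simp only [mem_filter, mem_univ, true_and] at hφ₀
    have hcard : (Y.image Prod.fst).card = Y.card := by
      apply card_image_of_injOn
      intro v hv v' hv' hvv
      have h1 := hφ₀ v hv
      have h2 := hφ₀ v' hv'
      have hvv' : v.1 = v'.1 := hvv
      rw [hvv'] at h1
      exact Prod.ext hvv' (h1.symm.trans h2)
    have hsub : (univ.filter fun φ : J → Fin m => ∀ v ∈ Y, φ v.1 = v.2) ⊆
        Fintype.piFinset (fun i => if i ∈ Y.image Prod.fst then {φ₀ i} else univ) := by
      intro φ hφ
      simp only [mem_filter, mem_univ, true_and] at hφ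
      rw [Fintype.mem_piFinset]
      intro i
      split_ifs with hi
      · rw [mem_image] at hi
        obtain ⟨v, hv, rfl⟩ := hi
        rw [mem_singleton, hφ v hv, hφ₀ v hv]
      · exact mem_univ _
    calc (univ.filter fun φ : J → Fin m => ∀ v ∈ Y, φ v.1 = v.2).card * m ^ Y.card
        ≤ (Fintype.piFinset (fun i => if i ∈ Y.image Prod.fst then ({φ₀ i} : Finset (Fin m))
            else univ)).card * m ^ Y.card := Nat.mul_le_mul_right _ (card_le_card hsub)
      _ = (∏ i : J, if i ∈ Y.image Prod.fst then 1 else m) * m ^ (Y.image Prod.fst).card := by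
          rw [Fintype.card_piFinset, hcard]
          congr 1
          apply prod_congr rfl
          intro i _
          split_ifs <;> simp
      _ = (∏ i : J, if i ∈ Y.image Prod.fst then 1 else m) *
            (∏ i : J, if i ∈ Y.image Prod.fst then m else 1) := by
          congr 1
          rw [prod_ite_mem, univ_inter, prod_const]
      _ = ∏ i : J, m := by
          rw [← prod_mul_distrib]
          apply prod_congr rfl
          intro i _
          split_ifs <;> simp
      _ = Fintype.card (J → Fin m) := by
          rw [prod_const, Fintype.card_fun, card_univ, Fintype.card_fin]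
      _ ≤ Fintype.card (J → Fin m) := le_rfl
  · rw [not_nonempty_iff_eq_empty] at hne
    rw [hne]
    simp

/-- Forcing a set of coordinates to be `0`. -/
theorem card_zero {E : Type} [Fintype E] [DecidableEq E] (A : ℕ) (hA : 1 ≤ A) (Y : Finset E) :
    (univ.filter fun χ : E → Fin A => ∀ e ∈ Y, (χ e).val = 0).card * A ^ Y.card
      ≤ Fintype.card (E → Fin A) := by
  have h := card_prescribed (J := E) A (Y.image fun e => (e, (⟨0, hA⟩ : Fin A)))
  have hc : (Y.image fun e => (e, (⟨0, hA⟩ : Fin A))).card = Y.card := by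
    apply card_image_of_injective
    intro x y hxy
    exact (Prod.ext_iff.1 hxy).1
  rw [hc] at h
  refine le_trans (Nat.mul_le_mul_right _ (card_le_card ?_)) h
  intro χ hχ
  simp only [mem_filter, mem_univ, true_and] at hχ ⊢
  intro v hv
  rw [mem_image] at hv
  obtain ⟨e, he, rfl⟩ := hv
  exact Fin.ext (hχ e he)

end Pool.Agent.T9h16
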