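import Pool.Agent.T9h16.Circ

set_option autoImplicit false

namespace Pool.Agent.T9h16

open Finset
open scoped Classical

/-- A monotone way of writing a family (indexed by `ι`) of block inputs into the leaves `Λ` of a
circuit, such that every leaf is a constant or one variable of one block. -/
structure EmbG (Λ ι E : Type) where
  X : (ι → Set (E)) → Λ → Prop
  mono : ∀ y y', (∀ i, y i ⊆ y' i) → ∀ e, X y e → X y' e
  leaf : ∀ e, (∃ t : Prop, ∀ y, X y e ↔ t) ∨ ∃ i b, ∀ y, X y e ↔ b ∈ y i

section
variable {Λ ι E : Type} {T : Set E → Prop}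

/-- Restriction of a leaf to one block. -/
theorem EmbG.leaf_update (M : EmbG Λ ι E) (y : ι → Set (E)) (b : ι) (e : Λ) :
    Leaf (fun z => M.X (Function.update y b z) e) := by
  rcases M.leaf e with ⟨t, ht⟩ | ⟨i, v, hv⟩
  · exact Or.inr ⟨t, fun z => ht _⟩
  · by_cases hib : i = b
    · subst hib
      left
      refine ⟨v, fun z => ?_⟩
      change M.X (Function.update y i z) e ↔ v ∈ z
      rw [hv, Function.update_self]
    · right
      refine ⟨v ∈ y i, fun z => ?_⟩
      change M.X (Function.update y b z) e ↔ v ∈ y i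
      rw [hv, Function.update_of_ne hib]

theorem EmbG.mono_update (M : EmbG Λ ι E) {y : ι → Set (E)} {b : ι} (hb : y b = ∅)
    (z : Set (E)) : ∀ e, M.X y e → M.X (Function.update y b z) e := by
  apply M.mono
  intro i
  by_cases hib : i = b
  · subst hib
    rw [hb]
    exact Set.empty_subset _
  · rw [Function.update_of_ne hib]

/-- One step of the chain: if a small circuit computes the disjunction of the block functions,
then some negative input of block `b` changes the value of a `neg` gate. -/
theorem block_stepG (C : Circ Λ)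
    (Hd : ∀ (gt : ℕ → Set E → Prop), IsSLP gt C.size → ∀ O : Set (Set E → Prop),
      (∀ o ∈ O, Avail gt C.size o) → (∀ z, T z → ∃ o ∈ O, o z) →
      (∀ z, ¬ T z → ∀ o ∈ O, ¬ o z) → False) (M : EmbG Λ ι E)
    (val : (ι → Set (E)) → Fin C.size → Prop)
    (hval : ∀ y, C.Run (M.X y) (val y)) (hout : ∀ y, val y C.out ↔ ∃ i, T (y i))
    (y : ι → Set (E)) (hy : ∀ i, ¬ T (y i)) (b : ι) (hb : y b = ∅) :
    ∃ z, ¬ T z ∧ ∃ i, C.kind i = .neg ∧ ¬ (val y i ↔ val (Function.update y b z) i) := by
  by_contra hcon
  have hsame : ∀ z, ¬ T z → ∀ i, C.kind i = .neg →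
      (val y i ↔ val (Function.update y b z) i) := by
    intro z hz i hi
    by_contra h
    exact hcon ⟨z, hz, i, hi, h⟩
  choose fr hfc hfd hfn using fun z => exists_frozen C (M.X (Function.update y b z)) (val y)
  set gt : ℕ → Set (E) → Prop :=
    fun i z => if h : i < C.size then fr z ⟨i, h⟩ else False with hgt
  have hgtv : ∀ (i : Fin C.size) z, gt i.val z ↔ fr z i := by
    intro i z
    simp [hgt]
  have havail : ∀ (o : Λ ⊕ Fin C.size) (m : ℕ), (∀ j, o = Sum.inr j → j.val < m) →
      Avail gt m (fun z => Sum.elim (M.X (Function.update y b z)) (fr z) o) := by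
    intro o m ho
    rcases o with e | j
    · exact Or.inl (M.leaf_update y b e)
    · exact Or.inr ⟨j.val, ho j rfl, fun z => (hgtv j z).symm⟩
  have hSLP : IsSLP gt C.size := by
    intro i hi
    set i' : Fin C.size := ⟨i, hi⟩ with hi'
    have heq : ∀ z, gt i z ↔ fr z i' := fun z => hgtv i' z
    have hl := havail (C.left i') i (fun j hj => (C.acyclic i' j).1 hj)
    have hrt := havail (C.right i') i (fun j hj => (C.acyclic i' j).2 hj)
    rcases hk : C.kind i' with _ | _ | _
    · right
      exact ⟨_, _, hl, hrt, Or.inl fun z => by rw [heq, hfc z i' hk]⟩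
    · right
      exact ⟨_, _, hl, hrt, Or.inr fun z => by rw [heq, hfd z i' hk]⟩
    · left
      right
      exact ⟨val y i', fun z => by rw [heq, hfn z i' hk]⟩
  -- agreement on negative inputs
  have hagree_neg : ∀ z, ¬ T z → ∀ i, fr z i ↔ val (Function.update y b z) i := by
    intro z hz i
    induction i using WellFoundedLT.induction with
    | ind i ih =>
      have hl := elim_congr (M.X (Function.update y b z)) (C.left i)
        (fun j hj => (C.acyclic i j).1 hj) ih
      have hrt := elim_congr (M.X (Function.update y b z)) (C.right i)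
        (fun j hj => (C.acyclic i j).2 hj) ih
      rcases hk : C.kind i with _ | _ | _
      · rw [hfc z i hk, hval _ i, Circ.step_conj hk, hl, hrt]
      · rw [hfd z i hk, hval _ i, Circ.step_disj hk, hl, hrt]
      · rw [hfn z i hk]
        exact hsame z hz i hk
  refine Hd gt hSLP
    {o | (∀ z, o z ↔ fr z C.out) ∨ ∃ i, C.kind i = .neg ∧ val y i ∧
      ∀ z, o z ↔ Sum.elim (M.X (Function.update y b z)) (fr z) (C.left i)} ?_ ?_ ?_
  · rintro o (ho | ⟨i, -, -, ho⟩)
    · exact Or.inr ⟨C.out.val, C.out.isLt, fun z => by rw [ho, hgtv]⟩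
    · rcases havail (C.left i) C.size (fun j _ => j.isLt) with h | ⟨j, hj, h⟩
      · left
        rcases h with ⟨e, he⟩ | ⟨t, ht⟩
        · exact Or.inl ⟨e, fun z => (ho z).trans (he z)⟩
        · exact Or.inr ⟨t, fun z => (ho z).trans (ht z)⟩
      · exact Or.inr ⟨j, hj, fun z => (ho z).trans (h z)⟩
  · intro z hz
    by_contra hno
    push Not at hno
    have hfout : ¬ fr z C.out := hno (fun z => fr z C.out) (Or.inl fun z => Iff.rfl)
    have hop : ∀ i, C.kind i = .neg → val y i →
        ¬ Sum.elim (M.X (Function.update y b z)) (fr z) (C.left i) := by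
      intro i hi hvi
      exact hno (fun z => Sum.elim (M.X (Function.update y b z)) (fr z) (C.left i))
        (Or.inr ⟨i, hi, hvi, fun z => Iff.rfl⟩)
    have hagree : ∀ i, (fr z i ↔ val (Function.update y b z) i) ∧
        (val y i → val (Function.update y b z) i) := by
      intro i
      induction i using WellFoundedLT.induction with
      | ind i ih =>
        have hl := elim_congr (M.X (Function.update y b z)) (C.left i)
          (fun j hj => (C.acyclic i j).1 hj) (fun j hj => (ih j hj).1)
        have hrt := elim_congr (M.X (Function.update y b z)) (C.right i)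
          (fun j hj => (C.acyclic i j).2 hj) (fun j hj => (ih j hj).1)
        have ml := elim_mono (M.mono_update hb z) (C.left i)
          (fun j hj => (ih j ((C.acyclic i j).1 hj)).2)
        have mr := elim_mono (M.mono_update hb z) (C.right i)
          (fun j hj => (ih j ((C.acyclic i j).2 hj)).2)
        rcases hk : C.kind i with _ | _ | _
        · rw [hfc z i hk, hval y i, hval _ i, Circ.step_conj hk, Circ.step_conj hk, hl, hrt]
          exact ⟨Iff.rfl, fun h => ⟨ml h.1, mr h.2⟩⟩
        · rw [hfd z i hk, hval y i, hval _ i, Circ.step_disj hk, Circ.step_disj hk, hl, hrt]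
          exact ⟨Iff.rfl, fun h => h.imp ml mr⟩
        · rw [hfn z i hk, hval y i, hval _ i, Circ.step_neg hk, Circ.step_neg hk, ← hl]
          by_cases hvi : Sum.elim (M.X y) (val y) (C.left i)
          · have := hl.2 (ml hvi)
            simp [hvi, this]
          · have h2 := hop i hk (by rw [hval y i, Circ.step_neg hk]; exact hvi)
            simp [hvi, h2]
    have := (hout (Function.update y b z)).2 ⟨b, by rw [Function.update_self]; exact hz⟩
    exact hfout ((hagree C.out).1.2 this)
  · intro z hz o ho hoz
    rcases ho with ho | ⟨i, hi, hvi, ho⟩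
    · rw [ho, hagree_neg z hz, hout] at hoz
      obtain ⟨i, hi⟩ := hoz
      by_cases hib : i = b
      · subst hib
        rw [Function.update_self] at hi
        exact hz hi
      · rw [Function.update_of_ne hib] at hi
        exact hy i hi
    · rw [ho] at hoz
      have hl := elim_congr (M.X (Function.update y b z)) (C.left i)
        (fun j hj => (C.acyclic i j).1 hj) (fun j _ => hagree_neg z hz j)
      rw [hl] at hoz
      have := (hsame z hz i hi).1 hvi
      rw [hval _ i, Circ.step_neg hi] at this
      exact this hoz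

/-- Monotonicity of the gates below a level on which the `neg` gates agree. -/
theorem level_monoG (C : Circ Λ) {x x' : Λ → Prop} (hx : ∀ e, x e → x' e)
    {v v' : Fin C.size → Prop} (hv : C.Run x v) (hv' : C.Run x' v')
    (lev : Fin C.size → ℕ)
    (hlev : ∀ i j, (C.left i = Sum.inr j → lev j ≤ lev i) ∧
      (C.kind i ≠ .neg → C.right i = Sum.inr j → lev j ≤ lev i))
    (ℓ : ℕ) (hsame : ∀ i, C.kind i = .neg → lev i < ℓ → (v i ↔ v' i)) :
    ∀ i, lev i < ℓ → v i → v' i := by
  intro i
  induction i using WellFoundedLT.induction with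
  | ind i ih =>
    intro hi
    rcases hk : C.kind i with _ | _ | _
    · rw [hv i, hv' i, Circ.step_conj hk, Circ.step_conj hk]
      refine fun h => ⟨?_, ?_⟩
      · exact elim_mono hx (C.left i) (fun j hj => ih j ((C.acyclic i j).1 hj)
          (lt_of_le_of_lt ((hlev i j).1 hj) hi)) h.1
      · exact elim_mono hx (C.right i) (fun j hj => ih j ((C.acyclic i j).2 hj)
          (lt_of_le_of_lt ((hlev i j).2 (by rw [hk]; simp) hj) hi)) h.2
    · rw [hv i, hv' i, Circ.step_disj hk, Circ.step_disj hk]
      refine fun h => h.imp ?_ ?_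
      · exact elim_mono hx (C.left i) (fun j hj => ih j ((C.acyclic i j).1 hj)
          (lt_of_le_of_lt ((hlev i j).1 hj) hi))
      · exact elim_mono hx (C.right i) (fun j hj => ih j ((C.acyclic i j).2 hj)
          (lt_of_le_of_lt ((hlev i j).2 (by rw [hk]; simp) hj) hi))
    · exact (hsame i hk hi).1

/-- The counting theorem: a small circuit which computes the disjunction of the
block functions of `M` blocks satisfies `M + 1 ≤ ∏ (t_ℓ + 1)`, where `t_ℓ` is its number of `neg`
gates of level `ℓ`. -/
theorem chain_countG [Fintype ι] (hT0 : ¬ T ∅) (C : Circ Λ)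
    (Hd : ∀ (gt : ℕ → Set E → Prop), IsSLP gt C.size → ∀ O : Set (Set E → Prop),
      (∀ o ∈ O, Avail gt C.size o) → (∀ z, T z → ∃ o ∈ O, o z) →
      (∀ z, ¬ T z → ∀ o ∈ O, ¬ o z) → False) (M : EmbG Λ ι E)
    (val : (ι → Set (E)) → Fin C.size → Prop)
    (hval : ∀ y, C.Run (M.X y) (val y)) (hout : ∀ y, val y C.out ↔ ∃ i, T (y i))
    (lev : Fin C.size → ℕ)
    (hlev : ∀ i j, (C.left i = Sum.inr j → lev j ≤ lev i) ∧
      (C.kind i ≠ .neg → C.right i = Sum.inr j → lev j ≤ lev i))
    (hlev' : ∀ i j, C.kind i = .neg → C.left i = Sum.inr j → lev j < lev i)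
    (d : ℕ) (hd : ∀ i, C.kind i = .neg → lev i ≤ d) :
    Fintype.card ι + 1 ≤
      ∏ ℓ ∈ range (d + 1), ((univ.filter fun i => C.kind i = .neg ∧ lev i = ℓ).card + 1) := by
  -- the chain
  have hstep : ∀ (y : ι → Set (E)) (b : ι), ∃ z : Set (E),
      (∀ i, ¬ T (y i)) → y b = ∅ →
      (¬ T z ∧ ∃ i, C.kind i = .neg ∧ ¬ (val y i ↔ val (Function.update y b z) i)) := by
    intro y b
    by_cases h : (∀ i, ¬ T (y i)) ∧ y b = ∅
    · obtain ⟨z, hz⟩ := block_stepG C Hd M val hval hout y h.1 b h.2
      exact ⟨z, fun _ _ => hz⟩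
    · exact ⟨∅, fun h1 h2 => (h ⟨h1, h2⟩).elim⟩
  choose f hf using hstep
  set m := Fintype.card ι with hm
  set e : Fin m ≃ ι := (Fintype.equivFin ι).symm with he
  set Y : ℕ → (ι → Set (E)) := fun k => Nat.rec (fun _ => ∅)
    (fun k y => if h : k < m then Function.update y (e ⟨k, h⟩) (f y (e ⟨k, h⟩)) else y) k with hY
  have hY0 : Y 0 = fun _ => ∅ := rfl
  have hYs : ∀ k, (h : k < m) → Y (k + 1) =
      Function.update (Y k) (e ⟨k, h⟩) (f (Y k) (e ⟨k, h⟩)) := by
    intro k h
    change (if h : k < m then Function.update (Y k) (e ⟨k, h⟩) (f (Y k) (e ⟨k, h⟩)) else Y k) = _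
    rw [dif_pos h]
  have hinv : ∀ k ≤ m, (∀ i, ¬ T (Y k i)) ∧ ∀ i : Fin m, k ≤ i.val → Y k (e i) = ∅ := by
    intro k
    induction k with
    | zero =>
      intro _
      rw [hY0]
      exact ⟨fun i => hT0, fun _ _ => rfl⟩
    | succ k ih =>
      intro hk
      obtain ⟨h1, h2⟩ := ih (by omega)
      have hk' : k < m := by omega
      rw [hYs k hk']
      refine ⟨fun i => ?_, fun i hi => ?_⟩
      · by_cases hib : i = e ⟨k, hk'⟩
        · subst hib
          rw [Function.update_self]
          exact (hf (Y k) (e ⟨k, hk'⟩) h1 (h2 _ le_rfl)).1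
        · rw [Function.update_of_ne hib]
          exact h1 i
      · rw [Function.update_of_ne]
        · exact h2 i (by omega)
        · intro h
          have := e.injective h
          rw [this] at hi
          simp at hi
  have hdiff : ∀ k, k < m → ∃ i, C.kind i = .neg ∧ ¬ (val (Y k) i ↔ val (Y (k + 1)) i) := by
    intro k hk
    obtain ⟨h1, h2⟩ := hinv k (by omega)
    rw [hYs k hk]
    exact (hf (Y k) (e ⟨k, hk⟩) h1 (h2 _ le_rfl)).2
  have hsucc : ∀ k, k < m → ∀ i, Y k i ⊆ Y (k + 1) i := by
    intro k hk i
    rw [hYs k hk]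
    by_cases hib : i = e ⟨k, hk⟩
    · subst hib
      rw [(hinv k (by omega)).2 ⟨k, hk⟩ le_rfl]
      exact Set.empty_subset _
    · rw [Function.update_of_ne hib]
  have hle : ∀ k k', k ≤ k' → k' ≤ m → ∀ i, Y k i ⊆ Y k' i := by
    intro k k' hkk
    induction k', hkk using Nat.le_induction with
    | base => intro _ i; exact subset_rfl
    | succ k' _ ih =>
      intro hk' i
      exact (ih (by omega) i).trans (hsucc k' (by omega) i)
  -- labels
  set T : ℕ → Finset (Fin C.size) := fun ℓ => univ.filter fun i => C.kind i = .neg ∧ lev i = ℓ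
    with hT
  set V : ℕ → ℕ → Finset (Fin C.size) := fun k ℓ =>
    univ.filter fun i => (C.kind i = .neg ∧ lev i = ℓ) ∧ val (Y k) i with hV
  have hVT : ∀ k ℓ, (V k ℓ).card < (T ℓ).card + 1 := by
    intro k ℓ
    apply Nat.lt_succ_of_le
    apply card_le_card
    intro i hi
    simp only [hV, hT, mem_filter, mem_univ, true_and] at hi ⊢
    exact hi.1
  set lab : Fin (m + 1) → ((ℓ : Fin (d + 1)) → Fin ((T ℓ.val).card + 1)) :=
    fun k ℓ => ⟨(V k.val ℓ.val).card, hVT _ _⟩ with hlab
  have hinj : Function.Injective lab := by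
    have hmain : ∀ k k' : Fin (m + 1), k.val < k'.val → lab k ≠ lab k' := by
      intro k k' hkk heq
      have hcard : ∀ ℓ ≤ d, (V k.val ℓ).card = (V k'.val ℓ).card := by
        intro ℓ hℓ
        have := congrFun heq ⟨ℓ, by omega⟩
        simp only [hlab, Fin.mk.injEq] at this
        exact this
      have hk'm : k'.val ≤ m := by have := k'.isLt; omega
      have x1 := M.mono _ _ (hle k.val (k.val + 1) (by omega) (by omega))
      have x2 := M.mono _ _ (hle (k.val + 1) k'.val (by omega) hk'm)
      have hall : ∀ ℓ, ℓ ≤ d + 1 → ∀ i, C.kind i = .neg → lev i < ℓ →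
          ((val (Y k.val) i ↔ val (Y (k.val + 1)) i) ∧
            (val (Y (k.val + 1)) i ↔ val (Y k'.val) i)) := by
        intro ℓ
        induction ℓ with
        | zero => intro _ i _ hi; omega
        | succ ℓ ih =>
          intro hℓ i hi hiℓ
          have ih' := ih (by omega)
          rcases Nat.lt_succ_iff_lt_or_eq.1 hiℓ with hlt | heqℓ
          · exact ih' i hi hlt
          · have m1 := level_monoG C x1 (hval _) (hval _) lev hlev ℓ
              (fun i hi hlt => (ih' i hi hlt).1)
            have m2 := level_monoG C x2 (hval _) (hval _) lev hlev ℓ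
              (fun i hi hlt => (ih' i hi hlt).2)
            have a1 : ∀ j, C.kind j = .neg → lev j = ℓ →
                val (Y (k.val + 1)) j → val (Y k.val) j := by
              intro j hj hjℓ
              rw [hval _ j, hval _ j, Circ.step_neg hj, Circ.step_neg hj]
              intro h h'
              exact h (elim_mono x1 (C.left j)
                (fun j' hj' => m1 j' (hjℓ ▸ hlev' j j' hj hj')) h')
            have a2 : ∀ j, C.kind j = .neg → lev j = ℓ →
                val (Y k'.val) j → val (Y (k.val + 1)) j := by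
              intro j hj hjℓ
              rw [hval _ j, hval _ j, Circ.step_neg hj, Circ.step_neg hj]
              intro h h'
              exact h (elim_mono x2 (C.left j)
                (fun j' hj' => m2 j' (hjℓ ▸ hlev' j j' hj hj')) h')
            have hsub : V k'.val ℓ ⊆ V k.val ℓ := by
              intro j hj
              simp only [hV, mem_filter, mem_univ, true_and] at hj ⊢
              exact ⟨hj.1, a1 j hj.1.1 hj.1.2 (a2 j hj.1.1 hj.1.2 hj.2)⟩
            have hEq := eq_of_subset_of_card_le hsub (hcard ℓ (by omega)).le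
            have hiV : val (Y k.val) i → val (Y k'.val) i := by
              intro hvi
              have : i ∈ V k.val ℓ := by
                simp only [hV, mem_filter, mem_univ, true_and]
                exact ⟨⟨hi, heqℓ⟩, hvi⟩
              rw [← hEq] at this
              simp only [hV, mem_filter, mem_univ, true_and] at this
              exact this.2
            exact ⟨⟨fun h => a2 i hi heqℓ (hiV h), a1 i hi heqℓ⟩,
              ⟨fun h => hiV (a1 i hi heqℓ h), a2 i hi heqℓ⟩⟩
      obtain ⟨i, hi, hne⟩ := hdiff k.val (by omega)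
      exact hne (hall (d + 1) le_rfl i hi (Nat.lt_succ_of_le (hd i hi))).1
    intro k k' heq
    rcases lt_trichotomy k.val k'.val with h | h | h
    · exact (hmain k k' h heq).elim
    · exact Fin.ext h
    · exact (hmain k' k h heq.symm).elim
  have hc := Fintype.card_le_of_injective lab hinj
  rw [Fintype.card_fin, Fintype.card_pi] at hc
  simp only [Fintype.card_fin] at hc
  rw [Fin.prod_univ_eq_prod_range (fun ℓ => (T ℓ).card + 1) (d + 1)] at hc
  exact hc

end

end Pool.Agent.T9h16
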