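import Pool.Agent.T9h16.Hard

set_option autoImplicit false

namespace Pool.Agent.T9h16

open Finset
open scoped Classical

/-- The three kinds of gates. -/
inductive Kind
  | conj
  | disj
  | neg
  deriving DecidableEq

/-- A Boolean circuit with leaves in `Λ`: the gates are numbered so that every operand of a gate is
a leaf or an earlier gate (a `neg` gate only uses its left operand). -/
structure Circ (Λ : Type) where
  size : ℕ
  kind : Fin size → Kind
  left : Fin size → Λ ⊕ Fin size
  right : Fin size → Λ ⊕ Fin size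
  out : Fin size
  acyclic : ∀ i j, (left i = Sum.inr j → j < i) ∧ (right i = Sum.inr j → j < i)

/-- One evaluation step. -/
def Circ.step {Λ : Type} (C : Circ Λ) (x : Λ → Prop) (v : Fin C.size → Prop) (i : Fin C.size) :
    Prop :=
  match C.kind i with
  | .conj => Sum.elim x v (C.left i) ∧ Sum.elim x v (C.right i)
  | .disj => Sum.elim x v (C.left i) ∨ Sum.elim x v (C.right i)
  | .neg => ¬ Sum.elim x v (C.left i)

/-- `v` lists the values of all gates on the input `x`. -/
def Circ.Run {Λ : Type} (C : Circ Λ) (x : Λ → Prop) (v : Fin C.size → Prop) : Prop :=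
  ∀ i, v i ↔ C.step x v i

theorem Circ.step_conj {Λ : Type} {C : Circ Λ} {x : Λ → Prop} {v : Fin C.size → Prop}
    {i : Fin C.size} (h : C.kind i = .conj) :
    C.step x v i ↔ (Sum.elim x v (C.left i) ∧ Sum.elim x v (C.right i)) := by
  simp only [Circ.step, h]

theorem Circ.step_disj {Λ : Type} {C : Circ Λ} {x : Λ → Prop} {v : Fin C.size → Prop}
    {i : Fin C.size} (h : C.kind i = .disj) :
    C.step x v i ↔ (Sum.elim x v (C.left i) ∨ Sum.elim x v (C.right i)) := by
  simp only [Circ.step, h]

theorem Circ.step_neg {Λ : Type} {C : Circ Λ} {x : Λ → Prop} {v : Fin C.size → Prop}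
    {i : Fin C.size} (h : C.kind i = .neg) :
    C.step x v i ↔ ¬ Sum.elim x v (C.left i) := by
  simp only [Circ.step, h]

/-- Solving a triangular system of Boolean equations. -/
theorem exists_solution {s : ℕ} (F : (Fin s → Prop) → Fin s → Prop)
    (hF : ∀ v v' i, (∀ j < i, v j ↔ v' j) → (F v i ↔ F v' i)) :
    ∃ v : Fin s → Prop, ∀ i, v i ↔ F v i := by
  have key : ∀ m : ℕ, ∃ v : Fin s → Prop, ∀ i : Fin s, i.val < m → (v i ↔ F v i) := by
    intro m
    induction m with
    | zero => exact ⟨fun _ => True, fun i hi => by omega⟩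
    | succ m ih =>
      obtain ⟨v, hv⟩ := ih
      by_cases hm : m < s
      · refine ⟨Function.update v ⟨m, hm⟩ (F v ⟨m, hm⟩), ?_⟩
        have hagree : ∀ j : Fin s, j.val < m →
            (Function.update v ⟨m, hm⟩ (F v ⟨m, hm⟩) j ↔ v j) := by
          intro j hj
          rw [Function.update_of_ne]
          intro h
          rw [h] at hj
          simp at hj
        intro i hi
        rcases Nat.lt_succ_iff_lt_or_eq.1 hi with hi | hi
        · rw [hagree i hi, hv i hi]
          exact hF _ _ _ (fun j hj => (hagree j (lt_trans hj hi)).symm)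
        · have : i = ⟨m, hm⟩ := Fin.ext hi
          subst this
          rw [Function.update_self]
          exact hF _ _ _ (fun j hj => (hagree j hj).symm)
      · exact ⟨v, fun i hi => hv i (by omega)⟩
  obtain ⟨v, hv⟩ := key s
  exact ⟨v, fun i => hv i i.isLt⟩

/-- Operands only see earlier gates. -/
theorem elim_congr {Λ : Type} {s : ℕ} (x : Λ → Prop) {v v' : Fin s → Prop} {i : Fin s}
    (o : Λ ⊕ Fin s) (ho : ∀ j, o = Sum.inr j → j < i) (h : ∀ j < i, v j ↔ v' j) :
    Sum.elim x v o ↔ Sum.elim x v' o := by
  rcases o with e | j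
  · exact Iff.rfl
  · exact h j (ho j rfl)

theorem elim_mono {Λ : Type} {s : ℕ} {x x' : Λ → Prop} (hx : ∀ e, x e → x' e)
    {v v' : Fin s → Prop} (o : Λ ⊕ Fin s) (h : ∀ j, o = Sum.inr j → v j → v' j) :
    Sum.elim x v o → Sum.elim x' v' o := by
  rcases o with e | j
  · exact hx e
  · exact h j rfl

/-- Freezing the `neg` gates of a circuit at the values `c`. -/
theorem exists_frozen {Λ : Type} (C : Circ Λ) (x : Λ → Prop) (c : Fin C.size → Prop) :
    ∃ v : Fin C.size → Prop,
      (∀ i, C.kind i = .conj →
        (v i ↔ (Sum.elim x v (C.left i) ∧ Sum.elim x v (C.right i)))) ∧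
      (∀ i, C.kind i = .disj →
        (v i ↔ (Sum.elim x v (C.left i) ∨ Sum.elim x v (C.right i)))) ∧
      (∀ i, C.kind i = .neg → (v i ↔ c i)) := by
  obtain ⟨v, hv⟩ := exists_solution (s := C.size) (fun v i =>
      (match C.kind i with
      | .conj => Sum.elim x v (C.left i) ∧ Sum.elim x v (C.right i)
      | .disj => Sum.elim x v (C.left i) ∨ Sum.elim x v (C.right i)
      | .neg => c i)) (by
    intro v v' i h
    have h1 := elim_congr x (C.left i) (fun j hj => (C.acyclic i j).1 hj) h
    have h2 := elim_congr x (C.right i) (fun j hj => (C.acyclic i j).2 hj) h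
    cases C.kind i
    · simp only [h1, h2]
    · simp only [h1, h2]
    · simp only)
  refine ⟨v, ?_, ?_, ?_⟩
  · intro i hi
    have := hv i
    simp only [hi] at this
    exact this
  · intro i hi
    have := hv i
    simp only [hi] at this
    exact this
  · intro i hi
    have := hv i
    simp only [hi] at this
    exact this

end Pool.Agent.T9h16
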