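import Pool.Agent.T9h16.Hard

set_option autoImplicit false

namespace Pool.Agent.T9h16

open Finset
open scoped Classical

/-- Structured vertices: `p` left groups, `p` right groups and `u` universal vertices. -/
abbrev Ver (p g w u : ℕ) : Type := (Fin p × (Fin g × Fin w)) ⊕ ((Fin p × (Fin g × Fin w)) ⊕ Fin u)

/-- Adjacency of structured vertices in the configuration `y`. -/
def adjV {p g w u : ℕ} (y : Fin p × Fin p → Set (BE g w)) : Ver p g w u → Ver p g w u → Prop
  | .inl a, .inl b => a.1 = b.1 ∧ a.2.1 ≠ b.2.1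
  | .inl a, .inr (.inl b) => (a.2, b.2) ∈ y (a.1, b.1)
  | .inr (.inl b), .inl a => (a.2, b.2) ∈ y (a.1, b.1)
  | .inr (.inl a), .inr (.inl b) => a.1 = b.1 ∧ a.2.1 ≠ b.2.1
  | .inr (.inr a), .inr (.inr b) => a ≠ b
  | .inr (.inr _), .inl _ => True
  | .inr (.inr _), .inr (.inl _) => True
  | .inl _, .inr (.inr _) => True
  | .inr (.inl _), .inr (.inr _) => True

/-- The graph of structured vertices. -/
def HH {p g w u : ℕ} (y : Fin p × Fin p → Set (BE g w)) : SimpleGraph (Ver p g w u) where
  Adj := adjV y
  symm := ⟨by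
    rintro (a | a | a) (b | b | b) h
    · exact ⟨h.1.symm, h.2.symm⟩
    · exact h
    · trivial
    · exact h
    · exact ⟨h.1.symm, h.2.symm⟩
    · trivial
    · trivial
    · trivial
    · exact Ne.symm h⟩
  loopless := ⟨by
    rintro (a | a | a) h
    · exact h.2 rfl
    · exact h.2 rfl
    · exact h rfl⟩

theorem HH_mono {p g w u : ℕ} {y y' : Fin p × Fin p → Set (BE g w)} (h : ∀ i, y i ⊆ y' i) :
    (HH y : SimpleGraph (Ver p g w u)) ≤ HH y' := by
  intro a b hab
  change adjV y a b at hab
  change adjV y' a b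
  rcases a with a | a | a <;> rcases b with b | b | b
  · exact hab
  · exact h _ hab
  · exact hab
  · exact h _ hab
  · exact hab
  · exact hab
  · exact hab
  · exact hab
  · exact hab

/-- Every adjacency is constant or a block variable. -/
theorem HH_leaf {p g w u : ℕ} (a b : Ver p g w u) :
    (∃ t : Prop, ∀ y : Fin p × Fin p → Set (BE g w), (HH y).Adj a b ↔ t) ∨
    (∃ i e, ∀ y : Fin p × Fin p → Set (BE g w), (HH y).Adj a b ↔ e ∈ y i) := by
  rcases a with a | a | a <;> rcases b with b | b | b
  · exact Or.inl ⟨_, fun y => Iff.rfl⟩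
  · exact Or.inr ⟨(a.1, b.1), (a.2, b.2), fun y => Iff.rfl⟩
  · exact Or.inl ⟨_, fun y => Iff.rfl⟩
  · exact Or.inr ⟨(b.1, a.1), (b.2, a.2), fun y => Iff.rfl⟩
  · exact Or.inl ⟨_, fun y => Iff.rfl⟩
  · exact Or.inl ⟨_, fun y => Iff.rfl⟩
  · exact Or.inl ⟨_, fun y => Iff.rfl⟩
  · exact Or.inl ⟨_, fun y => Iff.rfl⟩
  · exact Or.inl ⟨_, fun y => Iff.rfl⟩

/-- A set of points of the groups whose elements are pairwise in the same group and in different
parts. -/
theorem transversal_aux {p g w : ℕ} (S : Finset (Fin p × (Fin g × Fin w)))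
    (hS : ∀ a ∈ S, ∀ b ∈ S, a ≠ b → a.1 = b.1 ∧ a.2.1 ≠ b.2.1) :
    S.card ≤ g ∧ (S.card = g → 1 ≤ g → ∃ (P : Fin p) (φ : Fin g → Fin w), ∀ x, (P, (x, φ x)) ∈ S) := by
  have hinj : Set.InjOn (fun a : Fin p × (Fin g × Fin w) => a.2.1) S := by
    intro a ha b hb hab
    by_contra hne
    exact (hS a ha b hb hne).2 hab
  have hle : S.card ≤ g := by
    have := card_le_card_of_injOn (s := S) (t := (univ : Finset (Fin g)))
      (fun a : Fin p × (Fin g × Fin w) => a.2.1) (fun a _ => mem_univ _) hinj
    simpa using this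
  refine ⟨hle, fun hcard hg => ?_⟩
  have himg : S.image (fun a : Fin p × (Fin g × Fin w) => a.2.1) = univ := by
    apply eq_univ_of_card
    rw [card_image_of_injOn hinj, hcard, Fintype.card_fin]
  have hex : ∀ x : Fin g, ∃ a ∈ S, a.2.1 = x := by
    intro x
    have : x ∈ S.image (fun a : Fin p × (Fin g × Fin w) => a.2.1) := by rw [himg]; exact mem_univ _
    rw [mem_image] at this
    exact this
  choose f hfS hfx using hex
  set x₀ : Fin g := ⟨0, hg⟩
  refine ⟨(f x₀).1, fun x => (f x).2.2, fun x => ?_⟩
  have h1 : (f x).1 = (f x₀).1 := by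
    by_cases h : f x = f x₀
    · rw [h]
    · exact (hS _ (hfS x) _ (hfS x₀) h).1
  have : ((f x₀).1, (x, (f x).2.2)) = f x := by
    rw [← h1]
    exact Prod.ext rfl (Prod.ext (hfx x).symm rfl)
  rw [this]
  exact hfS x

theorem HH_clique {p g w u : ℕ} (hg : 1 ≤ g) (y : Fin p × Fin p → Set (BE g w)) :
    (∃ c : Finset (Ver p g w u), (HH y).IsClique (c : Set (Ver p g w u)) ∧ u + 2 * g ≤ c.card) ↔
      ∃ i, TC (y i) := by
  constructor
  · rintro ⟨c, hc, hcard⟩
    have hadj : ∀ a ∈ c, ∀ b ∈ c, a ≠ b → adjV y a b := fun a ha b hb hab => hc ha hb hab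
    have hL := transversal_aux c.toLeft (by
      intro a ha b hb hab
      rw [mem_toLeft] at ha hb
      exact hadj _ ha _ hb (fun h => hab (Sum.inl_injective h)))
    have hR := transversal_aux c.toRight.toLeft (by
      intro a ha b hb hab
      rw [mem_toLeft, mem_toRight] at ha hb
      exact hadj _ ha _ hb (fun h => hab (Sum.inl_injective (Sum.inr_injective h))))
    have hU : c.toRight.toRight.card ≤ u := by
      have := card_le_univ c.toRight.toRight
      simpa using this
    have h1 := card_toLeft_add_card_toRight (u := c)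
    have h2 := card_toLeft_add_card_toRight (u := c.toRight)
    have hLc : c.toLeft.card = g := by have := hL.1; have := hR.1; omega
    have hRc : c.toRight.toLeft.card = g := by have := hL.1; have := hR.1; omega
    obtain ⟨P, φ, hφ⟩ := hL.2 hLc hg
    obtain ⟨Q, ψ, hψ⟩ := hR.2 hRc hg
    refine ⟨(P, Q), φ, ψ, fun x z => ?_⟩
    have hx := hφ x
    have hz := hψ z
    rw [mem_toLeft] at hx
    rw [mem_toLeft, mem_toRight] at hz
    exact hadj _ hx _ hz (by simp)
  · rintro ⟨⟨P, Q⟩, φ, ψ, h⟩
    set cL : Finset (Fin p × (Fin g × Fin w)) := univ.image fun x : Fin g => (P, (x, φ x)) with hcL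
    set cR : Finset (Fin p × (Fin g × Fin w)) := univ.image fun x : Fin g => (Q, (x, ψ x)) with hcR
    have hL : cL.card = g := by
      rw [hcL, card_image_of_injective, card_univ, Fintype.card_fin]
      intro x x' hx
      simp only [Prod.mk.injEq] at hx
      exact hx.2.1
    have hR : cR.card = g := by
      rw [hcR, card_image_of_injective, card_univ, Fintype.card_fin]
      intro x x' hx
      simp only [Prod.mk.injEq] at hx
      exact hx.2.1
    refine ⟨cL.disjSum (cR.disjSum univ), ?_, ?_⟩
    · intro a ha b hb hab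
      change adjV y a b
      rcases a with a | a | a <;> rcases b with b | b | b <;>
        simp only [mem_coe, Sum.inl.injEq, Sum.inr.injEq, reduceCtorEq,
          inl_mem_disjSum, inr_mem_disjSum, mem_univ, true_and, ne_eq, hcL, hcR, mem_image,
          not_false_eq_true] at ha hb hab ⊢
      · obtain ⟨x, rfl⟩ := ha
        obtain ⟨x', rfl⟩ := hb
        refine ⟨rfl, fun hxx => hab ?_⟩
        simp only at hxx
        rw [hxx]
      · obtain ⟨x, rfl⟩ := ha
        obtain ⟨x', rfl⟩ := hb
        exact h x x'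
      · trivial
      · obtain ⟨x, rfl⟩ := ha
        obtain ⟨x', rfl⟩ := hb
        exact h x' x
      · obtain ⟨x, rfl⟩ := ha
        obtain ⟨x', rfl⟩ := hb
        refine ⟨rfl, fun hxx => hab ?_⟩
        simp only at hxx
        rw [hxx]
      · trivial
      · trivial
      · trivial
      · exact hab
    · rw [card_disjSum, card_disjSum, hL, hR, card_univ, Fintype.card_fin]
      omega

/-- The grid embedding: `p ^ 2` disjoint copies of the block function inside the problem of finding a
clique with at least `k` vertices in a graph on `n` vertices. -/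
theorem grid (n k p g w : ℕ) (hg : 1 ≤ g) (hk : 2 * g ≤ k)
    (hn : 2 * (p * (g * w)) + (k - 2 * g) ≤ n) :
    ∃ G : (Fin p × Fin p → Set (BE g w)) → SimpleGraph (Fin n),
      (∀ y y', (∀ i, y i ⊆ y' i) → G y ≤ G y') ∧
      (∀ a b : Fin n, (∃ t : Prop, ∀ y, (G y).Adj a b ↔ t) ∨
        (∃ i e, ∀ y, (G y).Adj a b ↔ e ∈ y i)) ∧
      (∀ y, (∃ c : Finset (Fin n), (G y).IsClique (c : Set (Fin n)) ∧ k ≤ c.card) ↔
        ∃ i, TC (y i)) := by
  set u := k - 2 * g with hu
  have hcard : Fintype.card (Ver p g w u) ≤ Fintype.card (Fin n) := by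
    simp only [Fintype.card_sum, Fintype.card_prod, Fintype.card_fin]
    omega
  obtain ⟨ι⟩ := Function.Embedding.nonempty_of_card_le hcard
  have hku : k = u + 2 * g := by omega
  refine ⟨fun y => (HH y).map ι, ?_, ?_, ?_⟩
  · intro y y' h
    exact SimpleGraph.map_monotone ι (HH_mono h)
  · intro a b
    by_cases ha : ∃ u', ι u' = a
    · by_cases hb : ∃ v', ι v' = b
      · obtain ⟨a', rfl⟩ := ha
        obtain ⟨b', rfl⟩ := hb
        simp only [SimpleGraph.map_adj_apply]
        exact HH_leaf a' b'
      · left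
        refine ⟨False, fun y => ?_⟩
        simp only [SimpleGraph.map_adj, iff_false, not_exists, not_and]
        rintro u' v' _ _ h
        exact hb ⟨v', h⟩
    · left
      refine ⟨False, fun y => ?_⟩
      simp only [SimpleGraph.map_adj, iff_false, not_exists, not_and]
      rintro u' v' _ h _
      exact ha ⟨u', h⟩
  · intro y
    rw [← HH_clique (u := u) hg y]
    constructor
    · rintro ⟨c, hc, hck⟩
      have hrange : ∀ a ∈ c, ∃ a', ι a' = a := by
        intro a ha
        obtain ⟨b, hb, hba⟩ : ∃ b ∈ c, b ≠ a := by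
          apply exists_mem_ne (by omega)
        have := hc hb ha hba
        rw [SimpleGraph.map_adj] at this
        obtain ⟨u', v', _, _, h⟩ := this
        exact ⟨v', h⟩
      refine ⟨univ.filter fun a => ι a ∈ c, ?_, ?_⟩
      · intro a ha b hb hab
        simp only [coe_filter, mem_univ, true_and, Set.mem_ofPred_eq] at ha hb
        have := hc ha hb (fun h => hab (ι.injective h))
        rwa [SimpleGraph.map_adj_apply] at this
      · have : c ⊆ (univ.filter fun a => ι a ∈ c).map ι := by
          intro a ha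
          obtain ⟨a', rfl⟩ := hrange a ha
          simp only [mem_map, mem_filter, mem_univ, true_and]
          exact ⟨a', ha, rfl⟩
        have := card_le_card this
        rw [card_map] at this
        omega
    · rintro ⟨c, hc, hck⟩
      refine ⟨c.map ι, ?_, ?_⟩
      · rw [coe_map]
        exact hc.map
      · rw [card_map]
        omega

end Pool.Agent.T9h16
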