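import Pool.Agent.T9h16.Chain
import Pool.Agent.T9h16.Grid
import Pool.Agent.T9h16.Arith

set_option autoImplicit false

namespace Pool.Agent.T9h16

open Finset
open scoped Classical

/-- The grid embedding, in terms of the input variables `x_e`, `e = (i, j)` with `i < j`, and of
cliques with more than `√n` vertices. -/
theorem clique_emb (n r p : ℕ) (hr : 2 ≤ r) (hk : 2 * GG r ≤ Nat.sqrt n + 1)
    (hp : 2 * (p * (GG r * (2 * r))) + (Nat.sqrt n + 1 - 2 * GG r) ≤ n) :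
    ∃ (G : (Fin p × Fin p → Set (BE (GG r) (2 * r))) → SimpleGraph (Fin n))
      (M : Emb {p : Fin n × Fin n // p.1 < p.2} (Fin p × Fin p) r),
      (∀ y y', (∀ i, y i ⊆ y' i) → G y ≤ G y') ∧
      (∀ y e, M.X y e ↔ (G y).Adj e.1.1 e.1.2) ∧
      (∀ y, (∃ c : Finset (Fin n), (G y).IsClique (c : Set (Fin n)) ∧
        Real.sqrt (n : ℝ) < (c.card : ℝ)) ↔ ∃ i, TC (y i)) := by
  have hg := two_le_GG r hr
  obtain ⟨G, hmono, hleaf, hcl⟩ := grid n (Nat.sqrt n + 1) p (GG r) (2 * r) (by omega) hk hp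
  refine ⟨G, ⟨fun y e => (G y).Adj e.1.1 e.1.2, fun y y' h e hadj => hmono y y' h hadj,
    fun e => hleaf e.1.1 e.1.2⟩, hmono, fun y e => Iff.rfl, fun y => ?_⟩
  rw [← hcl y]
  simp only [sqrt_lt_iff]

end Pool.Agent.T9h16
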