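import Pool.Agent.T9h16.Robust2

set_option autoImplicit false
set_option linter.unusedSectionVars false

namespace Pool.Agent.T9h16

open Finset
open scoped Classical

section
variable {V : Type} [Fintype V] [DecidableEq V] {K : ℕ}

/-- A partition into `R` parts such that every part contains, with probability `1 / 2`, a rainbow
set of the spread family. -/
theorem exists_part (R : ℕ) (hR : 1 ≤ R) (hK : 1 ≤ K) (κ : ℝ) (hκ : κ = 8 * R ^ 2 * K ^ 2)
    (𝓣 : Finset (Finset V)) (hne : 𝓣.Nonempty) (Y : Finset V) (γ : V → Fin K)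
    (hγ : Set.InjOn γ (Y : Set V)) (j : ℕ) (hY : ∀ S ∈ 𝓣, Y ⊆ S) (hj : ∀ S ∈ 𝓣, S.card = j)
    (hjK : j ≤ K)
    (hsp : ∀ Z : Finset V, ((𝓣.filter fun S => Z ⊆ S).card : ℝ) * κ ^ Z.card ≤
      𝓣.card * κ ^ Y.card) :
    ∃ ρ : V → Fin R, ∀ r : Fin R, ((Ext Y γ).filter fun χ =>
      ∀ S ∈ 𝓣, ¬ ((∀ v ∈ S \ Y, ρ v = r) ∧ Set.InjOn χ (S : Set V))).card * 2 ≤
        (Ext Y γ).card := by
  by_contra hcon
  simp only [not_exists, not_forall, not_le] at hcon
  set Zc : (V → Fin R) → Fin R → ℕ := fun ρ r => ((Ext Y γ).filter fun χ =>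
      ∀ S ∈ 𝓣, ¬ ((∀ v ∈ S \ Y, ρ v = r) ∧ Set.InjOn χ (S : Set V))).card with hZc
  have hR0 : (0 : ℝ) < R := by exact_mod_cast hR
  have h1 : ∀ r : Fin R, (∑ ρ, (Zc ρ r : ℝ)) * (4 * R) ≤
      Fintype.card (V → Fin R) * (Ext Y γ).card := by
    intro r
    have h2 := second_moment R hR hK κ hκ 𝓣 hne Y γ hγ j hY hj hjK hsp r
    refine le_trans (le_of_eq ?_) h2
    congr 1
    rw [← Nat.cast_sum]
    congr 1
    rw [card_filter, sum_product]
    apply sum_congr rfl
    intro ρ _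
    simp only [hZc]
    rw [card_filter]
  have h2 : (∑ ρ : V → Fin R, ∑ r, (Zc ρ r : ℝ)) * 4 ≤
      Fintype.card (V → Fin R) * (Ext Y γ).card := by
    rw [sum_comm, sum_mul]
    have h3 : ∀ r : Fin R, (∑ ρ, (Zc ρ r : ℝ)) * 4 ≤
        (Fintype.card (V → Fin R) * (Ext Y γ).card) / R := by
      intro r
      rw [le_div_iff₀ hR0]
      refine le_trans (le_of_eq ?_) (h1 r)
      ring
    refine (sum_le_sum fun r _ => h3 r).trans (le_of_eq ?_)
    rw [sum_const, card_univ, Fintype.card_fin, nsmul_eq_mul]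
    field_simp
  have hE0 : (0 : ℝ) < (Ext Y γ).card := by
    have : 0 < (Ext Y γ).card := card_pos.2 ⟨γ, mem_Ext.2 fun _ _ => rfl⟩
    exact_mod_cast this
  have hF0 : (0 : ℝ) < Fintype.card (V → Fin R) := by
    have : 0 < Fintype.card (V → Fin R) := by
      rw [Fintype.card_fun, Fintype.card_fin]
      positivity
    exact_mod_cast this
  have h4 : (Fintype.card (V → Fin R) : ℝ) * (Ext Y γ).card ≤
      (∑ ρ : V → Fin R, ∑ r, (Zc ρ r : ℝ)) * 2 := by
    calc (Fintype.card (V → Fin R) : ℝ) * (Ext Y γ).card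
        = ∑ _ρ : V → Fin R, ((Ext Y γ).card : ℝ) := by
          rw [sum_const, card_univ, nsmul_eq_mul]
      _ ≤ ∑ ρ : V → Fin R, (∑ r, (Zc ρ r : ℝ)) * 2 := by
          apply sum_le_sum
          intro ρ _
          obtain ⟨r, hr⟩ := hcon ρ
          have h5 : ((Ext Y γ).card : ℝ) ≤ (Zc ρ r : ℝ) * 2 := by
            have : (Ext Y γ).card ≤ Zc ρ r * 2 := hr.le
            exact_mod_cast this
          refine h5.trans ?_
          apply mul_le_mul_of_nonneg_right _ (by norm_num)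
          exact single_le_sum (f := fun r => (Zc ρ r : ℝ)) (fun r _ => Nat.cast_nonneg _)
            (mem_univ r)
      _ = _ := by rw [sum_mul]
  have h6 : 0 < (Fintype.card (V → Fin R) : ℝ) * (Ext Y γ).card := mul_pos hF0 hE0
  linarith

theorem half_step {AB B A E m : ℕ} (h : AB * E = B * A) (hhalf : A * 2 ≤ E)
    (ih : B * 2 ^ m ≤ E) (hE : 0 < E) : AB * 2 ^ (m + 1) ≤ E := by
  have h3 : AB * 2 ≤ B := by
    have h4 : AB * 2 * E ≤ B * E := by
      calc AB * 2 * E = (AB * E) * 2 := by ring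
        _ = (B * A) * 2 := by rw [h]
        _ = B * (A * 2) := by ring
        _ ≤ B * E := Nat.mul_le_mul_left _ hhalf
    exact Nat.le_of_mul_le_mul_right h4 hE
  calc AB * 2 ^ (m + 1) = (AB * 2) * 2 ^ m := by ring
    _ ≤ B * 2 ^ m := Nat.mul_le_mul_right _ h3
    _ ≤ E := ih

/-- Amplification: no set of the spread family is rainbow only with exponentially small
probability. -/
theorem amplify (R : ℕ) (hR : 1 ≤ R) (hK : 1 ≤ K) (κ : ℝ) (hκ : κ = 8 * R ^ 2 * K ^ 2)
    (𝓣 : Finset (Finset V)) (hne : 𝓣.Nonempty) (Y : Finset V) (γ : V → Fin K)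
    (hγ : Set.InjOn γ (Y : Set V)) (j : ℕ) (hY : ∀ S ∈ 𝓣, Y ⊆ S) (hj : ∀ S ∈ 𝓣, S.card = j)
    (hjK : j ≤ K)
    (hsp : ∀ Z : Finset V, ((𝓣.filter fun S => Z ⊆ S).card : ℝ) * κ ^ Z.card ≤
      𝓣.card * κ ^ Y.card) :
    ((Ext Y γ).filter fun χ => ∀ S ∈ 𝓣, ¬ Set.InjOn χ (S : Set V)).card * 2 ^ R ≤
      (Ext Y γ).card := by
  obtain ⟨ρ, hρ⟩ := exists_part R hR hK κ hκ 𝓣 hne Y γ hγ j hY hj hjK hsp
  set Zr : ℕ → (V → Fin K) → Prop := fun m χ =>
      ∀ S ∈ 𝓣, ¬ ((∀ v ∈ S \ Y, (ρ v).val = m) ∧ Set.InjOn χ (S : Set V)) with hZr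
  have hE0 : 0 < (Ext Y γ).card := card_pos.2 ⟨γ, mem_Ext.2 fun _ _ => rfl⟩
  have key : ∀ m ≤ R, ∀ P : (V → Fin K) → Prop, (∀ χ, P χ ↔ ∀ r < m, Zr r χ) →
      ((Ext Y γ).filter P).card * 2 ^ m ≤ (Ext Y γ).card := by
    intro m
    induction m with
    | zero =>
      intro _ P _
      rw [pow_zero, mul_one]
      exact card_le_card (filter_subset _ _)
    | succ m ih =>
      intro hm P hP
      obtain ⟨B, hB⟩ : ∃ B : (V → Fin K) → Prop, ∀ χ, B χ ↔ ∀ r < m, Zr r χ :=
        ⟨_, fun _ => Iff.rfl⟩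
      obtain ⟨A, hA⟩ : ∃ A : (V → Fin K) → Prop, ∀ χ, A χ ↔ Zr m χ := ⟨_, fun _ => Iff.rfl⟩
      have ih' := ih (by omega) B hB
      have hind := indep Y γ (univ.filter fun v => (ρ v).val = m) A B (by
          intro χ hχ χ' hχ' hag hZ
          rw [hA] at hZ ⊢
          intro S hS hS2
          apply hZ S hS
          refine ⟨hS2.1, ?_⟩
          rw [mem_Ext] at hχ hχ'
          have hSag : ∀ v ∈ S, χ v = χ' v := by
            intro v hv
            by_cases hvY : v ∈ Y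
            · rw [hχ v hvY, hχ' v hvY]
            · apply hag
              rw [mem_filter]
              exact ⟨mem_univ _, hS2.1 v (mem_sdiff.2 ⟨hv, hvY⟩)⟩
          intro u hu u' hu' huu
          rw [hSag u hu, hSag u' hu'] at huu
          exact hS2.2 hu hu' huu) (by
          intro χ hχ χ' hχ' hag hZ
          rw [hB] at hZ ⊢
          intro r hr S hS hS2
          apply hZ r hr S hS
          refine ⟨hS2.1, ?_⟩
          rw [mem_Ext] at hχ hχ'
          have hSag : ∀ v ∈ S, χ v = χ' v := by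
            intro v hv
            by_cases hvY : v ∈ Y
            · rw [hχ v hvY, hχ' v hvY]
            · apply hag
              rw [mem_filter, not_and]
              intro _ h
              have := hS2.1 v (mem_sdiff.2 ⟨hv, hvY⟩)
              omega
          intro u hu u' hu' huu
          rw [hSag u hu, hSag u' hu'] at huu
          exact hS2.2 hu hu' huu)
      have hhalf : ((Ext Y γ).filter A).card * 2 ≤ (Ext Y γ).card := by
        have h1 := hρ ⟨m, by omega⟩
        refine le_trans (Nat.mul_le_mul_right _ (card_le_card ?_)) h1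
        intro χ hχ
        rw [mem_filter, hA] at hχ
        rw [mem_filter]
        refine ⟨hχ.1, fun S hS h => hχ.2 S hS ⟨fun v hv => ?_, h.2⟩⟩
        exact Fin.ext_iff.1 (h.1 v hv)
      have hsub : (Ext Y γ).filter P ⊆ (Ext Y γ).filter fun χ => B χ ∧ A χ := by
        intro χ hχ
        rw [mem_filter, hP] at hχ
        rw [mem_filter, hB, hA]
        exact ⟨hχ.1, fun r hr => hχ.2 r (by omega), hχ.2 m (by omega)⟩
      exact (Nat.mul_le_mul_right _ (card_le_card hsub)).trans (half_step hind hhalf ih' hE0)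
  refine le_trans (Nat.mul_le_mul_right _ (card_le_card ?_))
    (key R le_rfl (fun χ => ∀ r < R, Zr r χ) (fun _ => Iff.rfl))
  intro χ hχ
  rw [mem_filter] at hχ ⊢
  exact ⟨hχ.1, fun r _ S hS h => hχ.2 S hS h.2⟩

/-- The robust sunflower lemma for random colourings: a family of more than `κ ^ j` sets of size
`j ≤ K`, where `κ = 8 R ^ 2 K ^ 2`, has a proper core `Y` such that a random colouring with `K`
colours is injective on `Y`, but on no set of the family, only with probability at most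
`1 / 2 ^ R`. -/
theorem robust_sunflower (R : ℕ) (hR : 1 ≤ R) (hK : 1 ≤ K) (𝓢 : Finset (Finset V)) (j : ℕ)
    (hj : ∀ S ∈ 𝓢, S.card = j) (hjK : j ≤ K) (hcard : (8 * R ^ 2 * K ^ 2) ^ j < 𝓢.card) :
    ∃ Y : Finset V, Y.card < j ∧ (∃ S ∈ 𝓢, Y ⊆ S) ∧
      (univ.filter fun χ : V → Fin K => Set.InjOn χ (Y : Set V) ∧
        ∀ S ∈ 𝓢, ¬ Set.InjOn χ (S : Set V)).card * 2 ^ R ≤ Fintype.card (V → Fin K) := by
  set κ := 8 * R ^ 2 * K ^ 2 with hκ
  set F : Finset V → ℕ := fun Z => (𝓢.filter fun S => Z ⊆ S).card * κ ^ Z.card with hF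
  obtain ⟨Y, -, hY⟩ := exists_max_image (univ : Finset (Finset V)) F ⟨∅, mem_univ _⟩
  have hF0 : F ∅ = 𝓢.card := by
    simp [hF]
  have hFY : κ ^ j < F Y := by
    refine lt_of_lt_of_le hcard ?_
    rw [← hF0]
    exact hY ∅ (mem_univ _)
  have hlt : Y.card < j := by
    by_contra hge
    rw [not_lt] at hge
    have h1 : (𝓢.filter fun S => Y ⊆ S) ⊆ if Y.card = j then {Y} else ∅ := by
      intro S hS
      rw [mem_filter] at hS
      have h2 := card_le_card hS.2
      rw [hj S hS.1] at h2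
      have h3 : Y.card = j := le_antisymm h2 hge
      rw [if_pos h3, mem_singleton]
      symm
      apply eq_of_subset_of_card_le hS.2
      rw [hj S hS.1, h3]
    have h2 := card_le_card h1
    split_ifs at h2 with h3
    · rw [card_singleton] at h2
      have : F Y ≤ 1 * κ ^ j := by
        simp only [hF]
        rw [h3]
        exact Nat.mul_le_mul_right _ h2
      omega
    · rw [card_empty] at h2
      have : F Y ≤ 0 * κ ^ Y.card := Nat.mul_le_mul_right _ h2
      omega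
  have hne : (𝓢.filter fun S => Y ⊆ S).Nonempty := by
    rw [← card_pos]
    by_contra h0
    have h1 : (𝓢.filter fun S => Y ⊆ S).card = 0 := by omega
    have : F Y = 0 := by simp only [hF]; rw [h1, zero_mul]
    omega
  obtain ⟨S₀, hS₀⟩ := hne
  refine ⟨Y, hlt, ⟨S₀, (mem_filter.1 hS₀).1, (mem_filter.1 hS₀).2⟩, ?_⟩
  set 𝓣 := 𝓢.filter fun S => Y ⊆ S with h𝓣
  have hsp : ∀ Z : Finset V, ((𝓣.filter fun S => Z ⊆ S).card : ℝ) * (κ : ℝ) ^ Z.card ≤
      𝓣.card * (κ : ℝ) ^ Y.card := by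
    intro Z
    have h1 := hY Z (mem_univ _)
    simp only [hF] at h1
    have h2 : (𝓣.filter fun S => Z ⊆ S).card ≤ (𝓢.filter fun S => Z ⊆ S).card := by
      apply card_le_card
      intro S hS
      rw [mem_filter, h𝓣, mem_filter] at hS
      rw [mem_filter]
      exact ⟨hS.1.1, hS.2⟩
    exact_mod_cast (Nat.mul_le_mul_right _ h2).trans h1
  -- sum over the colourings of `Y`
  set ρ : (V → Fin K) → ({u // u ∈ Y} → Fin K) := fun χ u => χ u.1 with hρ
  set bad := univ.filter fun χ : V → Fin K => Set.InjOn χ (Y : Set V) ∧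
        ∀ S ∈ 𝓢, ¬ Set.InjOn χ (S : Set V) with hbad
  rw [card_eq_sum_card_fiberwise (s := bad) (f := ρ) (t := univ) (fun _ _ => mem_univ _), sum_mul,
    ← card_univ, card_eq_sum_card_fiberwise (s := (univ : Finset (V → Fin K))) (f := ρ) (t := univ)
      (fun _ _ => mem_univ _)]
  apply sum_le_sum
  intro δ _
  by_cases hne : (bad.filter fun χ => ρ χ = δ).Nonempty
  · obtain ⟨χ₀, hχ₀⟩ := hne
    rw [mem_filter, hbad, mem_filter] at hχ₀
    obtain ⟨⟨-, h1, h2⟩, h3⟩ := hχ₀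
    have hEq : (univ.filter fun χ : V → Fin K => ρ χ = δ) = Ext Y χ₀ := by
      ext χ
      rw [mem_filter, mem_Ext]
      constructor
      · rintro ⟨-, h⟩ u hu
        exact congrFun (h.trans h3.symm) ⟨u, hu⟩
      · intro h
        refine ⟨mem_univ _, ?_⟩
        rw [← h3]
        funext u
        exact h u.1 u.2
    have hamp := amplify R hR hK (κ : ℝ) (by rw [hκ]; push_cast; rfl) 𝓣 ⟨S₀, hS₀⟩ Y χ₀ h1 j
      (fun S hS => (mem_filter.1 hS).2) (fun S hS => hj S (mem_filter.1 hS).1) hjK hsp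
    rw [hEq]
    refine le_trans (Nat.mul_le_mul_right _ (card_le_card ?_)) hamp
    intro χ hχ
    rw [mem_filter, hbad, mem_filter] at hχ
    rw [mem_filter, ← hEq, mem_filter]
    exact ⟨⟨mem_univ _, hχ.2⟩, fun S hS => hχ.1.2.2 S (mem_filter.1 hS).1⟩
  · rw [not_nonempty_iff_eq_empty] at hne
    rw [hne]
    simp

end

end Pool.Agent.T9h16
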