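import Pool.Agent.T9h16.Approx
import Pool.Agent.T9h16.ApproxC
import Pool.Agent.T9h16.Robust3

set_option autoImplicit false
set_option linter.unusedSectionVars false

namespace Pool.Agent.T9h16

open Finset
open scoped Classical

section
variable {V : Type} [Fintype V] [DecidableEq V] {K : ℕ}

/-- The family accepts the colouring `χ`. -/
def Acc (𝒜 : Set (Finset V)) (χ : V → Fin K) : Prop := ∃ A ∈ 𝒜, Set.InjOn χ (A : Set V)

/-- The family captures `Y`: it is rare that a colouring is injective on `Y` and not accepted. -/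
def Capt (K D : ℕ) (𝒜 : Set (Finset V)) (Y : Finset V) : Prop :=
  (univ.filter fun χ : V → Fin K => Set.InjOn χ (Y : Set V) ∧ ¬ Acc 𝒜 χ).card * D ≤
    Fintype.card (V → Fin K)

/-- Closed families of sets with at most `ℓ` elements. -/
def ClosedF (K D ℓ : ℕ) (𝒜 : Set (Finset V)) : Prop :=
  (∀ A ∈ 𝒜, A.card ≤ ℓ) ∧ ∀ Y : Finset V, Y.card ≤ ℓ → Capt K D 𝒜 Y → Y ∈ 𝒜

theorem Acc.mono {𝒜 ℬ : Set (Finset V)} (h : 𝒜 ⊆ ℬ) {χ : V → Fin K} (ha : Acc 𝒜 χ) : Acc ℬ χ := by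
  obtain ⟨A, hA, hi⟩ := ha
  exact ⟨A, h hA, hi⟩

theorem Capt.mono {D : ℕ} {𝒜 ℬ : Set (Finset V)} (h : 𝒜 ⊆ ℬ) {Y : Finset V}
    (ha : Capt K D 𝒜 Y) : Capt K D ℬ Y := by
  refine le_trans (Nat.mul_le_mul_right _ (card_le_card ?_)) ha
  intro χ hχ
  rw [mem_filter] at hχ ⊢
  exact ⟨hχ.1, hχ.2.1, fun h' => hχ.2.2 (h'.mono h)⟩

theorem ClosedF.inter {D ℓ : ℕ} {𝒜 ℬ : Set (Finset V)} (hA : ClosedF K D ℓ 𝒜)
    (hB : ClosedF K D ℓ ℬ) : ClosedF K D ℓ (𝒜 ∩ ℬ) :=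
  ⟨fun A h => hA.1 A h.1, fun Y hY hc => ⟨hA.2 Y hY (hc.mono Set.inter_subset_left),
    hB.2 Y hY (hc.mono Set.inter_subset_right)⟩⟩

/-- Closed families are closed upwards. -/
theorem ClosedF.up {D ℓ : ℕ} {𝒜 : Set (Finset V)} (hA : ClosedF K D ℓ 𝒜) {A Y : Finset V}
    (h : A ∈ 𝒜) (hAY : A ⊆ Y) (hY : Y.card ≤ ℓ) : Y ∈ 𝒜 := by
  apply hA.2 Y hY
  have hempty : (univ.filter fun χ : V → Fin K => Set.InjOn χ (Y : Set V) ∧ ¬ Acc 𝒜 χ) = ∅ := by
    rw [filter_eq_empty_iff]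
    rintro χ - ⟨h1, h2⟩
    exact h2 ⟨A, h, h1.mono (by exact_mod_cast hAY)⟩
  rw [Capt, hempty]
  simp

/-- The number of sets with at most `ℓ` elements. -/
noncomputable def UU (V : Type) [Fintype V] [DecidableEq V] (ℓ : ℕ) : ℕ :=
  (univ.filter fun A : Finset V => A.card ≤ ℓ).card

/-- Existence of a closure with a small error. -/
theorem exists_closure (K D ℓ : ℕ) (𝒜 : Set (Finset V)) (hA : ∀ A ∈ 𝒜, A.card ≤ ℓ) :
    ∃ ℬ : Set (Finset V), 𝒜 ⊆ ℬ ∧ ClosedF K D ℓ ℬ ∧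
      (univ.filter fun χ : V → Fin K => Acc ℬ χ ∧ ¬ Acc 𝒜 χ).card * D ≤
        UU V ℓ * Fintype.card (V → Fin K) := by
  set good : Finset (Finset (Finset V)) := univ.filter fun 𝒟 =>
    (∀ A ∈ 𝒜, A ∈ 𝒟) ∧ (∀ A ∈ 𝒟, A.card ≤ ℓ) ∧
      (univ.filter fun χ : V → Fin K => Acc {A | A ∈ 𝒟} χ ∧ ¬ Acc 𝒜 χ).card * D ≤
        𝒟.card * Fintype.card (V → Fin K) with hgood
  have hne : good.Nonempty := by
    refine ⟨univ.filter fun A => A ∈ 𝒜, ?_⟩
    rw [hgood, mem_filter]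
    refine ⟨mem_univ _, fun A h => by simp [h], fun A h => hA A (by simpa using h), ?_⟩
    have hempty : (univ.filter fun χ : V → Fin K =>
        Acc {A | A ∈ univ.filter fun A => A ∈ 𝒜} χ ∧ ¬ Acc 𝒜 χ) = ∅ := by
      rw [filter_eq_empty_iff]
      rintro χ - ⟨⟨A, h1, h2⟩, h3⟩
      refine h3 ⟨A, ?_, h2⟩
      simpa using h1
    rw [hempty]
    simp
  obtain ⟨𝒟, h𝒟, hmax⟩ := exists_max_image good Finset.card hne
  rw [hgood, mem_filter] at h𝒟
  obtain ⟨-, h1, h2, h3⟩ := h𝒟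
  refine ⟨{A | A ∈ 𝒟}, fun A h => h1 A h, ⟨fun A h => h2 A h, ?_⟩, ?_⟩
  · intro Y hY hcap
    by_contra hnot
    have hnot' : Y ∉ 𝒟 := hnot
    have hins : insert Y 𝒟 ∈ good := by
      rw [hgood, mem_filter]
      refine ⟨mem_univ _, fun A h => mem_insert_of_mem (h1 A h), ?_, ?_⟩
      · intro A h
        rcases mem_insert.1 h with rfl | h
        · exact hY
        · exact h2 A h
      · have hsub : (univ.filter fun χ : V → Fin K =>
            Acc {A | A ∈ insert Y 𝒟} χ ∧ ¬ Acc 𝒜 χ) ⊆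
            (univ.filter fun χ : V → Fin K => Acc {A | A ∈ 𝒟} χ ∧ ¬ Acc 𝒜 χ) ∪
            (univ.filter fun χ : V → Fin K => Set.InjOn χ (Y : Set V) ∧
              ¬ Acc {A | A ∈ 𝒟} χ) := by
          intro χ hχ
          rw [mem_filter] at hχ
          obtain ⟨-, ⟨A, hA1, hA2⟩, hA3⟩ := hχ
          rw [mem_union, mem_filter, mem_filter]
          by_cases hacc : Acc {A | A ∈ 𝒟} χ
          · exact Or.inl ⟨mem_univ _, hacc, hA3⟩
          · right
            refine ⟨mem_univ _, ?_, hacc⟩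
            rcases mem_insert.1 hA1 with rfl | h
            · exact hA2
            · exact (hacc ⟨A, h, hA2⟩).elim
        calc (univ.filter fun χ : V → Fin K =>
            Acc {A | A ∈ insert Y 𝒟} χ ∧ ¬ Acc 𝒜 χ).card * D
            ≤ ((univ.filter fun χ : V → Fin K => Acc {A | A ∈ 𝒟} χ ∧ ¬ Acc 𝒜 χ).card +
              (univ.filter fun χ : V → Fin K => Set.InjOn χ (Y : Set V) ∧
              ¬ Acc {A | A ∈ 𝒟} χ).card) * D :=
              Nat.mul_le_mul_right _ ((card_le_card hsub).trans (card_union_le _ _))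
          _ ≤ 𝒟.card * Fintype.card (V → Fin K) + Fintype.card (V → Fin K) := by
              rw [add_mul]
              exact Nat.add_le_add h3 hcap
          _ = (insert Y 𝒟).card * Fintype.card (V → Fin K) := by
              rw [card_insert_of_notMem hnot']
              ring
    have := hmax _ hins
    rw [card_insert_of_notMem hnot'] at this
    omega
  · refine h3.trans (Nat.mul_le_mul_right _ (card_le_card ?_))
    intro A h
    rw [mem_filter]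
    exact ⟨mem_univ _, h2 A h⟩

/-- The minimal sets of a family. -/
noncomputable def MinF (𝒜 : Set (Finset V)) : Finset (Finset V) :=
  univ.filter fun A => A ∈ 𝒜 ∧ ∀ B ∈ 𝒜, B ⊆ A → B = A

theorem exists_min {𝒜 : Set (Finset V)} {A : Finset V} (hA : A ∈ 𝒜) :
    ∃ B ∈ MinF 𝒜, B ⊆ A := by
  obtain ⟨B, hB, hmin⟩ := exists_min_image (univ.filter fun B => B ∈ 𝒜 ∧ B ⊆ A) Finset.card
    ⟨A, by simp [hA]⟩
  rw [mem_filter] at hB
  refine ⟨B, ?_, hB.2.2⟩
  rw [MinF, mem_filter]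
  refine ⟨mem_univ _, hB.2.1, fun C hC hCB => ?_⟩
  apply eq_of_subset_of_card_le hCB
  apply hmin
  rw [mem_filter]
  exact ⟨mem_univ _, hC, hCB.trans hB.2.2⟩

/-- A closed family has few minimal sets. -/
theorem card_MinF_le (R ℓ : ℕ) (hR : 1 ≤ R) (hK : 1 ≤ K) (hℓ : ℓ ≤ K) {𝒜 : Set (Finset V)}
    (hA : ClosedF K (2 ^ R) ℓ 𝒜) : (MinF 𝒜).card ≤ (8 * R ^ 2 * K ^ 2) ^ (ℓ + 1) := by
  set κ := 8 * R ^ 2 * K ^ 2 with hκ
  have hκ2 : 2 ≤ κ := by
    have h1 : 1 ≤ R ^ 2 := Nat.one_le_pow _ _ hR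
    have h2 : 1 ≤ K ^ 2 := Nat.one_le_pow _ _ hK
    rw [hκ]
    nlinarith
  have hj : ∀ j ≤ ℓ, ((MinF 𝒜).filter fun A => A.card = j).card ≤ κ ^ j := by
    intro j hj
    by_contra hcon
    rw [not_le] at hcon
    obtain ⟨Y, h1, ⟨S, h2, h3⟩, h4⟩ := robust_sunflower R hR hK
      ((MinF 𝒜).filter fun A => A.card = j) j (fun S hS => (mem_filter.1 hS).2) (hj.trans hℓ) hcon
    rw [mem_filter, MinF, mem_filter] at h2
    have hY : Y ∈ 𝒜 := by
      apply hA.2 Y (by omega)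
      refine le_trans (Nat.mul_le_mul_right _ (card_le_card ?_)) h4
      intro χ hχ
      rw [mem_filter] at hχ ⊢
      refine ⟨mem_univ _, hχ.2.1, fun S' hS' hinj => hχ.2.2 ⟨S', ?_, hinj⟩⟩
      rw [mem_filter, MinF, mem_filter] at hS'
      exact hS'.1.2.1
    have := h2.1.2.2 Y hY h3
    rw [this, h2.2] at h1
    exact lt_irrefl _ h1
  have hmaps : ∀ A ∈ MinF 𝒜, A.card ∈ range (ℓ + 1) := by
    intro A hA'
    rw [MinF, mem_filter] at hA'
    rw [mem_range]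
    exact Nat.lt_succ_of_le (hA.1 A hA'.2.1)
  rw [card_eq_sum_card_fiberwise hmaps]
  calc ∑ j ∈ range (ℓ + 1), ((MinF 𝒜).filter fun A => A.card = j).card
      ≤ ∑ j ∈ range (ℓ + 1), κ ^ j := by
        apply sum_le_sum
        intro j hj'
        rw [mem_range] at hj'
        exact hj j (by omega)
    _ ≤ κ ^ (ℓ + 1) := by
        have h := Nat.geomSum_lt (m := κ) (n := ℓ + 1) (s := range (ℓ + 1)) hκ2 (by
          intro k hk
          exact mem_range.1 hk)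
        exact h.le

end

end Pool.Agent.T9h16
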