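import Pool.Agent.T9h16.Star

set_option autoImplicit false

namespace Pool.Agent.T9h16

open Finset
open scoped Classical

/-- Few colourings avoid a colour on a large set. -/
theorem card_avoid {V K : Type} [Fintype V] [Fintype K] [DecidableEq K] (κ : K) (Y : Finset V)
    (ℓ : ℕ) (hY : Fintype.card K * ℓ ≤ Y.card) :
    (univ.filter fun χ : V → K => ∀ x ∈ Y, χ x ≠ κ).card * 2 ^ ℓ ≤ Fintype.card (V → K) := by
  obtain ⟨Y', hY', hcY⟩ := exists_subset_card_eq hY
  set A := Fintype.card K with hA
  have hA1 : 1 ≤ A := Fintype.card_pos_iff.2 ⟨κ⟩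
  have hsub : (univ.filter fun χ : V → K => ∀ x ∈ Y, χ x ≠ κ) ⊆
      Fintype.piFinset (fun x => if x ∈ Y' then univ.erase κ else univ) := by
    intro χ hχ
    simp only [mem_filter, mem_univ, true_and] at hχ
    rw [Fintype.mem_piFinset]
    intro x
    split_ifs with hx
    · exact mem_erase.2 ⟨hχ x (hY' hx), mem_univ _⟩
    · exact mem_univ _
  have hprod : (Fintype.piFinset (fun x : V => if x ∈ Y' then (univ.erase κ : Finset K)
      else univ)).card * A ^ Y'.card = (A - 1) ^ Y'.card * Fintype.card (V → K) := by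
    rw [Fintype.card_piFinset]
    have h1 : ∀ x : V, (if x ∈ Y' then (univ.erase κ : Finset K) else univ).card =
        if x ∈ Y' then A - 1 else A := by
      intro x
      split_ifs
      · rw [card_erase_of_mem (mem_univ _), card_univ]
      · rw [card_univ]
    rw [prod_congr rfl fun x _ => h1 x]
    calc (∏ x : V, if x ∈ Y' then A - 1 else A) * A ^ Y'.card
        = (∏ x : V, if x ∈ Y' then A - 1 else A) * (∏ x : V, if x ∈ Y' then A else 1) := by
          congr 1
          rw [prod_ite_mem, univ_inter, prod_const]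
      _ = (∏ x : V, if x ∈ Y' then A - 1 else 1) * (∏ _x : V, A) := by
          rw [← prod_mul_distrib, ← prod_mul_distrib]
          apply prod_congr rfl
          intro x _
          split_ifs
          · rfl
          · ring
      _ = (A - 1) ^ Y'.card * Fintype.card (V → K) := by
          rw [prod_ite_mem, univ_inter, prod_const, prod_const, Fintype.card_fun, card_univ]
  have h2 : (A - 1) ^ Y'.card * 2 ^ ℓ ≤ A ^ Y'.card := by
    rw [hcY, pow_mul (A - 1) A ℓ, pow_mul A A ℓ, ← mul_pow]
    exact Nat.pow_le_pow_left (two_mul_pow_le A hA1) _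
  have hpos : 0 < A ^ Y'.card := Nat.pow_pos hA1
  apply Nat.le_of_mul_le_mul_right _ hpos
  calc (univ.filter fun χ : V → K => ∀ x ∈ Y, χ x ≠ κ).card * 2 ^ ℓ * A ^ Y'.card
      ≤ (Fintype.piFinset (fun x : V => if x ∈ Y' then (univ.erase κ : Finset K)
          else univ)).card * 2 ^ ℓ * A ^ Y'.card :=
        Nat.mul_le_mul_right _ (Nat.mul_le_mul_right _ (card_le_card hsub))
    _ = ((Fintype.piFinset (fun x : V => if x ∈ Y' then (univ.erase κ : Finset K)
          else univ)).card * A ^ Y'.card) * 2 ^ ℓ := by ring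
    _ = ((A - 1) ^ Y'.card * 2 ^ ℓ) * Fintype.card (V → K) := by rw [hprod]; ring
    _ ≤ A ^ Y'.card * Fintype.card (V → K) := Nat.mul_le_mul_right _ h2
    _ = Fintype.card (V → K) * A ^ Y'.card := by ring

/-- Half of the colourings give the role `false` to a vertex. -/
theorem card_role {V K : Type} [Fintype V] [Fintype K] (v : V) :
    2 * (univ.filter fun χ : V → Bool × K => (χ v).1 = false).card =
      Fintype.card (V → Bool × K) := by
  have h1 := card_filter_add_card_filter_not (s := (univ : Finset (V → Bool × K)))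
    (fun χ => (χ v).1 = false)
  have h2 : (univ.filter fun χ : V → Bool × K => (χ v).1 = false).card =
      (univ.filter fun χ : V → Bool × K => ¬ (χ v).1 = false).card := by
    refine card_bij' (fun χ _ => Function.update χ v (true, (χ v).2))
      (fun χ _ => Function.update χ v (false, (χ v).2)) ?_ ?_ ?_ ?_
    · intro χ _
      simp
    · intro χ _
      simp
    · intro χ hχ
      simp only [mem_filter, mem_univ, true_and] at hχ
      funext x
      by_cases hx : x = v
      · subst hx
        simp [← hχ]
      · simp [hx]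
    · intro χ hχ
      simp only [mem_filter, mem_univ, true_and, Bool.not_eq_false] at hχ
      funext x
      by_cases hx : x = v
      · subst hx
        simp [← hχ]
      · simp [hx]
  rw [card_univ] at h1
  omega

/-- A colouring for which many pairs (centre, group) are good. -/
theorem exists_coloring {V B : Type} [Fintype V] [Fintype B] (t ℓ : ℕ)
    (C : Finset V) (N : V → Finset V) (hℓ : 4 * Fintype.card B ≤ 2 ^ ℓ)
    (hN : ∀ v ∈ C, (2 * (t * Fintype.card B)) * ℓ ≤ (N v).card) (hK : Nonempty (Fin t × B)) :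
    ∃ (χ : V → Bool × (Fin t × B)) (good : Finset (V × Fin t)), C.card * t ≤ 4 * good.card ∧
      ∀ q ∈ good, q.1 ∈ C ∧ (χ q.1).1 = true ∧
        ∀ e, ∃ x ∈ N q.1, χ x = (false, (q.2, e)) := by
  set T := Fintype.card (V → Bool × (Fin t × B)) with hT
  have hcardK : Fintype.card (Bool × (Fin t × B)) = 2 * (t * Fintype.card B) := by
    simp [Fintype.card_prod]
  -- a fixed pair is good for at least a quarter of the colourings
  have hpair : ∀ q ∈ C ×ˢ (univ : Finset (Fin t)), T ≤
      4 * (univ.filter fun χ : V → Bool × (Fin t × B) =>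
        (χ q.1).1 = true ∧ ∀ e, ∃ x ∈ N q.1, χ x = (false, (q.2, e))).card := by
    rintro ⟨v, j⟩ hq
    rw [mem_product] at hq
    set good := univ.filter fun χ : V → Bool × (Fin t × B) =>
        (χ v).1 = true ∧ ∀ e, ∃ x ∈ N v, χ x = (false, (j, e)) with hgood
    set bad1 := univ.filter fun χ : V → Bool × (Fin t × B) => (χ v).1 = false with hbad1
    set bad2 : B → Finset (V → Bool × (Fin t × B)) := fun e =>
      univ.filter fun χ : V → Bool × (Fin t × B) => ∀ x ∈ N v, χ x ≠ (false, (j, e)) with hbad2
    have hcov : (univ : Finset (V → Bool × (Fin t × B))) ⊆ good ∪ (bad1 ∪ univ.biUnion bad2) := by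
      intro χ _
      by_cases h1 : (χ v).1 = false
      · simp [hbad1, h1]
      · by_cases h2 : ∀ e, ∃ x ∈ N v, χ x = (false, (j, e))
        · rw [mem_union]
          left
          rw [hgood, mem_filter]
          exact ⟨mem_univ _, by simpa using h1, h2⟩
        · rw [not_forall] at h2
          obtain ⟨e, he⟩ := h2
          rw [mem_union, mem_union]
          right; right
          rw [mem_biUnion]
          refine ⟨e, mem_univ _, ?_⟩
          rw [hbad2, mem_filter]
          refine ⟨mem_univ _, fun x hx hc => he ⟨x, hx, hc⟩⟩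
    have h1 : T ≤ good.card + (bad1.card + ∑ e, (bad2 e).card) := by
      calc T = (univ : Finset (V → Bool × (Fin t × B))).card := rfl
        _ ≤ (good ∪ (bad1 ∪ univ.biUnion bad2)).card := card_le_card hcov
        _ ≤ good.card + (bad1 ∪ univ.biUnion bad2).card := card_union_le _ _
        _ ≤ good.card + (bad1.card + (univ.biUnion bad2).card) :=
            Nat.add_le_add_left (card_union_le _ _) _
        _ ≤ good.card + (bad1.card + ∑ e, (bad2 e).card) :=
            Nat.add_le_add_left (Nat.add_le_add_left card_biUnion_le _) _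
    have h2 : 2 * bad1.card = T := card_role v
    have h3 : ∀ e, (bad2 e).card * 2 ^ ℓ ≤ T := by
      intro e
      have h := card_avoid (false, (j, e)) (N v) ℓ (by
        rw [hcardK]
        exact hN v hq.1)
      exact h
    have h4 : 4 * ∑ e, (bad2 e).card ≤ T := by
      by_cases hB : Fintype.card B = 0
      · have : IsEmpty B := Fintype.card_eq_zero_iff.1 hB
        simp
      have h5 : (∑ e, (bad2 e).card) * 2 ^ ℓ ≤ Fintype.card B * T := by
        rw [sum_mul]
        calc ∑ e, (bad2 e).card * 2 ^ ℓ ≤ ∑ _e : B, T := sum_le_sum fun e _ => h3 e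
          _ = Fintype.card B * T := by rw [sum_const, smul_eq_mul, card_univ]
      have h6 : (∑ e, (bad2 e).card) * (4 * Fintype.card B) ≤ Fintype.card B * T :=
        (Nat.mul_le_mul_left _ hℓ).trans h5
      have h7 : Fintype.card B * (4 * ∑ e, (bad2 e).card) ≤ Fintype.card B * T := by
        refine le_trans (le_of_eq ?_) h6
        ring
      exact Nat.le_of_mul_le_mul_left h7 (Nat.pos_of_ne_zero hB)
    change T ≤ 4 * good.card
    omega
  -- double counting
  have hsum : ∑ χ : V → Bool × (Fin t × B), C.card * t ≤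
      ∑ χ : V → Bool × (Fin t × B), 4 * ((C ×ˢ (univ : Finset (Fin t))).filter fun q =>
        (χ q.1).1 = true ∧ ∀ e, ∃ x ∈ N q.1, χ x = (false, (q.2, e))).card := by
    rw [sum_const, smul_eq_mul, card_univ, ← mul_sum]
    have hswap : ∑ χ : V → Bool × (Fin t × B), ((C ×ˢ (univ : Finset (Fin t))).filter fun q =>
        (χ q.1).1 = true ∧ ∀ e, ∃ x ∈ N q.1, χ x = (false, (q.2, e))).card =
        ∑ q ∈ C ×ˢ (univ : Finset (Fin t)), (univ.filter fun χ : V → Bool × (Fin t × B) =>
        (χ q.1).1 = true ∧ ∀ e, ∃ x ∈ N q.1, χ x = (false, (q.2, e))).card := by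
      simp only [card_filter]
      exact sum_comm
    rw [hswap, mul_sum]
    calc Fintype.card (V → Bool × (Fin t × B)) * (C.card * t)
        = ∑ _q ∈ C ×ˢ (univ : Finset (Fin t)), T := by
          rw [sum_const, smul_eq_mul, card_product, card_univ, Fintype.card_fin]
          ring
      _ ≤ _ := sum_le_sum hpair
  obtain ⟨κ⟩ := hK
  have hne : (univ : Finset (V → Bool × (Fin t × B))).Nonempty :=
    ⟨fun _ => (true, κ), mem_univ _⟩
  obtain ⟨χ, -, hχ⟩ := exists_le_of_sum_le hne hsum
  refine ⟨χ, _, hχ, fun q hq => ?_⟩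
  rw [mem_filter, mem_product] at hq
  exact ⟨hq.1.1, hq.2⟩

end Pool.Agent.T9h16
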