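import Pool.Agent.T9h16.SatSharp

/-!
# Small monotone circuits which accept every positive test reject very few colourings
-/

set_option autoImplicit false
set_option linter.unusedSectionVars false

namespace Pool.Agent.T9h16

open Finset
open scoped Classical

section
variable {V : Type} [Fintype V] [DecidableEq V] {K : ℕ}

/-- A closed family has few minimal sets of every size. -/
theorem card_MinF_size (R ℓ : ℕ) (hR : 1 ≤ R) (hK : 1 ≤ K) (hℓ : ℓ ≤ K) {𝒜 : Set (Finset V)}
    (hA : ClosedF K (2 ^ R) ℓ 𝒜) (j : ℕ) (hj : j ≤ ℓ) :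
    ((MinF 𝒜).filter fun A => A.card = j).card ≤ (8 * R ^ 2 * K ^ 2) ^ j := by
  by_contra hcon
  rw [not_le] at hcon
  obtain ⟨Y, h1, ⟨S, h2, h3⟩, h4⟩ := robust_sunflower R hR hK
    ((MinF 𝒜).filter fun A => A.card = j) j (fun S hS => (mem_filter.1 hS).2) (hj.trans hℓ) hcon
  rw [mem_filter, MinF, mem_filter] at h2
  have hY : Y ∈ 𝒜 := by
    apply hA.2 Y (by omega)
    refine le_trans (Nat.mul_le_mul_right _ (card_le_card ?_)) h4
    intro χ hχ
    rw [mem_filter] at hχ ⊢
    refine ⟨mem_univ _, hχ.2.1, fun S' hS' hinj => hχ.2.2 ⟨S', ?_, hinj⟩⟩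
    rw [mem_filter, MinF, mem_filter] at hS'
    exact hS'.1.2.1
  have := h2.1.2.2 Y hY h3
  rw [this, h2.2] at h1
  exact lt_irrefl _ h1

end

theorem geom_quarter (m : ℕ) : 3 * ∑ j ∈ range m, 4 ^ (m - j) ≤ 4 * (4 ^ m - 1) := by
  induction m with
  | zero => simp
  | succ m ih =>
    rw [sum_range_succ]
    have h : ∑ j ∈ range m, 4 ^ (m + 1 - j) = 4 * ∑ j ∈ range m, 4 ^ (m - j) := by
      rw [mul_sum]
      apply sum_congr rfl
      intro j hj
      rw [mem_range] at hj
      rw [show m + 1 - j = (m - j) + 1 by omega, pow_succ]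
      ring
    rw [h, show m + 1 - m = 1 by omega, pow_one, pow_succ]
    have : 1 ≤ 4 ^ m := Nat.one_le_pow _ _ (by norm_num)
    omega

/-- A monotone straight-line program of size `s` which accepts all transversals accepts all but very
few of the colourings with `K` colours. -/
theorem few_rejected {I E : Type} [Fintype I] [DecidableEq I] {w K : ℕ} {a b : E → I × Fin w}
    (hK : 2 ≤ K) (hab : ∀ e, a e ≠ b e) (R s : ℕ) (hR : 1 ≤ R)
    (hw : 4 * (8 * R ^ 2 * K ^ 2) ≤ w)
    (hsw : 2 * s * ((8 * R ^ 2 * K ^ 2) ^ 2) ^ (K + 1) ≤ w ^ (K + 1))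
    (gt : ℕ → Set E → Prop) (hg : IsSLP gt s) (h : Set E → Prop) (hh : Avail gt s h)
    (hpos : ∀ φ : I → Fin w, h (posT a b φ)) :
    (univ.filter fun χ : I × Fin w → Fin K => ¬ h (negC a b χ)).card * 2 ^ R ≤
      (3 * s + 1) * UU (I × Fin w) K * Fintype.card (I × Fin w → Fin K) := by
  set κ := 8 * R ^ 2 * K ^ 2 with hκ
  have hκ1 : 1 ≤ κ := by
    have h1 : 1 ≤ R ^ 2 := Nat.one_le_pow _ _ hR
    have h2 : 1 ≤ K ^ 2 := Nat.one_le_pow _ _ (by omega)
    rw [hκ]
    nlinarith
  have hw1 : 1 ≤ w := by omega
  obtain ⟨PE, NE, hPE, hNE, happ⟩ := approxR_slp (w := w) (K := K) (D := 2 ^ R) (ℓ := K)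
    (a := a) (b := b) hw1 hK hab (κ ^ (K + 1))
    (fun 𝒜 h𝒜 => card_MinF_le R K hR (by omega) le_rfl h𝒜) gt s hg
  have hNΦ : 0 < Fintype.card (I → Fin w) := by
    rw [Fintype.card_fun, Fintype.card_fin]
    exact Nat.pow_pos hw1
  have hPElt : 2 * PE.card ≤ Fintype.card (I → Fin w) := by
    have h1 : (2 * PE.card) * w ^ (K + 1) ≤ Fintype.card (I → Fin w) * w ^ (K + 1) := by
      calc (2 * PE.card) * w ^ (K + 1) = 2 * (PE.card * w ^ (K + 1)) := by ring
        _ ≤ 2 * (s * ((κ ^ (K + 1)) ^ 2 * Fintype.card (I → Fin w))) := Nat.mul_le_mul_left _ hPE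
        _ = (2 * s * (κ ^ 2) ^ (K + 1)) * Fintype.card (I → Fin w) := by
            rw [pow_right_comm κ (K + 1) 2]; ring
        _ ≤ w ^ (K + 1) * Fintype.card (I → Fin w) := Nat.mul_le_mul_right _ hsw
        _ = _ := by ring
    exact Nat.le_of_mul_le_mul_right h1 (Nat.pow_pos hw1)
  obtain ⟨N, hN, hoapp⟩ : ∃ N : Finset (I × Fin w → Fin K),
      N.card * 2 ^ R ≤ UU (I × Fin w) K * Fintype.card (I × Fin w → Fin K) ∧
      ApproxR w K (2 ^ R) K a b PE (NE ∪ N) h := by
    rcases hh with ho | ⟨j, hj, ho⟩
    · exact approxR_leaf hK hab ho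
    · refine ⟨∅, by simp, ?_⟩
      rw [union_empty]
      exact (happ j hj).congr ho
  obtain ⟨𝒜, h1, h2, h3⟩ := hoapp
  have hsize : ∀ j ≤ K, ((MinF 𝒜).filter fun A => A.card = j).card ≤ κ ^ j :=
    fun j hj => card_MinF_size R K hR (by omega) le_rfl h1 j hj
  clear_value κ
  have hempty : (∅ : Finset (I × Fin w)) ∈ 𝒜 := by
    by_contra hnot
    -- every transversal outside of `PE` satisfies a nonempty minimal set
    have hcov : (univ : Finset (I → Fin w)) ⊆ PE ∪ (MinF 𝒜).biUnion
        fun B => univ.filter fun φ : I → Fin w => ∀ v ∈ B, φ v.1 = v.2 := by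
      intro φ _
      rw [mem_union]
      by_cases hφ : φ ∈ PE
      · exact Or.inl hφ
      · right
        obtain ⟨A, hA, hAφ⟩ := h2 φ hφ (hpos φ)
        obtain ⟨B, hB, hBA⟩ := exists_min hA
        rw [mem_biUnion]
        refine ⟨B, hB, ?_⟩
        rw [mem_filter]
        exact ⟨mem_univ _, fun v hv => hAφ v (hBA hv)⟩
    have hne : ∀ B ∈ MinF 𝒜, B.card ∈ (range (K + 1)).erase 0 := by
      intro B hB
      rw [MinF, mem_filter] at hB
      rw [mem_erase, mem_range]
      refine ⟨fun h0 => hnot ?_, Nat.lt_succ_of_le (h1.1 B hB.2.1)⟩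
      rw [card_eq_zero] at h0
      rw [← h0]
      exact hB.2.1
    set Φ := Fintype.card (I → Fin w) with hΦ
    have hone : ∀ B ∈ MinF 𝒜,
        (univ.filter fun φ : I → Fin w => ∀ v ∈ B, φ v.1 = v.2).card * w ^ B.card ≤ Φ := by
      intro B _
      have h := card_prescribed w B
      refine le_trans (Nat.mul_le_mul (le_of_eq ?_) le_rfl) h
      apply filter_card_congr
      intro φ _
      exact Iff.rfl
    have hsum : ((MinF 𝒜).biUnion fun B =>
        univ.filter fun φ : I → Fin w => ∀ v ∈ B, φ v.1 = v.2).card * 4 ^ K * 3 ≤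
        (4 ^ K - 1) * Φ := by
      have hstep : ∀ j ∈ (range (K + 1)).erase 0,
          (∑ B ∈ (MinF 𝒜).filter fun B => B.card = j,
            (univ.filter fun φ : I → Fin w => ∀ v ∈ B, φ v.1 = v.2).card) * 4 ^ K ≤
            4 ^ (K - j) * Φ := by
        intro j hj
        rw [mem_erase, mem_range] at hj
        have hjK : j ≤ K := by omega
        have e1 : (∑ B ∈ (MinF 𝒜).filter fun B => B.card = j,
            (univ.filter fun φ : I → Fin w => ∀ v ∈ B, φ v.1 = v.2).card) * w ^ j ≤
            κ ^ j * Φ := by
          rw [sum_mul]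
          calc ∑ B ∈ (MinF 𝒜).filter fun B => B.card = j,
              (univ.filter fun φ : I → Fin w => ∀ v ∈ B, φ v.1 = v.2).card * w ^ j
              ≤ ∑ B ∈ (MinF 𝒜).filter fun B => B.card = j, Φ := by
                apply sum_le_sum
                intro B hB
                rw [mem_filter] at hB
                have := hone B hB.1
                rwa [hB.2] at this
            _ = ((MinF 𝒜).filter fun B => B.card = j).card * Φ := by
                rw [sum_const, smul_eq_mul]
            _ ≤ κ ^ j * Φ := Nat.mul_le_mul_right _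
                (hsize j hjK)
        have e2 : (∑ B ∈ (MinF 𝒜).filter fun B => B.card = j,
            (univ.filter fun φ : I → Fin w => ∀ v ∈ B, φ v.1 = v.2).card) * 4 ^ K * κ ^ j ≤
            4 ^ (K - j) * Φ * κ ^ j := by
          calc (∑ B ∈ (MinF 𝒜).filter fun B => B.card = j,
              (univ.filter fun φ : I → Fin w => ∀ v ∈ B, φ v.1 = v.2).card) * 4 ^ K * κ ^ j
              = (∑ B ∈ (MinF 𝒜).filter fun B => B.card = j,
                (univ.filter fun φ : I → Fin w => ∀ v ∈ B, φ v.1 = v.2).card) *
                  (4 * κ) ^ j * 4 ^ (K - j) := by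
                have : 4 ^ K = 4 ^ j * 4 ^ (K - j) := by
                  rw [← pow_add]; congr 1; omega
                rw [this, mul_pow 4 κ j]
                ring
            _ ≤ (∑ B ∈ (MinF 𝒜).filter fun B => B.card = j,
                (univ.filter fun φ : I → Fin w => ∀ v ∈ B, φ v.1 = v.2).card) *
                  w ^ j * 4 ^ (K - j) :=
                Nat.mul_le_mul_right _ (Nat.mul_le_mul_left _ (Nat.pow_le_pow_left hw _))
            _ ≤ κ ^ j * Φ * 4 ^ (K - j) := Nat.mul_le_mul_right _ e1
            _ = _ := by ring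
        exact Nat.le_of_mul_le_mul_right e2 (Nat.pow_pos hκ1)
      calc ((MinF 𝒜).biUnion fun B =>
          univ.filter fun φ : I → Fin w => ∀ v ∈ B, φ v.1 = v.2).card * 4 ^ K * 3
          ≤ (∑ B ∈ MinF 𝒜, (univ.filter fun φ : I → Fin w => ∀ v ∈ B, φ v.1 = v.2).card) *
            4 ^ K * 3 :=
            Nat.mul_le_mul_right _ (Nat.mul_le_mul_right _ card_biUnion_le)
        _ = (∑ j ∈ (range (K + 1)).erase 0, ∑ B ∈ (MinF 𝒜).filter fun B => B.card = j,
              (univ.filter fun φ : I → Fin w => ∀ v ∈ B, φ v.1 = v.2).card) * 4 ^ K * 3 := by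
            rw [sum_fiberwise_of_maps_to hne]
        _ = (∑ j ∈ (range (K + 1)).erase 0, (∑ B ∈ (MinF 𝒜).filter fun B => B.card = j,
              (univ.filter fun φ : I → Fin w => ∀ v ∈ B, φ v.1 = v.2).card) * 4 ^ K) * 3 := by
            rw [sum_mul]
        _ ≤ (∑ j ∈ (range (K + 1)).erase 0, 4 ^ (K - j) * Φ) * 3 :=
            Nat.mul_le_mul_right _ (sum_le_sum hstep)
        _ = (3 * ∑ j ∈ (range (K + 1)).erase 0, 4 ^ (K - j)) * Φ := by
            rw [← sum_mul]; ring
        _ ≤ (4 ^ K - 1) * Φ := by
            apply Nat.mul_le_mul_right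
            have e3 : ∑ j ∈ (range (K + 1)).erase 0, 4 ^ (K - j) + 4 ^ K =
                ∑ j ∈ range (K + 1), 4 ^ (K - j) := by
              have := sum_erase_add (range (K + 1)) (fun j => 4 ^ (K - j))
                (a := 0) (mem_range.2 (by omega))
              simpa using this
            have e4 : ∑ j ∈ range (K + 1), 4 ^ (K - j) = ∑ j ∈ range K, 4 ^ (K - j) + 1 := by
              rw [sum_range_succ]
              simp
            have e5 := geom_quarter K
            have e6 : 1 ≤ 4 ^ K := Nat.one_le_pow _ _ (by norm_num)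
            omega
    have hall : Φ ≤ PE.card + ((MinF 𝒜).biUnion fun B =>
        univ.filter fun φ : I → Fin w => ∀ v ∈ B, φ v.1 = v.2).card := by
      have := (card_le_card hcov).trans (card_union_le _ _)
      rwa [card_univ] at this
    have e7 : 1 ≤ 4 ^ K := Nat.one_le_pow _ _ (by norm_num)
    have hpos4 : 0 < 4 ^ K := e7
    generalize ((MinF 𝒜).biUnion fun B =>
        univ.filter fun φ : I → Fin w => ∀ v ∈ B, φ v.1 = v.2).card = M at *
    generalize PE.card = P at *
    -- 2 P ≤ Φ, 3 M 4^K ≤ (4^K - 1) Φ, Φ ≤ P + M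
    have h8 : 3 * M ≤ Φ := by
      have : 3 * M * 4 ^ K ≤ Φ * 4 ^ K := by
        calc 3 * M * 4 ^ K = M * 4 ^ K * 3 := by ring
          _ ≤ (4 ^ K - 1) * Φ := hsum
          _ ≤ 4 ^ K * Φ := Nat.mul_le_mul_right _ (Nat.sub_le _ _)
          _ = _ := by ring
      exact Nat.le_of_mul_le_mul_right this hpos4
    omega
  have hsub : (univ.filter fun χ : I × Fin w → Fin K => ¬ h (negC a b χ)) ⊆ NE ∪ N := by
    intro χ hχ
    rw [mem_filter] at hχ
    by_contra hnot
    exact hχ.2 (h3 χ hnot ⟨∅, hempty, by simp⟩)
  calc (univ.filter fun χ : I × Fin w → Fin K => ¬ h (negC a b χ)).card * 2 ^ R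
      ≤ (NE ∪ N).card * 2 ^ R := Nat.mul_le_mul_right _ (card_le_card hsub)
    _ ≤ (NE.card + N.card) * 2 ^ R := Nat.mul_le_mul_right _ (card_union_le _ _)
    _ = NE.card * 2 ^ R + N.card * 2 ^ R := by ring
    _ ≤ 3 * s * (UU (I × Fin w) K * Fintype.card (I × Fin w → Fin K)) +
        UU (I × Fin w) K * Fintype.card (I × Fin w → Fin K) := Nat.add_le_add hNE hN
    _ = _ := by ring

/-- A product bound: `acc` is a property of partial points `y : ι → Option X`, preserved if a
coordinate becomes undefined, and for all values of the other coordinates at most `m` values of a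
coordinate are accepted.  Then at most `m ^ |ι|` points are accepted. -/
theorem prod_bound {ι X : Type} [Fintype ι] [DecidableEq ι] [Fintype X] (x₀ : X)
    (acc : (ι → Option X) → Prop)
    (hmono : ∀ y i, acc y → acc (Function.update y i none)) (m : ℕ)
    (hm : ∀ y i, (univ.filter fun x : X => acc (Function.update y i (some x))).card ≤ m) :
    (univ.filter fun x : ι → X => acc fun i => some (x i)).card ≤ m ^ Fintype.card ι := by
  have key : ∀ T : Finset ι, (univ.filter fun x : ι → X =>
      (acc fun i => if i ∈ T then some (x i) else none) ∧ ∀ j, j ∉ T → x j = x₀).card ≤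
        m ^ T.card := by
    intro T
    induction T using Finset.induction_on with
    | empty =>
      rw [card_empty, pow_zero, card_le_one]
      intro x hx y hy
      rw [mem_filter] at hx hy
      funext j
      rw [hx.2.2 j (by simp), hy.2.2 j (by simp)]
    | insert i T hi ih =>
      rw [card_insert_of_notMem hi, pow_succ]
      have h1 : (univ.filter fun x : ι → X =>
          (acc fun j => if j ∈ insert i T then some (x j) else none) ∧
            ∀ j, j ∉ insert i T → x j = x₀).card ≤
          m * (univ.filter fun x : ι → X =>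
            (acc fun i => if i ∈ T then some (x i) else none) ∧ ∀ j, j ∉ T → x j = x₀).card := by
        apply card_le_mul_card_image_of_maps_to (f := fun x => Function.update x i x₀)
        · intro x hx
          rw [mem_filter] at hx ⊢
          refine ⟨mem_univ _, ?_, ?_⟩
          · have h2 := hmono _ i hx.2.1
            have h3 : (Function.update (fun j => if j ∈ insert i T then some (x j) else none) i
                none) = fun j => if j ∈ T then some (Function.update x i x₀ j) else none := by
              funext j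
              by_cases hj : j = i
              · subst hj
                rw [Function.update_self, if_neg hi]
              · rw [Function.update_of_ne hj, Function.update_of_ne hj]
                by_cases hjT : j ∈ T
                · rw [if_pos hjT, if_pos (mem_insert_of_mem hjT)]
                · rw [if_neg hjT, if_neg (by rw [mem_insert]; tauto)]
            rw [h3] at h2
            exact h2
          · intro j hj
            by_cases hji : j = i
            · subst hji
              rw [Function.update_self]
            · rw [Function.update_of_ne hji]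
              exact hx.2.2 j (by rw [mem_insert]; tauto)
        · intro y hy
          refine le_trans ?_ (hm (fun j => if j ∈ T then some (y j) else none) i)
          apply card_le_card_of_injOn (fun x => x i)
          · intro x hx
            rw [mem_coe, mem_filter, mem_filter] at hx
            rw [mem_coe, mem_filter]
            refine ⟨mem_univ _, ?_⟩
            have h3 : (Function.update (fun j => if j ∈ T then some (y j) else none) i
                (some (x i))) = fun j => if j ∈ insert i T then some (x j) else none := by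
              funext j
              by_cases hj : j = i
              · subst hj
                rw [Function.update_self, if_pos (mem_insert_self _ _)]
              · rw [Function.update_of_ne hj]
                have hyj : y j = x j := by
                  rw [← hx.2, Function.update_of_ne hj]
                by_cases hjT : j ∈ T
                · rw [if_pos hjT, if_pos (mem_insert_of_mem hjT), hyj]
                · rw [if_neg hjT, if_neg (by rw [mem_insert]; tauto)]
            rw [h3]
            exact hx.1.2.1
          · intro x hx x' hx' hxx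
            rw [mem_coe, mem_filter] at hx hx'
            funext j
            by_cases hj : j = i
            · rw [hj]; exact hxx
            · have e1 := congrFun (hx.2.trans hx'.2.symm) j
              rwa [Function.update_of_ne hj, Function.update_of_ne hj] at e1
      calc _ ≤ _ := h1
        _ ≤ m * m ^ T.card := Nat.mul_le_mul_left _ ih
        _ = _ := by ring
  have h := key univ
  rw [card_univ] at h
  refine le_trans (card_le_card ?_) h
  intro x hx
  rw [mem_filter] at hx ⊢
  refine ⟨mem_univ _, ?_, fun j hj => absurd (mem_univ j) hj⟩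
  simpa using hx.2

end Pool.Agent.T9h16
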