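import Pool.Agent.T9h16.GapCore

/-!
# The average over a random chain of inputs
-/

set_option autoImplicit false
set_option linter.unusedSectionVars false

namespace Pool.Agent.T9h16

open Finset
open scoped Classical

section
variable {Λ ι I E : Type} [Fintype ι] [Fintype I] [Fintype E] [DecidableEq I] [DecidableEq E]
  {m w A : ℕ}

/-- The inputs of the chain: the blocks with numbers less than `k` contain noise, the others are
empty. -/
def chainY (e : Fin m ≃ ι) (ω : ι → E → Fin A) (k : ℕ) : ι → Set E :=
  fun i => if (e.symm i).val < k then negT (ω i) else ∅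

theorem chainY_self (e : Fin m ≃ ι) (ω : ι → E → Fin A) (k : Fin m) :
    chainY e ω k.val (e k) = ∅ := by
  simp [chainY]

theorem chainY_succ (e : Fin m ≃ ι) (ω : ι → E → Fin A) (k : Fin m) :
    chainY e ω (k.val + 1) = Function.update (chainY e ω k.val) (e k) (negT (ω (e k))) := by
  funext i
  by_cases hi : i = e k
  · subst hi
    rw [Function.update_self]
    simp [chainY]
  · rw [Function.update_of_ne hi]
    simp only [chainY]
    have h : (e.symm i).val ≠ k.val := by
      intro h
      apply hi
      rw [← Fin.ext h, Equiv.apply_symm_apply]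
    by_cases h2 : (e.symm i).val < k.val
    · rw [if_pos h2, if_pos (by omega)]
    · rw [if_neg h2, if_neg (by omega)]

theorem chainY_update (e : Fin m ≃ ι) (ω : ι → E → Fin A) (k : Fin m) (χ : E → Fin A) :
    chainY e (Function.update ω (e k) χ) k.val = chainY e ω k.val := by
  funext i
  simp only [chainY]
  by_cases hi : i = e k
  · subst hi
    simp
  · rw [Function.update_of_ne hi]

theorem chainY_mono (e : Fin m ≃ ι) (ω : ι → E → Fin A) (k : ℕ) :
    ∀ i, chainY e ω k i ⊆ chainY e ω (k + 1) i := by
  intro i
  simp only [chainY]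
  by_cases h2 : (e.symm i).val < k
  · rw [if_pos h2, if_pos (by omega)]
  · rw [if_neg h2]
    exact Set.empty_subset _

theorem chainY_le (e : Fin m ≃ ι) (ω : ι → E → Fin A) (k : ℕ) :
    ∀ i, chainY e ω k i ⊆ negT (ω i) := by
  intro i
  simp only [chainY]
  split_ifs
  · exact subset_rfl
  · exact Set.empty_subset _

/-- On average over a random step of the chain, a circuit with few gates and few changes of its
`neg` gates cannot accept positive tests and reject negative tests. -/
theorem average {a b : E → I × Fin w} (hinj : ∀ e e', a e = a e' → b e = b e' → e = e')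
    (r q : ℕ) (hr : 2 ≤ r) (hq : 1 ≤ q) (hqr : q ≤ 2 ^ r) (hw : w = 4 * r)
    (hA : A = 4 * r ^ 2 * q) (e : Fin m ≃ ι)
    (C : Circ Λ) (hs : C.size ≤ 2 ^ r) (M : EmbG Λ ι E)
    (val : (ι → Set E) → Fin C.size → Prop) (hval : ∀ y, C.Run (M.X y) (val y))
    (lev : Fin C.size → ℕ)
    (hlev : ∀ i j, (C.left i = Sum.inr j → lev j ≤ lev i) ∧
      (C.kind i ≠ .neg → C.right i = Sum.inr j → lev j ≤ lev i))
    (hlev' : ∀ i j, C.kind i = .neg → C.left i = Sum.inr j → lev j < lev i)
    (d : ℕ) (hd : ∀ i, C.kind i = .neg → lev i ≤ d) :
    ((∑ k : Fin m, ∑ ω : ι → E → Fin A, (univ.filter fun φ : I → Fin w =>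
        val (Function.update (chainY e ω k.val) (e k) (posT a b φ)) C.out).card) +
      (∑ k : Fin m, (univ.filter fun ω : ι → E → Fin A =>
        ¬ val (chainY e ω (k.val + 1)) C.out).card) * Fintype.card (I → Fin w)) * (2 * q) ≤
    Fintype.card (ι → E → Fin A) * Fintype.card (I → Fin w) * (m * (2 * q + 1) + 2 * q *
      ∏ ℓ ∈ range (d + 1), ((univ.filter fun i => C.kind i = .neg ∧ lev i = ℓ).card + 1)) := by
  set NΦ := Fintype.card (I → Fin w) with hNΦ
  set NX := Fintype.card (E → Fin A) with hNX
  set PP := ∏ ℓ ∈ range (d + 1), ((univ.filter fun i => C.kind i = .neg ∧ lev i = ℓ).card + 1)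
    with hPP
  have hA1 : 1 ≤ A := by
    rw [hA]
    exact Nat.mul_pos (by positivity) hq
  have hNX0 : 0 < NX := by
    rw [hNX, Fintype.card_fun, Fintype.card_fin]
    exact Nat.pow_pos hA1
  -- no change of the `neg` gates at step `k`
  set NC : Fin m → (ι → E → Fin A) → Prop := fun k ω => ∀ i, C.kind i = .neg →
    (val (chainY e ω k.val) i ↔ val (chainY e ω (k.val + 1)) i) with hNC
  have hstep : ∀ k : Fin m,
      (∑ ω : ι → E → Fin A, (univ.filter fun φ : I → Fin w =>
        val (Function.update (chainY e ω k.val) (e k) (posT a b φ)) C.out).card) * (2 * q) +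
      (univ.filter fun ω : ι → E → Fin A =>
        ¬ val (chainY e ω (k.val + 1)) C.out ∧ NC k ω).card * NΦ * (2 * q) ≤
      (2 * q + 1) * Fintype.card (ι → E → Fin A) * NΦ := by
    intro k
    have h1 : ∀ ω : ι → E → Fin A, (univ.filter fun φ : I → Fin w =>
        val (Function.update (chainY e ω k.val) (e k) (posT a b φ)) C.out).card * NX * (2 * q) +
        (univ.filter fun χ : E → Fin A =>
          ¬ val (Function.update (chainY e ω k.val) (e k) (negT χ)) C.out ∧
          ∀ i, C.kind i = .neg → (val (chainY e ω k.val) i ↔
            val (Function.update (chainY e ω k.val) (e k) (negT χ)) i)).card * NΦ * (2 * q) ≤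
        (2 * q + 1) * NX * NΦ := by
      intro ω
      obtain ⟨gt, O, hg, hO, hpos, hneg⟩ := frozen_functions C M val hval (chainY e ω k.val) (e k)
        (chainY_self e ω k)
      have h2 := approx_counts (A := A) hinj r q C.size hr hq hs hqr hw hA gt hg O hO
        (fun φ => val (Function.update (chainY e ω k.val) (e k) (posT a b φ)) C.out)
        (fun χ => ¬ val (Function.update (chainY e ω k.val) (e k) (negT χ)) C.out ∧
          ∀ i, C.kind i = .neg → (val (chainY e ω k.val) i ↔
            val (Function.update (chainY e ω k.val) (e k) (negT χ)) i))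
        (fun φ hφ => hpos _ hφ) (fun χ hχ => hneg _ hχ.1 hχ.2)
      have h3 : (univ.filter fun φ : I → Fin w =>
        val (Function.update (chainY e ω k.val) (e k) (posT a b φ)) C.out).card ≤ NΦ :=
        card_le_univ _
      have h4 : (univ.filter fun χ : E → Fin A =>
          ¬ val (Function.update (chainY e ω k.val) (e k) (negT χ)) C.out ∧
          ∀ i, C.kind i = .neg → (val (chainY e ω k.val) i ↔
            val (Function.update (chainY e ω k.val) (e k) (negT χ)) i)).card ≤ NX :=
        card_le_univ _
      rw [← hNΦ, ← hNX] at h2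
      have h2' : (univ.filter fun φ : I → Fin w =>
          val (Function.update (chainY e ω k.val) (e k) (posT a b φ)) C.out).card * (4 * q) ≤ NΦ ∨
          (univ.filter fun χ : E → Fin A =>
          ¬ val (Function.update (chainY e ω k.val) (e k) (negT χ)) C.out ∧
          ∀ i, C.kind i = .neg → (val (chainY e ω k.val) i ↔
            val (Function.update (chainY e ω k.val) (e k) (negT χ)) i)).card * (2 * q) ≤ NX :=
        h2.imp (fun h => (Nat.mul_le_mul_right _ (le_of_eq (fcc _ fun φ _ => Iff.rfl))).trans h)
          (fun h => (Nat.mul_le_mul_right _ (le_of_eq (fcc _ fun χ _ => Iff.rfl))).trans h)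
      clear h2
      generalize (univ.filter fun φ : I → Fin w =>
        val (Function.update (chainY e ω k.val) (e k) (posT a b φ)) C.out).card = p at *
      generalize (univ.filter fun χ : E → Fin A =>
          ¬ val (Function.update (chainY e ω k.val) (e k) (negT χ)) C.out ∧
          ∀ i, C.kind i = .neg → (val (chainY e ω k.val) i ↔
            val (Function.update (chainY e ω k.val) (e k) (negT χ)) i)).card = n at *
      rcases h2' with h2 | h2
      · calc p * NX * (2 * q) + n * NΦ * (2 * q) ≤ p * (4 * q) * NX + NX * NΦ * (2 * q) := by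
              apply Nat.add_le_add
              · calc p * NX * (2 * q) = (p * (2 * q)) * NX := by ring
                  _ ≤ (p * (4 * q)) * NX :=
                    Nat.mul_le_mul_right _ (Nat.mul_le_mul_left _ (by omega))
              · exact Nat.mul_le_mul_right _ (Nat.mul_le_mul_right _ h4)
          _ ≤ NΦ * NX + NX * NΦ * (2 * q) := Nat.add_le_add_right (Nat.mul_le_mul_right _ h2) _
          _ = _ := by ring
      · calc p * NX * (2 * q) + n * NΦ * (2 * q) ≤ NΦ * NX * (2 * q) + (n * (2 * q)) * NΦ := by
              apply Nat.add_le_add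
              · exact Nat.mul_le_mul_right _ (Nat.mul_le_mul_right _ h3)
              · exact le_of_eq (by ring)
          _ ≤ NΦ * NX * (2 * q) + NX * NΦ := Nat.add_le_add_left (Nat.mul_le_mul_right _ h2) _
          _ = _ := by ring
    -- resampling block `e k`
    have h5 : ∑ ω : ι → E → Fin A, (univ.filter fun χ : E → Fin A =>
          ¬ val (Function.update (chainY e ω k.val) (e k) (negT χ)) C.out ∧
          ∀ i, C.kind i = .neg → (val (chainY e ω k.val) i ↔
            val (Function.update (chainY e ω k.val) (e k) (negT χ)) i)).card =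
        NX * (univ.filter fun ω : ι → E → Fin A =>
          ¬ val (chainY e ω (k.val + 1)) C.out ∧ NC k ω).card := by
      have h6 := resample (e k) (fun ω : ι → E → Fin A =>
        if ¬ val (chainY e ω (k.val + 1)) C.out ∧ NC k ω then 1 else 0)
      rw [← card_filter] at h6
      rw [hNX, ← h6]
      apply sum_congr rfl
      intro ω _
      rw [card_filter]
      apply sum_congr rfl
      intro χ _
      have e1 : chainY e (Function.update ω (e k) χ) (k.val + 1) =
          Function.update (chainY e ω k.val) (e k) (negT χ) := by
        rw [chainY_succ, chainY_update, Function.update_self]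
      have e2 := chainY_update e ω k χ
      simp only [hNC, e1, e2]
    have h7 : ((∑ ω : ι → E → Fin A, (univ.filter fun φ : I → Fin w =>
        val (Function.update (chainY e ω k.val) (e k) (posT a b φ)) C.out).card) * (2 * q) +
        (univ.filter fun ω : ι → E → Fin A =>
          ¬ val (chainY e ω (k.val + 1)) C.out ∧ NC k ω).card * NΦ * (2 * q)) * NX ≤
        ((2 * q + 1) * Fintype.card (ι → E → Fin A) * NΦ) * NX := by
      calc _ = (∑ ω : ι → E → Fin A, (univ.filter fun φ : I → Fin w =>
            val (Function.update (chainY e ω k.val) (e k) (posT a b φ)) C.out).card) * NX *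
              (2 * q) +
            (NX * (univ.filter fun ω : ι → E → Fin A =>
              ¬ val (chainY e ω (k.val + 1)) C.out ∧ NC k ω).card) * NΦ * (2 * q) := by ring
        _ = ∑ ω : ι → E → Fin A, ((univ.filter fun φ : I → Fin w =>
              val (Function.update (chainY e ω k.val) (e k) (posT a b φ)) C.out).card * NX *
                (2 * q) +
            (univ.filter fun χ : E → Fin A =>
              ¬ val (Function.update (chainY e ω k.val) (e k) (negT χ)) C.out ∧
              ∀ i, C.kind i = .neg → (val (chainY e ω k.val) i ↔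
                val (Function.update (chainY e ω k.val) (e k) (negT χ)) i)).card * NΦ *
                (2 * q)) := by
            rw [← h5, sum_add_distrib, sum_mul, sum_mul, sum_mul, sum_mul]
        _ ≤ ∑ _ω : ι → E → Fin A, (2 * q + 1) * NX * NΦ := sum_le_sum fun ω _ => h1 ω
        _ = _ := by
            rw [sum_const, card_univ, smul_eq_mul]
            ring
    exact Nat.le_of_mul_le_mul_right h7 hNX0
  -- the number of changes
  have hch : ∑ k : Fin m, (univ.filter fun ω : ι → E → Fin A => ¬ NC k ω).card ≤
      Fintype.card (ι → E → Fin A) * PP := by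
    calc ∑ k : Fin m, (univ.filter fun ω : ι → E → Fin A => ¬ NC k ω).card
        = ∑ ω : ι → E → Fin A, (univ.filter fun k : Fin m => ¬ NC k ω).card := by
          simp_rw [card_filter]
          exact sum_comm
      _ ≤ ∑ _ω : ι → E → Fin A, PP := by
          apply sum_le_sum
          intro ω _
          have h1 := changes_le C (fun k => M.X (chainY e ω k))
            (fun k x => M.mono _ _ (chainY_mono e ω k) x) (fun k => val (chainY e ω k))
            (fun k => hval _) lev hlev hlev' d hd m
          have h2 : (univ.filter fun k : Fin m => ¬ NC k ω).card ≤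
              ((range m).filter fun k => ∃ i, C.kind i = .neg ∧
                ¬ (val (chainY e ω k) i ↔ val (chainY e ω (k + 1)) i)).card := by
            apply card_le_card_of_injOn (fun k : Fin m => k.val)
            · intro k hk
              rw [mem_coe, mem_filter] at hk
              rw [mem_coe, mem_filter, mem_range]
              refine ⟨k.isLt, ?_⟩
              have := hk.2
              simp only [hNC, not_forall] at this
              obtain ⟨i, hi, h⟩ := this
              exact ⟨i, hi, h⟩
            · intro k _ k' _ h
              exact Fin.ext h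
          rw [hPP]
          omega
      _ = _ := by rw [sum_const, card_univ, smul_eq_mul]
  have hsplit : ∀ k : Fin m, (univ.filter fun ω : ι → E → Fin A =>
        ¬ val (chainY e ω (k.val + 1)) C.out).card ≤
      (univ.filter fun ω : ι → E → Fin A =>
        ¬ val (chainY e ω (k.val + 1)) C.out ∧ NC k ω).card +
      (univ.filter fun ω : ι → E → Fin A => ¬ NC k ω).card := by
    intro k
    refine le_trans (card_le_card ?_) (card_union_le _ _)
    intro ω hω
    rw [mem_union, mem_filter, mem_filter]
    rw [mem_filter] at hω
    by_cases h : NC k ω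
    · exact Or.inl ⟨mem_univ _, hω.2, h⟩
    · exact Or.inr ⟨mem_univ _, h⟩
  calc _ = ∑ k : Fin m, ((∑ ω : ι → E → Fin A, (univ.filter fun φ : I → Fin w =>
        val (Function.update (chainY e ω k.val) (e k) (posT a b φ)) C.out).card) * (2 * q) +
      (univ.filter fun ω : ι → E → Fin A =>
        ¬ val (chainY e ω (k.val + 1)) C.out).card * NΦ * (2 * q)) := by
        rw [sum_add_distrib, ← sum_mul, ← sum_mul, ← sum_mul]
        ring
    _ ≤ ∑ k : Fin m, (((∑ ω : ι → E → Fin A, (univ.filter fun φ : I → Fin w =>
        val (Function.update (chainY e ω k.val) (e k) (posT a b φ)) C.out).card) * (2 * q) +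
      (univ.filter fun ω : ι → E → Fin A =>
        ¬ val (chainY e ω (k.val + 1)) C.out ∧ NC k ω).card * NΦ * (2 * q)) +
      (univ.filter fun ω : ι → E → Fin A => ¬ NC k ω).card * (NΦ * (2 * q))) := by
        apply sum_le_sum
        intro k _
        have := Nat.mul_le_mul_right (NΦ * (2 * q)) (hsplit k)
        rw [add_mul] at this
        rw [mul_assoc _ NΦ (2 * q), mul_assoc _ NΦ (2 * q)]
        omega
    _ ≤ ∑ k : Fin m, ((2 * q + 1) * Fintype.card (ι → E → Fin A) * NΦ +
      (univ.filter fun ω : ι → E → Fin A => ¬ NC k ω).card * (NΦ * (2 * q))) :=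
        sum_le_sum fun k _ => Nat.add_le_add_right (hstep k) _
    _ = m * ((2 * q + 1) * Fintype.card (ι → E → Fin A) * NΦ) +
      (∑ k : Fin m, (univ.filter fun ω : ι → E → Fin A => ¬ NC k ω).card) * (NΦ * (2 * q)) := by
        rw [sum_add_distrib, sum_const, card_univ, Fintype.card_fin, smul_eq_mul, sum_mul]
    _ ≤ m * ((2 * q + 1) * Fintype.card (ι → E → Fin A) * NΦ) +
      (Fintype.card (ι → E → Fin A) * PP) * (NΦ * (2 * q)) :=
        Nat.add_le_add_left (Nat.mul_le_mul_right _ hch) _
    _ = _ := by ring

end

end Pool.Agent.T9h16
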