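import Pool.Agent.T9h16.ChainG

/-!
# Quantitative form of the step lemma, and the number of changes along a chain
-/

set_option autoImplicit false
set_option linter.unusedSectionVars false

namespace Pool.Agent.T9h16

open Finset
open scoped Classical

section
variable {Λ ι E : Type}

/-- The monotone functions obtained from a circuit by freezing the `neg` gates at the values which
they have for `y`, as functions of block `b`. -/
theorem frozen_functions (C : Circ Λ) (M : EmbG Λ ι E)
    (val : (ι → Set E) → Fin C.size → Prop) (hval : ∀ y, C.Run (M.X y) (val y))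
    (y : ι → Set E) (b : ι) (hb : y b = ∅) :
    ∃ (gt : ℕ → Set E → Prop) (O : Set (Set E → Prop)), IsSLP gt C.size ∧
      (∀ o ∈ O, Avail gt C.size o) ∧
      (∀ z, val (Function.update y b z) C.out → ∃ o ∈ O, o z) ∧
      (∀ z, ¬ val (Function.update y b z) C.out →
        (∀ i, C.kind i = .neg → (val y i ↔ val (Function.update y b z) i)) →
        ∀ o ∈ O, ¬ o z) := by
  choose fr hfc hfd hfn using fun z => exists_frozen C (M.X (Function.update y b z)) (val y)
  set gt : ℕ → Set (E) → Prop :=
    fun i z => if h : i < C.size then fr z ⟨i, h⟩ else False with hgt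
  have hgtv : ∀ (i : Fin C.size) z, gt i.val z ↔ fr z i := by
    intro i z
    simp [hgt]
  have havail : ∀ (o : Λ ⊕ Fin C.size) (m : ℕ), (∀ j, o = Sum.inr j → j.val < m) →
      Avail gt m (fun z => Sum.elim (M.X (Function.update y b z)) (fr z) o) := by
    intro o m ho
    rcases o with e | j
    · exact Or.inl (M.leaf_update y b e)
    · exact Or.inr ⟨j.val, ho j rfl, fun z => (hgtv j z).symm⟩
  have hSLP : IsSLP gt C.size := by
    intro i hi
    set i' : Fin C.size := ⟨i, hi⟩ with hi'
    have heq : ∀ z, gt i z ↔ fr z i' := fun z => hgtv i' z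
    have hl := havail (C.left i') i (fun j hj => (C.acyclic i' j).1 hj)
    have hrt := havail (C.right i') i (fun j hj => (C.acyclic i' j).2 hj)
    rcases hk : C.kind i' with _ | _ | _
    · right
      exact ⟨_, _, hl, hrt, Or.inl fun z => by rw [heq, hfc z i' hk]⟩
    · right
      exact ⟨_, _, hl, hrt, Or.inr fun z => by rw [heq, hfd z i' hk]⟩
    · left
      right
      exact ⟨val y i', fun z => by rw [heq, hfn z i' hk]⟩
  -- agreement on inputs without a change
  have hagree : ∀ z, (∀ i, C.kind i = .neg → (val y i ↔ val (Function.update y b z) i)) →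
      ∀ i, fr z i ↔ val (Function.update y b z) i := by
    intro z hsame i
    induction i using WellFoundedLT.induction with
    | ind i ih =>
      have hl := elim_congr (M.X (Function.update y b z)) (C.left i)
        (fun j hj => (C.acyclic i j).1 hj) ih
      have hrt := elim_congr (M.X (Function.update y b z)) (C.right i)
        (fun j hj => (C.acyclic i j).2 hj) ih
      rcases hk : C.kind i with _ | _ | _
      · rw [hfc z i hk, hval _ i, Circ.step_conj hk, hl, hrt]
      · rw [hfd z i hk, hval _ i, Circ.step_disj hk, hl, hrt]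
      · rw [hfn z i hk]
        exact hsame i hk
  refine ⟨gt, {o | (∀ z, o z ↔ fr z C.out) ∨ ∃ i, C.kind i = .neg ∧ val y i ∧
      ∀ z, o z ↔ Sum.elim (M.X (Function.update y b z)) (fr z) (C.left i)}, hSLP, ?_, ?_, ?_⟩
  · rintro o (ho | ⟨i, -, -, ho⟩)
    · exact Or.inr ⟨C.out.val, C.out.isLt, fun z => by rw [ho, hgtv]⟩
    · rcases havail (C.left i) C.size (fun j _ => j.isLt) with h | ⟨j, hj, h⟩
      · left
        rcases h with ⟨e, he⟩ | ⟨t, ht⟩
        · exact Or.inl ⟨e, fun z => (ho z).trans (he z)⟩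
        · exact Or.inr ⟨t, fun z => (ho z).trans (ht z)⟩
      · exact Or.inr ⟨j, hj, fun z => (ho z).trans (h z)⟩
  · intro z hz
    by_contra hno
    push Not at hno
    have hfout : ¬ fr z C.out := hno (fun z => fr z C.out) (Or.inl fun z => Iff.rfl)
    have hop : ∀ i, C.kind i = .neg → val y i →
        ¬ Sum.elim (M.X (Function.update y b z)) (fr z) (C.left i) := by
      intro i hi hvi
      exact hno (fun z => Sum.elim (M.X (Function.update y b z)) (fr z) (C.left i))
        (Or.inr ⟨i, hi, hvi, fun z => Iff.rfl⟩)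
    have hagr : ∀ i, (fr z i ↔ val (Function.update y b z) i) ∧
        (val y i → val (Function.update y b z) i) := by
      intro i
      induction i using WellFoundedLT.induction with
      | ind i ih =>
        have hl := elim_congr (M.X (Function.update y b z)) (C.left i)
          (fun j hj => (C.acyclic i j).1 hj) (fun j hj => (ih j hj).1)
        have hrt := elim_congr (M.X (Function.update y b z)) (C.right i)
          (fun j hj => (C.acyclic i j).2 hj) (fun j hj => (ih j hj).1)
        have ml := elim_mono (M.mono_update hb z) (C.left i)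
          (fun j hj => (ih j ((C.acyclic i j).1 hj)).2)
        have mr := elim_mono (M.mono_update hb z) (C.right i)
          (fun j hj => (ih j ((C.acyclic i j).2 hj)).2)
        rcases hk : C.kind i with _ | _ | _
        · rw [hfc z i hk, hval y i, hval _ i, Circ.step_conj hk, Circ.step_conj hk, hl, hrt]
          exact ⟨Iff.rfl, fun h => ⟨ml h.1, mr h.2⟩⟩
        · rw [hfd z i hk, hval y i, hval _ i, Circ.step_disj hk, Circ.step_disj hk, hl, hrt]
          exact ⟨Iff.rfl, fun h => h.imp ml mr⟩
        · rw [hfn z i hk, hval y i, hval _ i, Circ.step_neg hk, Circ.step_neg hk, ← hl]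
          by_cases hvi : Sum.elim (M.X y) (val y) (C.left i)
          · have := hl.2 (ml hvi)
            simp [hvi, this]
          · have h2 := hop i hk (by rw [hval y i, Circ.step_neg hk]; exact hvi)
            simp [hvi, h2]
    exact hfout ((hagr C.out).1.2 hz)
  · intro z hz hsame o ho hoz
    rcases ho with ho | ⟨i, hi, hvi, ho⟩
    · rw [ho, hagree z hsame] at hoz
      exact hz hoz
    · rw [ho] at hoz
      have hl := elim_congr (M.X (Function.update y b z)) (C.left i)
        (fun j hj => (C.acyclic i j).1 hj) (fun j _ => hagree z hsame j)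
      rw [hl] at hoz
      have := (hsame i hi).1 hvi
      rw [hval _ i, Circ.step_neg hi] at this
      exact this hoz

/-- The number of changes of the `neg` gates along a chain of inputs. -/
theorem changes_le (C : Circ Λ) (x : ℕ → Λ → Prop) (hx : ∀ k e, x k e → x (k + 1) e)
    (v : ℕ → Fin C.size → Prop) (hv : ∀ k, C.Run (x k) (v k))
    (lev : Fin C.size → ℕ)
    (hlev : ∀ i j, (C.left i = Sum.inr j → lev j ≤ lev i) ∧
      (C.kind i ≠ .neg → C.right i = Sum.inr j → lev j ≤ lev i))
    (hlev' : ∀ i j, C.kind i = .neg → C.left i = Sum.inr j → lev j < lev i)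
    (d : ℕ) (hd : ∀ i, C.kind i = .neg → lev i ≤ d) (m : ℕ) :
    ((range m).filter fun k => ∃ i, C.kind i = .neg ∧ ¬ (v k i ↔ v (k + 1) i)).card + 1 ≤
      ∏ ℓ ∈ range (d + 1), ((univ.filter fun i => C.kind i = .neg ∧ lev i = ℓ).card + 1) := by
  have hle : ∀ k k', k ≤ k' → ∀ e, x k e → x k' e := by
    intro k k' hkk
    induction k', hkk using Nat.le_induction with
    | base => exact fun e h => h
    | succ k' _ ih => exact fun e h => hx k' e (ih e h)
  -- labels
  set T : ℕ → Finset (Fin C.size) := fun ℓ => univ.filter fun i => C.kind i = .neg ∧ lev i = ℓ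
    with hT
  set V : ℕ → ℕ → Finset (Fin C.size) := fun k ℓ =>
    univ.filter fun i => (C.kind i = .neg ∧ lev i = ℓ) ∧ v k i with hV
  have hVT : ∀ k ℓ, (V k ℓ).card < (T ℓ).card + 1 := by
    intro k ℓ
    apply Nat.lt_succ_of_le
    apply card_le_card
    intro i hi
    simp only [hV, hT, mem_filter, mem_univ, true_and] at hi ⊢
    exact hi.1
  set lab : ℕ → ((ℓ : Fin (d + 1)) → Fin ((T ℓ.val).card + 1)) :=
    fun k ℓ => ⟨(V k ℓ.val).card, hVT _ _⟩ with hlab
  have hmain : ∀ k k' : ℕ, k < k' → (∃ i, C.kind i = .neg ∧ ¬ (v k i ↔ v (k + 1) i)) →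
      lab k ≠ lab k' := by
    intro k k' hkk hdiff heq
    have hcard : ∀ ℓ ≤ d, (V k ℓ).card = (V k' ℓ).card := by
      intro ℓ hℓ
      have := congrFun heq ⟨ℓ, by omega⟩
      simp only [hlab, Fin.mk.injEq] at this
      exact this
    have x1 := hle k (k + 1) (by omega)
    have x2 := hle (k + 1) k' (by omega)
    have hall : ∀ ℓ, ℓ ≤ d + 1 → ∀ i, C.kind i = .neg → lev i < ℓ →
        ((v k i ↔ v (k + 1) i) ∧ (v (k + 1) i ↔ v k' i)) := by
      intro ℓ
      induction ℓ with
      | zero => intro _ i _ hi; omega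
      | succ ℓ ih =>
        intro hℓ i hi hiℓ
        have ih' := ih (by omega)
        rcases Nat.lt_succ_iff_lt_or_eq.1 hiℓ with hlt | heqℓ
        · exact ih' i hi hlt
        · have m1 := level_monoG C x1 (hv _) (hv _) lev hlev ℓ
            (fun i hi hlt => (ih' i hi hlt).1)
          have m2 := level_monoG C x2 (hv _) (hv _) lev hlev ℓ
            (fun i hi hlt => (ih' i hi hlt).2)
          have a1 : ∀ j, C.kind j = .neg → lev j = ℓ → v (k + 1) j → v k j := by
            intro j hj hjℓ
            rw [hv _ j, hv _ j, Circ.step_neg hj, Circ.step_neg hj]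
            intro h h'
            exact h (elim_mono x1 (C.left j)
              (fun j' hj' => m1 j' (hjℓ ▸ hlev' j j' hj hj')) h')
          have a2 : ∀ j, C.kind j = .neg → lev j = ℓ → v k' j → v (k + 1) j := by
            intro j hj hjℓ
            rw [hv _ j, hv _ j, Circ.step_neg hj, Circ.step_neg hj]
            intro h h'
            exact h (elim_mono x2 (C.left j)
              (fun j' hj' => m2 j' (hjℓ ▸ hlev' j j' hj hj')) h')
          have hsub : V k' ℓ ⊆ V k ℓ := by
            intro j hj
            simp only [hV, mem_filter, mem_univ, true_and] at hj ⊢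
            exact ⟨hj.1, a1 j hj.1.1 hj.1.2 (a2 j hj.1.1 hj.1.2 hj.2)⟩
          have hEq := eq_of_subset_of_card_le hsub (hcard ℓ (by omega)).le
          have hiV : v k i → v k' i := by
            intro hvi
            have : i ∈ V k ℓ := by
              simp only [hV, mem_filter, mem_univ, true_and]
              exact ⟨⟨hi, heqℓ⟩, hvi⟩
            rw [← hEq] at this
            simp only [hV, mem_filter, mem_univ, true_and] at this
            exact this.2
          exact ⟨⟨fun h => a2 i hi heqℓ (hiV h), a1 i hi heqℓ⟩,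
            ⟨fun h => hiV (a1 i hi heqℓ h), a2 i hi heqℓ⟩⟩
    obtain ⟨i, hi, hne⟩ := hdiff
    exact hne (hall (d + 1) le_rfl i hi (Nat.lt_succ_of_le (hd i hi))).1
  have hinj : Set.InjOn lab (insert m ((range m).filter fun k =>
      ∃ i, C.kind i = .neg ∧ ¬ (v k i ↔ v (k + 1) i)) : Finset ℕ) := by
    intro k hk k' hk' heq
    rw [mem_coe, mem_insert, mem_filter, mem_range] at hk hk'
    rcases lt_trichotomy k k' with h | h | h
    · exfalso
      rcases hk with rfl | hk
      · rcases hk' with rfl | hk'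
        · omega
        · omega
      · exact hmain k k' h hk.2 heq
    · exact h
    · exfalso
      rcases hk' with rfl | hk'
      · rcases hk with rfl | hk
        · omega
        · omega
      · exact hmain k' k h hk'.2 heq.symm
  have hc := card_le_card_of_injOn (t := univ) lab (fun _ _ => mem_coe.2 (mem_univ _)) hinj
  rw [card_insert_of_notMem (by simp), card_univ, Fintype.card_pi] at hc
  simp only [Fintype.card_fin] at hc
  rw [Fin.prod_univ_eq_prod_range (fun ℓ => (T ℓ).card + 1) (d + 1)] at hc
  exact hc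

end

/-- A disjunction of functions computed by a small monotone program: it accepts few positive tests
or there are few negative tests on which all of them vanish. -/
theorem approx_counts {I E : Type} [Fintype I] [Fintype E] [DecidableEq I] [DecidableEq E]
    {w A : ℕ} {a b : E → I × Fin w} (hinj : ∀ e e', a e = a e' → b e = b e' → e = e')
    (r q s : ℕ) (hr : 2 ≤ r) (hq : 1 ≤ q) (hs : s ≤ 2 ^ r) (hqr : q ≤ 2 ^ r)
    (hw : w = 4 * r) (hA : A = 4 * r ^ 2 * q)
    (gt : ℕ → Set E → Prop) (hg : IsSLP gt s)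
    (O : Set (Set E → Prop)) (hO : ∀ o ∈ O, Avail gt s o)
    (P : (I → Fin w) → Prop) (Z : (E → Fin A) → Prop)
    (hP : ∀ φ, P φ → ∃ o ∈ O, o (posT a b φ)) (hZ : ∀ χ, Z χ → ∀ o ∈ O, ¬ o (negT χ)) :
    (univ.filter P).card * (4 * q) ≤ Fintype.card (I → Fin w) ∨
      (univ.filter Z).card * (2 * q) ≤ Fintype.card (E → Fin A) := by
  have hr0 : 0 < r := by omega
  have hr2 : 0 < r ^ 2 := by positivity
  have hw1 : 1 ≤ w := by omega
  have hA1 : 1 ≤ A := by
    rw [hA]
    exact Nat.mul_pos (by omega) hq
  obtain ⟨PE, NE, hPE, hNE, happ⟩ := approx_slp (w := w) (A := A) (c := r) (ℓ := r)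
    (a := a) (b := b) hw1 hA1 hr (by omega) hinj gt s hg
  generalize hNΦ : Fintype.card (I → Fin w) = NΦ at *
  generalize hNX : Fintype.card (E → Fin A) = NX at *
  -- the size of the error sets
  have hPElt : PE.card * (4 * q) ≤ NΦ := by
    generalize PE.card = P' at *
    have h1 : P' * w ^ (r + 1) ≤ 2 ^ r * (r ^ (r + 1) * NΦ) :=
      hPE.trans (Nat.mul_le_mul_right _ hs)
    have h2 : w ^ (r + 1) = 4 * 2 ^ r * 2 ^ r * r ^ (r + 1) := by
      rw [hw, mul_pow]
      have : (4 : ℕ) ^ (r + 1) = 4 * 2 ^ r * 2 ^ r := by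
        rw [pow_succ, show (4 : ℕ) = 2 * 2 by norm_num, mul_pow]; ring
      rw [this]
    rw [h2] at h1
    have h3 : 0 < 2 ^ r * r ^ (r + 1) := by positivity
    have h4 : (2 ^ r * r ^ (r + 1)) * (P' * (4 * 2 ^ r)) ≤ (2 ^ r * r ^ (r + 1)) * NΦ := by
      calc (2 ^ r * r ^ (r + 1)) * (P' * (4 * 2 ^ r)) = P' * (4 * 2 ^ r * 2 ^ r * r ^ (r + 1)) := by
            ring
        _ ≤ 2 ^ r * (r ^ (r + 1) * NΦ) := h1
        _ = _ := by ring
    refine le_trans ?_ (Nat.le_of_mul_le_mul_left h4 h3)
    exact Nat.mul_le_mul_left _ (Nat.mul_le_mul_left _ hqr)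
  have hb3 : NE.card * (4 * q) ≤ NX := by
    generalize NE.card = b3 at *
    have h6 : b3 * A ^ (r + 1) ≤ 2 ^ r * ((r ^ 2) ^ (r + 1) * NX) :=
      hNE.trans (Nat.mul_le_mul_right _ hs)
    have h7 : A ^ (r + 1) = (4 * q) * (4 * q) ^ r * (r ^ 2) ^ (r + 1) := by
      rw [hA, show 4 * r ^ 2 * q = (4 * q) * r ^ 2 by ring, mul_pow]
      ring
    rw [h7] at h6
    have h8 : (2 : ℕ) ^ r ≤ (4 * q) ^ r := Nat.pow_le_pow_left (by omega) r
    have h9 : 0 < (r ^ 2) ^ (r + 1) := Nat.pow_pos hr2
    have h10 : ((4 * q) ^ r * (r ^ 2) ^ (r + 1)) * (b3 * (4 * q)) ≤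
        ((4 * q) ^ r * (r ^ 2) ^ (r + 1)) * NX := by
      calc ((4 * q) ^ r * (r ^ 2) ^ (r + 1)) * (b3 * (4 * q))
          = b3 * ((4 * q) * (4 * q) ^ r * (r ^ 2) ^ (r + 1)) := by ring
        _ ≤ 2 ^ r * ((r ^ 2) ^ (r + 1) * NX) := h6
        _ ≤ (4 * q) ^ r * ((r ^ 2) ^ (r + 1) * NX) :=
            Nat.mul_le_mul_right _ h8
        _ = _ := by ring
    exact Nat.le_of_mul_le_mul_left h10 (by positivity)
  by_cases hex : ∃ φ, φ ∉ PE ∧ P φ
  · right
    obtain ⟨φ, hφ, hPφ⟩ := hex
    obtain ⟨o, hoO, hoφ⟩ := hP φ hPφ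
    have hoapp : Approx w A r r a b PE NE o := by
      rcases hO o hoO with ho | ⟨j, hj, ho⟩
      · exact (approx_leaf hr (by omega) ho).mono (by simp) (by simp)
      · exact (happ j hj).congr ho
    obtain ⟨𝒲, 𝒞, h1, h2, h3, h4, h5⟩ := hoapp
    obtain ⟨W, hW, -⟩ := h4 φ hφ hoφ
    obtain ⟨EW, hEW⟩ : ∃ EW, EW = univ.filter fun e : E => a e ∈ W ∧ b e ∈ W := ⟨_, rfl⟩
    obtain ⟨B₂, hB₂⟩ : ∃ B₂, B₂ = univ.filter fun χ : E → Fin A =>
      ∃ e ∈ EW, (χ e).val = 0 := ⟨_, rfl⟩
    have hEWc : EW.card ≤ r ^ 2 := by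
      have : EW.card ≤ (W ×ˢ W).card := by
        apply card_le_card_of_injOn (fun e => (a e, b e))
        · intro e he
          simp only [hEW, coe_filter, mem_univ, true_and, Set.mem_ofPred_eq] at he
          simp [he.1, he.2]
        · intro e _ e' _ hee
          exact hinj e e' (Prod.ext_iff.1 hee).1 (Prod.ext_iff.1 hee).2
      refine this.trans ?_
      rw [card_product, sq]
      exact Nat.mul_le_mul (h1 W hW) (h1 W hW)
    have hb2 : B₂.card * (4 * q) ≤ NX := by
      have hsub : B₂ ⊆ EW.biUnion fun e => univ.filter fun χ : E → Fin A =>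
          ∀ e' ∈ ({e} : Finset E), (χ e').val = 0 := by
        intro χ hχ
        simp only [hB₂, mem_filter, mem_univ, true_and] at hχ
        obtain ⟨e, he, hχe⟩ := hχ
        simp only [mem_biUnion, mem_filter, mem_univ, true_and, mem_singleton, forall_eq]
        exact ⟨e, he, hχe⟩
      have h6 : B₂.card * A ≤ r ^ 2 * NX := by
        calc B₂.card * A ≤ (∑ e ∈ EW, (univ.filter fun χ : E → Fin A =>
              ∀ e' ∈ ({e} : Finset E), (χ e').val = 0).card) * A :=
              Nat.mul_le_mul_right _ ((card_le_card hsub).trans card_biUnion_le)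
          _ = ∑ e ∈ EW, (univ.filter fun χ : E → Fin A =>
              ∀ e' ∈ ({e} : Finset E), (χ e').val = 0).card * A := by rw [sum_mul]
          _ ≤ ∑ e ∈ EW, NX := by
              apply sum_le_sum
              intro e _
              have := card_zero A hA1 ({e} : Finset E)
              rwa [card_singleton, pow_one, hNX] at this
          _ = EW.card * NX := by rw [sum_const, smul_eq_mul]
          _ ≤ r ^ 2 * NX := Nat.mul_le_mul_right _ hEWc
      generalize B₂.card = b2 at *
      have h7 : r ^ 2 * (b2 * (4 * q)) ≤ r ^ 2 * NX := by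
        calc r ^ 2 * (b2 * (4 * q)) = b2 * A := by rw [hA]; ring
          _ ≤ _ := h6
      exact Nat.le_of_mul_le_mul_left h7 hr2
    have hsub : univ.filter Z ⊆ NE ∪ B₂ := by
      intro χ hχ
      rw [mem_filter] at hχ
      rw [mem_union]
      by_cases hN : χ ∈ NE
      · exact Or.inl hN
      · right
        obtain ⟨F, hF, hFχ⟩ := h5 χ hN (hZ χ hχ.2 o hoO)
        obtain ⟨e, he, hae, hbe⟩ := h3 W hW F hF
        rw [hB₂, mem_filter]
        refine ⟨mem_univ _, e, ?_, hFχ e he⟩
        rw [hEW, mem_filter]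
        exact ⟨mem_univ _, hae, hbe⟩
    have h11 := (card_le_card hsub).trans (card_union_le _ _)
    have h12 : ((univ.filter Z).card * (2 * q)) * 2 ≤ NX * 2 := by
      calc ((univ.filter Z).card * (2 * q)) * 2 = (univ.filter Z).card * (4 * q) := by ring
        _ ≤ (NE.card + B₂.card) * (4 * q) := Nat.mul_le_mul_right _ h11
        _ = NE.card * (4 * q) + B₂.card * (4 * q) := by ring
        _ ≤ NX + NX := Nat.add_le_add hb3 hb2
        _ = NX * 2 := by ring
    omega
  · left
    refine le_trans (Nat.mul_le_mul_right _ (card_le_card ?_)) hPElt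
    intro φ hφ
    rw [mem_filter] at hφ
    by_contra hnot
    exact hex ⟨φ, hnot, hφ.2⟩

theorem fcc {α : Type} (s : Finset α) {p q : α → Prop} {_ : DecidablePred p}
    {_ : DecidablePred q} (h : ∀ a ∈ s, p a ↔ q a) : (s.filter p).card = (s.filter q).card := by
  apply congrArg
  ext a
  simp only [mem_filter]
  constructor
  · exact fun ha => ⟨ha.1, (h a ha.1).1 ha.2⟩
  · exact fun ha => ⟨ha.1, (h a ha.1).2 ha.2⟩

/-- Resampling one coordinate. -/
theorem resample {ι X : Type} [Fintype ι] [DecidableEq ι] [Fintype X] (b : ι)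
    (F : (ι → X) → ℕ) :
    ∑ ω : ι → X, ∑ χ : X, F (Function.update ω b χ) = Fintype.card X * ∑ ω : ι → X, F ω := by
  set f : (ι → X) × X → (ι → X) × X := fun p => (Function.update p.1 b p.2, p.1 b) with hf
  have hinv : Function.Involutive f := by
    intro p
    simp only [hf, Function.update_self, Function.update_idem, Function.update_eq_self]
  have h1 : ∑ p : (ι → X) × X, F (f p).1 = ∑ p : (ι → X) × X, F p.1 :=
    Equiv.sum_comp hinv.toPerm fun p => F p.1
  rw [Fintype.sum_prod_type, Fintype.sum_prod_type] at h1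
  rw [show (∑ ω : ι → X, ∑ χ : X, F (Function.update ω b χ)) =
    ∑ x : ι → X, ∑ y : X, F (f (x, y)).1 from rfl, h1]
  simp only [sum_const, card_univ, smul_eq_mul]
  rw [mul_sum]

end Pool.Agent.T9h16
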