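import Pool.Agent.T9h16.GapAvg

/-!
# Graphs with many edge-disjoint blocks and small clique number
-/

set_option autoImplicit false
set_option linter.unusedSectionVars false

namespace Pool.Agent.T9h16

open Finset
open scoped Classical

/-- The variables of a block: pairs of points of different groups. -/
abbrev GE (g w : ℕ) : Type := {p : (Fin g × Fin w) × (Fin g × Fin w) // p.1.1 < p.2.1}

/-- Lower end of a block variable. -/
def gl {g w : ℕ} (e : GE g w) : Fin g × Fin w := e.1.1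

/-- Upper end of a block variable. -/
def gr {g w : ℕ} (e : GE g w) : Fin g × Fin w := e.1.2

theorem ge_ext {g w : ℕ} (e e' : GE g w) (h1 : gl e = gl e') (h2 : gr e = gr e') : e = e' :=
  Subtype.ext (Prod.ext h1 h2)

theorem ge_lt {g w : ℕ} (e : GE g w) : (gl e).1 < (gr e).1 := e.2

/-- A design: block `b` has the point `pt b i` in group `i`; two points in different groups lie in
at most one block. -/
structure Design (ι X : Type) (g : ℕ) where
  pt : ι → Fin g → X
  inj : ∀ i i', i ≠ i' → ∀ b b', pt b i = pt b' i → pt b i' = pt b' i' → b = b'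

section
variable {ι X : Type} {g w h u A m : ℕ}

/-- The position of a point of block `b`. -/
def loc (D : Design ι X g) (b : ι) (p : Fin g × Fin w) : Fin g × X × Fin w :=
  (p.1, D.pt b p.1, p.2)

theorem loc_unique (D : Design ι X g) {b b' : ι} {e e' : GE g w}
    (h1 : loc D b (gl e) = loc D b' (gl e')) (h2 : loc D b (gr e) = loc D b' (gr e')) :
    b = b' ∧ e = e' := by
  simp only [loc, Prod.mk.injEq] at h1 h2
  have he : e = e' := ge_ext _ _ (Prod.ext h1.1 h1.2.2) (Prod.ext h2.1 h2.2.2)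
  subst he
  exact ⟨D.inj _ _ (ne_of_lt (ge_lt e)) _ _ h1.2.1 h2.2.1, rfl⟩

/-- The reduced graph. -/
def Conn (D : Design ι X g) (y : ι → Set (GE g w)) (p p' : Fin g × X × Fin w) : Prop :=
  (∃ b, ∃ e ∈ y b, loc D b (gl e) = p ∧ loc D b (gr e) = p') ∨
    (∃ b, ∃ e ∈ y b, loc D b (gl e) = p' ∧ loc D b (gr e) = p)

theorem Conn.symm {D : Design ι X g} {y : ι → Set (GE g w)} {p p' : Fin g × X × Fin w}
    (hc : Conn D y p p') : Conn D y p' p := Or.symm hc

theorem Conn.mono {D : Design ι X g} {y y' : ι → Set (GE g w)} {p p' : Fin g × X × Fin w}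
    (hy : ∀ i, y i ⊆ y' i) (hc : Conn D y p p') : Conn D y' p p' := by
  rcases hc with ⟨b, e, he, h1⟩ | ⟨b, e, he, h1⟩
  · exact Or.inl ⟨b, e, hy b he, h1⟩
  · exact Or.inr ⟨b, e, hy b he, h1⟩

theorem Conn.ne {D : Design ι X g} {y : ι → Set (GE g w)} {p p' : Fin g × X × Fin w}
    (hc : Conn D y p p') : p.1 ≠ p'.1 := by
  rcases hc with ⟨b, e, -, rfl, rfl⟩ | ⟨b, e, -, rfl, rfl⟩
  · exact ne_of_lt (ge_lt e)
  · exact ne_of_gt (ge_lt e)

theorem Conn.of_lt {D : Design ι X g} {y : ι → Set (GE g w)} {p p' : Fin g × X × Fin w}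
    (hc : Conn D y p p') (hlt : p.1 < p'.1) :
    ∃ b, ∃ e ∈ y b, loc D b (gl e) = p ∧ loc D b (gr e) = p' := by
  rcases hc with hc | ⟨b, e, -, rfl, rfl⟩
  · exact hc
  · exact absurd hlt (not_lt.2 (le_of_lt (ge_lt e)))

theorem conn_leaf (D : Design ι X g) (p p' : Fin g × X × Fin w) :
    (∃ t : Prop, ∀ y : ι → Set (GE g w), Conn D y p p' ↔ t) ∨
    (∃ b e, ∀ y : ι → Set (GE g w), Conn D y p p' ↔ e ∈ y b) := by
  by_cases h1 : ∃ b, ∃ e : GE g w, loc D b (gl e) = p ∧ loc D b (gr e) = p'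
  · obtain ⟨b, e, rfl, rfl⟩ := h1
    refine Or.inr ⟨b, e, fun y => ⟨?_, fun he => Or.inl ⟨b, e, he, rfl, rfl⟩⟩⟩
    rintro (⟨b', e', he', h1, h2⟩ | ⟨b', e', he', h1, h2⟩)
    · obtain ⟨rfl, rfl⟩ := loc_unique D h1 h2
      exact he'
    · exfalso
      have h3 : (gl e').1 = (gr e).1 := congrArg (fun p : Fin g × X × Fin w => p.1) h1
      have h4 : (gr e').1 = (gl e).1 := congrArg (fun p : Fin g × X × Fin w => p.1) h2
      have h5 := ge_lt e'
      rw [h3, h4] at h5
      exact absurd h5 (not_lt.2 (le_of_lt (ge_lt e)))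
  · by_cases h2 : ∃ b, ∃ e : GE g w, loc D b (gl e) = p' ∧ loc D b (gr e) = p
    · obtain ⟨b, e, rfl, rfl⟩ := h2
      refine Or.inr ⟨b, e, fun y => ⟨?_, fun he => Or.inr ⟨b, e, he, rfl, rfl⟩⟩⟩
      rintro (⟨b', e', he', h1, h2⟩ | ⟨b', e', he', h1, h2⟩)
      · exfalso
        have h3 : (gl e').1 = (gr e).1 := congrArg (fun p : Fin g × X × Fin w => p.1) h1
        have h4 : (gr e').1 = (gl e).1 := congrArg (fun p : Fin g × X × Fin w => p.1) h2
        have h5 := ge_lt e'
        rw [h3, h4] at h5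
        exact absurd h5 (not_lt.2 (le_of_lt (ge_lt e)))
      · obtain ⟨rfl, rfl⟩ := loc_unique D h1 h2
        exact he'
    · refine Or.inl ⟨False, fun y => ⟨?_, False.elim⟩⟩
      rintro (⟨b, e, -, h⟩ | ⟨b, e, -, h⟩)
      · exact h1 ⟨b, e, h⟩
      · exact h2 ⟨b, e, h⟩

/-- Vertices: `h` copies of every point and `u` universal vertices. -/
abbrev GV (X : Type) (g w h u : ℕ) : Type := ((Fin g × X × Fin w) × Fin h) ⊕ Fin u

/-- Adjacency of the vertices. -/
def gadj (D : Design ι X g) (y : ι → Set (GE g w)) : GV X g w h u → GV X g w h u → Prop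
  | .inl a, .inl b => (a.1 = b.1 ∧ a.2 ≠ b.2) ∨ Conn D y a.1 b.1
  | .inl _, .inr _ => True
  | .inr _, .inl _ => True
  | .inr a, .inr b => a ≠ b

/-- The graph. -/
def GG2 (D : Design ι X g) (y : ι → Set (GE g w)) : SimpleGraph (GV X g w h u) where
  Adj := gadj D y
  symm := ⟨by
    rintro (a | a) (b | b) hab
    · rcases hab with hab | hab
      · exact Or.inl ⟨hab.1.symm, hab.2.symm⟩
      · exact Or.inr hab.symm
    · trivial
    · trivial
    · exact Ne.symm hab⟩
  loopless := ⟨by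
    rintro (a | a) hab
    · rcases hab with hab | hab
      · exact hab.2 rfl
      · exact hab.ne rfl
    · exact hab rfl⟩

theorem GG2_mono (D : Design ι X g) {y y' : ι → Set (GE g w)} (hy : ∀ i, y i ⊆ y' i) :
    (GG2 D y : SimpleGraph (GV X g w h u)) ≤ GG2 D y' := by
  intro a b hab
  change gadj D y a b at hab
  change gadj D y' a b
  rcases a with a | a <;> rcases b with b | b
  · rcases hab with hab | hab
    · exact Or.inl hab
    · exact Or.inr (hab.mono hy)
  · exact hab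
  · exact hab
  · exact hab

theorem GG2_leaf (D : Design ι X g) (a b : GV X g w h u) :
    (∃ t : Prop, ∀ y : ι → Set (GE g w), (GG2 D y).Adj a b ↔ t) ∨
    (∃ i e, ∀ y : ι → Set (GE g w), (GG2 D y).Adj a b ↔ e ∈ y i) := by
  rcases a with a | a <;> rcases b with b | b
  · by_cases hab : a.1 = b.1 ∧ a.2 ≠ b.2
    · exact Or.inl ⟨True, fun y => ⟨fun _ => trivial, fun _ => Or.inl hab⟩⟩
    · rcases conn_leaf (w := w) D a.1 b.1 with ⟨t, ht⟩ | ⟨i, e, he⟩
      · refine Or.inl ⟨t, fun y => ?_⟩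
        change ((a.1 = b.1 ∧ a.2 ≠ b.2) ∨ Conn D y a.1 b.1) ↔ t
        rw [ht y]
        exact ⟨fun hh => hh.resolve_left hab, Or.inr⟩
      · refine Or.inr ⟨i, e, fun y => ?_⟩
        change ((a.1 = b.1 ∧ a.2 ≠ b.2) ∨ Conn D y a.1 b.1) ↔ e ∈ y i
        rw [he y]
        exact ⟨fun hh => hh.resolve_left hab, Or.inr⟩
  · exact Or.inl ⟨_, fun y => Iff.rfl⟩
  · exact Or.inl ⟨_, fun y => Iff.rfl⟩
  · exact Or.inl ⟨_, fun y => Iff.rfl⟩

/-- A positive test in one block gives a large clique. -/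
theorem GG2_pos (D : Design ι X g) (y : ι → Set (GE g w)) (b : ι) (φ : Fin g → Fin w)
    (hy : posT (gl (g := g)) gr φ ⊆ y b) :
    ∃ c : Finset (GV X g w h u), (GG2 D y).IsClique (c : Set (GV X g w h u)) ∧
      c.card = g * h + u := by
  set cL : Finset ((Fin g × X × Fin w) × Fin h) :=
    univ.image fun p : Fin g × Fin h => (loc D b (p.1, φ p.1), p.2) with hcL
  have hL : cL.card = g * h := by
    rw [hcL, card_image_of_injective, card_univ, Fintype.card_prod, Fintype.card_fin,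
      Fintype.card_fin]
    rintro ⟨i, η⟩ ⟨i', η'⟩ hp
    simp only [loc, Prod.mk.injEq] at hp
    exact Prod.ext hp.1.1 hp.2
  have hconn : ∀ i i' : Fin g, i < i' → Conn D y (loc D b (i, φ i)) (loc D b (i', φ i')) := by
    intro i i' hii
    exact Or.inl ⟨b, ⟨((i, φ i), (i', φ i')), hii⟩, hy ⟨rfl, rfl⟩, rfl, rfl⟩
  refine ⟨cL.disjSum univ, ?_, ?_⟩
  · intro a ha c hc hac
    change gadj D y a c
    rcases a with a | a <;> rcases c with c | c
    · rw [mem_coe, inl_mem_disjSum, hcL, mem_image] at ha hc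
      obtain ⟨⟨i, η⟩, -, rfl⟩ := ha
      obtain ⟨⟨i', η'⟩, -, rfl⟩ := hc
      rcases lt_trichotomy i i' with hii | rfl | hii
      · exact Or.inr (hconn i i' hii)
      · refine Or.inl ⟨rfl, fun hη => hac ?_⟩
        simp only at hη
        rw [hη]
      · exact Or.inr (hconn i' i hii).symm
    · trivial
    · trivial
    · exact fun hh => hac (by rw [hh])
  · rw [card_disjSum, hL, card_univ, Fintype.card_fin]

/-- There is no clique with `k` points in the reduced graph. -/
def NoBig (D : Design ι X g) (y : ι → Set (GE g w)) (k : ℕ) : Prop :=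
  ∀ T : Finset (Fin g × X × Fin w), (∀ p ∈ T, ∀ p' ∈ T, p ≠ p' → Conn D y p p') → T.card < k

theorem NoBig.mono {D : Design ι X g} {y y' : ι → Set (GE g w)} {k : ℕ}
    (hy : ∀ i, y i ⊆ y' i) (hk : NoBig D y' k) : NoBig D y k :=
  fun T hT => hk T fun p hp p' hp' hne => (hT p hp p' hp' hne).mono hy

theorem GG2_neg (D : Design ι X g) (y : ι → Set (GE g w)) {k : ℕ} (hk : NoBig D y k)
    (c : Finset (GV X g w h u)) (hc : (GG2 D y).IsClique (c : Set (GV X g w h u))) :
    c.card ≤ k * h + u := by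
  have hadj : ∀ a ∈ c, ∀ b ∈ c, a ≠ b → gadj D y a b := fun a ha b hb hab => hc ha hb hab
  have h1 := card_toLeft_add_card_toRight (u := c)
  have hU : c.toRight.card ≤ u := by
    have := card_le_univ c.toRight
    simpa using this
  set T := c.toLeft.image Prod.fst with hT
  have hTk : T.card < k := by
    apply hk
    intro p hp p' hp' hne
    rw [hT, mem_image] at hp hp'
    obtain ⟨a, ha, rfl⟩ := hp
    obtain ⟨b, hb, rfl⟩ := hp'
    rw [mem_toLeft] at ha hb
    have := hadj _ ha _ hb (fun hab => hne (by rw [Sum.inl_injective hab]))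
    rcases this with hab | hab
    · exact absurd hab.1 hne
    · exact hab
  have h2 : c.toLeft.card ≤ T.card * h := by
    have : c.toLeft ⊆ T ×ˢ (univ : Finset (Fin h)) := by
      intro a ha
      rw [mem_product]
      exact ⟨mem_image_of_mem _ ha, mem_univ _⟩
    have := card_le_card this
    rwa [card_product, card_univ, Fintype.card_fin] at this
  have h3 : T.card * h ≤ k * h := Nat.mul_le_mul_right _ hTk.le
  omega

end

section
variable {ι X : Type} [Fintype ι] [Fintype X] {g w A : ℕ}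

theorem card_nonzero2 {E : Type} [Fintype E] [DecidableEq E] (Y : Finset (ι × E)) :
    (univ.filter fun ω : ι → E → Fin A => ∀ p ∈ Y, (ω p.1 p.2).val ≠ 0).card * A ^ Y.card
      ≤ (A - 1) ^ Y.card * Fintype.card (ι → E → Fin A) := by
  have h1 := card_nonzero A Y
  have h2 : Fintype.card (ι × E → Fin A) = Fintype.card (ι → E → Fin A) :=
    Fintype.card_congr (Equiv.curry ι E (Fin A))
  have h3 : (univ.filter fun χ : ι × E → Fin A => ∀ e ∈ Y, (χ e).val ≠ 0).card =
      (univ.filter fun ω : ι → E → Fin A => ∀ p ∈ Y, (ω p.1 p.2).val ≠ 0).card := by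
    apply card_equiv (Equiv.curry ι E (Fin A))
    intro χ
    rw [mem_filter, mem_filter]
    exact ⟨fun hh => ⟨mem_univ _, hh.2⟩, fun hh => ⟨mem_univ _, hh.2⟩⟩
  rw [← h2, ← h3]
  exact h1

theorem card_nonzero_sub {E : Type} [Fintype E] [DecidableEq E] (Y : Finset (ι × E)) (N : ℕ) (hN : N ≤ Y.card)
    (F : Finset (ι → E → Fin A)) (hF : ∀ ω ∈ F, ∀ p ∈ Y, (ω p.1 p.2).val ≠ 0) :
    F.card * A ^ N ≤ (A - 1) ^ N * Fintype.card (ι → E → Fin A) := by
  obtain ⟨Z, hZY, hZc⟩ := exists_subset_card_eq hN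
  have h1 := card_nonzero2 (A := A) Z
  rw [hZc] at h1
  have h2 : F.card ≤
      (univ.filter fun ω : ι → E → Fin A => ∀ p ∈ Z, (ω p.1 p.2).val ≠ 0).card := by
    apply card_le_card
    intro ω hω
    rw [mem_filter]
    exact ⟨mem_univ _, fun p hp => hF ω hω p (hZY hp)⟩
  exact (Nat.mul_le_mul_right _ h2).trans h1

theorem card_pairs (P : Type) [Fintype P] (l : ℕ) :
    Fintype.card ((Fin l → P) × (Fin l → P)) = Fintype.card P ^ (2 * l) := by
  rw [Fintype.card_prod, Fintype.card_fun, Fintype.card_fin, ← pow_add, two_mul]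

/-- Random noise rarely contains a large clique. -/
theorem card_big (D : Design ι X g) (l : ℕ) :
    (univ.filter fun ω : ι → GE g w → Fin A => ¬ NoBig D (fun b => negT (ω b)) (2 * l)).card *
        A ^ (l * l) ≤
      (Fintype.card (Fin g × X × Fin w)) ^ (2 * l) * (A - 1) ^ (l * l) *
        Fintype.card (ι → GE g w → Fin A) := by
  set P := Fin g × X × Fin w with hP
  set S : (Fin l → P) × (Fin l → P) → Finset (ι × GE g w) := fun K =>
    univ.filter fun p => ∃ j j', loc D p.1 (gl p.2) = K.1 j ∧ loc D p.1 (gr p.2) = K.2 j' with hS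
  set 𝒦 : Finset ((Fin l → P) × (Fin l → P)) := univ.filter fun K => l * l ≤ (S K).card with h𝒦
  have hsub : (univ.filter fun ω : ι → GE g w → Fin A =>
      ¬ NoBig D (fun b => negT (ω b)) (2 * l)) ⊆
      𝒦.biUnion fun K => univ.filter fun ω : ι → GE g w → Fin A =>
        ∀ p ∈ S K, (ω p.1 p.2).val ≠ 0 := by
    intro ω hω
    rw [mem_filter] at hω
    have hω2 := hω.2
    rw [NoBig] at hω2
    push Not at hω2
    obtain ⟨T, hT, hcard⟩ := hω2
    have hinj : Set.InjOn (fun p : P => p.1) T := by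
      intro p hp p' hp' hpp
      by_contra hne
      exact (hT p hp p' hp' hne).ne hpp
    have hcard2 : 2 * l ≤ (T.image fun p : P => p.1).card := by
      rw [card_image_of_injOn hinj]
      exact hcard
    set f := (T.image fun p : P => p.1).orderEmbOfCardLe hcard2 with hf
    have hfmem : ∀ j, ∃ p ∈ T, p.1 = f j := by
      intro j
      have := orderEmbOfCardLe_mem (T.image fun p : P => p.1) hcard2 j
      rw [mem_image] at this
      exact this
    choose K hKT hKf using hfmem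
    have hconn : ∀ j j', j < j' → ∃ b, ∃ e ∈ negT (ω b), loc D b (gl e) = K j ∧
        loc D b (gr e) = K j' := by
      intro j j' hjj
      have hlt : (K j).1 < (K j').1 := by
        rw [hKf, hKf]
        exact f.strictMono hjj
      exact (hT (K j) (hKT j) (K j') (hKT j') (fun hh => by rw [hh] at hlt; exact lt_irrefl _ hlt)).of_lt
        hlt
    set K₁ : Fin l → P := fun j => K ⟨j.val, by omega⟩ with hK₁
    set K₂ : Fin l → P := fun j => K ⟨l + j.val, by omega⟩ with hK₂
    have hconn12 : ∀ j j', ∃ b, ∃ e ∈ negT (ω b), loc D b (gl e) = K₁ j ∧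
        loc D b (gr e) = K₂ j' := by
      intro j j'
      apply hconn
      rw [Fin.lt_def]
      have := j.isLt
      simp only
      omega
    choose B₀ e₀ he₀ h1 h2 using hconn12
    have hKinj : Function.Injective K := by
      intro j j' hjj
      apply f.injective
      rw [← hKf, ← hKf, hjj]
    rw [mem_biUnion]
    refine ⟨(K₁, K₂), ?_, ?_⟩
    · rw [h𝒦, mem_filter]
      refine ⟨mem_univ _, ?_⟩
      have : (univ : Finset (Fin l × Fin l)).card ≤ (S (K₁, K₂)).card := by
        apply card_le_card_of_injOn (fun p => (B₀ p.1 p.2, e₀ p.1 p.2))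
        · intro p _
          rw [hS, mem_coe, mem_filter]
          exact ⟨mem_univ _, p.1, p.2, h1 _ _, h2 _ _⟩
        · rintro ⟨j, j'⟩ _ ⟨i, i'⟩ _ hp
          simp only [Prod.mk.injEq] at hp
          have e1 : K₁ j = K₁ i := by rw [← h1 j j', ← h1 i i', hp.1, hp.2]
          have e2 : K₂ j' = K₂ i' := by rw [← h2 j j', ← h2 i i', hp.1, hp.2]
          have e3 := hKinj e1
          have e4 := hKinj e2
          rw [Fin.mk.injEq] at e3 e4
          exact Prod.ext (Fin.ext e3) (Fin.ext (by simpa using e4))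
      rw [card_univ, Fintype.card_prod, Fintype.card_fin] at this
      exact this
    · rw [mem_filter]
      refine ⟨mem_univ _, ?_⟩
      intro p hp
      rw [hS, mem_filter] at hp
      obtain ⟨-, j, j', h3, h4⟩ := hp
      obtain ⟨e5, e6⟩ := loc_unique D (h3.trans (h1 j j').symm) (h4.trans (h2 j j').symm)
      rw [e5, e6]
      exact he₀ j j'
  have hone : ∀ K ∈ 𝒦, (univ.filter fun ω : ι → GE g w → Fin A =>
      ∀ p ∈ S K, (ω p.1 p.2).val ≠ 0).card * A ^ (l * l) ≤
      (A - 1) ^ (l * l) * Fintype.card (ι → GE g w → Fin A) := by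
    intro K hK
    rw [h𝒦, mem_filter] at hK
    apply card_nonzero_sub (S K) (l * l) hK.2
    intro ω hω
    rw [mem_filter] at hω
    exact hω.2
  calc _ ≤ (∑ K ∈ 𝒦, (univ.filter fun ω : ι → GE g w → Fin A =>
          ∀ p ∈ S K, (ω p.1 p.2).val ≠ 0).card) * A ^ (l * l) :=
        Nat.mul_le_mul_right _ ((card_le_card hsub).trans card_biUnion_le)
    _ = ∑ K ∈ 𝒦, (univ.filter fun ω : ι → GE g w → Fin A =>
          ∀ p ∈ S K, (ω p.1 p.2).val ≠ 0).card * A ^ (l * l) := by rw [sum_mul]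
    _ ≤ ∑ K ∈ 𝒦, (A - 1) ^ (l * l) * Fintype.card (ι → GE g w → Fin A) := sum_le_sum hone
    _ = 𝒦.card * ((A - 1) ^ (l * l) * Fintype.card (ι → GE g w → Fin A)) := by
        rw [sum_const, smul_eq_mul]
    _ ≤ (Fintype.card P) ^ (2 * l) *
        ((A - 1) ^ (l * l) * Fintype.card (ι → GE g w → Fin A)) := by
        apply Nat.mul_le_mul_right
        exact (card_le_univ _).trans (le_of_eq (card_pairs _ _))
    _ = _ := by ring

/-- Random noise rarely contains a large clique. -/
theorem card_big_le (D : Design ι X g) {j q : ℕ} (hq : 1 ≤ q) (hA : 1 ≤ A) (hj1 : 1 ≤ j)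
    (hj : 4 * q * (Fintype.card (Fin g × X × Fin w)) ^ 2 ≤ 2 ^ j) :
    (univ.filter fun ω : ι → GE g w → Fin A =>
        ¬ NoBig D (fun b => negT (ω b)) (2 * (A * j))).card * (4 * q) ≤
      Fintype.card (ι → GE g w → Fin A) := by
  obtain ⟨l, hl⟩ : ∃ l, l = A * j := ⟨_, rfl⟩
  rw [← hl]
  have h1 := card_big (A := A) (w := w) D l
  have hl1 : 1 ≤ l := by rw [hl]; exact Nat.mul_pos hA hj1
  set N := Fintype.card (ι → GE g w → Fin A)
  set Q := Fintype.card (Fin g × X × Fin w)
  set T := (univ.filter fun ω : ι → GE g w → Fin A =>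
        ¬ NoBig D (fun b => negT (ω b)) (2 * l)).card
  have h2 : (A - 1) ^ (l * l) * 2 ^ (j * l) ≤ A ^ (l * l) := by
    have : l * l = A * (j * l) := by rw [← mul_assoc, ← hl]
    rw [this, pow_mul (A - 1) A (j * l), pow_mul A A (j * l), ← mul_pow]
    exact Nat.pow_le_pow_left (two_mul_pow_le A hA) _
  have hApos : 0 < A ^ (l * l) := Nat.pow_pos hA
  have h3 : T * 2 ^ (j * l) ≤ Q ^ (2 * l) * N := by
    have h4 : (T * 2 ^ (j * l)) * A ^ (l * l) ≤ (Q ^ (2 * l) * N) * A ^ (l * l) := by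
      calc (T * 2 ^ (j * l)) * A ^ (l * l) = (T * A ^ (l * l)) * 2 ^ (j * l) := by ring
        _ ≤ (Q ^ (2 * l) * (A - 1) ^ (l * l) * N) * 2 ^ (j * l) := Nat.mul_le_mul_right _ h1
        _ = Q ^ (2 * l) * N * ((A - 1) ^ (l * l) * 2 ^ (j * l)) := by ring
        _ ≤ Q ^ (2 * l) * N * A ^ (l * l) := Nat.mul_le_mul_left _ h2
    exact Nat.le_of_mul_le_mul_right h4 hApos
  by_cases hQ : Q = 0
  · rw [hQ, zero_pow (by omega), zero_mul] at h3
    have h5 : T = 0 := by
      have := Nat.eq_zero_of_le_zero h3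
      rcases Nat.mul_eq_zero.1 this with h6 | h6
      · exact h6
      · exact absurd h6 (by positivity)
    rw [h5]
    simp
  · have hQpos : 0 < Q ^ (2 * l) := Nat.pow_pos (Nat.pos_of_ne_zero hQ)
    have h5 : (4 * q) * Q ^ (2 * l) ≤ 2 ^ (j * l) := by
      calc (4 * q) * Q ^ (2 * l) ≤ (4 * q) ^ l * Q ^ (2 * l) :=
            Nat.mul_le_mul_right _ (Nat.le_self_pow (by omega) _)
        _ = (4 * q * Q ^ 2) ^ l := by rw [mul_pow (4 * q) (Q ^ 2) l, ← pow_mul]
        _ ≤ (2 ^ j) ^ l := Nat.pow_le_pow_left hj _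
        _ = _ := by rw [← pow_mul]
    have h6 : (T * (4 * q)) * Q ^ (2 * l) ≤ N * Q ^ (2 * l) := by
      calc (T * (4 * q)) * Q ^ (2 * l) = T * ((4 * q) * Q ^ (2 * l)) := by ring
        _ ≤ T * 2 ^ (j * l) := Nat.mul_le_mul_left _ h5
        _ ≤ Q ^ (2 * l) * N := h3
        _ = _ := by ring
    exact Nat.le_of_mul_le_mul_right h6 hQpos

end

end Pool.Agent.T9h16
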