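import Pool.Agent.T9h16.GapGraph

/-!
# The two families of graphs
-/

set_option autoImplicit false
set_option linter.unusedSectionVars false

namespace Pool.Agent.T9h16

open Finset
open scoped Classical

/-- Pairs of vertices. -/
abbrev PairV (n : ℕ) : Type := {p : Fin n × Fin n // p.1 < p.2}

/-- The values of the input variables on a graph. -/
def gin {n : ℕ} (G : SimpleGraph (Fin n)) : PairV n → Prop := fun e => G.Adj e.1.1 e.1.2

theorem map_clique {V W : Type} [Fintype V] (f : V ↪ W) (G : SimpleGraph V) (c : Finset W)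
    (hc : (G.map f).IsClique (c : Set W)) (h2 : 2 ≤ c.card) :
    ∃ c' : Finset V, G.IsClique (c' : Set V) ∧ c.card ≤ c'.card := by
  have hrange : ∀ a ∈ c, ∃ a', f a' = a := by
    intro a ha
    obtain ⟨b, hb, hba⟩ : ∃ b ∈ c, b ≠ a := by
      apply exists_mem_ne (by omega)
    have := hc hb ha hba
    rw [SimpleGraph.map_adj] at this
    obtain ⟨u', v', _, _, h⟩ := this
    exact ⟨v', h⟩
  refine ⟨univ.filter fun a => f a ∈ c, ?_, ?_⟩
  · intro a ha b hb hab
    simp only [coe_filter, mem_univ, true_and, Set.mem_ofPred_eq] at ha hb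
    have := hc ha hb (fun h => hab (f.injective h))
    rwa [SimpleGraph.map_adj_apply] at this
  · have : c ⊆ (univ.filter fun a => f a ∈ c).map f := by
      intro a ha
      obtain ⟨a', rfl⟩ := hrange a ha
      simp only [mem_map, mem_filter, mem_univ, true_and]
      exact ⟨a', ha, rfl⟩
    have := card_le_card this
    rwa [card_map] at this

/-- The embedding of the blocks into the graphs on `n` vertices. -/
noncomputable def gemb {ι X : Type} {g w h u n : ℕ} (D : Design ι X g)
    (f : GV X g w h u ↪ Fin n) : EmbG (PairV n) ι (GE g w) where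
  X := fun y => gin ((GG2 D y).map f)
  mono := fun y y' hy e he => SimpleGraph.map_monotone f (GG2_mono D hy) he
  leaf := by
    intro e
    change (∃ t : Prop, ∀ y, ((GG2 D y).map f).Adj e.1.1 e.1.2 ↔ t) ∨
      ∃ i b, ∀ y, ((GG2 D y).map f).Adj e.1.1 e.1.2 ↔ b ∈ y i
    generalize e.1.1 = a
    generalize e.1.2 = b
    by_cases ha : ∃ u', f u' = a
    · by_cases hb : ∃ v', f v' = b
      · obtain ⟨a', rfl⟩ := ha
        obtain ⟨b', rfl⟩ := hb
        simp only [SimpleGraph.map_adj_apply]
        exact GG2_leaf D a' b'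
      · left
        refine ⟨False, fun y => ?_⟩
        simp only [SimpleGraph.map_adj, iff_false, not_exists, not_and]
        rintro u' v' _ _ h
        exact hb ⟨v', h⟩
    · left
      refine ⟨False, fun y => ?_⟩
      simp only [SimpleGraph.map_adj, iff_false, not_exists, not_and]
      rintro u' v' _ h _
      exact ha ⟨u', h⟩

theorem gap_design {ι X : Type} [Fintype ι] [Fintype X] (n g h u r q j m : ℕ)
    (D : Design ι X g) (e : Fin m ≃ ι) (hr : 2 ≤ r) (hq : 1 ≤ q) (hqr : q ≤ 2 ^ r)
    (hj1 : 1 ≤ j) (hj : 4 * q * (Fintype.card (Fin g × X × Fin (4 * r))) ^ 2 ≤ 2 ^ j)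
    (hm : 1 ≤ m) (hn : Fintype.card (GV X g (4 * r) h u) ≤ n) :
    ∃ (Ω : Type) (_ : Fintype Ω) (_ : Nonempty Ω) (Gp Gm : Ω → SimpleGraph (Fin n)),
      (∀ ω, ∃ c : Finset (Fin n), (Gp ω).IsClique (c : Set (Fin n)) ∧ c.card = g * h + u) ∧
      (∀ ω (c : Finset (Fin n)), (Gm ω).IsClique (c : Set (Fin n)) →
        c.card ≤ max 1 (2 * (4 * r ^ 2 * q * j) * h + u)) ∧
      ∀ (C : Circ (PairV n)), C.size ≤ 2 ^ r →
        ∀ (val : SimpleGraph (Fin n) → Fin C.size → Prop), (∀ G, C.Run (gin G) (val G)) →
        ∀ (lev : Fin C.size → ℕ),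
        (∀ i j, (C.left i = Sum.inr j → lev j ≤ lev i) ∧
          (C.kind i ≠ .neg → C.right i = Sum.inr j → lev j ≤ lev i)) →
        (∀ i j, C.kind i = .neg → C.left i = Sum.inr j → lev j < lev i) →
        ∀ (d : ℕ), (∀ i, C.kind i = .neg → lev i ≤ d) →
        ((univ.filter fun ω => val (Gp ω) C.out).card +
          (univ.filter fun ω => ¬ val (Gm ω) C.out).card) * (4 * q * m) ≤
        Fintype.card Ω * (m * (4 * q + 3) + 4 * q *
          ∏ ℓ ∈ range (d + 1), ((univ.filter fun i => C.kind i = .neg ∧ lev i = ℓ).card + 1)) := by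
  obtain ⟨w, hw⟩ : ∃ w, w = 4 * r := ⟨_, rfl⟩
  obtain ⟨A, hA⟩ : ∃ A, A = 4 * r ^ 2 * q := ⟨_, rfl⟩
  rw [← hw] at hj hn
  rw [← hA]
  have hA1 : 1 ≤ A := by
    rw [hA]
    exact Nat.mul_pos (by positivity) hq
  have hw1 : 1 ≤ w := by omega
  obtain ⟨f⟩ : Nonempty (GV X g w h u ↪ Fin n) := by
    apply Function.Embedding.nonempty_of_card_le
    rwa [Fintype.card_fin]
  set M := gemb D f with hM
  set Gr : (ι → Set (GE g w)) → SimpleGraph (Fin n) := fun y => (GG2 D y).map f with hGr
  have hbad := card_big_le (A := A) (w := w) D hq hA1 hj1 hj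
  set Bad : (ι → GE g w → Fin A) → Prop := fun ω => ¬ NoBig D (fun b => negT (ω b)) (2 * (A * j))
    with hBad
  set Gp : Fin m × (ι → GE g w → Fin A) × (Fin g → Fin w) → SimpleGraph (Fin n) := fun p =>
    Gr (Function.update (chainY e p.2.1 p.1.val) (e p.1) (posT gl gr p.2.2)) with hGp
  set Gm : Fin m × (ι → GE g w → Fin A) × (Fin g → Fin w) → SimpleGraph (Fin n) := fun p =>
    if Bad p.2.1 then ⊥ else Gr (chainY e p.2.1 (p.1.val + 1)) with hGm
  have : Nonempty (Fin m) := ⟨⟨0, hm⟩⟩
  have : Nonempty (Fin A) := ⟨⟨0, hA1⟩⟩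
  have : Nonempty (Fin w) := ⟨⟨0, hw1⟩⟩
  refine ⟨Fin m × (ι → GE g w → Fin A) × (Fin g → Fin w), inferInstance, inferInstance, Gp, Gm,
    ?_, ?_, ?_⟩
  · intro p
    obtain ⟨c, hc, hcard⟩ := GG2_pos (h := h) (u := u) D
      (Function.update (chainY e p.2.1 p.1.val) (e p.1) (posT gl gr p.2.2)) (e p.1) p.2.2
      (by rw [Function.update_self])
    refine ⟨c.map f, ?_, ?_⟩
    · rw [coe_map]
      exact hc.map
    · rw [card_map]
      exact hcard
  · intro p c hc
    by_cases h2 : 2 ≤ c.card
    · have hgood : ¬ Bad p.2.1 := by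
        intro hB
        have h3 : Gm p = ⊥ := if_pos hB
        rw [h3] at hc
        obtain ⟨a, ha, b, hb, hab⟩ := one_lt_card.1 (show 1 < c.card by omega)
        exact hc ha hb hab
      have h3 : Gm p = Gr (chainY e p.2.1 (p.1.val + 1)) := if_neg hgood
      rw [h3] at hc
      obtain ⟨c', hc', hle⟩ := map_clique f _ c hc h2
      have hgood' : NoBig D (fun b => negT (p.2.1 b)) (2 * (A * j)) := by
        by_contra hcon
        exact hgood hcon
      have h4 := GG2_neg D _ (hgood'.mono (chainY_le e p.2.1 (p.1.val + 1))) c' hc'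
      exact (hle.trans h4).trans (le_max_right _ _)
    · exact le_trans (by omega) (le_max_left _ _)
  · intro C hs val hval lev hlev hlev' d hd
    have havg := average (I := Fin g) (E := GE g w) (a := gl) (b := gr) (w := w) (A := A)
      ge_ext r q hr hq hqr hw hA e C hs M (fun y => val (Gr y)) (fun y => hval (Gr y)) lev hlev
      hlev' d hd
    generalize (∏ ℓ ∈ range (d + 1), ((univ.filter fun i => C.kind i = .neg ∧
      lev i = ℓ).card + 1)) = PP at *
    set NΦ := Fintype.card (Fin g → Fin w) with hNΦ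
    set NO := Fintype.card (ι → GE g w → Fin A) with hNO
    have hcard : Fintype.card (Fin m × (ι → GE g w → Fin A) × (Fin g → Fin w)) = m * (NO * NΦ) := by
      rw [Fintype.card_prod, Fintype.card_prod, Fintype.card_fin]
    rw [hcard]
    have hp : (univ.filter fun p => val (Gp p) C.out).card =
        ∑ k : Fin m, ∑ ω : ι → GE g w → Fin A, (univ.filter fun φ : Fin g → Fin w =>
          val (Gr (Function.update (chainY e ω k.val) (e k) (posT gl gr φ))) C.out).card := by
      rw [card_filter, Fintype.sum_prod_type]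
      apply sum_congr rfl
      intro k _
      rw [Fintype.sum_prod_type]
      apply sum_congr rfl
      intro ω _
      rw [card_filter]
    have hn' : (univ.filter fun p => ¬ val (Gm p) C.out).card ≤
        (∑ k : Fin m, (univ.filter fun ω : ι → GE g w → Fin A =>
          ¬ val (Gr (chainY e ω (k.val + 1))) C.out).card) * NΦ +
          m * ((univ.filter Bad).card * NΦ) := by
      have h1 : (univ.filter fun p => ¬ val (Gm p) C.out) ⊆
          (univ.filter fun p : Fin m × (ι → GE g w → Fin A) × (Fin g → Fin w) =>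
            ¬ val (Gr (chainY e p.2.1 (p.1.val + 1))) C.out) ∪
          (univ.filter fun p : Fin m × (ι → GE g w → Fin A) × (Fin g → Fin w) => Bad p.2.1) := by
        intro p hp
        rw [mem_filter] at hp
        rw [mem_union, mem_filter, mem_filter]
        by_cases hB : Bad p.2.1
        · exact Or.inr ⟨mem_univ _, hB⟩
        · have h3 : Gm p = Gr (chainY e p.2.1 (p.1.val + 1)) := if_neg hB
          rw [h3] at hp
          exact Or.inl ⟨mem_univ _, hp.2⟩
      refine ((card_le_card h1).trans (card_union_le _ _)).trans (Nat.add_le_add ?_ ?_)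
      · rw [card_filter, Fintype.sum_prod_type, sum_mul]
        apply sum_le_sum
        intro k _
        rw [Fintype.sum_prod_type, card_filter, sum_mul]
        apply sum_le_sum
        intro ω _
        refine (sum_le_card_nsmul _ _ (if ¬ val (Gr (chainY e ω (k.val + 1))) C.out then 1 else 0)
          (fun y _ => le_rfl)).trans ?_
        rw [card_univ, smul_eq_mul, mul_comm]
      · rw [card_filter, Fintype.sum_prod_type]
        refine (sum_le_card_nsmul _ _ ((univ.filter Bad).card * NΦ) ?_).trans ?_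
        · intro k _
          rw [Fintype.sum_prod_type, card_filter, sum_mul]
          apply sum_le_sum
          intro ω _
          refine (sum_le_card_nsmul _ _ (if Bad ω then 1 else 0) (fun y _ => le_rfl)).trans ?_
          rw [card_univ, smul_eq_mul, mul_comm]
        · rw [card_univ, Fintype.card_fin, smul_eq_mul]
    have hbad' : (univ.filter Bad).card * (4 * q) ≤ NO :=
      (Nat.mul_le_mul_right _ (le_of_eq (fcc _ fun ω _ => Iff.rfl))).trans hbad
    rw [hp]
    generalize (∑ k : Fin m, ∑ ω : ι → GE g w → Fin A, (univ.filter fun φ : Fin g → Fin w =>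
          val (Gr (Function.update (chainY e ω k.val) (e k) (posT gl gr φ))) C.out).card) = SP at *
    generalize (∑ k : Fin m, (univ.filter fun ω : ι → GE g w → Fin A =>
          ¬ val (Gr (chainY e ω (k.val + 1))) C.out).card) = SM at *
    generalize (univ.filter fun p => ¬ val (Gm p) C.out).card = Nm at *
    generalize (univ.filter Bad).card = B at *
    calc (SP + Nm) * (4 * q * m) ≤ (SP + (SM * NΦ + m * (B * NΦ))) * (4 * q * m) :=
          Nat.mul_le_mul_right _ (Nat.add_le_add_left hn' _)
      _ = ((SP + SM * NΦ) * (2 * q)) * (2 * m) + (B * (4 * q)) * (m * m * NΦ) := by ring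
      _ ≤ (NO * NΦ * (m * (2 * q + 1) + 2 * q * PP)) * (2 * m) + NO * (m * m * NΦ) :=
          Nat.add_le_add (Nat.mul_le_mul_right _ havg) (Nat.mul_le_mul_right _ hbad')
      _ = _ := by ring

end Pool.Agent.T9h16
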