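import Pool.Agent.T9h16.GapMain

/-!
# The choice of the parameters
-/

set_option autoImplicit false
set_option linter.unusedSectionVars false

namespace Pool.Agent.T9h16

open Finset
open scoped Classical

/-- Disjoint blocks. -/
def designDisjoint (m g : ℕ) : Design (Fin m) (Fin m) g :=
  ⟨fun b _ => b, fun _ _ _ _ _ h _ => h⟩

/-- The transversal design of lines in the plane over a prime field. -/
noncomputable def designTD (p g : ℕ) (hp : p.Prime) (hg : g ≤ p) :
    Design (ZMod p × ZMod p) (ZMod p) g where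
  pt := fun b i => b.1 + b.2 * (i.val : ZMod p)
  inj := by
    haveI := Fact.mk hp
    intro i i' hii b b' h1 h2
    have h3 : (b.2 - b'.2) * ((i.val : ZMod p) - (i'.val : ZMod p)) = 0 := by
      linear_combination h1 - h2
    have h4 : ((i.val : ZMod p) - (i'.val : ZMod p)) ≠ 0 := by
      rw [sub_ne_zero]
      intro h
      rw [ZMod.natCast_eq_natCast_iff'] at h
      have hi := i.isLt
      have hi' := i'.isLt
      rw [Nat.mod_eq_of_lt (by omega), Nat.mod_eq_of_lt (by omega)] at h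
      exact hii (Fin.ext h)
    have h5 : b.2 = b'.2 := by
      rcases mul_eq_zero.1 h3 with h | h
      · exact sub_eq_zero.1 h
      · exact absurd h h4
    have h6 : b.1 = b'.1 := by
      rw [h5] at h1
      exact add_right_cancel h1
    exact Prod.ext h6 h5

/-- Two families of graphs on which all circuits of size `s` have a small advantage. -/
def HasFam (n a b s q : ℕ) (κ : ℝ) : Prop :=
  ∃ (Ω : Type) (_ : Fintype Ω) (_ : Nonempty Ω) (Gp Gm : Ω → SimpleGraph (Fin n)),
    (∀ ω, ∃ c : Finset (Fin n), (Gp ω).IsClique (c : Set (Fin n)) ∧ b ≤ c.card) ∧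
    (∀ ω (c : Finset (Fin n)), (Gm ω).IsClique (c : Set (Fin n)) → c.card ≤ a) ∧
    ∀ (C : Circ (PairV n)), C.size ≤ s →
      ∀ (val : SimpleGraph (Fin n) → Fin C.size → Prop), (∀ G, C.Run (gin G) (val G)) →
      ∀ (lev : Fin C.size → ℕ),
      (∀ i j, (C.left i = Sum.inr j → lev j ≤ lev i) ∧
        (C.kind i ≠ .neg → C.right i = Sum.inr j → lev j ≤ lev i)) →
      (∀ i j, C.kind i = .neg → C.left i = Sum.inr j → lev j < lev i) →
      ∀ (d : ℕ), (∀ i, C.kind i = .neg → lev i ≤ d) →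
      (((univ.filter fun ω => val (Gp ω) C.out).card +
        (univ.filter fun ω => ¬ val (Gm ω) C.out).card : ℕ) : ℝ) ≤
      (1 + 1 / q + κ * ((∏ ℓ ∈ range (d + 1),
        ((univ.filter fun i => C.kind i = .neg ∧ lev i = ℓ).card + 1) : ℕ) : ℝ)) *
          Fintype.card Ω

theorem HasFam.mono {n a b s q : ℕ} {κ κ' : ℝ} (hκ : κ ≤ κ') (hf : HasFam n a b s q κ) :
    HasFam n a b s q κ' := by
  obtain ⟨Ω, i1, i2, Gp, Gm, h1, h2, h3⟩ := hf
  refine ⟨Ω, i1, i2, Gp, Gm, h1, h2, ?_⟩
  intro C hs val hval lev hlev hlev' d hd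
  refine (h3 C hs val hval lev hlev hlev' d hd).trans ?_
  apply mul_le_mul_of_nonneg_right _ (Nat.cast_nonneg _)
  apply add_le_add le_rfl
  exact mul_le_mul_of_nonneg_right hκ (Nat.cast_nonneg _)

theorem fam_trivial {n a b s q : ℕ} {κ : ℝ} (hκ : 1 ≤ κ) (ha : 1 ≤ a) (hb : b ≤ n) :
    HasFam n a b s q κ := by
  refine ⟨Unit, inferInstance, inferInstance, fun _ => ⊤, fun _ => ⊥, ?_, ?_, ?_⟩
  · intro _
    obtain ⟨c, -, hc⟩ := exists_subset_card_eq (s := (univ : Finset (Fin n))) (n := b)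
      (by rw [card_univ, Fintype.card_fin]; exact hb)
    exact ⟨c, fun x _ y _ hxy => hxy, hc.ge⟩
  · intro _ c hc
    by_contra hcon
    obtain ⟨x, hx, y, hy, hxy⟩ := one_lt_card.1 (show 1 < c.card by omega)
    exact hc hx hy hxy
  · intro C hs val hval lev hlev hlev' d hd
    have h1 : (univ.filter fun ω : Unit => val ⊤ C.out).card ≤ 1 := card_le_univ _
    have h2 : (univ.filter fun ω : Unit => ¬ val ⊥ C.out).card ≤ 1 := card_le_univ _
    have h3 : (1 : ℝ) ≤ ((∏ ℓ ∈ range (d + 1),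
        ((univ.filter fun i => C.kind i = .neg ∧ lev i = ℓ).card + 1) : ℕ) : ℝ) := by
      have : 1 ≤ ∏ ℓ ∈ range (d + 1),
          ((univ.filter fun i => C.kind i = .neg ∧ lev i = ℓ).card + 1) :=
        Nat.one_le_iff_ne_zero.2 (Finset.prod_ne_zero_iff.2 fun ℓ _ => by omega)
      exact_mod_cast this
    have h4 : (((univ.filter fun ω : Unit => val ⊤ C.out).card +
        (univ.filter fun ω : Unit => ¬ val ⊥ C.out).card : ℕ) : ℝ) ≤ 2 := by
      have : (univ.filter fun ω : Unit => val ⊤ C.out).card +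
        (univ.filter fun ω : Unit => ¬ val ⊥ C.out).card ≤ 2 := by omega
      exact_mod_cast this
    refine h4.trans ?_
    have h5 : (0 : ℝ) ≤ 1 / q := by positivity
    rw [Fintype.card_unit, Nat.cast_one, mul_one]
    nlinarith

theorem fam_design {ι X : Type} [Fintype ι] [Fintype X] (n a b s g h u r q m : ℕ)
    (D : Design ι X g) (e : Fin m ≃ ι) (hr : 2 ≤ r) (hq : 1 ≤ q) (hqr : q ≤ 2 ^ r)
    (hs : s ≤ 2 ^ r) (hnr : n ≤ 2 ^ r) (hm : 1 ≤ m) (hh : 1 ≤ h)
    (hn : g * (Fintype.card X * (4 * r)) * h + u ≤ n) (ha1 : 1 ≤ a)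
    (ha : 32 * r ^ 3 * q * h + u ≤ a) (hb : b ≤ g * h + u) :
    HasFam n a b s q (1 / m) := by
  have hP : Fintype.card (Fin g × X × Fin (4 * r)) ≤ n := by
    rw [Fintype.card_prod, Fintype.card_prod, Fintype.card_fin, Fintype.card_fin]
    calc g * (Fintype.card X * (4 * r)) = g * (Fintype.card X * (4 * r)) * 1 := (mul_one _).symm
      _ ≤ g * (Fintype.card X * (4 * r)) * h := Nat.mul_le_mul_left _ hh
      _ ≤ n := by omega
  have hj : 4 * q * (Fintype.card (Fin g × X × Fin (4 * r))) ^ 2 ≤ 2 ^ (4 * r) := by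
    calc 4 * q * (Fintype.card (Fin g × X × Fin (4 * r))) ^ 2 ≤ (2 ^ r * 2 ^ r) * (2 ^ r) ^ 2 := by
          apply Nat.mul_le_mul
          · apply Nat.mul_le_mul _ hqr
            calc 4 = 2 ^ 2 := rfl
              _ ≤ 2 ^ r := Nat.pow_le_pow_right (by norm_num) hr
          · exact Nat.pow_le_pow_left (hP.trans hnr) 2
      _ = 2 ^ (4 * r) := by
          rw [← pow_add, ← pow_mul, ← pow_add]
          congr 1
          ring
  obtain ⟨Ω, i1, i2, Gp, Gm, h1, h2, h3⟩ := gap_design n g h u r q (4 * r) m D e hr hq hqr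
    (by omega) hj hm (by
      rw [Fintype.card_sum, Fintype.card_prod, Fintype.card_prod, Fintype.card_prod,
        Fintype.card_fin, Fintype.card_fin, Fintype.card_fin, Fintype.card_fin]
      exact hn)
  refine ⟨Ω, i1, i2, Gp, Gm, ?_, ?_, ?_⟩
  · intro ω
    obtain ⟨c, hc, hcard⟩ := h1 ω
    exact ⟨c, hc, hcard ▸ hb⟩
  · intro ω c hc
    refine (h2 ω c hc).trans (max_le ha1 ?_)
    calc 2 * (4 * r ^ 2 * q * (4 * r)) * h + u = 32 * r ^ 3 * q * h + u := by ring
      _ ≤ a := ha
  · intro C hsz val hval lev hlev hlev' d hd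
    have h4 := h3 C (hsz.trans hs) val hval lev hlev hlev' d hd
    generalize (∏ ℓ ∈ range (d + 1), ((univ.filter fun i => C.kind i = .neg ∧
      lev i = ℓ).card + 1)) = PP at *
    generalize (univ.filter fun ω => val (Gp ω) C.out).card +
        (univ.filter fun ω => ¬ val (Gm ω) C.out).card = N at *
    have hm0 : (0 : ℝ) < m := by exact_mod_cast hm
    have hq0 : (0 : ℝ) < q := by exact_mod_cast hq
    have h5 : (N : ℝ) * (4 * q * m) ≤ Fintype.card Ω * (m * (4 * q + 3) + 4 * q * PP) := by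
      exact_mod_cast h4
    have h6 : (N : ℝ) ≤ Fintype.card Ω * (m * (4 * q + 3) + 4 * q * PP) / (4 * q * m) := by
      rw [le_div_iff₀ (by positivity)]
      exact h5
    refine h6.trans ?_
    rw [div_le_iff₀ (by positivity)]
    have h7 : (1 + 1 / (q : ℝ) + 1 / m * PP) * Fintype.card Ω * (4 * q * m) =
        Fintype.card Ω * (m * (4 * q + 4) + 4 * q * PP) := by
      field_simp
    rw [h7]
    apply mul_le_mul_of_nonneg_left _ (Nat.cast_nonneg _)
    have : (m : ℝ) * (4 * q + 3) ≤ m * (4 * q + 4) :=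
      mul_le_mul_of_nonneg_left (by linarith) hm0.le
    linarith

/-- The choice of the blow-up factor `h`, of the number `u` of universal vertices and of the clique
size `g` of a block. -/
theorem exists_hug (a b A : ℕ) (hA : 2 ≤ A) (hAa : A ≤ a) (hab : a < b) :
    ∃ h u g : ℕ, 1 ≤ h ∧ A * h + u = a ∧ b ≤ g * h + u ∧ g * h ≤ 3 * (b - a + A) ∧
      g * a ≤ 2 * A * b := by
  obtain ⟨Δ, hΔ⟩ : ∃ Δ, b = a + Δ := ⟨b - a, by omega⟩
  have hΔ1 : 1 ≤ Δ := by omega
  subst hΔ
  rw [Nat.add_sub_cancel_left]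
  obtain ⟨h₁, hh₁⟩ : ∃ h₁, h₁ = (Δ + A - 1) / A := ⟨_, rfl⟩
  obtain ⟨h₂, hh₂⟩ : ∃ h₂, h₂ = a / A := ⟨_, rfl⟩
  have a1 : A * h₁ ≤ Δ + A - 1 := by rw [hh₁]; exact Nat.mul_div_le _ _
  have a2 : Δ + A - 1 < A * (h₁ + 1) := by
    rw [hh₁]
    exact Nat.lt_mul_div_succ _ (by omega)
  have a3 : A * h₂ ≤ a := by rw [hh₂]; exact Nat.mul_div_le _ _
  have a4 : a < A * (h₂ + 1) := by
    rw [hh₂]
    exact Nat.lt_mul_div_succ _ (by omega)
  rw [mul_add, mul_one] at a2 a4
  have hh₁1 : 1 ≤ h₁ := by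
    by_contra hcon
    have : h₁ = 0 := by omega
    rw [this, mul_zero] at a2
    omega
  have hh₂1 : 1 ≤ h₂ := by
    by_contra hcon
    have : h₂ = 0 := by omega
    rw [this, mul_zero] at a4
    omega
  obtain ⟨h, hh⟩ : ∃ h, h = min h₁ h₂ := ⟨_, rfl⟩
  have hle1 : h ≤ h₁ := by rw [hh]; exact min_le_left _ _
  have hle2 : h ≤ h₂ := by rw [hh]; exact min_le_right _ _
  have hh1 : 1 ≤ h := by rw [hh]; exact le_min hh₁1 hh₂1
  have b1 : A * h ≤ A * h₁ := Nat.mul_le_mul_left _ hle1
  have b2 : A * h ≤ A * h₂ := Nat.mul_le_mul_left _ hle2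
  have b3 : 1 * h ≤ A * h := Nat.mul_le_mul_right _ (by omega)
  obtain ⟨c, hc⟩ : ∃ c, c = (Δ + h - 1) / h := ⟨_, rfl⟩
  have c1 : h * c ≤ Δ + h - 1 := by rw [hc]; exact Nat.mul_div_le _ _
  have c2 : Δ + h - 1 < h * (c + 1) := by
    rw [hc]
    exact Nat.lt_mul_div_succ _ (by omega)
  rw [mul_add, mul_one] at c2
  refine ⟨h, a - A * h, A + c, hh1, by omega, ?_, ?_, ?_⟩
  · rw [add_mul, mul_comm c h]
    omega
  · rw [add_mul, mul_comm c h]
    omega
  · have hca : c * a ≤ A * a + 2 * A * Δ := by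
      rcases le_total h₁ h₂ with hcase | hcase
      · have e1 : h = h₁ := by rw [hh]; exact min_eq_left hcase
        have e2 : Δ ≤ A * h := by rw [e1]; omega
        have e3 : c ≤ A := by
          by_contra hcon
          rw [not_le] at hcon
          have : h * (A + 1) ≤ h * c := Nat.mul_le_mul_left _ hcon
          rw [mul_add, mul_one, mul_comm h A] at this
          omega
        exact (Nat.mul_le_mul_right _ e3).trans (Nat.le_add_right _ _)
      · have e1 : h = h₂ := by rw [hh]; exact min_eq_right hcase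
        have e2 : a ≤ 2 * (A * h) := by
          have : A * 1 ≤ A * h := Nat.mul_le_mul_left _ hh1
          rw [e1] at this ⊢
          omega
        calc c * a ≤ c * (2 * (A * h)) := Nat.mul_le_mul_left _ e2
          _ = 2 * A * (h * c) := by ring
          _ ≤ 2 * A * (Δ + h) := Nat.mul_le_mul_left _ (by omega)
          _ = 2 * (A * h) + 2 * A * Δ := by ring
          _ ≤ A * a + 2 * A * Δ := by
              apply Nat.add_le_add_right
              exact Nat.mul_le_mul hA (by omega)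
    calc (A + c) * a = A * a + c * a := by ring
      _ ≤ A * a + (A * a + 2 * A * Δ) := Nat.add_le_add_left hca _
      _ = 2 * A * (a + Δ) := by ring

theorem gap_main (n a b s q r i : ℕ) (hq : 1 ≤ q) (hr : r = Nat.log 2 (n + s + q) + 1)
    (ha : 32 * q * r ^ 3 ≤ a) (hab : a < b) (hbn : b ≤ n) (hi : i = 1 ∨ (i = 2 ∧
      2 ^ 16 * q * r ^ 4 * b * (b - a + q * r ^ 3) ≤ a * (n - a))) :
    HasFam n a b s q (2 ^ 20 * ((r : ℝ) * ((b : ℝ) - a + q * (r : ℝ) ^ 3) / ((n : ℝ) - a)) ^ i) := by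
  have hr1 : 1 ≤ r := by omega
  have hpow : n + s + q < 2 ^ r := by
    rw [hr]
    exact Nat.lt_pow_succ_log_self (by norm_num) _
  obtain ⟨A, hA⟩ : ∃ A, A = 32 * r ^ 3 * q := ⟨_, rfl⟩
  have hA32 : 32 ≤ A := by
    rw [hA]
    calc 32 = 32 * 1 ^ 3 * 1 := by norm_num
      _ ≤ 32 * r ^ 3 * q := Nat.mul_le_mul (Nat.mul_le_mul_left _ (Nat.pow_le_pow_left hr1 3)) hq
  have hAa : A ≤ a := by
    rw [hA]
    calc 32 * r ^ 3 * q = 32 * q * r ^ 3 := by ring
      _ ≤ a := ha
  have hr2 : 2 ≤ r := by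
    by_contra hcon
    have : r = 1 := by omega
    rw [this] at hpow
    omega
  obtain ⟨h, u, g, hh, hau, hb, hgh, hga⟩ := exists_hug a b A (by omega) hAa hab
  obtain ⟨T, hT⟩ : ∃ T, T = b - a + A := ⟨_, rfl⟩
  have hT1 : 1 ≤ T := by omega
  -- real versions
  have hTr : (T : ℝ) ≤ 32 * ((b : ℝ) - a + q * (r : ℝ) ^ 3) := by
    have h1 : (T : ℝ) = (b : ℝ) - a + 32 * (r : ℝ) ^ 3 * q := by
      rw [hT, Nat.cast_add, Nat.cast_sub hab.le, hA]
      push_cast
      ring
    rw [h1]
    have h2 : (0 : ℝ) ≤ (b : ℝ) - a := by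
      have : (a : ℝ) ≤ b := by exact_mod_cast hab.le
      linarith
    nlinarith
  have hna : (0 : ℝ) < (n : ℝ) - a := by
    have : (a : ℝ) < n := by exact_mod_cast lt_of_lt_of_le hab hbn
    linarith
  have hnac : (((n - a : ℕ)) : ℝ) = (n : ℝ) - a := Nat.cast_sub (by omega)
  set R : ℝ := (r : ℝ) * ((b : ℝ) - a + q * (r : ℝ) ^ 3) / ((n : ℝ) - a) with hR
  have hr0 : (0 : ℝ) < r := by exact_mod_cast hr1
  have hT0 : (0 : ℝ) < T := by exact_mod_cast hT1
  have hRT : (r : ℝ) * T / (32 * ((n : ℝ) - a)) ≤ R := by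
    rw [hR, div_le_div_iff₀ (by positivity) hna]
    calc (r : ℝ) * T * ((n : ℝ) - a) ≤
          (r : ℝ) * (32 * ((b : ℝ) - a + q * (r : ℝ) ^ 3)) * ((n : ℝ) - a) :=
          mul_le_mul_of_nonneg_right (mul_le_mul_of_nonneg_left hTr hr0.le) hna.le
      _ = _ := by ring
  have hR0 : 0 < R := lt_of_lt_of_le (by positivity) hRT
  -- the number of parallel copies
  obtain ⟨Y, hY⟩ : ∃ Y, Y = (n - a) / (12 * T * r) := ⟨_, rfl⟩
  have hTr0 : 0 < 12 * T * r := by positivity
  have hY1 : 12 * T * r * Y ≤ n - a := by rw [hY]; exact Nat.mul_div_le _ _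
  have hY2 : n - a < 12 * T * r * (Y + 1) := by
    rw [hY]
    exact Nat.lt_mul_div_succ _ hTr0
  have hY2r : (n : ℝ) - a < 12 * T * r * (Y + 1) := by
    rw [← hnac]
    exact_mod_cast hY2
  rcases Nat.eq_zero_or_pos Y with hY0 | hY0
  · -- trivial case
    apply fam_trivial _ (by omega) hbn
    rw [hY0, Nat.cast_zero, zero_add, mul_one] at hY2r
    have h1 : 1 ≤ 384 * R := by
      have h2 : 1 ≤ 384 * ((r : ℝ) * T / (32 * ((n : ℝ) - a))) := by
        rw [← mul_div_assoc, le_div_iff₀ (by positivity)]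
        linarith
      linarith
    rcases hi with rfl | ⟨rfl, -⟩
    · rw [pow_one]
      linarith
    · nlinarith
  have hvert : ∀ x : ℕ, x ≤ Y → g * (x * (4 * r)) * h + u ≤ n := by
    intro x hx
    have h1 : g * (x * (4 * r)) * h ≤ n - a := by
      calc g * (x * (4 * r)) * h = (g * h) * (4 * r * x) := by ring
        _ ≤ (3 * T) * (4 * r * Y) := by
            apply Nat.mul_le_mul
            · rw [hT]; exact hgh
            · exact Nat.mul_le_mul_left _ hx
        _ = 12 * T * r * Y := by ring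
        _ ≤ n - a := hY1
    omega
  have hYr : (1 : ℝ) ≤ Y := by exact_mod_cast hY0
  rcases hi with rfl | ⟨rfl, hcond⟩
  · have hf := fam_design n a b s g h u r q Y (designDisjoint Y g) (Equiv.refl _) hr2 hq
      (by omega) (by omega) (by omega) hY0 hh
      (by rw [Fintype.card_fin]; exact hvert Y le_rfl) (by omega)
      (by rw [← hA]; omega) hb
    refine hf.mono ?_
    rw [pow_one, div_le_iff₀ (by linarith)]
    have h1 : (n : ℝ) - a ≤ 24 * T * r * Y := by
      calc (n : ℝ) - a ≤ 12 * T * r * (Y + 1) := hY2r.le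
        _ ≤ 12 * T * r * (2 * Y) := mul_le_mul_of_nonneg_left (by linarith) (by positivity)
        _ = _ := by ring
    have h2 : 1 ≤ 768 * ((r : ℝ) * T / (32 * ((n : ℝ) - a))) * Y := by
      have : 768 * ((r : ℝ) * T / (32 * ((n : ℝ) - a))) * Y =
          24 * T * r * Y / ((n : ℝ) - a) := by
        field_simp
        norm_num
      rw [this, le_div_iff₀ hna, one_mul]
      exact h1
    calc (1 : ℝ) ≤ 768 * ((r : ℝ) * T / (32 * ((n : ℝ) - a))) * Y := h2
      _ ≤ 2 ^ 20 * R * Y := by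
          apply mul_le_mul_of_nonneg_right _ (by linarith)
          nlinarith
  · -- the prime
    have hg2 : 2 * g ≤ Y := by
      have h1 : 12 * T * r * (2 * g) ≤ n - a := by
        have h2 : (12 * T * r * (2 * g)) * a ≤ (n - a) * a := by
          calc (12 * T * r * (2 * g)) * a = 24 * T * r * (g * a) := by ring
            _ ≤ 24 * T * r * (2 * A * b) := Nat.mul_le_mul_left _ hga
            _ ≤ 24 * (32 * (b - a + q * r ^ 3)) * r * (2 * A * b) := by
                apply Nat.mul_le_mul_right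
                apply Nat.mul_le_mul_right
                apply Nat.mul_le_mul_left
                rw [hT, hA]
                have : 32 * (b - a + q * r ^ 3) = 32 * (b - a) + 32 * r ^ 3 * q := by ring
                omega
            _ = 49152 * q * r ^ 4 * b * (b - a + q * r ^ 3) := by rw [hA]; ring
            _ ≤ 2 ^ 16 * q * r ^ 4 * b * (b - a + q * r ^ 3) := by
                apply Nat.mul_le_mul_right
                apply Nat.mul_le_mul_right
                apply Nat.mul_le_mul_right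
                exact Nat.mul_le_mul_right _ (by norm_num)
            _ ≤ a * (n - a) := hcond
            _ = _ := by ring
        exact Nat.le_of_mul_le_mul_right h2 (by omega)
      rw [hY, Nat.le_div_iff_mul_le hTr0]
      calc 2 * g * (12 * T * r) = 12 * T * r * (2 * g) := by ring
        _ ≤ n - a := h1
    have hg0 : 1 ≤ g := by
      by_contra hcon
      have : g = 0 := by omega
      rw [this, zero_mul] at hb
      omega
    obtain ⟨p, hp, hp1, hp2⟩ := Nat.exists_prime_lt_and_le_two_mul (Y / 2) (by omega)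
    have hpY : p ≤ Y := by omega
    have hgp : g ≤ p := by omega
    have hYp : Y + 1 ≤ 2 * p := by omega
    haveI := Fact.mk hp
    haveI : NeZero p := ⟨hp.ne_zero⟩
    have hcard : Fintype.card (ZMod p × ZMod p) = p * p := by
      rw [Fintype.card_prod, ZMod.card]
    have hf := fam_design n a b s g h u r q (p * p) (designTD p g hp hgp)
      (Fintype.equivFinOfCardEq hcard).symm hr2 hq
      (by omega) (by omega) (by omega) (Nat.mul_pos hp.pos hp.pos) hh
      (by rw [ZMod.card]; exact hvert p hpY) (by omega)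
      (by rw [← hA]; omega) hb
    refine hf.mono ?_
    have hp0 : (0 : ℝ) < p := by exact_mod_cast hp.pos
    have h1 : (n : ℝ) - a ≤ 24 * T * r * p := by
      have hYpr : (Y : ℝ) + 1 ≤ 2 * p := by exact_mod_cast hYp
      calc (n : ℝ) - a ≤ 12 * T * r * (Y + 1) := hY2r.le
        _ ≤ 12 * T * r * (2 * p) := mul_le_mul_of_nonneg_left hYpr (by positivity)
        _ = _ := by ring
    have h2 : 1 ≤ 768 * ((r : ℝ) * T / (32 * ((n : ℝ) - a))) * p := by
      have : 768 * ((r : ℝ) * T / (32 * ((n : ℝ) - a))) * p =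
          24 * T * r * p / ((n : ℝ) - a) := by
        field_simp
        norm_num
      rw [this, le_div_iff₀ hna, one_mul]
      exact h1
    have h3 : 1 ≤ 768 * R * p := by
      refine h2.trans ?_
      apply mul_le_mul_of_nonneg_right _ hp0.le
      linarith
    rw [Nat.cast_mul, div_le_iff₀ (by positivity)]
    calc (1 : ℝ) = 1 * 1 := by norm_num
      _ ≤ (768 * R * p) * (768 * R * p) := mul_le_mul h3 h3 (by norm_num) (by positivity)
      _ = 589824 * R ^ 2 * (p * p) := by ring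
      _ ≤ 2 ^ 20 * R ^ 2 * (p * p) := by
          apply mul_le_mul_of_nonneg_right _ (by positivity)
          apply mul_le_mul_of_nonneg_right _ (by positivity)
          norm_num

end Pool.Agent.T9h16
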