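import Pool.Agent.T9h16.Approx

set_option autoImplicit false

namespace Pool.Agent.T9h16

open Finset
open scoped Classical

/-- The variables of a block: edges between two groups of `g * w` points. -/
abbrev BE (g w : ℕ) : Type := (Fin g × Fin w) × (Fin g × Fin w)

/-- Left end of a block variable. -/
def bl {g w : ℕ} (e : BE g w) : (Fin g ⊕ Fin g) × Fin w := (Sum.inl e.1.1, e.1.2)

/-- Right end of a block variable. -/
def br {g w : ℕ} (e : BE g w) : (Fin g ⊕ Fin g) × Fin w := (Sum.inr e.2.1, e.2.2)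

/-- The block function: there are transversals `φ`, `ψ` of the two groups which are completely
joined. -/
def TC {g w : ℕ} (z : Set (BE g w)) : Prop :=
  ∃ φ ψ : Fin g → Fin w, ∀ x y, ((x, φ x), (y, ψ y)) ∈ z

theorem TC.mono {g w : ℕ} {z z' : Set (BE g w)} (h : z ⊆ z') (hz : TC z) : TC z' := by
  obtain ⟨φ, ψ, hφ⟩ := hz
  exact ⟨φ, ψ, fun x y => h (hφ x y)⟩

theorem not_TC_empty {g w : ℕ} (hg : 1 ≤ g) : ¬ TC (∅ : Set (BE g w)) := by
  rintro ⟨φ, ψ, h⟩
  exact h ⟨0, hg⟩ ⟨0, hg⟩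

theorem TC_posT {g w : ℕ} (φ : Fin g ⊕ Fin g → Fin w) : TC (posT (bl (g := g)) br φ) :=
  ⟨fun x => φ (Sum.inl x), fun y => φ (Sum.inr y), fun x y => by simp [posT, bl, br]⟩

theorem bern (n m : ℕ) : n ^ (m + 1) + (m + 1) * n ^ m ≤ (n + 1) ^ (m + 1) := by
  induction m with
  | zero => simp
  | succ m ih =>
    calc n ^ (m + 2) + (m + 2) * n ^ (m + 1)
        ≤ (n + 1) * (n ^ (m + 1) + (m + 1) * n ^ m) := by
          have : (n + 1) * (n ^ (m + 1) + (m + 1) * n ^ m) =
            n ^ (m + 2) + (m + 2) * n ^ (m + 1) + (m + 1) * n ^ m := by ring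
          omega
      _ ≤ (n + 1) * (n + 1) ^ (m + 1) := Nat.mul_le_mul_left _ ih
      _ = (n + 1) ^ (m + 2) := by ring

theorem two_mul_pow_le (A : ℕ) (hA : 1 ≤ A) : (A - 1) ^ A * 2 ≤ A ^ A := by
  obtain ⟨n, rfl⟩ : ∃ n, A = n + 1 := ⟨A - 1, by omega⟩
  have := bern n n
  have h2 : n ^ (n + 1) ≤ (n + 1) * n ^ n := by
    rw [pow_succ, mul_comm]
    exact Nat.mul_le_mul_right _ (Nat.le_succ n)
  simp only [Nat.add_sub_cancel]
  omega

theorem card_nonzero {E : Type} [Fintype E] [DecidableEq E] (A : ℕ) (Y : Finset E) :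
    (univ.filter fun χ : E → Fin A => ∀ e ∈ Y, (χ e).val ≠ 0).card * A ^ Y.card
      ≤ (A - 1) ^ Y.card * Fintype.card (E → Fin A) := by
  have hsub : (univ.filter fun χ : E → Fin A => ∀ e ∈ Y, (χ e).val ≠ 0) ⊆
      Fintype.piFinset (fun e => if e ∈ Y then univ.filter fun i : Fin A => i.val ≠ 0 else univ) := by
    intro χ hχ
    simp only [mem_filter, mem_univ, true_and] at hχ
    rw [Fintype.mem_piFinset]
    intro e
    split_ifs with he
    · simp [hχ e he]
    · exact mem_univ _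
  have hc : (univ.filter fun i : Fin A => i.val ≠ 0).card ≤ A - 1 := by
    by_cases hA : 1 ≤ A
    · have : (univ.filter fun i : Fin A => i.val ≠ 0) ⊆ univ.erase ⟨0, hA⟩ := by
        intro i hi
        simp only [mem_filter, mem_univ, true_and] at hi
        rw [mem_erase]
        exact ⟨fun h => hi (by rw [h]), mem_univ _⟩
      refine (card_le_card this).trans ?_
      rw [card_erase_of_mem (mem_univ _), card_univ, Fintype.card_fin]
    · have : A = 0 := by omega
      subst this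
      simp
  calc (univ.filter fun χ : E → Fin A => ∀ e ∈ Y, (χ e).val ≠ 0).card * A ^ Y.card
      ≤ (Fintype.piFinset (fun e => if e ∈ Y then univ.filter fun i : Fin A => i.val ≠ 0
          else univ)).card * A ^ Y.card := Nat.mul_le_mul_right _ (card_le_card hsub)
    _ ≤ (∏ e : E, if e ∈ Y then A - 1 else A) * A ^ Y.card := by
        apply Nat.mul_le_mul_right
        rw [Fintype.card_piFinset]
        apply prod_le_prod'
        intro e _
        split_ifs
        · exact hc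
        · simp
    _ = (∏ e : E, if e ∈ Y then A - 1 else A) * (∏ e : E, if e ∈ Y then A else 1) := by
        congr 1
        rw [prod_ite_mem, univ_inter, prod_const]
    _ = (∏ e : E, if e ∈ Y then A - 1 else 1) * (∏ e : E, A) := by
        rw [← prod_mul_distrib, ← prod_mul_distrib]
        apply prod_congr rfl
        intro e _
        split_ifs
        · rfl
        · ring
    _ = (A - 1) ^ Y.card * Fintype.card (E → Fin A) := by
        rw [prod_ite_mem, univ_inter, prod_const, prod_const, Fintype.card_fun, card_univ,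
          Fintype.card_fin]

theorem card_TC_le {g w : ℕ} (A : ℕ) :
    (univ.filter fun χ : BE g w → Fin A => TC (negT χ)).card * A ^ (g * g)
      ≤ w ^ (2 * g) * (A - 1) ^ (g * g) * Fintype.card (BE g w → Fin A) := by
  set Y : (Fin g → Fin w) × (Fin g → Fin w) → Finset (BE g w) := fun q =>
    univ.image fun xy : Fin g × Fin g => ((xy.1, q.1 xy.1), (xy.2, q.2 xy.2)) with hY
  have hYc : ∀ q, (Y q).card = g * g := by
    intro q
    rw [hY, card_image_of_injective, card_univ, Fintype.card_prod, Fintype.card_fin]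
    rintro ⟨x, y⟩ ⟨x', y'⟩ h
    simp only [Prod.mk.injEq] at h
    exact Prod.ext h.1.1 h.2.1
  have hsub : (univ.filter fun χ : BE g w → Fin A => TC (negT χ)) ⊆
      (univ : Finset ((Fin g → Fin w) × (Fin g → Fin w))).biUnion
        (fun q => univ.filter fun χ : BE g w → Fin A => ∀ e ∈ Y q, (χ e).val ≠ 0) := by
    intro χ hχ
    simp only [mem_filter, mem_univ, true_and] at hχ
    obtain ⟨φ, ψ, h⟩ := hχ
    simp only [mem_biUnion, mem_univ, true_and, mem_filter]
    refine ⟨(φ, ψ), ?_⟩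
    intro e he
    rw [hY, mem_image] at he
    obtain ⟨xy, -, rfl⟩ := he
    exact h xy.1 xy.2
  calc (univ.filter fun χ : BE g w → Fin A => TC (negT χ)).card * A ^ (g * g)
      ≤ (∑ q : (Fin g → Fin w) × (Fin g → Fin w),
          (univ.filter fun χ : BE g w → Fin A => ∀ e ∈ Y q, (χ e).val ≠ 0).card) * A ^ (g * g) := by
        apply Nat.mul_le_mul_right
        exact (card_le_card hsub).trans card_biUnion_le
    _ = ∑ q : (Fin g → Fin w) × (Fin g → Fin w),
          (univ.filter fun χ : BE g w → Fin A => ∀ e ∈ Y q, (χ e).val ≠ 0).card * A ^ (g * g) := by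
        rw [sum_mul]
    _ ≤ ∑ q : (Fin g → Fin w) × (Fin g → Fin w),
          (A - 1) ^ (g * g) * Fintype.card (BE g w → Fin A) := by
        apply sum_le_sum
        intro q _
        have := card_nonzero A (Y q)
        rwa [hYc] at this
    _ = w ^ (2 * g) * (A - 1) ^ (g * g) * Fintype.card (BE g w → Fin A) := by
        rw [sum_const, smul_eq_mul, card_univ, Fintype.card_prod, Fintype.card_fun,
          Fintype.card_fin, Fintype.card_fin]
        ring

/-- Few random sets of variables satisfy the block function. -/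
theorem card_TC_four {g w A L : ℕ} (hA : 1 ≤ A) (hg : g = A * L) (hg2 : 2 ≤ g)
    (hL : w ^ 2 * 2 ≤ 2 ^ L) :
    (univ.filter fun χ : BE g w → Fin A => TC (negT χ)).card * 4
      ≤ Fintype.card (BE g w → Fin A) := by
  have h1 := card_TC_le (g := g) (w := w) A
  have h2 : (A - 1) ^ (g * g) * 2 ^ (L * g) ≤ A ^ (g * g) := by
    have : g * g = A * (L * g) := by rw [← mul_assoc, ← hg]
    rw [this, pow_mul (A - 1) A (L * g), pow_mul A A (L * g), ← mul_pow]
    exact Nat.pow_le_pow_left (two_mul_pow_le A hA) _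
  have h3 : w ^ (2 * g) * 4 ≤ 2 ^ (L * g) := by
    calc w ^ (2 * g) * 4 ≤ w ^ (2 * g) * 2 ^ g := by
          apply Nat.mul_le_mul_left
          calc 4 = 2 ^ 2 := rfl
            _ ≤ 2 ^ g := Nat.pow_le_pow_right (by norm_num) hg2
      _ = (w ^ 2 * 2) ^ g := by rw [mul_pow, pow_mul]
      _ ≤ (2 ^ L) ^ g := Nat.pow_le_pow_left hL _
      _ = 2 ^ (L * g) := by rw [pow_mul]
  have hApos : 0 < A ^ (g * g) := Nat.pow_pos hA
  by_contra hcon
  rw [not_le] at hcon
  set N := Fintype.card (BE g w → Fin A)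
  set T := (univ.filter fun χ : BE g w → Fin A => TC (negT χ)).card
  have h4 : T * 4 * A ^ (g * g) * 2 ^ (L * g) ≤ N * A ^ (g * g) * 2 ^ (L * g) := by
    calc T * 4 * A ^ (g * g) * 2 ^ (L * g) = (T * A ^ (g * g)) * (4 * 2 ^ (L * g)) := by ring
      _ ≤ (w ^ (2 * g) * (A - 1) ^ (g * g) * N) * (4 * 2 ^ (L * g)) := Nat.mul_le_mul_right _ h1
      _ = (w ^ (2 * g) * 4) * ((A - 1) ^ (g * g) * 2 ^ (L * g)) * N := by ring
      _ ≤ 2 ^ (L * g) * A ^ (g * g) * N := Nat.mul_le_mul_right _ (Nat.mul_le_mul h3 h2)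
      _ = N * A ^ (g * g) * 2 ^ (L * g) := by ring
  have h5 : N * A ^ (g * g) * 2 ^ (L * g) < T * 4 * A ^ (g * g) * 2 ^ (L * g) := by
    apply Nat.mul_lt_mul_of_pos_right _ (by positivity)
    exact Nat.mul_lt_mul_of_pos_right hcon hApos
  omega

/-- `L r`: a number with `(2 r) ^ 2 * 2 ≤ 2 ^ L r`. -/
def LL (r : ℕ) : ℕ := Nat.clog 2 (4 * r ^ 2) + 1

/-- Number of parts of a group. -/
def GG (r : ℕ) : ℕ := 4 * r ^ 2 * LL r

theorem LL_spec (r : ℕ) : (2 * r) ^ 2 * 2 ≤ 2 ^ LL r := by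
  have := Nat.le_pow_clog (b := 2) (by norm_num) (4 * r ^ 2)
  have h : (2 * r) ^ 2 = 4 * r ^ 2 := by ring
  rw [h, LL, pow_succ]
  exact Nat.mul_le_mul_right _ this

theorem hard_gen (r g w A : ℕ) (hr : 2 ≤ r) (hw : w = 2 * r) (hA : A = 4 * r ^ 2)
    (hT4 : (univ.filter fun χ : BE g w → Fin A => TC (negT χ)).card * 4
      ≤ Fintype.card (BE g w → Fin A)) (s : ℕ) (hs : s ≤ 2 ^ r)
    (gt : ℕ → Set (BE g w) → Prop) (hg : IsSLP gt s)
    (O : Set (Set (BE g w) → Prop)) (hO : ∀ o ∈ O, Avail gt s o)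
    (hpos : ∀ z, TC z → ∃ o ∈ O, o z) (hneg : ∀ z, ¬ TC z → ∀ o ∈ O, ¬ o z) : False := by
  have hr0 : 0 < r := by omega
  have hr2 : 0 < r ^ 2 := by positivity
  have hw1 : 1 ≤ w := by omega
  have hA1 : 1 ≤ A := by omega
  have hinj : ∀ e e' : BE g w, bl e = bl e' → br e = br e' → e = e' := by
    rintro ⟨⟨x, i⟩, ⟨y, j⟩⟩ ⟨⟨x', i'⟩, ⟨y', j'⟩⟩ h1 h2
    simp only [bl, br, Prod.mk.injEq, Sum.inl.injEq, Sum.inr.injEq] at h1 h2
    simp [h1.1, h1.2, h2.1, h2.2]
  obtain ⟨PE, NE, hPE, hNE, happ⟩ := approx_slp (w := w) (A := A) (c := r) (ℓ := r)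
    (a := bl (g := g)) (b := br) hw1 hA1 hr (by omega) hinj gt s hg
  have hNΦ : 0 < Fintype.card (Fin g ⊕ Fin g → Fin w) := by
    rw [Fintype.card_fun, Fintype.card_fin]
    exact Nat.pow_pos hw1
  generalize hNX : Fintype.card (BE g w → Fin A) = NX at *
  have hNX0 : 0 < NX := by
    rw [← hNX, Fintype.card_fun, Fintype.card_fin]
    exact Nat.pow_pos hA1
  -- a positive test outside of the error set
  have hPElt : PE.card < Fintype.card (Fin g ⊕ Fin g → Fin w) := by
    generalize Fintype.card (Fin g ⊕ Fin g → Fin w) = NΦ at *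
    generalize PE.card = P at *
    by_contra hcon
    rw [not_lt] at hcon
    have h1 : NΦ * w ^ (r + 1) ≤ 2 ^ r * (r ^ (r + 1) * NΦ) :=
      (Nat.mul_le_mul_right _ hcon).trans (hPE.trans (Nat.mul_le_mul_right _ hs))
    have h2 : w ^ (r + 1) = 2 * (2 ^ r * r ^ (r + 1)) := by
      rw [hw, mul_pow]
      ring
    rw [h2] at h1
    have h3 : 0 < 2 ^ r * r ^ (r + 1) := by positivity
    nlinarith [Nat.mul_pos hNΦ h3]
  obtain ⟨φ, hφ⟩ : ∃ φ, φ ∉ PE := by
    by_contra hcon
    push Not at hcon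
    have : PE = univ := by
      ext φ; simp [hcon φ]
    rw [this, card_univ] at hPElt
    exact lt_irrefl _ hPElt
  obtain ⟨o, hoO, hoφ⟩ := hpos _ (TC_posT φ)
  have hoapp : Approx w A r r (bl (g := g)) br PE NE o := by
    rcases hO o hoO with ho | ⟨j, hj, ho⟩
    · exact (approx_leaf hr (by omega) ho).mono (by simp) (by simp)
    · exact (happ j hj).congr ho
  obtain ⟨𝒲, 𝒞, h1, h2, h3, h4, h5⟩ := hoapp
  obtain ⟨W, hW, -⟩ := h4 φ hφ hoφ
  -- the three bad events for a negative test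
  obtain ⟨B₁, hB₁⟩ : ∃ B₁, B₁ = univ.filter fun χ : BE g w → Fin A => TC (negT χ) := ⟨_, rfl⟩
  obtain ⟨EW, hEW⟩ : ∃ EW, EW = univ.filter fun e : BE g w => bl e ∈ W ∧ br e ∈ W := ⟨_, rfl⟩
  obtain ⟨B₂, hB₂⟩ : ∃ B₂, B₂ = univ.filter fun χ : BE g w → Fin A =>
    ∃ e ∈ EW, (χ e).val = 0 := ⟨_, rfl⟩
  have hb1 : B₁.card * 4 ≤ NX := by rw [hB₁]; exact hT4
  have hEWc : EW.card ≤ r ^ 2 := by
    have : EW.card ≤ (W ×ˢ W).card := by
      apply card_le_card_of_injOn (fun e => (bl e, br e))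
      · intro e he
        simp only [hEW, coe_filter, mem_univ, true_and, Set.mem_ofPred_eq] at he
        simp [he.1, he.2]
      · intro e _ e' _ hee
        exact hinj e e' (Prod.ext_iff.1 hee).1 (Prod.ext_iff.1 hee).2
    refine this.trans ?_
    rw [card_product, sq]
    exact Nat.mul_le_mul (h1 W hW) (h1 W hW)
  have hb2 : B₂.card * 4 ≤ NX := by
    have hsub : B₂ ⊆ EW.biUnion fun e => univ.filter fun χ : BE g w → Fin A =>
        ∀ e' ∈ ({e} : Finset (BE g w)), (χ e').val = 0 := by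
      intro χ hχ
      simp only [hB₂, mem_filter, mem_univ, true_and] at hχ
      obtain ⟨e, he, hχe⟩ := hχ
      simp only [mem_biUnion, mem_filter, mem_univ, true_and, mem_singleton, forall_eq]
      exact ⟨e, he, hχe⟩
    have h6 : B₂.card * A ≤ r ^ 2 * NX := by
      calc B₂.card * A ≤ (∑ e ∈ EW, (univ.filter fun χ : BE g w → Fin A =>
            ∀ e' ∈ ({e} : Finset (BE g w)), (χ e').val = 0).card) * A :=
            Nat.mul_le_mul_right _ ((card_le_card hsub).trans card_biUnion_le)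
        _ = ∑ e ∈ EW, (univ.filter fun χ : BE g w → Fin A =>
            ∀ e' ∈ ({e} : Finset (BE g w)), (χ e').val = 0).card * A := by rw [sum_mul]
        _ ≤ ∑ e ∈ EW, NX := by
            apply sum_le_sum
            intro e _
            have := card_zero A hA1 ({e} : Finset (BE g w))
            rwa [card_singleton, pow_one, hNX] at this
        _ = EW.card * NX := by rw [sum_const, smul_eq_mul]
        _ ≤ r ^ 2 * NX := Nat.mul_le_mul_right _ hEWc
    generalize B₂.card = b2 at *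
    have h7 : r ^ 2 * (b2 * 4) ≤ r ^ 2 * NX := by
      calc r ^ 2 * (b2 * 4) = b2 * A := by rw [hA]; ring
        _ ≤ _ := h6
    exact Nat.le_of_mul_le_mul_left h7 hr2
  have hb3 : NE.card * 4 ≤ NX := by
    generalize NE.card = b3 at *
    have h6 : b3 * A ^ (r + 1) ≤ 2 ^ r * ((r ^ 2) ^ (r + 1) * NX) :=
      hNE.trans (Nat.mul_le_mul_right _ hs)
    have h7 : A ^ (r + 1) = 4 * 4 ^ r * (r ^ 2) ^ (r + 1) := by
      rw [hA, mul_pow]
      ring
    rw [h7] at h6
    have h8 : (2 : ℕ) ^ r ≤ 4 ^ r := Nat.pow_le_pow_left (by norm_num) r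
    have h9 : 0 < (r ^ 2) ^ (r + 1) := Nat.pow_pos hr2
    have h10 : (4 ^ r * (r ^ 2) ^ (r + 1)) * (b3 * 4) ≤
        (4 ^ r * (r ^ 2) ^ (r + 1)) * NX := by
      calc (4 ^ r * (r ^ 2) ^ (r + 1)) * (b3 * 4)
          = b3 * (4 * 4 ^ r * (r ^ 2) ^ (r + 1)) := by ring
        _ ≤ 2 ^ r * ((r ^ 2) ^ (r + 1) * NX) := h6
        _ ≤ 4 ^ r * ((r ^ 2) ^ (r + 1) * NX) :=
            Nat.mul_le_mul_right _ h8
        _ = _ := by ring
    exact Nat.le_of_mul_le_mul_left h10 (by positivity)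
  obtain ⟨χ, hχ⟩ : ∃ χ, χ ∉ B₁ ∪ (B₂ ∪ NE) := by
    by_contra hcon
    push Not at hcon
    have h6 : B₁ ∪ (B₂ ∪ NE) = univ := by
      ext χ; simp only [mem_univ, iff_true]; exact hcon χ
    have h7 : NX ≤ B₁.card + (B₂.card + NE.card) := by
      rw [← hNX, ← card_univ, ← h6]
      exact (card_union_le _ _).trans (Nat.add_le_add_left (card_union_le _ _) _)
    omega
  rw [notMem_union, notMem_union] at hχ
  obtain ⟨hχ1, hχ2, hχ3⟩ := hχ
  have hT : ¬ TC (negT χ) := by
    intro hT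
    exact hχ1 (by rw [hB₁, mem_filter]; exact ⟨mem_univ _, hT⟩)
  obtain ⟨F, hF, hFχ⟩ := h5 χ hχ3 (hneg _ hT o hoO)
  obtain ⟨e, he, hae, hbe⟩ := h3 W hW F hF
  apply hχ2
  rw [hB₂, mem_filter]
  refine ⟨mem_univ _, e, ?_, hFχ e he⟩
  rw [hEW, mem_filter]
  exact ⟨mem_univ _, hae, hbe⟩

theorem one_le_LL (r : ℕ) : 1 ≤ LL r := by rw [LL]; omega

theorem two_le_GG (r : ℕ) (hr : 2 ≤ r) : 2 ≤ GG r := by
  have hr2 : 0 < r ^ 2 := by positivity
  have : 2 * 1 ≤ (4 * r ^ 2) * LL r := Nat.mul_le_mul (by omega) (one_le_LL r)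
  rw [GG]
  simpa using this

/-- The monotone lower bound for the block function, in the form used below: no set of outputs of a
monotone straight-line program with at most `2 ^ r` gates has a disjunction equal to the block
function with parameters `GG r` and `2 * r`. -/
theorem hard (r : ℕ) (hr : 2 ≤ r) (s : ℕ) (hs : s ≤ 2 ^ r)
    (gt : ℕ → Set (BE (GG r) (2 * r)) → Prop) (hg : IsSLP gt s)
    (O : Set (Set (BE (GG r) (2 * r)) → Prop)) (hO : ∀ o ∈ O, Avail gt s o)
    (hpos : ∀ z, TC z → ∃ o ∈ O, o z) (hneg : ∀ z, ¬ TC z → ∀ o ∈ O, ¬ o z) : False := by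
  have hr2 : 0 < r ^ 2 := by positivity
  exact hard_gen r (GG r) (2 * r) (4 * r ^ 2) hr rfl rfl
    (card_TC_four (by omega) rfl (two_le_GG r hr) (LL_spec r)) s hs gt hg O hO hpos hneg

end Pool.Agent.T9h16
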