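import Pool.Agent.T9h16.Star

set_option autoImplicit false

namespace Pool.Agent.T9h16

open Finset
open scoped Classical

section matching

variable {n g w : ℕ} {ι : Type} (U : Finset (Fin n)) (F : Bool → ι → BE g w → Fin n)

/-- Adjacency of endpoints of different pairs. -/
def pairRel (a b : Fin n) : Prop :=
  ∃ β β' i e e', a = F β i e ∧ b = F β' i e' ∧ compat e e'

/-- Adjacency of the two endpoints of a pair. -/
def rung (y : ι → Set (BE g w)) (a b : Fin n) : Prop :=
  ∃ β i e, e ∈ y i ∧ a = F β i e ∧ b = F (!β) i e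

/-- The matching host graph. -/
def matchG (y : ι → Set (BE g w)) : SimpleGraph (Fin n) where
  Adj a b := a ≠ b ∧ (a ∈ U ∨ b ∈ U ∨ pairRel F a b ∨ rung F y a b)
  symm := ⟨by
    rintro a b ⟨hne, h⟩
    refine ⟨hne.symm, ?_⟩
    rcases h with h | h | ⟨β, β', i, e, e', h1, h2, h3⟩ | ⟨β, i, e, he, h1, h2⟩
    · exact Or.inr (Or.inl h)
    · exact Or.inl h
    · exact Or.inr (Or.inr (Or.inl ⟨β', β, i, e', e, h2, h1, h3.symm⟩))
    · exact Or.inr (Or.inr (Or.inr ⟨!β, i, e, he, h2, by rw [Bool.not_not]; exact h1⟩))⟩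
  loopless := ⟨fun a h => h.1 rfl⟩

variable {U F}

theorem matchG_mono {y y' : ι → Set (BE g w)} (h : ∀ i, y i ⊆ y' i) :
    matchG U F y ≤ matchG U F y' := by
  rintro a b ⟨hne, hab⟩
  refine ⟨hne, ?_⟩
  rcases hab with h1 | h1 | h1 | ⟨β, i, e, he, h1⟩
  · exact Or.inl h1
  · exact Or.inr (Or.inl h1)
  · exact Or.inr (Or.inr (Or.inl h1))
  · exact Or.inr (Or.inr (Or.inr ⟨β, i, e, h i he, h1⟩))

/-- The hypotheses: all endpoints are different and outside of `U`. -/
structure MatchData (U : Finset (Fin n)) (F : Bool → ι → BE g w → Fin n) : Prop where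
  hU : ∀ β i e, F β i e ∉ U
  inj : ∀ β β' i i' e e', F β i e = F β' i' e' → β = β' ∧ i = i' ∧ e = e'

theorem MatchData.adj_iff (h : MatchData U F) (y : ι → Set (BE g w)) (β β' : Bool) (i i' : ι)
    (e e' : BE g w) :
    (matchG U F y).Adj (F β i e) (F β' i' e') ↔
      i = i' ∧ (compat e e' ∨ (e = e' ∧ β' = !β ∧ e ∈ y i)) := by
  constructor
  · rintro ⟨hne, h1 | h1 | ⟨β₁, β₂, j, e₁, e₂, h1, h2, h3⟩ | ⟨β₁, j, e₁, he, h1, h2⟩⟩
    · exact (h.hU _ _ _ h1).elim
    · exact (h.hU _ _ _ h1).elim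
    · obtain ⟨-, rfl, rfl⟩ := h.inj _ _ _ _ _ _ h1
      obtain ⟨-, rfl, rfl⟩ := h.inj _ _ _ _ _ _ h2
      exact ⟨rfl, Or.inl h3⟩
    · obtain ⟨rfl, rfl, rfl⟩ := h.inj _ _ _ _ _ _ h1
      obtain ⟨rfl, rfl, rfl⟩ := h.inj _ _ _ _ _ _ h2
      exact ⟨rfl, Or.inr ⟨rfl, rfl, he⟩⟩
  · rintro ⟨rfl, h1 | ⟨rfl, rfl, h1⟩⟩
    · refine ⟨fun hh => h1.1 (h.inj _ _ _ _ _ _ hh).2.2, Or.inr (Or.inr (Or.inl ?_))⟩
      exact ⟨β, β', i, e, e', rfl, rfl, h1⟩
    · refine ⟨fun hh => ?_, Or.inr (Or.inr (Or.inr ⟨β, i, e, h1, rfl, rfl⟩))⟩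
      have := (h.inj _ _ _ _ _ _ hh).1
      cases β <;> simp at this

theorem matchG_leaf (h : MatchData U F) (R : Fin n → Fin n → Prop)
    (hR : ∀ i e, R (F false i e) (F true i e)) (a b : Fin n) :
    (∃ t : Prop, ∀ y : ι → Set (BE g w), (matchG U F y).Adj a b ↔ t) ∨
    (∃ i e, (∀ y : ι → Set (BE g w), (matchG U F y).Adj a b ↔ e ∈ y i) ∧
      (R a b ∨ R b a)) := by
  by_cases hab : (∃ β i e, a = F β i e) ∧ (∃ β i e, b = F β i e)
  · obtain ⟨⟨β, i, e, rfl⟩, ⟨β', i', e', rfl⟩⟩ := hab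
    simp only [h.adj_iff]
    by_cases hi : i = i'
    · subst hi
      by_cases hc : compat e e'
      · left
        exact ⟨True, fun y => by simp [hc]⟩
      · by_cases he : e = e' ∧ β' = !β
        · right
          obtain ⟨rfl, rfl⟩ := he
          refine ⟨i, e, fun y => by simp [hc], ?_⟩
          cases β
          · exact Or.inl (hR i e)
          · exact Or.inr (hR i e)
        · left
          refine ⟨False, fun y => ⟨?_, False.elim⟩⟩
          rintro ⟨-, h1 | ⟨h1, h2, -⟩⟩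
          · exact hc h1
          · exact he ⟨h1, h2⟩
    · left
      exact ⟨False, fun y => by simp [hi]⟩
  · left
    refine ⟨a ≠ b ∧ (a ∈ U ∨ b ∈ U), fun y => ⟨?_, ?_⟩⟩
    · rintro ⟨hne, h1 | h1 | ⟨β₁, β₂, j, e₁, e₂, h1, h2, h3⟩ | ⟨β₁, j, e₁, he, h1, h2⟩⟩
      · exact ⟨hne, Or.inl h1⟩
      · exact ⟨hne, Or.inr h1⟩
      · exact (hab ⟨⟨_, _, _, h1⟩, ⟨_, _, _, h2⟩⟩).elim
      · exact (hab ⟨⟨_, _, _, h1⟩, ⟨_, _, _, h2⟩⟩).elim
    · rintro ⟨hne, h1 | h1⟩
      · exact ⟨hne, Or.inl h1⟩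
      · exact ⟨hne, Or.inr (Or.inl h1)⟩

theorem matchG_clique (h : MatchData U F) (hg : 1 ≤ g) (y : ι → Set (BE g w)) :
    (∃ s : Finset (Fin n), (matchG U F y).IsClique (s : Set (Fin n)) ∧
      U.card + 2 * (g * g) ≤ s.card) ↔ ∃ i, TC (y i) := by
  have hgg : 1 ≤ g * g := Nat.mul_pos hg hg
  constructor
  · rintro ⟨s, hs, hcard⟩
    have hadj : ∀ a ∈ s, ∀ b ∈ s, a ≠ b → (matchG U F y).Adj a b :=
      fun a ha b hb hab => hs ha hb hab
    have hrest : U.card + 2 * (g * g) ≤ U.card + (s \ U).card := by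
      have := card_le_card (show s ⊆ U ∪ (s \ U) from fun a ha => by
          by_cases haU : a ∈ U <;> simp [haU, ha])
      exact hcard.trans (this.trans (card_union_le _ _))
    -- all other vertices are endpoints
    have hend : ∀ a ∈ s \ U, ∃ β i e, a = F β i e := by
      intro a ha
      obtain ⟨b, hb, hba⟩ : ∃ b ∈ s \ U, b ≠ a := exists_mem_ne (by omega) a
      rw [mem_sdiff] at ha hb
      rcases (hadj a ha.1 b hb.1 hba.symm).2 with h1 | h1 | ⟨β₁, β₂, j, e₁, e₂, h1, h2, h3⟩ |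
        ⟨β₁, j, e₁, he, h1, h2⟩
      · exact (ha.2 h1).elim
      · exact (hb.2 h1).elim
      · exact ⟨_, _, _, h1⟩
      · exact ⟨_, _, _, h1⟩
    have hpos : 0 < (s \ U).card := by omega
    obtain ⟨a₀, ha₀⟩ := card_pos.1 hpos
    obtain ⟨β₀, i₀, e₀, rfl⟩ := hend a₀ ha₀
    -- the block is the same
    have hblock : ∀ β i e, F β i e ∈ s → i = i₀ := by
      intro β i e hs'
      by_cases hne : F β i e = F β₀ i₀ e₀
      · exact (h.inj _ _ _ _ _ _ hne).2.1
      · exact ((h.adj_iff y _ _ _ _ _ _).1 (hadj _ hs' _ (mem_sdiff.1 ha₀).1 hne)).1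
    set S : Bool → Finset (BE g w) := fun β => univ.filter fun e => F β i₀ e ∈ s with hS
    have memS : ∀ β e, e ∈ S β ↔ F β i₀ e ∈ s := fun β e => by simp [hS]
    have hScomp : ∀ β, ∀ e ∈ S β, ∀ e' ∈ S β, e ≠ e' → compat e e' := by
      intro β e he e' he' hee
      rw [memS] at he he'
      have := (h.adj_iff y _ _ _ _ _ _).1 (hadj _ he _ he'
        (fun hh => hee (h.inj _ _ _ _ _ _ hh).2.2))
      rcases this.2 with h1 | ⟨h1, -⟩
      · exact h1
      · exact (hee h1).elim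
    have hcov : s \ U ⊆ (S false).image (F false i₀) ∪ (S true).image (F true i₀) := by
      intro a ha
      obtain ⟨β, i, e, rfl⟩ := hend a ha
      have hs' := (mem_sdiff.1 ha).1
      have hi := hblock β i e hs'
      subst hi
      rw [mem_union, mem_image, mem_image]
      cases β
      · exact Or.inl ⟨e, (memS _ _).2 hs', rfl⟩
      · exact Or.inr ⟨e, (memS _ _).2 hs', rfl⟩
    have hc1 : (s \ U).card ≤ (S false).card + (S true).card :=
      (card_le_card hcov).trans ((card_union_le _ _).trans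
        (Nat.add_le_add card_image_le card_image_le))
    have hF := compat_card (S false) (hScomp false)
    have hT := compat_card (S true) (hScomp true)
    have hFc : (S false).card = g * g := by have := hF.1; have := hT.1; omega
    have hTc : (S true).card = g * g := by have := hF.1; have := hT.1; omega
    obtain ⟨φ, ψ, hφ⟩ := hF.2 hFc hg
    obtain ⟨φ', ψ', hφ'⟩ := hT.2 hTc hg
    refine ⟨i₀, φ, ψ, fun x z => ?_⟩
    have h1 := (memS _ _).1 (hφ (mem_mint.2 ⟨x, z, rfl⟩))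
    have h2 := (memS _ _).1 (hφ' (mem_mint.2 ⟨x, z, rfl⟩))
    have hne : F false i₀ ((x, φ x), (z, ψ z)) ≠ F true i₀ ((x, φ' x), (z, ψ' z)) := fun hh => by
      have := (h.inj _ _ _ _ _ _ hh).1
      simp at this
    rcases ((h.adj_iff y _ _ _ _ _ _).1 (hadj _ h1 _ h2 hne)).2 with h3 | ⟨-, -, h3⟩
    · exfalso
      obtain ⟨h4, h5, h6⟩ := h3
      apply h4
      have h5' : φ x = φ' x := h5 rfl
      have h6' : ψ z = ψ' z := h6 rfl
      rw [h5', h6']
    · exact h3
  · rintro ⟨i, hi⟩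
    obtain ⟨φ, ψ, hφ⟩ := (TC_iff_mint _).1 hi
    have hinj : ∀ β, Function.Injective (F β i) := fun β e e' hee =>
      (h.inj _ _ _ _ _ _ hee).2.2
    have hd1 : Disjoint ((mint φ ψ).image (F false i)) ((mint φ ψ).image (F true i)) := by
      rw [disjoint_left]
      intro a ha ha'
      rw [mem_image] at ha ha'
      obtain ⟨e, -, rfl⟩ := ha
      obtain ⟨e', -, he'⟩ := ha'
      have := (h.inj _ _ _ _ _ _ he').1
      simp at this
    have hd2 : Disjoint U ((mint φ ψ).image (F false i) ∪ (mint φ ψ).image (F true i)) := by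
      rw [disjoint_right]
      intro a ha
      rw [mem_union, mem_image, mem_image] at ha
      rcases ha with ⟨e, -, rfl⟩ | ⟨e, -, rfl⟩
      · exact h.hU _ _ _
      · exact h.hU _ _ _
    refine ⟨U ∪ ((mint φ ψ).image (F false i) ∪ (mint φ ψ).image (F true i)), ?_, ?_⟩
    · intro a ha b hb hab
      rw [mem_coe, mem_union, mem_union, mem_image, mem_image] at ha hb
      have key : ∀ β β' : Bool, ∀ e ∈ mint φ ψ, ∀ e' ∈ mint φ ψ, F β i e ≠ F β' i e' →
          (matchG U F y).Adj (F β i e) (F β' i e') := by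
        intro β β' e he e' he' hne
        rw [h.adj_iff]
        refine ⟨rfl, ?_⟩
        by_cases hee : e = e'
        · right
          subst hee
          refine ⟨rfl, ?_, hφ e he⟩
          cases β <;> cases β' <;> simp_all
        · exact Or.inl (mint_compat he he' hee)
      rcases ha with ha | ⟨e, he, rfl⟩ | ⟨e, he, rfl⟩
      · exact ⟨hab, Or.inl ha⟩
      · rcases hb with hb | ⟨e', he', rfl⟩ | ⟨e', he', rfl⟩
        · exact ⟨hab, Or.inr (Or.inl hb)⟩
        · exact key _ _ e he e' he' hab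
        · exact key _ _ e he e' he' hab
      · rcases hb with hb | ⟨e', he', rfl⟩ | ⟨e', he', rfl⟩
        · exact ⟨hab, Or.inr (Or.inl hb)⟩
        · exact key _ _ e he e' he' hab
        · exact key _ _ e he e' he' hab
    · rw [card_union_of_disjoint hd2, card_union_of_disjoint hd1, card_image_of_injective _ (hinj _),
        card_image_of_injective _ (hinj _), card_mint]
      omega

end matching

end Pool.Agent.T9h16
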