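import Pool.Agent.T9h16.Query

set_option autoImplicit false
set_option linter.unusedSectionVars false

namespace Pool.Agent.T9h16

open Finset
open scoped Classical

section
variable {V : Type} [Fintype V] [DecidableEq V] {K : ℕ}

theorem filter_card_congr {α : Type} (s : Finset α) {p q : α → Prop} {_ : DecidablePred p}
    {_ : DecidablePred q} (h : ∀ a ∈ s, p a ↔ q a) : (s.filter p).card = (s.filter q).card := by
  apply congrArg
  ext a
  simp only [mem_filter]
  constructor
  · exact fun ha => ⟨ha.1, (h a ha.1).1 ha.2⟩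
  · exact fun ha => ⟨ha.1, (h a ha.1).2 ha.2⟩

/-- Adding one point to a rainbow set: exact count, under a condition `Q` that does not depend on
the point. -/
theorem inj_step_eq (X : Finset V) (γ : V → Fin K) (Q : (V → Fin K) → Prop) (S : Finset V) (v : V)
    (hvX : v ∉ X) (hvS : v ∉ S) (hQ : ∀ χ κ, Q χ → Q (Function.update χ v κ)) :
    ((Ext X γ).filter fun χ => Q χ ∧ Set.InjOn χ (S : Set V)).card * (K - S.card) =
      ((Ext X γ).filter fun χ => Q χ ∧ Set.InjOn χ ((insert v S : Finset V) : Set V)).card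
        * K := by
  set A := (Ext X γ).filter fun χ => Q χ ∧ Set.InjOn χ (S : Set V) with hA
  set B := (Ext X γ).filter fun χ => Q χ ∧ Set.InjOn χ ((insert v S : Finset V) : Set V) with hB
  set P : Finset (Σ _ : V → Fin K, Fin K) := A.sigma fun χ => univ.filter fun κ => κ ∉ S.image χ
    with hP
  have h1 : A.card * (K - S.card) = P.card := by
    rw [hP, card_sigma, ← smul_eq_mul, ← sum_const]
    apply sum_congr rfl
    intro χ hχ
    rw [hA, mem_filter] at hχ
    have h2 : (univ.filter fun κ : Fin K => κ ∉ S.image χ) = (S.image χ)ᶜ := by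
      ext κ
      simp
    rw [h2, card_compl, Fintype.card_fin, card_image_of_injOn hχ.2.2]
  have hSu : ∀ (χ : V → Fin K) (κ : Fin K), ∀ u ∈ S, Function.update χ v κ u = χ u := by
    intro χ κ u hu
    rw [Function.update_of_ne (fun h : u = v => hvS (h ▸ hu))]
  have h3 : P.card = (B ×ˢ (univ : Finset (Fin K))).card := by
    refine card_bij' (fun q _ => (Function.update q.1 v q.2, q.1 v))
      (fun q _ => ⟨Function.update q.1 v q.2, q.1 v⟩) ?_ ?_ ?_ ?_
    · rintro ⟨χ, κ⟩ hq
      rw [hP, mem_sigma] at hq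
      simp only at hq
      obtain ⟨hχ, hκ⟩ := hq
      rw [hA, mem_filter, mem_Ext] at hχ
      simp only [mem_filter, mem_univ, true_and] at hκ
      rw [mem_product]
      refine ⟨?_, mem_univ _⟩
      rw [hB, mem_filter, mem_Ext]
      refine ⟨fun u hu => ?_, hQ _ _ hχ.2.1, ?_⟩
      · simp only
        rw [Function.update_of_ne (fun h : u = v => hvX (h ▸ hu)), hχ.1 u hu]
      · rw [coe_insert, Set.injOn_insert (by simpa using hvS)]
        refine ⟨?_, ?_⟩
        · intro u hu u' hu' h
          simp only at h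
          rw [hSu χ κ u hu, hSu χ κ u' hu'] at h
          exact hχ.2.2 hu hu' h
        · simp only
          rw [Function.update_self]
          rintro ⟨u, hu, h⟩
          simp only at h
          rw [hSu χ κ u hu] at h
          exact hκ (mem_image.2 ⟨u, hu, h⟩)
    · rintro ⟨χ, κ⟩ hq
      rw [mem_product] at hq
      simp only at hq
      obtain ⟨hχ, -⟩ := hq
      rw [hB, mem_filter, mem_Ext] at hχ
      rw [hP, mem_sigma]
      simp only
      obtain ⟨h4, h5, h6⟩ := hχ
      rw [coe_insert, Set.injOn_insert (by simpa using hvS)] at h6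
      refine ⟨?_, ?_⟩
      · rw [hA, mem_filter, mem_Ext]
        refine ⟨fun u hu => ?_, hQ _ _ h5, ?_⟩
        · rw [Function.update_of_ne (fun h : u = v => hvX (h ▸ hu)), h4 u hu]
        · intro u hu u' hu' h
          rw [hSu χ κ u hu, hSu χ κ u' hu'] at h
          exact h6.1 hu hu' h
      · simp only [mem_filter, mem_univ, true_and, mem_image, not_exists, not_and]
        intro u hu h
        rw [hSu χ κ u hu] at h
        exact h6.2 ⟨u, hu, h⟩
    · rintro ⟨χ, κ⟩ _
      simp
    · rintro ⟨χ, κ⟩ _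
      simp
  rw [h1, h3, card_product, card_univ, Fintype.card_fin]

theorem inj_exact (X : Finset V) (γ : V → Fin K) (Q : (V → Fin K) → Prop) (S₀ T : Finset V)
    (hTX : Disjoint T X) (hTS : Disjoint T S₀)
    (hQ : ∀ v ∈ T, ∀ χ κ, Q χ → Q (Function.update χ v κ)) :
    ((Ext X γ).filter fun χ => Q χ ∧ Set.InjOn χ (S₀ : Set V)).card *
        (K - S₀.card).descFactorial T.card =
      ((Ext X γ).filter fun χ => Q χ ∧ Set.InjOn χ ((S₀ ∪ T : Finset V) : Set V)).card *
        K ^ T.card := by
  induction T using Finset.induction_on with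
  | empty => simp
  | insert v T hvT ih =>
    rw [disjoint_insert_left] at hTX hTS
    have ih' := ih hTX.2 hTS.2 (fun u hu => hQ u (mem_insert_of_mem hu))
    have hvS : v ∉ S₀ ∪ T := by
      rw [mem_union]
      rintro (h | h)
      · exact hTS.1 h
      · exact hvT h
    have hstep := inj_step_eq X γ Q (S₀ ∪ T) v hTX.1 hvS (hQ v (mem_insert_self v T))
    have hcard : (S₀ ∪ T).card = S₀.card + T.card := card_union_of_disjoint hTS.2.symm
    rw [hcard] at hstep
    have hins : S₀ ∪ insert v T = insert v (S₀ ∪ T) := union_insert _ _ _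
    rw [hins, card_insert_of_notMem hvT, Nat.descFactorial_succ, pow_succ]
    calc ((Ext X γ).filter fun χ => Q χ ∧ Set.InjOn χ (S₀ : Set V)).card *
          ((K - S₀.card - T.card) * (K - S₀.card).descFactorial T.card)
        = (((Ext X γ).filter fun χ => Q χ ∧ Set.InjOn χ (S₀ : Set V)).card *
            (K - S₀.card).descFactorial T.card) * (K - (S₀.card + T.card)) := by
          rw [Nat.sub_sub]; ring
      _ = (((Ext X γ).filter fun χ => Q χ ∧ Set.InjOn χ ((S₀ ∪ T : Finset V) : Set V)).card *
            (K - (S₀.card + T.card))) * K ^ T.card := by rw [ih']; ring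
      _ = _ := by rw [hstep]; ring

/-- The number of colourings of `Ext Y γ` that are injective on `S ⊇ Y`. -/
theorem card_inj {Y : Finset V} {γ : V → Fin K} (hγ : Set.InjOn γ (Y : Set V)) {S : Finset V}
    (hYS : Y ⊆ S) :
    (Ext Y γ).card * (K - Y.card).descFactorial (S.card - Y.card) =
      ((Ext Y γ).filter fun χ => Set.InjOn χ (S : Set V)).card * K ^ (S.card - Y.card) := by
  have h := inj_exact Y γ (fun _ => True) Y (S \ Y) disjoint_sdiff.symm disjoint_sdiff.symm
    (fun _ _ _ _ _ => trivial)
  have h1 : Y ∪ S \ Y = S := union_sdiff_of_subset hYS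
  have h2 : (S \ Y).card = S.card - Y.card := card_sdiff_of_subset hYS
  rw [h1, h2] at h
  simp only [true_and] at h
  have h3 : (Ext Y γ).filter (fun χ => Set.InjOn χ (Y : Set V)) = Ext Y γ := by
    rw [filter_eq_self]
    intro χ hχ u hu u' hu' huu
    rw [mem_Ext] at hχ
    rw [hχ u hu, hχ u' hu'] at huu
    exact hγ hu hu' huu
  rw [h3] at h
  exact h

/-- The correlation of two rainbow events. -/
theorem card_inj_pair {Y : Finset V} {γ : V → Fin K} (hγ : Set.InjOn γ (Y : Set V))
    {S S' : Finset V} (hYS : Y ⊆ S) (hYS' : Y ⊆ S') (hS' : S'.card ≤ K) :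
    ((Ext Y γ).filter fun χ => Set.InjOn χ (S : Set V) ∧ Set.InjOn χ (S' : Set V)).card *
      (Ext Y γ).card ≤ K ^ ((S ∩ S').card - Y.card) *
        ((Ext Y γ).filter fun χ => Set.InjOn χ (S : Set V)).card *
        ((Ext Y γ).filter fun χ => Set.InjOn χ (S' : Set V)).card := by
  have h := inj_exact Y γ (fun χ => Set.InjOn χ (S : Set V)) (S ∩ S') (S' \ S)
    (by
      rw [disjoint_left]
      intro u hu hu'
      exact (mem_sdiff.1 hu).2 (hYS hu'))
    (by
      rw [disjoint_left]
      intro u hu hu'
      exact (mem_sdiff.1 hu).2 (mem_inter.1 hu').1)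
    (by
      intro v hv χ κ hinj u hu u' hu' huu
      rw [mem_coe] at hu hu'
      have hv' : v ∉ S := (mem_sdiff.1 hv).2
      rw [Function.update_of_ne (fun h : u = v => hv' (h ▸ hu)),
        Function.update_of_ne (fun h : u' = v => hv' (h ▸ hu'))] at huu
      exact hinj hu hu' huu)
  have h1 : S ∩ S' ∪ S' \ S = S' := by
    ext u
    simp only [mem_union, mem_inter, mem_sdiff]
    tauto
  rw [h1] at h
  have h2 : ((Ext Y γ).filter fun χ => Set.InjOn χ (S : Set V)).card *
      (K - (S ∩ S').card).descFactorial (S' \ S).card =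
      ((Ext Y γ).filter fun χ => Set.InjOn χ (S : Set V) ∧ Set.InjOn χ (S' : Set V)).card *
        K ^ (S' \ S).card := by
    refine Eq.trans ?_ (h.trans ?_)
    · congr 1
      apply filter_card_congr
      intro χ _
      constructor
      · intro h
        refine ⟨h, h.mono ?_⟩
        intro u hu
        rw [mem_coe] at hu ⊢
        exact (mem_inter.1 hu).1
      · exact fun h => h.1
    · congr 1
      apply filter_card_congr
      intro χ _
      exact Iff.rfl
  clear h
  have h := h2
  have h3 := card_inj hγ hYS'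
  have hYZ : Y ⊆ S ∩ S' := subset_inter hYS hYS'
  have hZc : Y.card ≤ (S ∩ S').card := card_le_card hYZ
  have hZS' : (S ∩ S').card ≤ S'.card := card_le_card inter_subset_right
  have hT : (S' \ S).card = S'.card - (S ∩ S').card := by
    rw [← sdiff_inter_self_right S' S, card_sdiff_of_subset inter_subset_right]
  rw [hT] at h
  set z := (S ∩ S').card - Y.card with hz
  set t := S'.card - Y.card with ht
  have htz : S'.card - (S ∩ S').card = t - z := by omega
  rw [htz] at h
  have hzt : z ≤ t := by omega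
  -- splitting the falling factorial
  have hsplit : (K - Y.card).descFactorial t =
      (K - Y.card).descFactorial z * (K - (S ∩ S').card).descFactorial (t - z) := by
    have e1 : (K - Y.card).factorial =
        (K - Y.card - t).factorial * (K - Y.card).descFactorial t :=
      (Nat.factorial_mul_descFactorial (by omega)).symm
    have e2 : (K - Y.card).factorial =
        (K - Y.card - z).factorial * (K - Y.card).descFactorial z :=
      (Nat.factorial_mul_descFactorial (by omega)).symm
    have e3 : (K - Y.card - z).factorial =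
        (K - Y.card - z - (t - z)).factorial * (K - Y.card - z).descFactorial (t - z) :=
      (Nat.factorial_mul_descFactorial (by omega)).symm
    have e4 : K - Y.card - z - (t - z) = K - Y.card - t := by omega
    have e5 : K - Y.card - z = K - (S ∩ S').card := by omega
    rw [e4] at e3
    rw [e3, e1] at e2
    rw [e5] at e2
    have hpos : 0 < (K - Y.card - t).factorial := Nat.factorial_pos _
    apply Nat.eq_of_mul_eq_mul_left hpos
    rw [e2]
    ring
  have hone : 1 ≤ (K - Y.card).descFactorial z := by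
    rw [Nat.one_le_iff_ne_zero, Ne, Nat.descFactorial_eq_zero_iff_lt]
    omega
  by_cases hK : K = 0
  · subst hK
    have : S' = ∅ := card_eq_zero.1 (by omega)
    subst this
    have hY : Y = ∅ := by simpa using hYS'
    subst hY
    simp only [inter_empty, card_empty, le_refl, Nat.sub_self, coe_empty,
      Set.injOn_empty, and_true] at *
    rw [hz, pow_zero, one_mul]
    apply Nat.mul_le_mul_left
    apply card_le_card
    intro χ hχ
    simpa using hχ
  have hKpos : 0 < K := Nat.pos_of_ne_zero hK
  generalize ((Ext Y γ).filter fun χ => Set.InjOn χ (S : Set V) ∧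
    Set.InjOn χ (S' : Set V)).card = PP at *
  generalize ((Ext Y γ).filter fun χ => Set.InjOn χ (S : Set V)).card = PS at *
  generalize ((Ext Y γ).filter fun χ => Set.InjOn χ (S' : Set V)).card = PS' at *
  generalize (Ext Y γ).card = E at *
  set D := (K - (S ∩ S').card).descFactorial (t - z) with hD
  rw [hsplit] at h3
  -- h : PS * D = PP * K ^ (t - z), h3 : E * (desc * D) = PS' * K ^ t
  have hKt : K ^ t = K ^ z * K ^ (t - z) := by
    rw [← pow_add]
    congr 1
    omega
  have h4 : E * D ≤ PS' * K ^ t := by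
    calc E * D = E * (1 * D) := by ring
      _ ≤ E * ((K - Y.card).descFactorial z * D) :=
          Nat.mul_le_mul_left _ (Nat.mul_le_mul_right _ hone)
      _ = PS' * K ^ t := h3
  have h5 : PP * E * K ^ (t - z) ≤ K ^ z * PS * PS' * K ^ (t - z) := by
    calc PP * E * K ^ (t - z) = (PP * K ^ (t - z)) * E := by ring
      _ = (PS * D) * E := by rw [← h]
      _ = PS * (E * D) := by ring
      _ ≤ PS * (PS' * K ^ t) := Nat.mul_le_mul_left _ h4
      _ = K ^ z * PS * PS' * K ^ (t - z) := by rw [hKt]; ring
  exact Nat.le_of_mul_le_mul_right h5 (by positivity)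

/-- Independence of events depending on disjoint sets of coordinates. -/
theorem indep (X : Finset V) (γ : V → Fin K) (C : Finset V) (A B : (V → Fin K) → Prop)
    (hA : ∀ χ ∈ Ext X γ, ∀ χ' ∈ Ext X γ, (∀ v ∈ C, χ v = χ' v) → A χ → A χ')
    (hB : ∀ χ ∈ Ext X γ, ∀ χ' ∈ Ext X γ, (∀ v ∉ C, χ v = χ' v) → B χ → B χ') :
    ((Ext X γ).filter fun χ => B χ ∧ A χ).card * (Ext X γ).card =
      ((Ext X γ).filter B).card * ((Ext X γ).filter A).card := by
  set mix : (V → Fin K) → (V → Fin K) → (V → Fin K) := fun χ χ' v => if v ∈ C then χ' v else χ v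
    with hmix
  have hmixE : ∀ χ ∈ Ext X γ, ∀ χ' ∈ Ext X γ, mix χ χ' ∈ Ext X γ := by
    intro χ hχ χ' hχ'
    rw [mem_Ext] at hχ hχ' ⊢
    intro v hv
    simp only [hmix]
    split_ifs
    · exact hχ' v hv
    · exact hχ v hv
  have hin : ∀ χ χ', ∀ v ∈ C, mix χ χ' v = χ' v := fun χ χ' v hv => if_pos hv
  have hout : ∀ χ χ', ∀ v ∉ C, mix χ χ' v = χ v := fun χ χ' v hv => if_neg hv
  rw [← card_product, ← card_product]
  refine card_bij' (fun q _ => (mix q.1 q.2, mix q.2 q.1)) (fun q _ => (mix q.1 q.2, mix q.2 q.1))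
    ?_ ?_ ?_ ?_
  · rintro ⟨χ, χ'⟩ hq
    rw [mem_product, mem_filter] at hq
    simp only at hq
    obtain ⟨⟨h1, h2, h3⟩, h4⟩ := hq
    rw [mem_product, mem_filter, mem_filter]
    refine ⟨⟨hmixE _ h1 _ h4, ?_⟩, ⟨hmixE _ h4 _ h1, ?_⟩⟩
    · exact hB χ h1 _ (hmixE _ h1 _ h4) (fun v hv => (hout χ χ' v hv).symm) h2
    · exact hA χ h1 _ (hmixE _ h4 _ h1) (fun v hv => (hin χ' χ v hv).symm) h3
  · rintro ⟨χ, χ'⟩ hq
    rw [mem_product, mem_filter, mem_filter] at hq
    simp only at hq
    obtain ⟨⟨h1, h2⟩, h3, h4⟩ := hq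
    rw [mem_product, mem_filter]
    refine ⟨⟨hmixE _ h1 _ h3, ?_, ?_⟩, hmixE _ h3 _ h1⟩
    · exact hB χ h1 _ (hmixE _ h1 _ h3) (fun v hv => (hout χ χ' v hv).symm) h2
    · exact hA χ' h3 _ (hmixE _ h1 _ h3) (fun v hv => (hin χ χ' v hv).symm) h4
  · rintro ⟨χ, χ'⟩ _
    simp only [Prod.mk.injEq]
    constructor <;> funext v <;> simp only [hmix] <;> split_ifs <;> rfl
  · rintro ⟨χ, χ'⟩ _
    simp only [Prod.mk.injEq]
    constructor <;> funext v <;> simp only [hmix] <;> split_ifs <;> rfl

end

end Pool.Agent.T9h16
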