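import Pool.Agent.T9h16.Robust

set_option autoImplicit false
set_option linter.unusedSectionVars false

namespace Pool.Agent.T9h16

open Finset
open scoped Classical

section
variable {V : Type} [Fintype V] [DecidableEq V] {K : ℕ}

theorem card_parts (R : ℕ) (r : Fin R) (T : Finset V) :
    (univ.filter fun ρ : V → Fin R => ∀ v ∈ T, ρ v = r).card * R ^ T.card =
      Fintype.card (V → Fin R) := by
  have h1 : (univ.filter fun ρ : V → Fin R => ∀ v ∈ T, ρ v = r) =
      Fintype.piFinset (fun v => if v ∈ T then ({r} : Finset (Fin R)) else univ) := by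
    ext ρ
    simp only [mem_filter, mem_univ, true_and, Fintype.mem_piFinset]
    constructor
    · intro h v
      split_ifs with hv
      · rw [mem_singleton]; exact h v hv
      · exact mem_univ _
    · intro h v hv
      have := h v
      rw [if_pos hv, mem_singleton] at this
      exact this
  rw [h1, Fintype.card_piFinset]
  calc (∏ v : V, (if v ∈ T then ({r} : Finset (Fin R)) else univ).card) * R ^ T.card
      = (∏ v : V, if v ∈ T then 1 else R) * (∏ v : V, if v ∈ T then R else 1) := by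
        congr 1
        · apply prod_congr rfl
          intro v _
          split_ifs <;> simp
        · rw [prod_ite_mem, univ_inter, prod_const]
    _ = ∏ _v : V, R := by
        rw [← prod_mul_distrib]
        apply prod_congr rfl
        intro v _
        split_ifs <;> simp
    _ = Fintype.card (V → Fin R) := by
        rw [prod_const, Fintype.card_fun, card_univ, Fintype.card_fin]

/-- Counting intersections in a spread family. -/
theorem spread_sum (𝓣 : Finset (Finset V)) (Y : Finset V) (hY : ∀ S ∈ 𝓣, Y ⊆ S) (κ x : ℝ)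
    (hκ : 0 < κ) (hx : 0 ≤ x)
    (hsp : ∀ Z : Finset V, ((𝓣.filter fun S => Z ⊆ S).card : ℝ) * κ ^ Z.card ≤
      𝓣.card * κ ^ Y.card) (S : Finset V) (hS : S ∈ 𝓣) :
    ∑ S' ∈ 𝓣, (x * κ) ^ ((S ∩ S').card - Y.card) ≤
      𝓣.card * (1 + x) ^ (S.card - Y.card) := by
  have hxκ : 0 ≤ x * κ := mul_nonneg hx hκ.le
  calc ∑ S' ∈ 𝓣, (x * κ) ^ ((S ∩ S').card - Y.card)
      ≤ ∑ S' ∈ 𝓣, ∑ T ∈ (S \ Y).powerset, (if Y ∪ T ⊆ S' then (x * κ) ^ T.card else 0) := by
        apply sum_le_sum
        intro S' hS'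
        have hmem : (S ∩ S') \ Y ∈ (S \ Y).powerset := by
          rw [mem_powerset]
          exact sdiff_subset_sdiff inter_subset_left subset_rfl
        refine le_trans (le_of_eq ?_) (single_le_sum (f := fun T =>
          if Y ∪ T ⊆ S' then (x * κ) ^ T.card else 0) (fun T _ => ?_) hmem)
        · have h1 : Y ∪ (S ∩ S') \ Y = S ∩ S' :=
            union_sdiff_of_subset (subset_inter (hY S hS) (hY S' hS'))
          rw [h1, if_pos inter_subset_right,
            card_sdiff_of_subset (subset_inter (hY S hS) (hY S' hS'))]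
        · split_ifs
          · positivity
          · exact le_rfl
    _ = ∑ T ∈ (S \ Y).powerset, (x * κ) ^ T.card * ((𝓣.filter fun S' => Y ∪ T ⊆ S').card : ℝ) := by
        rw [sum_comm]
        apply sum_congr rfl
        intro T _
        rw [← sum_filter, sum_const, nsmul_eq_mul]
        ring
    _ ≤ ∑ T ∈ (S \ Y).powerset, 𝓣.card * (x ^ T.card * 1 ^ ((S \ Y).card - T.card)) := by
        apply sum_le_sum
        intro T hT
        rw [mem_powerset] at hT
        have hd : Disjoint Y T := by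
          rw [disjoint_left]
          intro v hv hv'
          exact (mem_sdiff.1 (hT hv')).2 hv
        have h1 := hsp (Y ∪ T)
        rw [card_union_of_disjoint hd, pow_add] at h1
        have h2 : ((𝓣.filter fun S => Y ∪ T ⊆ S).card : ℝ) * κ ^ T.card ≤ 𝓣.card := by
          have h3 : (0 : ℝ) < κ ^ Y.card := by positivity
          have h4 : ((𝓣.filter fun S => Y ∪ T ⊆ S).card : ℝ) * κ ^ T.card * κ ^ Y.card ≤
              𝓣.card * κ ^ Y.card := by
            refine le_trans (le_of_eq ?_) h1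
            ring
          exact le_of_mul_le_mul_right h4 h3
        rw [one_pow, mul_one, mul_pow]
        calc x ^ T.card * κ ^ T.card * ((𝓣.filter fun S => Y ∪ T ⊆ S).card : ℝ)
            = x ^ T.card * (((𝓣.filter fun S => Y ∪ T ⊆ S).card : ℝ) * κ ^ T.card) := by ring
          _ ≤ x ^ T.card * 𝓣.card := mul_le_mul_of_nonneg_left h2 (by positivity)
          _ = _ := by ring
    _ = 𝓣.card * (1 + x) ^ (S.card - Y.card) := by
        rw [← mul_sum, sum_pow_mul_eq_add_pow, add_comm x 1, card_sdiff_of_subset (hY S hS)]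

theorem pow_le_one_add (x δ : ℝ) (t : ℕ) (hx : 0 ≤ x) (hx1 : x ≤ 1) (hδ : δ ≤ 1)
    (htx : 2 * (t * x) ≤ δ) : (1 + x) ^ t ≤ 1 + δ := by
  have h1 : 1 + (t : ℝ) * (-x) ≤ (1 + -x) ^ t := one_add_mul_le_pow (by linarith) t
  have h2 : (1 + x) ^ t * (1 + -x) ^ t ≤ 1 := by
    rw [← mul_pow]
    apply pow_le_one₀ <;> nlinarith
  have h3 : 0 ≤ (t : ℝ) * x := by positivity
  have h4 : (1 + x) ^ t * (1 - t * x) ≤ 1 := by
    refine le_trans ?_ h2
    apply mul_le_mul_of_nonneg_left _ (by positivity)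
    linarith
  have h5 : 1 ≤ (1 + δ) * (1 - t * x) := by nlinarith
  have h6 : 0 < 1 - t * x := by linarith
  exact le_of_mul_le_mul_right (h4.trans h5) h6

/-- The second moment bound. -/
theorem second_moment (R : ℕ) (hR : 1 ≤ R) (hK : 1 ≤ K) (κ : ℝ) (hκ : κ = 8 * R ^ 2 * K ^ 2)
    (𝓣 : Finset (Finset V)) (hne : 𝓣.Nonempty) (Y : Finset V) (γ : V → Fin K)
    (hγ : Set.InjOn γ (Y : Set V)) (j : ℕ) (hY : ∀ S ∈ 𝓣, Y ⊆ S) (hj : ∀ S ∈ 𝓣, S.card = j)
    (hjK : j ≤ K)
    (hsp : ∀ Z : Finset V, ((𝓣.filter fun S => Z ⊆ S).card : ℝ) * κ ^ Z.card ≤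
      𝓣.card * κ ^ Y.card) (r : Fin R) :
    (((univ ×ˢ Ext Y γ).filter fun q : (V → Fin R) × (V → Fin K) =>
      ∀ S ∈ 𝓣, ¬ ((∀ v ∈ S \ Y, q.1 v = r) ∧ Set.InjOn q.2 (S : Set V))).card : ℝ) * (4 * R) ≤
      Fintype.card (V → Fin R) * (Ext Y γ).card := by
  set f : Finset V → (V → Fin R) → ℝ := fun S ρ => if ∀ v ∈ S \ Y, ρ v = r then 1 else 0 with hf
  set g : Finset V → (V → Fin K) → ℝ := fun S χ => if Set.InjOn χ (S : Set V) then 1 else 0 with hg
  set N : (V → Fin R) × (V → Fin K) → ℝ := fun q => ∑ S ∈ 𝓣, f S q.1 * g S q.2 with hN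
  set D := (univ : Finset (V → Fin R)) ×ˢ Ext Y γ with hD
  set F : ℝ := ((Fintype.card (V → Fin R) : ℕ) : ℝ) with hF
  set E : ℝ := (((Ext Y γ).card : ℕ) : ℝ) with hE
  have hR0 : (0 : ℝ) < R := by exact_mod_cast hR
  have hK0 : (0 : ℝ) < K := by exact_mod_cast hK
  have hF0 : 0 < F := by
    rw [hF, Fintype.card_fun, Fintype.card_fin]
    push_cast
    positivity
  have hE0 : 0 < E := by
    rw [hE]
    have : 0 < (Ext Y γ).card := card_pos.2 ⟨γ, mem_Ext.2 fun _ _ => rfl⟩
    exact_mod_cast this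
  have hDc : (D.card : ℝ) = F * E := by
    rw [hD, card_product, card_univ]
    push_cast
    rfl
  -- the two counts for one set
  obtain ⟨S₀, hS₀⟩ := hne
  have hyj : Y.card ≤ j := by rw [← hj S₀ hS₀]; exact card_le_card (hY S₀ hS₀)
  set t := j - Y.card with ht
  have hSY : ∀ S ∈ 𝓣, (S \ Y).card = t := by
    intro S hS
    rw [card_sdiff_of_subset (hY S hS), hj S hS]
  set c1 : ℝ := F / R ^ t with hc1
  set a : ℝ := E * (K - Y.card).descFactorial t / K ^ t with ha
  have hsumf : ∀ S ∈ 𝓣, ∑ ρ, f S ρ = c1 := by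
    intro S hS
    have h1 := card_parts R r (S \ Y)
    rw [hSY S hS] at h1
    have h2 : ∑ ρ, f S ρ = ((univ.filter fun ρ : V → Fin R => ∀ v ∈ S \ Y, ρ v = r).card : ℝ) := by
      rw [hf, sum_boole]
    rw [h2, hc1, hF, eq_div_iff (by positivity)]
    exact_mod_cast h1
  have hsumg : ∀ S ∈ 𝓣, ∑ χ ∈ Ext Y γ, g S χ = a := by
    intro S hS
    have h1 := card_inj hγ (hY S hS)
    rw [hj S hS] at h1
    have h2 : ∑ χ ∈ Ext Y γ, g S χ =
        (((Ext Y γ).filter fun χ => Set.InjOn χ (S : Set V)).card : ℝ) := by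
      rw [hg, sum_boole]
    rw [h2, ha, hE, eq_div_iff (by positivity)]
    exact_mod_cast h1.symm
  have hsumff : ∀ S ∈ 𝓣, ∀ S' ∈ 𝓣, F * ∑ ρ, f S ρ * f S' ρ ≤
      (R : ℝ) ^ ((S ∩ S').card - Y.card) * c1 ^ 2 := by
    intro S hS S' hS'
    have h1 := card_parts R r ((S ∪ S') \ Y)
    have hYZ : Y ⊆ S ∩ S' := subset_inter (hY S hS) (hY S' hS')
    have hZc : Y.card ≤ (S ∩ S').card := card_le_card hYZ
    have hZS : (S ∩ S').card ≤ j := by rw [← hj S hS]; exact card_le_card inter_subset_left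
    have hcard : ((S ∪ S') \ Y).card = t + t - ((S ∩ S').card - Y.card) := by
      rw [card_sdiff_of_subset ((hY S hS).trans subset_union_left)]
      have := card_union_add_card_inter S S'
      rw [hj S hS, hj S' hS'] at this
      omega
    have h2 : ∑ ρ, f S ρ * f S' ρ =
        ((univ.filter fun ρ : V → Fin R => ∀ v ∈ (S ∪ S') \ Y, ρ v = r).card : ℝ) := by
      rw [← sum_boole]
      apply sum_congr rfl
      intro ρ _
      have hiff : (∀ v ∈ (S ∪ S') \ Y, ρ v = r) ↔
          ((∀ v ∈ S \ Y, ρ v = r) ∧ ∀ v ∈ S' \ Y, ρ v = r) := by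
        constructor
        · intro h
          exact ⟨fun v hv => h v (mem_sdiff.2 ⟨mem_union_left _ (mem_sdiff.1 hv).1,
            (mem_sdiff.1 hv).2⟩), fun v hv => h v (mem_sdiff.2
              ⟨mem_union_right _ (mem_sdiff.1 hv).1, (mem_sdiff.1 hv).2⟩)⟩
        · rintro ⟨ha, hb⟩ v hv
          rw [mem_sdiff, mem_union] at hv
          rcases hv.1 with h | h
          · exact ha v (mem_sdiff.2 ⟨h, hv.2⟩)
          · exact hb v (mem_sdiff.2 ⟨h, hv.2⟩)
      simp only [hf, hiff]
      by_cases ha : (∀ v ∈ S \ Y, ρ v = r)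
      · by_cases hb : (∀ v ∈ S' \ Y, ρ v = r)
        · rw [if_pos ha, if_pos hb, if_pos ⟨ha, hb⟩, mul_one]
        · rw [if_neg hb, mul_zero, if_neg (fun h => hb h.2)]
      · rw [if_neg ha, zero_mul, if_neg (fun h => ha h.1)]
    set cc : ℝ := ((univ.filter fun ρ : V → Fin R => ∀ v ∈ (S ∪ S') \ Y, ρ v = r).card : ℝ) with hcc
    have h3 : cc * R ^ (t + t - ((S ∩ S').card - Y.card)) = F := by
      rw [hcc, ← hcard, hF]
      exact_mod_cast h1
    rw [h2]
    have h4 : (R : ℝ) ^ (t + t) = R ^ ((S ∩ S').card - Y.card) *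
        R ^ (t + t - ((S ∩ S').card - Y.card)) := by
      rw [← pow_add]
      congr 1
      omega
    have h5 : c1 ^ 2 * (R : ℝ) ^ (t + t) = F ^ 2 := by
      rw [hc1, pow_add]
      field_simp
    have h6 : (0 : ℝ) < (R : ℝ) ^ (t + t - ((S ∩ S').card - Y.card)) := by positivity
    have h7 : F * cc * (R : ℝ) ^ (t + t - ((S ∩ S').card - Y.card)) =
        (R : ℝ) ^ ((S ∩ S').card - Y.card) * c1 ^ 2 *
          (R : ℝ) ^ (t + t - ((S ∩ S').card - Y.card)) := by
      calc F * cc * (R : ℝ) ^ (t + t - ((S ∩ S').card - Y.card))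
          = F * (cc * (R : ℝ) ^ (t + t - ((S ∩ S').card - Y.card))) := by ring
        _ = F ^ 2 := by rw [h3]; ring
        _ = c1 ^ 2 * (R : ℝ) ^ (t + t) := h5.symm
        _ = _ := by rw [h4]; ring
    exact (mul_right_cancel₀ h6.ne' h7).le
  have hsumgg : ∀ S ∈ 𝓣, ∀ S' ∈ 𝓣, E * ∑ χ ∈ Ext Y γ, g S χ * g S' χ ≤
      (K : ℝ) ^ ((S ∩ S').card - Y.card) * a ^ 2 := by
    intro S hS S' hS'
    have h1 := card_inj_pair hγ (hY S hS) (hY S' hS') (by rw [hj S' hS']; exact hjK)
    have h2 : ∑ χ ∈ Ext Y γ, g S χ * g S' χ =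
        (((Ext Y γ).filter fun χ => Set.InjOn χ (S : Set V) ∧
          Set.InjOn χ (S' : Set V)).card : ℝ) := by
      rw [← sum_boole]
      apply sum_congr rfl
      intro χ _
      rw [hg]
      simp only
      by_cases ha : Set.InjOn χ (S : Set V) <;> by_cases hb : Set.InjOn χ (S' : Set V) <;>
        simp [ha, hb]
    have h3 : (((Ext Y γ).filter fun χ => Set.InjOn χ (S : Set V)).card : ℝ) = a := by
      rw [← hsumg S hS, hg, sum_boole]
    have h4 : (((Ext Y γ).filter fun χ => Set.InjOn χ (S' : Set V)).card : ℝ) = a := by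
      rw [← hsumg S' hS', hg, sum_boole]
    rw [h2, hE]
    have h5 : ((((Ext Y γ).filter fun χ => Set.InjOn χ (S : Set V) ∧
        Set.InjOn χ (S' : Set V)).card * (Ext Y γ).card : ℕ) : ℝ) ≤
        ((K ^ ((S ∩ S').card - Y.card) *
          ((Ext Y γ).filter fun χ => Set.InjOn χ (S : Set V)).card *
          ((Ext Y γ).filter fun χ => Set.InjOn χ (S' : Set V)).card : ℕ) : ℝ) := by
      exact_mod_cast h1
    push_cast at h5
    rw [h3, h4] at h5
    refine le_trans (le_of_eq (mul_comm _ _)) (h5.trans (le_of_eq ?_))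
    ring
  -- the sums of `N` and `N ^ 2`
  have hN1 : ∑ q ∈ D, N q = 𝓣.card * (c1 * a) := by
    rw [hD, sum_product]
    simp only [hN]
    calc ∑ ρ : V → Fin R, ∑ χ ∈ Ext Y γ, ∑ S ∈ 𝓣, f S ρ * g S χ
        = ∑ S ∈ 𝓣, (∑ ρ, f S ρ) * ∑ χ ∈ Ext Y γ, g S χ := by
          have h1 : ∀ ρ : V → Fin R, ∑ χ ∈ Ext Y γ, ∑ S ∈ 𝓣, f S ρ * g S χ =
              ∑ S ∈ 𝓣, f S ρ * ∑ χ ∈ Ext Y γ, g S χ := by
            intro ρ
            rw [sum_comm]
            apply sum_congr rfl
            intro S _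
            rw [mul_sum]
          rw [sum_congr rfl fun ρ _ => h1 ρ, sum_comm]
          apply sum_congr rfl
          intro S _
          rw [sum_mul]
      _ = ∑ S ∈ 𝓣, c1 * a := by
          apply sum_congr rfl
          intro S hS
          rw [hsumf S hS, hsumg S hS]
      _ = 𝓣.card * (c1 * a) := by rw [sum_const, nsmul_eq_mul]
  have hN2 : F * E * ∑ q ∈ D, N q ^ 2 ≤ (c1 * a) ^ 2 * ((𝓣.card : ℝ) ^ 2 * (1 + 1 / (4 * R))) := by
    have h1 : ∑ q ∈ D, N q ^ 2 =
        ∑ S ∈ 𝓣, ∑ S' ∈ 𝓣, (∑ ρ, f S ρ * f S' ρ) * ∑ χ ∈ Ext Y γ, g S χ * g S' χ := by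
      rw [hD, sum_product]
      simp only [hN]
      have h2 : ∀ (ρ : V → Fin R) (χ : V → Fin K), (∑ S ∈ 𝓣, f S ρ * g S χ) ^ 2 =
          ∑ S ∈ 𝓣, ∑ S' ∈ 𝓣, (f S ρ * f S' ρ) * (g S χ * g S' χ) := by
        intro ρ χ
        rw [sq, sum_mul_sum]
        apply sum_congr rfl
        intro S _
        apply sum_congr rfl
        intro S' _
        ring
      simp only [h2]
      calc ∑ ρ : V → Fin R, ∑ χ ∈ Ext Y γ, ∑ S ∈ 𝓣, ∑ S' ∈ 𝓣,
            (f S ρ * f S' ρ) * (g S χ * g S' χ)
          = ∑ ρ : V → Fin R, ∑ S ∈ 𝓣, ∑ S' ∈ 𝓣,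
            (f S ρ * f S' ρ) * ∑ χ ∈ Ext Y γ, (g S χ * g S' χ) := by
            apply sum_congr rfl
            intro ρ _
            rw [sum_comm]
            apply sum_congr rfl
            intro S _
            rw [sum_comm]
            apply sum_congr rfl
            intro S' _
            rw [mul_sum]
        _ = _ := by
            rw [sum_comm]
            apply sum_congr rfl
            intro S _
            rw [sum_comm]
            apply sum_congr rfl
            intro S' _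
            rw [sum_mul]
    rw [h1, mul_sum]
    have hx : (R : ℝ) * K = 1 / (8 * R * K) * κ := by
      rw [hκ]
      field_simp
    have hκ0 : 0 < κ := by rw [hκ]; positivity
    calc ∑ S ∈ 𝓣, F * E * ∑ S' ∈ 𝓣, (∑ ρ, f S ρ * f S' ρ) * ∑ χ ∈ Ext Y γ, g S χ * g S' χ
        ≤ ∑ S ∈ 𝓣, (c1 * a) ^ 2 * ∑ S' ∈ 𝓣, (R * K : ℝ) ^ ((S ∩ S').card - Y.card) := by
          apply sum_le_sum
          intro S hS
          rw [mul_sum, mul_sum]
          apply sum_le_sum
          intro S' hS'
          have h3 := hsumff S hS S' hS'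
          have h4 := hsumgg S hS S' hS'
          have h5 : 0 ≤ E * ∑ χ ∈ Ext Y γ, g S χ * g S' χ := by
            apply mul_nonneg hE0.le
            apply sum_nonneg
            intro χ _
            simp only [hg]
            split_ifs <;> simp
          calc F * E * ((∑ ρ, f S ρ * f S' ρ) * ∑ χ ∈ Ext Y γ, g S χ * g S' χ)
              = (F * ∑ ρ, f S ρ * f S' ρ) * (E * ∑ χ ∈ Ext Y γ, g S χ * g S' χ) := by ring
            _ ≤ ((R : ℝ) ^ ((S ∩ S').card - Y.card) * c1 ^ 2) *
                ((K : ℝ) ^ ((S ∩ S').card - Y.card) * a ^ 2) :=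
                mul_le_mul h3 h4 h5 (by positivity)
            _ = _ := by rw [mul_pow (R : ℝ) K]; ring
      _ ≤ ∑ S ∈ 𝓣, (c1 * a) ^ 2 * (𝓣.card * (1 + 1 / (4 * R))) := by
          apply sum_le_sum
          intro S hS
          apply mul_le_mul_of_nonneg_left _ (by positivity)
          rw [hx]
          refine (spread_sum 𝓣 Y hY κ (1 / (8 * R * K)) hκ0 (by positivity) hsp S hS).trans ?_
          apply mul_le_mul_of_nonneg_left _ (by positivity)
          rw [hj S hS]
          have hR1 : (1 : ℝ) ≤ R := by exact_mod_cast hR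
          have hK1 : (1 : ℝ) ≤ K := by exact_mod_cast hK
          apply pow_le_one_add
          · positivity
          · rw [div_le_one (by positivity)]
            nlinarith
          · rw [div_le_one (by positivity)]
            linarith
          · have htK : ((j - Y.card : ℕ) : ℝ) ≤ K := by
              have : j - Y.card ≤ K := by omega
              exact_mod_cast this
            calc 2 * (((j - Y.card : ℕ) : ℝ) * (1 / (8 * R * K)))
                ≤ 2 * (K * (1 / (8 * R * K))) := by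
                  apply mul_le_mul_of_nonneg_left _ (by norm_num)
                  apply mul_le_mul_of_nonneg_right htK (by positivity)
              _ = 1 / (4 * R) := by field_simp; norm_num
      _ = (c1 * a) ^ 2 * ((𝓣.card : ℝ) ^ 2 * (1 + 1 / (4 * R))) := by
          rw [sum_const, nsmul_eq_mul]
          ring
  -- Cauchy-Schwarz
  set Zr := D.filter fun q : (V → Fin R) × (V → Fin K) =>
      ∀ S ∈ 𝓣, ¬ ((∀ v ∈ S \ Y, q.1 v = r) ∧ Set.InjOn q.2 (S : Set V)) with hZr
  set Sp := D.filter fun q : (V → Fin R) × (V → Fin K) =>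
      ¬ ∀ S ∈ 𝓣, ¬ ((∀ v ∈ S \ Y, q.1 v = r) ∧ Set.InjOn q.2 (S : Set V)) with hSp
  have hsplit : (Zr.card : ℝ) + Sp.card = F * E := by
    rw [← hDc]
    exact_mod_cast card_filter_add_card_filter_not (s := D) _
  have hNz : ∀ q ∈ D, q ∉ Sp → N q = 0 := by
    intro q hq hq'
    rw [hSp, mem_filter, not_and, not_not] at hq'
    have h1 := hq' hq
    simp only [hN]
    apply sum_eq_zero
    intro S hS
    have h2 := h1 S hS
    rw [not_and_or] at h2
    rcases h2 with h2 | h2
    · simp only [hf]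
      rw [if_neg h2, zero_mul]
    · simp only [hg]
      rw [if_neg h2, mul_zero]
  have hCS : (∑ q ∈ D, N q) ^ 2 ≤ Sp.card * ∑ q ∈ D, N q ^ 2 := by
    have h1 : ∑ q ∈ D, N q = ∑ q ∈ Sp, 1 * N q := by
      rw [hSp, sum_filter]
      apply sum_congr rfl
      intro q hq
      split_ifs with h
      · apply hNz q hq
        rw [hSp, mem_filter, not_and, not_not]
        exact fun _ => h
      · rw [one_mul]
    have h2 := sum_mul_sq_le_sq_mul_sq Sp (fun _ => (1 : ℝ)) N
    rw [h1]
    refine h2.trans ?_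
    simp only [one_pow, sum_const, nsmul_eq_mul, mul_one]
    apply mul_le_mul_of_nonneg_left _ (by positivity)
    exact sum_le_sum_of_subset_of_nonneg (filter_subset _ _) (fun q _ _ => sq_nonneg _)
  have hM0 : (0 : ℝ) < 𝓣.card := by
    have : 0 < 𝓣.card := card_pos.2 ⟨S₀, hS₀⟩
    exact_mod_cast this
  have hdesc : (0 : ℝ) < (K - Y.card).descFactorial t := by
    have : 0 < (K - Y.card).descFactorial t := by
      rw [Nat.pos_iff_ne_zero, Ne, Nat.descFactorial_eq_zero_iff_lt]
      omega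
    exact_mod_cast this
  have ha0 : 0 < a := by rw [ha]; positivity
  have hc0 : 0 < c1 := by rw [hc1]; positivity
  have hfin : F * E ≤ Sp.card * (1 + 1 / (4 * R)) := by
    have h1 : F * E * (∑ q ∈ D, N q) ^ 2 ≤
        Sp.card * ((c1 * a) ^ 2 * ((𝓣.card : ℝ) ^ 2 * (1 + 1 / (4 * R)))) := by
      calc F * E * (∑ q ∈ D, N q) ^ 2 ≤ F * E * (Sp.card * ∑ q ∈ D, N q ^ 2) :=
            mul_le_mul_of_nonneg_left hCS (by positivity)
        _ = Sp.card * (F * E * ∑ q ∈ D, N q ^ 2) := by ring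
        _ ≤ _ := mul_le_mul_of_nonneg_left hN2 (by positivity)
    rw [hN1] at h1
    have h2 : F * E * (𝓣.card * (c1 * a)) ^ 2 ≤
        (Sp.card * (1 + 1 / (4 * R))) * (𝓣.card * (c1 * a)) ^ 2 := by
      refine h1.trans (le_of_eq ?_)
      ring
    exact le_of_mul_le_mul_right h2 (by positivity)
  have hSpF : (Sp.card : ℝ) ≤ F * E := by
    rw [← hsplit]
    linarith [Nat.cast_nonneg (α := ℝ) Zr.card]
  have h1 : (Zr.card : ℝ) ≤ Sp.card * (1 / (4 * R)) := by linarith
  calc (Zr.card : ℝ) * (4 * R) ≤ (Sp.card * (1 / (4 * R))) * (4 * R) :=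
        mul_le_mul_of_nonneg_right h1 (by positivity)
    _ = Sp.card := by field_simp
    _ ≤ F * E := hSpF

end

end Pool.Agent.T9h16
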