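import Pool.Agent.T9h16.ApproxC
import Pool.Agent.T9h16.ChainG

set_option autoImplicit false

namespace Pool.Agent.T9h16

open Finset
open scoped Classical

/-- The circuit with AND and OR exchanged. -/
def Circ.dual {Λ : Type} (C : Circ Λ) : Circ Λ where
  size := C.size
  kind := fun i => match C.kind i with
    | .conj => .disj
    | .disj => .conj
    | .neg => .neg
  left := C.left
  right := C.right
  out := C.out
  acyclic := C.acyclic

theorem Circ.dual_neg {Λ : Type} (C : Circ Λ) (i : Fin C.size) :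
    C.dual.kind i = .neg ↔ C.kind i = .neg := by
  change (match C.kind i with
    | .conj => Kind.disj
    | .disj => Kind.conj
    | .neg => Kind.neg) = Kind.neg ↔ _
  cases C.kind i <;> simp

theorem Circ.dual_run {Λ : Type} {C : Circ Λ} {x : Λ → Prop} {v : Fin C.size → Prop}
    (h : C.Run x v) : C.dual.Run (fun e => ¬ x e) (fun i => ¬ v i) := by
  have hel : ∀ o : Λ ⊕ Fin C.size,
      (Sum.elim (fun e => ¬ x e) (fun i => ¬ v i) o ↔ ¬ Sum.elim x v o) := by
    rintro (e | j) <;> exact Iff.rfl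
  intro i
  change ¬ v i ↔ (match (match C.kind i with
    | .conj => Kind.disj
    | .disj => Kind.conj
    | .neg => Kind.neg) with
    | .conj => Sum.elim (fun e => ¬ x e) (fun i => ¬ v i) (C.left i) ∧
        Sum.elim (fun e => ¬ x e) (fun i => ¬ v i) (C.right i)
    | .disj => Sum.elim (fun e => ¬ x e) (fun i => ¬ v i) (C.left i) ∨
        Sum.elim (fun e => ¬ x e) (fun i => ¬ v i) (C.right i)
    | .neg => ¬ Sum.elim (fun e => ¬ x e) (fun i => ¬ v i) (C.left i))
  rw [hel, hel, h i]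
  rcases hk : C.kind i with _ | _ | _
  · rw [Circ.step_conj hk]
    simp only
    tauto
  · rw [Circ.step_disj hk]
    simp only
    tauto
  · rw [Circ.step_neg hk]

/-- The variables of a block: pairs of points in different groups. -/
abbrev PE (k w : ℕ) : Type := {e : (Fin k × Fin w) × (Fin k × Fin w) // e.1.1 < e.2.1}

/-- The block function: there is a transversal clique. -/
def TK {k w : ℕ} (z : Set (PE k w)) : Prop :=
  ∃ φ : Fin k → Fin w, ∀ i j (h : i < j), (⟨((i, φ i), (j, φ j)), h⟩ : PE k w) ∈ z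

theorem not_TK_empty {k w : ℕ} (hk : 2 ≤ k) : ¬ TK (∅ : Set (PE k w)) := by
  rintro ⟨φ, h⟩
  exact h ⟨0, by omega⟩ ⟨1, by omega⟩ (by simp)

theorem TK_pos {k w : ℕ} (φ : Fin k → Fin w) :
    TK (posT (fun e : PE k w => e.1.1) (fun e => e.1.2) φ) :=
  ⟨φ, fun i j h => ⟨rfl, rfl⟩⟩

theorem not_TK_neg {k w K : ℕ} (hK : K < k) (χ : Fin k × Fin w → Fin K) :
    ¬ TK (negC (fun e : PE k w => e.1.1) (fun e => e.1.2) χ) := by
  rintro ⟨φ, h⟩
  obtain ⟨i, j, hij, heq⟩ := Fintype.exists_ne_map_eq_of_card_lt (fun i : Fin k => χ (i, φ i))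
    (by simpa using hK)
  rcases lt_or_gt_of_ne hij with hlt | hlt
  · exact h i j hlt heq
  · exact h j i hlt heq.symm

theorem hardTK {k w r s : ℕ} (hk : 3 ≤ k) (hs : s ≤ 2 ^ r) (hw : 1 ≤ w)
    (hsw : s * ((3 ^ k * (r + 2 * k) * k) ^ 2) ^ k < w ^ k)
    (gt : ℕ → Set (PE k w) → Prop) (hg : IsSLP gt s)
    (O : Set (Set (PE k w) → Prop)) (hO : ∀ o ∈ O, Avail gt s o)
    (hpos : ∀ z, TK z → ∃ o ∈ O, o z) (hneg : ∀ z, ¬ TK z → ∀ o ∈ O, ¬ o z) : False := by
  obtain ⟨K, rfl⟩ : ∃ K, k = K + 1 := ⟨k - 1, by omega⟩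
  refine hardC (I := Fin (K + 1)) (w := w) (K := K) (a := fun e : PE (K + 1) w => e.1.1)
    (b := fun e => e.1.2) (by omega) ?_ r s hs hw ?_ gt hg O hO
    (fun φ => hpos _ (TK_pos φ)) (fun χ => hneg _ (not_TK_neg (by omega) χ))
  · rintro ⟨e, he⟩ h
    simp only at h
    rw [h] at he
    exact lt_irrefl _ he
  · refine lt_of_le_of_lt ?_ hsw
    apply Nat.mul_le_mul_left
    apply Nat.pow_le_pow_left
    apply Nat.pow_le_pow_left
    have h1 : 3 ^ K ≤ 3 ^ (K + 1) := Nat.pow_le_pow_right (by norm_num) (by omega)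
    exact Nat.mul_le_mul (Nat.mul_le_mul h1 (by omega)) (by omega)

section
variable {n k b : ℕ} (ν : Fin k × Fin b ↪ Fin n)

/-- The clause which forbids that group `i` has the value `u` and group `j` has the value `v`. -/
def cl (i j : Fin k) (u v : Fin b → Bool) : Finset (Fin n × Bool) :=
  (univ.image fun t : Fin b => (ν (i, t), !(u t))) ∪ (univ.image fun t : Fin b => (ν (j, t), !(v t)))

theorem cl_card (i j : Fin k) (u v : Fin b → Bool) : (cl ν i j u v).card ≤ 2 * b := by
  refine (card_union_le _ _).trans ?_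
  have h1 := card_image_le (s := (univ : Finset (Fin b))) (f := fun t : Fin b => (ν (i, t), !(u t)))
  have h2 := card_image_le (s := (univ : Finset (Fin b))) (f := fun t : Fin b => (ν (j, t), !(v t)))
  rw [card_univ, Fintype.card_fin] at h1 h2
  omega

theorem mem_cl {i j : Fin k} {u v : Fin b → Bool} {i' : Fin k} {t : Fin b} {s : Bool} :
    (ν (i', t), s) ∈ cl ν i j u v ↔ (i' = i ∧ s = !(u t)) ∨ (i' = j ∧ s = !(v t)) := by
  rw [cl, mem_union, mem_image, mem_image]
  constructor
  · rintro (⟨t', -, h⟩ | ⟨t', -, h⟩)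
    · rw [Prod.mk.injEq] at h
      have h2 := ν.injective h.1
      rw [Prod.mk.injEq] at h2
      left
      rw [← h2.1, ← h2.2]
      exact ⟨rfl, h.2.symm⟩
    · rw [Prod.mk.injEq] at h
      have h2 := ν.injective h.1
      rw [Prod.mk.injEq] at h2
      right
      rw [← h2.1, ← h2.2]
      exact ⟨rfl, h.2.symm⟩
  · rintro (⟨rfl, rfl⟩ | ⟨rfl, rfl⟩)
    · exact Or.inl ⟨t, mem_univ _, rfl⟩
    · exact Or.inr ⟨t, mem_univ _, rfl⟩

theorem cl_inj (hb : 1 ≤ b) {i j i' j' : Fin k} {u v u' v' : Fin b → Bool} (hij : i < j)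
    (hij' : i' < j') (h : cl ν i j u v = cl ν i' j' u' v') :
    i = i' ∧ j = j' ∧ u = u' ∧ v = v' := by
  have key : ∀ (x : Fin k) (t : Fin b) (s : Bool),
      ((x = i ∧ s = !(u t)) ∨ (x = j ∧ s = !(v t))) ↔
      ((x = i' ∧ s = !(u' t)) ∨ (x = j' ∧ s = !(v' t))) := by
    intro x t s
    rw [← mem_cl ν, ← mem_cl ν, h]
  set t₀ : Fin b := ⟨0, hb⟩
  have hi : i = i' ∨ i = j' := by
    rcases (key i t₀ (!(u t₀))).1 (Or.inl ⟨rfl, rfl⟩) with h | h
    · exact Or.inl h.1
    · exact Or.inr h.1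
  have hj : j = i' ∨ j = j' := by
    rcases (key j t₀ (!(v t₀))).1 (Or.inr ⟨rfl, rfl⟩) with h | h
    · exact Or.inl h.1
    · exact Or.inr h.1
  have hii : i = i' := by
    rcases hi with h | h
    · exact h
    · rcases hj with h' | h'
      · rw [h, h'] at hij
        exact absurd hij (lt_asymm hij')
      · rw [h, h'] at hij
        exact absurd hij (lt_irrefl _)
  have hjj : j = j' := by
    rcases hj with h | h
    · rw [h, hii] at hij
      exact absurd hij (lt_irrefl _)
    · exact h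
  subst hii
  subst hjj
  refine ⟨rfl, rfl, ?_, ?_⟩
  · funext t
    rcases (key i t (!(u t))).1 (Or.inl ⟨rfl, rfl⟩) with h | h
    · have := h.2
      simpa using this
    · exact absurd h.1 (ne_of_lt hij)
  · funext t
    rcases (key j t (!(v t))).1 (Or.inr ⟨rfl, rfl⟩) with h | h
    · exact absurd h.1.symm (ne_of_lt hij)
    · have := h.2
      simpa using this

/-- An assignment falsifies a forbidding clause iff the two groups have the forbidden values. -/
theorem not_sat_cl (α : Fin n → Bool) (i j : Fin k) (u v : Fin b → Bool) :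
    (¬ ∃ l ∈ cl ν i j u v, α l.1 = l.2) ↔
      ((∀ t, α (ν (i, t)) = u t) ∧ ∀ t, α (ν (j, t)) = v t) := by
  constructor
  · intro h
    push Not at h
    constructor
    · intro t
      have := h (ν (i, t), !(u t)) ((mem_cl ν).2 (Or.inl ⟨rfl, rfl⟩))
      simpa using this
    · intro t
      have := h (ν (j, t), !(v t)) ((mem_cl ν).2 (Or.inr ⟨rfl, rfl⟩))
      simpa using this
  · rintro ⟨h1, h2⟩ ⟨l, hl, hα⟩
    rw [cl, mem_union, mem_image, mem_image] at hl
    rcases hl with ⟨t, -, rfl⟩ | ⟨t, -, rfl⟩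
    · simp only at hα
      rw [h1 t] at hα
      simp at hα
    · simp only at hα
      rw [h2 t] at hα
      simp at hα

variable {p w : ℕ} (ι : Fin p × Fin w ↪ (Fin b → Bool))

/-- The pairs of values allowed by the block inputs `y`. -/
def Allowed (y : Fin p → Set (PE k w)) (i j : Fin k) (h : i < j) (u v : Fin b → Bool) : Prop :=
  ∃ (q : Fin p) (x x' : Fin w), u = ι (q, x) ∧ v = ι (q, x') ∧
    (⟨((i, x), (j, x')), h⟩ : PE k w) ∈ y q

/-- The CNF formula which encodes the block inputs `y`. -/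
def Fml (y : Fin p → Set (PE k w)) : Set (Finset (Fin n × Bool)) :=
  {c | ∃ (i j : Fin k) (h : i < j) (u v : Fin b → Bool), ¬ Allowed ι y i j h u v ∧
    c = cl ν i j u v}

theorem Fml_card (y : Fin p → Set (PE k w)) : ∀ c ∈ Fml ν ι y, c.card ≤ 2 * b := by
  rintro c ⟨i, j, h, u, v, -, rfl⟩
  exact cl_card ν i j u v

theorem Fml_sat (hk : 2 ≤ k) (y : Fin p → Set (PE k w)) :
    (∃ α : Fin n → Bool, ∀ c ∈ Fml ν ι y, ∃ l ∈ c, α l.1 = l.2) ↔ ∃ q, TK (y q) := by
  constructor
  · rintro ⟨α, hα⟩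
    have hall : ∀ i j (h : i < j), Allowed ι y i j h (fun t => α (ν (i, t)))
        (fun t => α (ν (j, t))) := by
      intro i j h
      by_contra hcon
      have h1 := hα _ ⟨i, j, h, _, _, hcon, rfl⟩
      have h2 := (not_sat_cl ν α i j (fun t => α (ν (i, t))) (fun t => α (ν (j, t)))).2
        ⟨fun t => rfl, fun t => rfl⟩
      exact h2 h1
    have hval : ∀ i : Fin k, ∃ q : Fin p × Fin w, (fun t => α (ν (i, t))) = ι q := by
      intro i
      by_cases hi : i.val = 0
      · have h1 : i < ⟨1, by omega⟩ := by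
          rw [Fin.lt_def, hi]
          exact Nat.one_pos
        obtain ⟨q, x, x', h2, -, -⟩ := hall i _ h1
        exact ⟨(q, x), h2⟩
      · have h1 : (⟨0, by omega⟩ : Fin k) < i := by
          rw [Fin.lt_def]
          exact Nat.pos_of_ne_zero hi
        obtain ⟨q, x, x', -, h2, -⟩ := hall _ i h1
        exact ⟨(q, x'), h2⟩
    choose f hf using hval
    have hpair : ∀ i j (h : i < j), (f i).1 = (f j).1 ∧
        (⟨((i, (f i).2), (j, (f j).2)), h⟩ : PE k w) ∈ y (f i).1 := by
      intro i j h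
      obtain ⟨q, x, x', h2, h3, h4⟩ := hall i j h
      have e1 : f i = (q, x) := ι.injective ((hf i).symm.trans h2)
      have e2 : f j = (q, x') := ι.injective ((hf j).symm.trans h3)
      rw [e1, e2]
      exact ⟨rfl, h4⟩
    have hq : ∀ i, (f i).1 = (f ⟨0, by omega⟩).1 := by
      intro i
      by_cases hi : i.val = 0
      · have : i = ⟨0, by omega⟩ := Fin.ext hi
        rw [this]
      · have h1 : (⟨0, by omega⟩ : Fin k) < i := by
          rw [Fin.lt_def]
          exact Nat.pos_of_ne_zero hi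
        exact (hpair _ i h1).1.symm
    refine ⟨(f ⟨0, by omega⟩).1, fun i => (f i).2, fun i j h => ?_⟩
    have := (hpair i j h).2
    rwa [hq i] at this
  · rintro ⟨q, φ, hφ⟩
    set α : Fin n → Bool := fun x =>
      if h : ∃ a : Fin k × Fin b, ν a = x then ι (q, φ h.choose.1) h.choose.2 else false with hα
    have hαν : ∀ i t, α (ν (i, t)) = ι (q, φ i) t := by
      intro i t
      have hex : ∃ a : Fin k × Fin b, ν a = ν (i, t) := ⟨_, rfl⟩
      have heq : hex.choose = (i, t) := ν.injective hex.choose_spec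
      simp only [hα]
      rw [dif_pos hex, heq]
    refine ⟨α, ?_⟩
    rintro c ⟨i, j, h, u, v, hnot, rfl⟩
    by_contra hcon
    obtain ⟨h1, h2⟩ := (not_sat_cl ν α i j u v).1 hcon
    apply hnot
    refine ⟨q, φ i, φ j, ?_, ?_, hφ i j h⟩
    · funext t
      rw [← h1 t, hαν]
    · funext t
      rw [← h2 t, hαν]

/-- The encoding of the block inputs in the (negated) clause variables. -/
def satEmb (hb : 1 ≤ b) : EmbG (Finset (Fin n × Bool)) (Fin p) (PE k w) where
  X := fun y c => ¬ c ∈ Fml ν ι y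
  mono := by
    rintro y y' hy c hc ⟨i, j, h, u, v, hnot, rfl⟩
    apply hc
    refine ⟨i, j, h, u, v, ?_, rfl⟩
    rintro ⟨q, x, x', h1, h2, h3⟩
    exact hnot ⟨q, x, x', h1, h2, hy q h3⟩
  leaf := by
    intro c
    by_cases hc : ∃ (i j : Fin k) (_ : i < j) (u v : Fin b → Bool), c = cl ν i j u v
    · obtain ⟨i, j, h, u, v, rfl⟩ := hc
      have hmem : ∀ y : Fin p → Set (PE k w), (¬ cl ν i j u v ∈ Fml ν ι y) ↔
          Allowed ι y i j h u v := by
        intro y
        constructor
        · intro h1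
          by_contra h2
          exact h1 ⟨i, j, h, u, v, h2, rfl⟩
        · rintro h1 ⟨i', j', h', u', v', hnot, heq⟩
          obtain ⟨rfl, rfl, rfl, rfl⟩ := cl_inj ν hb h h' heq
          exact hnot h1
      by_cases hq : ∃ (q : Fin p) (x x' : Fin w), u = ι (q, x) ∧ v = ι (q, x')
      · obtain ⟨q, x, x', hu, hv⟩ := hq
        right
        refine ⟨q, ⟨((i, x), (j, x')), h⟩, fun y => ?_⟩
        rw [hmem]
        constructor
        · rintro ⟨q₁, x₁, x₁', h1, h2, h3⟩
          have e1 : (q, x) = (q₁, x₁) := ι.injective (hu.symm.trans h1)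
          have e2 : (q, x') = (q₁, x₁') := ι.injective (hv.symm.trans h2)
          rw [Prod.mk.injEq] at e1 e2
          rw [e1.1, e1.2, e2.2]
          exact h3
        · intro h3
          exact ⟨q, x, x', hu, hv, h3⟩
      · left
        refine ⟨False, fun y => ?_⟩
        rw [hmem]
        constructor
        · rintro ⟨q, x, x', h1, h2, -⟩
          exact hq ⟨q, x, x', h1, h2⟩
        · exact False.elim
    · left
      refine ⟨True, fun y => ?_⟩
      simp only [iff_true]
      rintro ⟨i, j, h, u, v, -, rfl⟩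
      exact hc ⟨i, j, h, u, v, rfl⟩

end

end Pool.Agent.T9h16
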