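import Mathlib

set_option autoImplicit false

namespace Pool.Agent.T9h16

/-- The choice of the parameters: from the explicit bound to the asymptotic one. -/
theorem sat_asym2 (n W : ℕ) (ε : ℝ) (hε : 0 < ε) (hε1 : ε ≤ 1) (hWn : W ≤ n) (hb8 : 8 ≤ ε * W) :
    ∃ k b : ℕ, 3 ≤ k ∧ k * b ≤ n ∧ 4 * b ≤ W ∧ k ≤ n ∧
      ∀ s P G : ℝ, s ≤ 2 ^ ((1 - ε) * n) → 1 ≤ P → 1 ≤ G →
        (2 : ℝ) ^ (k * b) ≤ s * (P * G) ^ k → G ≤ 2 ^ (ε ^ 2 * W / 32) →
        (2 : ℝ) ^ (ε ^ 2 * W / 16) ≤ P := by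
  set b : ℕ := ⌊ε * W / 4⌋₊ with hb
  have hW0 : (0 : ℝ) ≤ W := Nat.cast_nonneg W
  have hn0 : (0 : ℝ) ≤ n := Nat.cast_nonneg n
  have hWn' : (W : ℝ) ≤ n := by exact_mod_cast hWn
  have hble : (b : ℝ) ≤ ε * W / 4 := Nat.floor_le (by positivity)
  have hblt : ε * W / 4 < b + 1 := Nat.lt_floor_add_one _
  have hbge : ε * W / 8 ≤ b := by linarith
  have hb1 : (1 : ℝ) ≤ b := by linarith
  have hb1' : 1 ≤ b := by exact_mod_cast hb1
  have hεW : ε * W ≤ W := by nlinarith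
  have hεW' : ε * W ≤ ε * n := by nlinarith
  have h4b : 4 * b ≤ W := by
    have : (4 : ℝ) * b ≤ W := by linarith
    exact_mod_cast this
  set k : ℕ := n / b with hk
  have hkb : k * b ≤ n := Nat.div_mul_le_self n b
  have hkb' : (k : ℝ) * b ≤ n := by exact_mod_cast hkb
  have hlt : n < (k + 1) * b := by
    have := Nat.lt_mul_div_succ n hb1'
    rw [mul_comm] at this
    exact this
  have hlt' : (n : ℝ) < (k + 1) * b := by exact_mod_cast hlt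
  have hk3 : 3 ≤ k := by
    rw [hk, Nat.le_div_iff_mul_le hb1']
    have : (3 : ℝ) * b ≤ n := by nlinarith
    exact_mod_cast this
  have hk0 : (0 : ℝ) < k := by
    have : 0 < k := by omega
    exact_mod_cast this
  refine ⟨k, b, hk3, hkb, h4b, Nat.div_le_self _ _, ?_⟩
  intro s P G hs hP hG h1 hGle
  have h2 : (2 : ℝ) ^ (k * b) = 2 ^ ((k : ℝ) * b) := by
    rw [← Nat.cast_mul, Real.rpow_natCast]
  have hPG : 0 < P * G := by positivity
  have h3 : (2 : ℝ) ^ ((k : ℝ) * b) ≤ 2 ^ ((1 - ε) * n) * (P * G) ^ k := by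
    rw [← h2]
    exact h1.trans (mul_le_mul_of_nonneg_right hs (by positivity))
  have h4 : (2 : ℝ) ^ ((k : ℝ) * b - (1 - ε) * n) ≤ (P * G) ^ k := by
    rw [Real.rpow_sub (by norm_num), div_le_iff₀ (by positivity)]
    linarith
  have h5 : (k : ℝ) * (3 / 4 * ε * b) ≤ (k : ℝ) * b - (1 - ε) * n := by
    nlinarith
  have h6 : ((2 : ℝ) ^ (3 / 4 * ε * b)) ^ k ≤ (P * G) ^ k := by
    rw [← Real.rpow_natCast, ← Real.rpow_mul (by norm_num)]
    refine le_trans ?_ h4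
    apply Real.rpow_le_rpow_of_exponent_le (by norm_num)
    linarith
  have h7 : (2 : ℝ) ^ (3 / 4 * ε * b) ≤ P * G := by
    apply le_of_pow_le_pow_left₀ (by omega) hPG.le h6
  have h8 : (2 : ℝ) ^ (3 * (ε ^ 2 * W / 32)) ≤ P * 2 ^ (ε ^ 2 * W / 32) := by
    calc (2 : ℝ) ^ (3 * (ε ^ 2 * W / 32)) ≤ 2 ^ (3 / 4 * ε * b) := by
          apply Real.rpow_le_rpow_of_exponent_le (by norm_num)
          nlinarith
      _ ≤ P * G := h7
      _ ≤ _ := mul_le_mul_of_nonneg_left hGle (by linarith)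
  have h9 : (2 : ℝ) ^ (3 * (ε ^ 2 * W / 32)) = 2 ^ (ε ^ 2 * W / 16) * 2 ^ (ε ^ 2 * W / 32) := by
    rw [← Real.rpow_add (by norm_num)]
    congr 1
    ring
  rw [h9] at h8
  exact le_of_mul_le_mul_right h8 (by positivity)

end Pool.Agent.T9h16
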