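import Pool.Agent.T9h16.Sat

set_option autoImplicit false

namespace Pool.Agent.T9h16

open Finset
open scoped Classical

/-- The circuit `C` has one input for every clause `c` over `n` variables (a finite set of literals
`(x, s)`, true if variable `x` has the value `s`), which tells whether `c` is present in the formula.
It decides correctly whether the formula is unsatisfiable, for all formulas whose clauses have at
most `W` literals. -/
def DetectsUnsat (n W : ℕ) (C : Circ (Finset (Fin n × Bool))) : Prop :=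
  ∀ F : Set (Finset (Fin n × Bool)), (∀ c ∈ F, c.card ≤ W) →
    ∃ v : Fin C.size → Prop, C.Run (fun c => c ∈ F) v ∧
      (v C.out ↔ ¬ ∃ α : Fin n → Bool, ∀ c ∈ F, ∃ l ∈ c, α l.1 = l.2)

/-- `lev` assigns inversion levels `0, ..., d` to the gates of `C`: the level does not decrease from
an operand to a gate, and it strictly increases at `neg` gates. -/
def IsLevel {Λ : Type} (C : Circ Λ) (lev : Fin C.size → ℕ) (d : ℕ) : Prop :=
  ∀ i j : Fin C.size, (C.left i = Sum.inr j → lev j ≤ lev i) ∧
    (C.kind i ≠ .neg → C.right i = Sum.inr j → lev j ≤ lev i) ∧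
    (C.kind i = .neg → C.left i = Sum.inr j → lev j < lev i) ∧
    (C.kind i = .neg → lev i ≤ d)

/-- The product, over the levels `0, ..., d`, of the number of `neg` gates of the level plus one. -/
noncomputable def negProd {Λ : Type} (C : Circ Λ) (lev : Fin C.size → ℕ) (d : ℕ) : ℕ :=
  ∏ ℓ ∈ Finset.range (d + 1), ((Finset.univ.filter fun i => C.kind i = .neg ∧ lev i = ℓ).card + 1)

theorem one_le_negProd {Λ : Type} (C : Circ Λ) (lev : Fin C.size → ℕ) (d : ℕ) :
    1 ≤ negProd C lev d :=
  Nat.one_le_iff_ne_zero.2 (Finset.prod_ne_zero_iff.2 fun ℓ _ => by omega)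

/-- Giving every `neg` gate its own level. -/
theorem exists_level {Λ : Type} (C : Circ Λ) :
    ∃ (lev : Fin C.size → ℕ) (d : ℕ), IsLevel C lev d ∧
      negProd C lev d = 2 ^ (univ.filter fun i => C.kind i = .neg).card := by
  set N : Finset (Fin C.size) := univ.filter fun i => C.kind i = .neg with hN
  set lev : Fin C.size → ℕ := fun i => (N.filter fun j => j ≤ i).card with hlevdef
  have hmono : ∀ i j : Fin C.size, j < i → lev j ≤ lev i := by
    intro i j hji
    apply card_le_card
    intro k hk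
    rw [mem_filter] at hk ⊢
    exact ⟨hk.1, hk.2.trans hji.le⟩
  have hstrict : ∀ i j : Fin C.size, C.kind i = .neg → j < i → lev j < lev i := by
    intro i j hi hji
    apply card_lt_card
    refine ⟨?_, fun hcon => ?_⟩
    · intro k hk
      rw [mem_filter] at hk ⊢
      exact ⟨hk.1, hk.2.trans hji.le⟩
    · have : i ∈ N.filter fun k => k ≤ j := by
        apply hcon
        rw [mem_filter, hN, mem_filter]
        exact ⟨⟨mem_univ _, hi⟩, le_rfl⟩
      rw [mem_filter] at this
      exact absurd this.2 (not_le.2 hji)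
  refine ⟨lev, N.card, fun i j => ⟨fun hj => hmono i j ((C.acyclic i j).1 hj),
      fun _ hj => hmono i j ((C.acyclic i j).2 hj),
      fun hi hj => hstrict i j hi ((C.acyclic i j).1 hj),
      fun _ => card_le_card (filter_subset _ _)⟩, ?_⟩
  have hone : ∀ ℓ, (univ.filter fun i => C.kind i = .neg ∧ lev i = ℓ).card ≤ 1 := by
    intro ℓ
    rw [card_le_one]
    intro i hi j hj
    simp only [mem_filter, mem_univ, true_and] at hi hj
    rcases lt_trichotomy i j with hij | hij | hij
    · have := hstrict j i hj.1 hij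
      omega
    · exact hij
    · have := hstrict i j hi.1 hij
      omega
  have hpow : ∀ ℓ, (univ.filter fun i => C.kind i = .neg ∧ lev i = ℓ).card + 1 =
      2 ^ (univ.filter fun i => C.kind i = .neg ∧ lev i = ℓ).card := by
    intro ℓ
    have := hone ℓ
    interval_cases (univ.filter fun i => C.kind i = .neg ∧ lev i = ℓ).card <;> rfl
  rw [negProd, prod_congr rfl fun ℓ _ => hpow ℓ, prod_pow_eq_pow_sum]
  congr 1
  have hmaps : ∀ i ∈ N, lev i ∈ range (N.card + 1) := by
    intro i _
    rw [mem_range]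
    exact Nat.lt_succ_of_le (card_le_card (filter_subset _ _))
  have hsum := card_eq_sum_card_fiberwise hmaps
  have heq : ∑ ℓ ∈ range (N.card + 1), (univ.filter fun i => C.kind i = .neg ∧ lev i = ℓ).card =
      ∑ ℓ ∈ range (N.card + 1), (N.filter fun i => lev i = ℓ).card := by
    apply sum_congr rfl
    intro ℓ _
    rw [hN, filter_filter]
  exact heq.trans hsum.symm

theorem card_filter_eq {α : Type} [Fintype α] {p q : α → Prop} {_ : DecidablePred p}
    {_ : DecidablePred q} (h : ∀ a, p a ↔ q a) :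
    (univ.filter p).card = (univ.filter q).card := by
  apply congrArg
  ext a
  simp [h a]

/-- The bound for the detection of unsatisfiability. -/
theorem sat_bound {n k b W : ℕ} (hk : 3 ≤ k) (hkb : k * b ≤ n) (hW : 2 * b ≤ W)
    (C : Circ (Finset (Fin n × Bool))) (hC : DetectsUnsat n W C)
    (lev : Fin C.size → ℕ) (d : ℕ) (hlev : IsLevel C lev d) :
    2 ^ (k * b) ≤ C.size * (2 * negProd C lev d * (3 ^ k * k * (n + 2 * k)) ^ 2) ^ k := by
  have hs : 1 ≤ C.size := by
    have := C.out.isLt
    omega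
  have hPp := one_le_negProd C lev d
  generalize hPpdef : negProd C lev d = Pp at *
  set cc := 3 ^ k * k * (n + 2 * k) with hcc
  have hcc1 : 1 ≤ cc := Nat.mul_pos (Nat.mul_pos (by positivity) (by omega)) (by omega)
  have hcc2 : 1 ≤ cc ^ 2 := Nat.one_le_pow _ _ hcc1
  by_cases hb0 : b = 0
  · subst hb0
    simp only [mul_zero, pow_zero]
    apply Nat.mul_pos hs
    apply Nat.pow_pos
    exact Nat.mul_pos (Nat.mul_pos (by norm_num) hPp) hcc2
  have hb : 1 ≤ b := Nat.one_le_iff_ne_zero.2 hb0
  by_contra hcon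
  rw [not_le] at hcon
  have hpow : 2 ^ (k * b) = (2 ^ b) ^ k := by rw [← pow_mul, mul_comm]
  rw [hpow] at hcon
  set w := 2 ^ b / Pp with hw
  have hle : Pp * w ≤ 2 ^ b := Nat.mul_div_le _ _
  have hlt : 2 ^ b < Pp * (w + 1) := by
    have := Nat.lt_mul_div_succ (2 ^ b) hPp
    exact this
  clear_value w
  have hw1 : 1 ≤ w := by
    by_contra h0
    have hw0 : w = 0 := Nat.lt_one_iff.1 (not_le.1 h0)
    rw [hw0] at hlt
    simp only [zero_add, mul_one] at hlt
    have h1 : (2 ^ b) ^ k ≤ C.size * (2 * Pp * cc ^ 2) ^ k := by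
      calc (2 ^ b) ^ k ≤ (2 * Pp * cc ^ 2) ^ k := by
            apply Nat.pow_le_pow_left
            calc 2 ^ b ≤ 1 * Pp * 1 := by omega
              _ ≤ 2 * Pp * cc ^ 2 := Nat.mul_le_mul (Nat.mul_le_mul_right _ (by omega)) hcc2
        _ = 1 * (2 * Pp * cc ^ 2) ^ k := (one_mul _).symm
        _ ≤ _ := Nat.mul_le_mul_right _ hs
    omega
  have hle2 : 2 ^ b ≤ 2 * Pp * w := by
    calc 2 ^ b ≤ Pp * (w + 1) := hlt.le
      _ ≤ Pp * (2 * w) := Nat.mul_le_mul_left _ (by omega)
      _ = 2 * Pp * w := by ring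
  have hkey : C.size * (cc ^ 2) ^ k < w ^ k := by
    have h1 : (C.size * (cc ^ 2) ^ k) * (2 * Pp) ^ k < w ^ k * (2 * Pp) ^ k := by
      calc (C.size * (cc ^ 2) ^ k) * (2 * Pp) ^ k = C.size * (2 * Pp * cc ^ 2) ^ k := by
            rw [mul_pow (2 * Pp) (cc ^ 2) k]; ring
        _ < (2 ^ b) ^ k := hcon
        _ ≤ (2 * Pp * w) ^ k := Nat.pow_le_pow_left hle2 _
        _ = w ^ k * (2 * Pp) ^ k := by rw [mul_pow]; ring
    exact lt_of_mul_lt_mul_right h1 (Nat.zero_le _)
  -- the size is at most `2 ^ n`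
  have hsn : C.size ≤ 2 ^ n := by
    calc C.size = C.size * 1 := (mul_one _).symm
      _ ≤ C.size * (2 * Pp * cc ^ 2) ^ k := by
          apply Nat.mul_le_mul_left
          apply Nat.one_le_pow
          exact Nat.mul_pos (Nat.mul_pos (by norm_num) hPp) hcc2
      _ ≤ (2 ^ b) ^ k := hcon.le
      _ = 2 ^ (k * b) := hpow.symm
      _ ≤ 2 ^ n := Nat.pow_le_pow_right (by norm_num) hkb
  obtain ⟨ν⟩ : Nonempty (Fin k × Fin b ↪ Fin n) := by
    apply Function.Embedding.nonempty_of_card_le
    simpa using hkb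
  obtain ⟨ι⟩ : Nonempty (Fin Pp × Fin w ↪ (Fin b → Bool)) := by
    apply Function.Embedding.nonempty_of_card_le
    simpa using hle
  set M := satEmb ν ι hb with hM
  choose v hv using hC
  have hchain := chain_countG (T := TK) (not_TK_empty (by omega)) C.dual
    (fun gt hg O hO hpos hneg => hardTK (r := n) hk hsn hw1 (by
      have : 3 ^ k * (n + 2 * k) * k = cc := by rw [hcc]; ring
      rw [this]
      exact hkey) gt hg O hO hpos hneg) M
    (fun y i => ¬ v (Fml ν ι y) (fun c hc => (Fml_card ν ι y c hc).trans hW) i)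
    (fun y => Circ.dual_run (hv _ _).1)
    (fun y => by
      change ¬ v (Fml ν ι y) _ C.out ↔ _
      rw [(hv _ _).2, not_not, Fml_sat ν ι (by omega)]) lev
    (fun i j => ⟨(hlev i j).1, fun hk => (hlev i j).2.1 (fun h2 => hk ((C.dual_neg i).2 h2))⟩)
    (fun i j hk => (hlev i j).2.2.1 ((C.dual_neg i).1 hk)) d
    (fun i hk => (hlev i i).2.2.2 ((C.dual_neg i).1 hk))
  rw [Fintype.card_fin] at hchain
  refine absurd (hchain.trans (le_of_eq ?_)) (Nat.not_succ_le_self Pp)
  rw [← hPpdef, negProd]
  exact prod_congr rfl fun ℓ _ => congrArg (fun m => m + 1)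
    (card_filter_eq (fun i => and_congr_left' (C.dual_neg i)))

end Pool.Agent.T9h16
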