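import Pool.Agent.T9h16.ApproxR
import Pool.Agent.T9h16.SatBound

set_option autoImplicit false

namespace Pool.Agent.T9h16

open Finset
open scoped Classical

theorem UU_le (V : Type) [Fintype V] [DecidableEq V] (ℓ : ℕ) :
    UU V ℓ ≤ (Fintype.card V + 1) ^ ℓ := by
  set f : (Fin ℓ → Option V) → Finset V := fun g => univ.filter fun v => ∃ i, g i = some v with hf
  have hsub : (univ.filter fun A : Finset V => A.card ≤ ℓ) ⊆ univ.image f := by
    intro A hA
    rw [mem_filter] at hA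
    rw [mem_image]
    set e := A.equivFin with he
    refine ⟨fun i => if h : i.val < A.card then some (e.symm ⟨i.val, h⟩).1 else none,
      mem_univ _, ?_⟩
    ext v
    simp only [hf, mem_filter, mem_univ, true_and]
    constructor
    · rintro ⟨i, hi⟩
      split_ifs at hi with h
      rw [Option.some.injEq] at hi
      rw [← hi]
      exact (e.symm ⟨i.val, h⟩).2
    · intro hv
      have hlt : (e ⟨v, hv⟩).val < ℓ := lt_of_lt_of_le (e ⟨v, hv⟩).isLt hA.2
      refine ⟨⟨(e ⟨v, hv⟩).val, hlt⟩, ?_⟩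
      rw [dif_pos (e ⟨v, hv⟩).isLt]
      simp
  refine (card_le_card hsub).trans (card_image_le.trans ?_)
  rw [card_univ, Fintype.card_fun, Fintype.card_fin, Fintype.card_option]

theorem two_mul_le_two_pow (k : ℕ) (hk : 1 ≤ k) : 2 * k ≤ 2 ^ k := by
  induction k, hk using Nat.le_induction with
  | base => norm_num
  | succ k hk ih =>
    rw [pow_succ]
    omega

/-- The monotone lower bound for the block function with polynomial loss. -/
theorem hardTS {n k b w s : ℕ} (hk : 3 ≤ k) (hb : 1 ≤ b) (hkb : k * b ≤ n) (hs1 : 1 ≤ s)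
    (hs : s ≤ 2 ^ n) (hw : 1 ≤ w) (hwb : w ≤ 2 ^ b)
    (hsw : s * (64 * (n + 2) ^ 12) ^ k < w ^ k)
    (gt : ℕ → Set (PE k w) → Prop) (hg : IsSLP gt s)
    (O : Set (Set (PE k w) → Prop)) (hO : ∀ o ∈ O, Avail gt s o)
    (hpos : ∀ z, TK z → ∃ o ∈ O, o z) (hneg : ∀ z, ¬ TK z → ∀ o ∈ O, ¬ o z) : False := by
  obtain ⟨K, rfl⟩ : ∃ K, k = K + 1 := ⟨k - 1, by omega⟩
  have hkn : K + 1 ≤ n := by nlinarith
  have hR : 1 ≤ (n + 2) ^ 2 := Nat.one_le_pow _ _ (by omega)
  refine hardR (I := Fin (K + 1)) (w := w) (K := K) (a := fun e : PE (K + 1) w => e.1.1)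
    (b := fun e => e.1.2) (by omega) ?_ ((n + 2) ^ 2) s hR hw ?_ ?_ gt hg O hO
    (fun φ => hpos _ (TK_pos φ)) (fun χ => hneg _ (not_TK_neg (by omega) χ))
  · rintro ⟨e, he⟩ h
    simp only at h
    rw [h] at he
    exact lt_irrefl _ he
  · have h1 : UU (Fin (K + 1) × Fin w) K ≤ 2 ^ ((K + 1 + b) * K) := by
      refine (UU_le _ _).trans ?_
      rw [Fintype.card_prod, Fintype.card_fin, Fintype.card_fin, pow_mul]
      apply Nat.pow_le_pow_left
      calc (K + 1) * w + 1 ≤ 2 * (K + 1) * w := by nlinarith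
        _ ≤ 2 ^ (K + 1) * 2 ^ b := Nat.mul_le_mul (two_mul_le_two_pow _ (by omega)) hwb
        _ = 2 ^ (K + 1 + b) := by rw [pow_add 2 (K + 1) b]
    have h2 : 3 * s + 1 ≤ 2 ^ (n + 2) := by
      rw [pow_add]
      omega
    calc 3 ^ K * ((3 * s + 1) * UU (Fin (K + 1) × Fin w) K)
        ≤ 2 ^ (2 * K) * (2 ^ (n + 2) * 2 ^ ((K + 1 + b) * K)) := by
          apply Nat.mul_le_mul _ (Nat.mul_le_mul h2 h1)
          rw [pow_mul]
          exact Nat.pow_le_pow_left (by norm_num) _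
      _ = 2 ^ (2 * K + (n + 2 + (K + 1 + b) * K)) := by rw [← pow_add, ← pow_add]
      _ < 2 ^ (n + 2) ^ 2 := by
          apply Nat.pow_lt_pow_right (by norm_num)
          nlinarith
  · refine lt_of_le_of_lt ?_ hsw
    apply Nat.mul_le_mul_left
    apply Nat.pow_le_pow_left
    calc (8 * ((n + 2) ^ 2) ^ 2 * K ^ 2) ^ 2 ≤ (8 * ((n + 2) ^ 2) ^ 2 * (n + 2) ^ 2) ^ 2 := by
          apply Nat.pow_le_pow_left
          apply Nat.mul_le_mul_left
          exact Nat.pow_le_pow_left (by omega) _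
      _ = 64 * (n + 2) ^ 12 := by ring

/-- The circuit `C` has one input for every clause `c` over `n` variables (a finite set of literals
`(x, s)`, true if the variable `x` has the value `s`), which tells whether `c` is present in the
formula.  It decides correctly whether the formula is unsatisfiable, for all formulas which only
contain clauses of `𝒞`. -/
def DecidesUnsat (n : ℕ) (𝒞 : Finset (Finset (Fin n × Bool))) (C : Circ (Finset (Fin n × Bool))) :
    Prop :=
  ∀ F : Finset (Finset (Fin n × Bool)), F ⊆ 𝒞 →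
    ∃ v : Fin C.size → Prop, C.Run (fun c => c ∈ F) v ∧
      (v C.out ↔ ¬ ∃ α : Fin n → Bool, ∀ c ∈ F, ∃ l ∈ c, α l.1 = l.2)

/-- The bound for the detection of unsatisfiability, for one fixed set of possible clauses. -/
theorem sat_sharp {n k b : ℕ} (hk : 3 ≤ k) (hkb : k * b ≤ n) :
    ∃ 𝒞 : Finset (Finset (Fin n × Bool)), 𝒞.card ≤ k ^ 2 * 4 ^ b ∧ (∀ c ∈ 𝒞, c.card ≤ 2 * b) ∧
    ∀ C : Circ (Finset (Fin n × Bool)), DecidesUnsat n 𝒞 C →
      ∀ (lev : Fin C.size → ℕ) (d : ℕ), IsLevel C lev d →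
      2 ^ (k * b) ≤ C.size * (negProd C lev d * (128 * (n + 2) ^ 12)) ^ k := by
  obtain ⟨ν⟩ : Nonempty (Fin k × Fin b ↪ Fin n) := by
    apply Function.Embedding.nonempty_of_card_le
    simpa using hkb
  set 𝒞 : Finset (Finset (Fin n × Bool)) :=
    (univ : Finset ((Fin k × Fin k) × ((Fin b → Bool) × (Fin b → Bool)))).image
      fun q => cl ν q.1.1 q.1.2 q.2.1 q.2.2 with h𝒞
  refine ⟨𝒞, ?_, ?_, ?_⟩
  · refine card_image_le.trans (le_of_eq ?_)
    rw [card_univ, Fintype.card_prod, Fintype.card_prod, Fintype.card_prod, Fintype.card_fin,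
      Fintype.card_fun, Fintype.card_bool, Fintype.card_fin]
    have : (4 : ℕ) ^ b = 2 ^ b * 2 ^ b := by
      rw [← mul_pow]
      norm_num
    rw [this]
    ring
  · intro c hc
    rw [h𝒞, mem_image] at hc
    obtain ⟨q, -, rfl⟩ := hc
    exact cl_card ν _ _ _ _
  intro C hC lev d hlev
  have hs : 1 ≤ C.size := by
    have := C.out.isLt
    omega
  have hPp := one_le_negProd C lev d
  generalize hPpdef : negProd C lev d = Pp at *
  set cc := 64 * (n + 2) ^ 12 with hcc
  have hcc1 : 1 ≤ cc := Nat.mul_pos (by norm_num) (by positivity)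
  have hGG : Pp * (128 * (n + 2) ^ 12) = 2 * Pp * cc := by rw [hcc]; ring
  rw [hGG]
  by_cases hb0 : b = 0
  · subst hb0
    simp only [mul_zero, pow_zero]
    apply Nat.mul_pos hs
    apply Nat.pow_pos
    exact Nat.mul_pos (Nat.mul_pos (by norm_num) hPp) hcc1
  have hb : 1 ≤ b := Nat.one_le_iff_ne_zero.2 hb0
  by_contra hcon
  rw [not_le] at hcon
  have hpow : 2 ^ (k * b) = (2 ^ b) ^ k := by rw [← pow_mul, mul_comm]
  rw [hpow] at hcon
  set w := 2 ^ b / Pp with hw
  have hle : Pp * w ≤ 2 ^ b := Nat.mul_div_le _ _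
  have hwb : w ≤ 2 ^ b := Nat.div_le_self _ _
  have hlt : 2 ^ b < Pp * (w + 1) := by
    have := Nat.lt_mul_div_succ (2 ^ b) hPp
    exact this
  clear_value w
  have hw1 : 1 ≤ w := by
    by_contra h0
    have hw0 : w = 0 := Nat.lt_one_iff.1 (not_le.1 h0)
    rw [hw0] at hlt
    simp only [zero_add, mul_one] at hlt
    have h1 : (2 ^ b) ^ k ≤ C.size * (2 * Pp * cc) ^ k := by
      calc (2 ^ b) ^ k ≤ (2 * Pp * cc) ^ k := by
            apply Nat.pow_le_pow_left
            calc 2 ^ b ≤ 1 * Pp * 1 := by omega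
              _ ≤ 2 * Pp * cc := Nat.mul_le_mul (Nat.mul_le_mul_right _ (by omega)) hcc1
        _ = 1 * (2 * Pp * cc) ^ k := (one_mul _).symm
        _ ≤ _ := Nat.mul_le_mul_right _ hs
    omega
  have hle2 : 2 ^ b ≤ 2 * Pp * w := by
    calc 2 ^ b ≤ Pp * (w + 1) := hlt.le
      _ ≤ Pp * (2 * w) := Nat.mul_le_mul_left _ (by omega)
      _ = 2 * Pp * w := by ring
  have hkey : C.size * cc ^ k < w ^ k := by
    have h1 : (C.size * cc ^ k) * (2 * Pp) ^ k < w ^ k * (2 * Pp) ^ k := by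
      calc (C.size * cc ^ k) * (2 * Pp) ^ k = C.size * (2 * Pp * cc) ^ k := by
            rw [mul_pow (2 * Pp) cc k]; ring
        _ < (2 ^ b) ^ k := hcon
        _ ≤ (2 * Pp * w) ^ k := Nat.pow_le_pow_left hle2 _
        _ = w ^ k * (2 * Pp) ^ k := by rw [mul_pow]; ring
    exact lt_of_mul_lt_mul_right h1 (Nat.zero_le _)
  have hsn : C.size ≤ 2 ^ n := by
    calc C.size = C.size * 1 := (mul_one _).symm
      _ ≤ C.size * (2 * Pp * cc) ^ k := by
          apply Nat.mul_le_mul_left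
          apply Nat.one_le_pow
          exact Nat.mul_pos (Nat.mul_pos (by norm_num) hPp) hcc1
      _ ≤ (2 ^ b) ^ k := hcon.le
      _ = 2 ^ (k * b) := hpow.symm
      _ ≤ 2 ^ n := Nat.pow_le_pow_right (by norm_num) hkb
  obtain ⟨ι⟩ : Nonempty (Fin Pp × Fin w ↪ (Fin b → Bool)) := by
    apply Function.Embedding.nonempty_of_card_le
    simpa using hle
  set M := satEmb ν ι hb with hM
  -- the formulas as finite sets
  have hfin : ∀ y : Fin Pp → Set (PE k w), ∃ F : Finset (Finset (Fin n × Bool)), F ⊆ 𝒞 ∧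
      ∀ c, c ∈ F ↔ c ∈ Fml ν ι y := by
    intro y
    refine ⟨𝒞.filter fun c => c ∈ Fml ν ι y, filter_subset _ _, fun c => ?_⟩
    rw [mem_filter]
    constructor
    · exact fun h => h.2
    · intro h
      refine ⟨?_, h⟩
      obtain ⟨i, j, hij, u, v, -, rfl⟩ := h
      rw [h𝒞, mem_image]
      exact ⟨((i, j), (u, v)), mem_univ _, rfl⟩
  choose F hF𝒞 hFm using hfin
  choose v hv using hC
  have hXF : ∀ y, (fun c => ¬ c ∈ F y) = M.X y := by
    intro y
    funext c
    exact propext (not_congr (hFm y c))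
  have hchain := chain_countG (T := TK) (not_TK_empty (by omega)) C.dual
    (fun gt hg O hO hpos hneg => hardTS hk hb hkb hs hsn hw1 hwb hkey gt hg O hO hpos hneg) M
    (fun y i => ¬ v (F y) (hF𝒞 y) i)
    (fun y => by
      have h1 := Circ.dual_run (hv (F y) (hF𝒞 y)).1
      rw [hXF] at h1
      exact h1)
    (fun y => by
      change ¬ v (F y) _ C.out ↔ _
      rw [(hv _ _).2, not_not, ← Fml_sat ν ι (by omega)]
      constructor
      · rintro ⟨α, hα⟩
        exact ⟨α, fun c hc => hα c ((hFm y c).2 hc)⟩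
      · rintro ⟨α, hα⟩
        exact ⟨α, fun c hc => hα c ((hFm y c).1 hc)⟩) lev
    (fun i j => ⟨(hlev i j).1, fun hk => (hlev i j).2.1 (fun h2 => hk ((C.dual_neg i).2 h2))⟩)
    (fun i j hk => (hlev i j).2.2.1 ((C.dual_neg i).1 hk)) d
    (fun i hk => (hlev i i).2.2.2 ((C.dual_neg i).1 hk))
  rw [Fintype.card_fin] at hchain
  refine absurd (hchain.trans (le_of_eq ?_)) (Nat.not_succ_le_self Pp)
  rw [← hPpdef, negProd]
  exact prod_congr rfl fun ℓ _ => congrArg (fun m => m + 1)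
    (card_filter_eq (fun i => and_congr_left' (C.dual_neg i)))

end Pool.Agent.T9h16
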