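import Pool.Agent.T9h16.Few

/-!
# Formulas with selector variables
-/

set_option autoImplicit false
set_option linter.unusedSectionVars false

namespace Pool.Agent.T9h16

open Finset
open scoped Classical

section
variable {n k b β : ℕ} (μ : Fin β ⊕ Fin k × Fin b ↪ Fin n)

/-- The positions of the group variables. -/
def nu : Fin k × Fin b ↪ Fin n :=
  ⟨fun x => μ (Sum.inr x), fun _ _ h => Sum.inr_injective (μ.injective h)⟩

/-- The clause: the selector is different from `s`, or group `i` has not the value `u` or group `j`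
has not the value `v`. -/
def scl (s : Fin β → Bool) (i j : Fin k) (u v : Fin b → Bool) : Finset (Fin n × Bool) :=
  (univ.image fun t : Fin β => (μ (Sum.inl t), !(s t))) ∪ cl (nu μ) i j u v

theorem scl_card (s : Fin β → Bool) (i j : Fin k) (u v : Fin b → Bool) :
    (scl μ s i j u v).card ≤ β + 2 * b := by
  refine (card_union_le _ _).trans ?_
  have h1 := card_image_le (s := (univ : Finset (Fin β)))
    (f := fun t : Fin β => (μ (Sum.inl t), !(s t)))
  have h2 := cl_card (nu μ) i j u v
  rw [card_univ, Fintype.card_fin] at h1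
  omega

theorem mem_scl_inr {s : Fin β → Bool} {i j : Fin k} {u v : Fin b → Bool} {x : Fin k × Fin b}
    {r : Bool} : (nu μ x, r) ∈ scl μ s i j u v ↔ (nu μ x, r) ∈ cl (nu μ) i j u v := by
  rw [scl, mem_union, mem_image]
  constructor
  · rintro (⟨t, -, h⟩ | h)
    · rw [Prod.mk.injEq] at h
      have := μ.injective h.1
      exact absurd this (by simp)
    · exact h
  · exact Or.inr

theorem mem_cl_exists {ν : Fin k × Fin b ↪ Fin n} {i j : Fin k} {u v : Fin b → Bool}
    {l : Fin n × Bool} (h : l ∈ cl ν i j u v) : ∃ x, ν x = l.1 := by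
  rw [cl, mem_union, mem_image, mem_image] at h
  rcases h with ⟨t, -, rfl⟩ | ⟨t, -, rfl⟩
  · exact ⟨_, rfl⟩
  · exact ⟨_, rfl⟩

theorem mem_scl_inl {s : Fin β → Bool} {i j : Fin k} {u v : Fin b → Bool} {t : Fin β}
    {r : Bool} : (μ (Sum.inl t), r) ∈ scl μ s i j u v ↔ r = !(s t) := by
  rw [scl, mem_union, mem_image]
  constructor
  · rintro (⟨t', -, h⟩ | h)
    · rw [Prod.mk.injEq] at h
      have h1 := Sum.inl_injective (μ.injective h.1)
      rw [← h1, h.2]
    · obtain ⟨x, hx⟩ := mem_cl_exists h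
      have := μ.injective hx
      exact absurd this (by simp)
  · rintro rfl
    exact Or.inl ⟨t, mem_univ _, rfl⟩

theorem scl_inj (hb : 1 ≤ b) {s s' : Fin β → Bool} {i j i' j' : Fin k} {u v u' v' : Fin b → Bool}
    (hij : i < j) (hij' : i' < j') (h : scl μ s i j u v = scl μ s' i' j' u' v') :
    s = s' ∧ i = i' ∧ j = j' ∧ u = u' ∧ v = v' := by
  constructor
  · funext t
    have h1 := (mem_scl_inl μ (s := s) (i := i) (j := j) (u := u) (v := v) (t := t)
      (r := !(s t))).2 rfl
    rw [h, mem_scl_inl] at h1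
    simpa using h1
  · apply cl_inj (nu μ) hb hij hij'
    ext l
    constructor
    · intro hl
      obtain ⟨x, hx⟩ := mem_cl_exists hl
      have e : l = (nu μ x, l.2) := Prod.ext hx.symm rfl
      rw [e] at hl ⊢
      rw [← mem_scl_inr, h, mem_scl_inr] at hl
      exact hl
    · intro hl
      obtain ⟨x, hx⟩ := mem_cl_exists hl
      have e : l = (nu μ x, l.2) := Prod.ext hx.symm rfl
      rw [e] at hl ⊢
      rw [← mem_scl_inr, ← h, mem_scl_inr] at hl
      exact hl

theorem not_sat_scl (α : Fin n → Bool) (s : Fin β → Bool) (i j : Fin k) (u v : Fin b → Bool) :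
    (¬ ∃ l ∈ scl μ s i j u v, α l.1 = l.2) ↔
      (∀ t, α (μ (Sum.inl t)) = s t) ∧
      ((∀ t, α (nu μ (i, t)) = u t) ∧ ∀ t, α (nu μ (j, t)) = v t) := by
  rw [← not_sat_cl]
  constructor
  · intro h
    push Not at h
    refine ⟨fun t => ?_, ?_⟩
    · have := h (μ (Sum.inl t), !(s t)) ((mem_scl_inl μ).2 rfl)
      simpa using this
    · rintro ⟨l, hl, hα⟩
      exact h l (mem_union_right _ hl) hα
  · rintro ⟨h1, h2⟩ ⟨l, hl, hα⟩
    rw [scl, mem_union, mem_image] at hl
    rcases hl with ⟨t, -, rfl⟩ | hl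
    · simp only at hα
      rw [h1 t] at hα
      simp at hα
    · exact h2 ⟨l, hl, hα⟩

variable {w : ℕ} (e : Fin w ≃ (Fin b → Bool))

/-- The formula given by the allowed pairs `y s` for every value `s` of the selector. -/
def SF (y : (Fin β → Bool) → Set (PE k w)) : Set (Finset (Fin n × Bool)) :=
  {c | ∃ (s : Fin β → Bool) (i j : Fin k) (h : i < j) (x x' : Fin w),
    (⟨((i, x), (j, x')), h⟩ : PE k w) ∉ y s ∧ c = scl μ s i j (e x) (e x')}

theorem SF_anti {y y' : (Fin β → Bool) → Set (PE k w)} (h : ∀ s, y s ⊆ y' s) :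
    SF μ e y' ⊆ SF μ e y := by
  rintro c ⟨s, i, j, hij, x, x', hnot, rfl⟩
  exact ⟨s, i, j, hij, x, x', fun hmem => hnot (h s hmem), rfl⟩

theorem SF_unsat {y : (Fin β → Bool) → Set (PE k w)} (h : ∀ s, ¬ TK (y s)) :
    ¬ ∃ α : Fin n → Bool, ∀ c ∈ SF μ e y, ∃ l ∈ c, α l.1 = l.2 := by
  rintro ⟨α, hα⟩
  refine h (fun t => α (μ (Sum.inl t))) ⟨fun i => e.symm fun t => α (nu μ (i, t)), ?_⟩
  intro i j hij
  by_contra hcon
  have h1 := hα _ ⟨_, i, j, hij, _, _, hcon, rfl⟩
  refine (not_sat_scl μ α (fun t => α (μ (Sum.inl t))) i j _ _).2 ⟨fun t => rfl, ?_, ?_⟩ h1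
  · intro t
    rw [Equiv.apply_symm_apply]
  · intro t
    rw [Equiv.apply_symm_apply]

theorem SF_sat {y : (Fin β → Bool) → Set (PE k w)} {s : Fin β → Bool} (h : TK (y s)) :
    ∃ α : Fin n → Bool, ∀ c ∈ SF μ e y, ∃ l ∈ c, α l.1 = l.2 := by
  obtain ⟨φ, hφ⟩ := h
  set val : Fin β ⊕ Fin k × Fin b → Bool := Sum.elim s fun x => e (φ x.1) x.2 with hval
  set α : Fin n → Bool := fun x =>
    if h : ∃ a, μ a = x then val h.choose else false with hα
  have hαμ : ∀ a, α (μ a) = val a := by
    intro a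
    have hex : ∃ a', μ a' = μ a := ⟨_, rfl⟩
    have heq : hex.choose = a := μ.injective hex.choose_spec
    simp only [hα]
    rw [dif_pos hex, heq]
  refine ⟨α, ?_⟩
  rintro c ⟨s', i, j, hij, x, x', hnot, rfl⟩
  by_contra hcon
  obtain ⟨h0, h1, h2⟩ := (not_sat_scl μ α s' i j (e x) (e x')).1 hcon
  apply hnot
  have hs : s' = s := by
    funext t
    rw [← h0 t, hαμ]
    rfl
  have hx : x = φ i := by
    apply e.injective
    funext t
    rw [← h1 t]
    exact hαμ _
  have hx' : x' = φ j := by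
    apply e.injective
    funext t
    rw [← h2 t]
    exact hαμ _
  rw [hs, hx, hx']
  exact hφ i j hij

/-- Every clause variable is constant or tells about one pair. -/
theorem SF_leaf (hb : 1 ≤ b) (y : (Fin β → Bool) → Set (PE k w)) (s : Fin β → Bool)
    (c : Finset (Fin n × Bool)) :
    Leaf fun z : Set (PE k w) => ¬ c ∈ SF μ e (Function.update y s z) := by
  by_cases hc : ∃ (i j : Fin k) (_ : i < j) (x x' : Fin w), c = scl μ s i j (e x) (e x')
  · obtain ⟨i, j, hij, x, x', rfl⟩ := hc
    left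
    refine ⟨⟨((i, x), (j, x')), hij⟩, fun z => ?_⟩
    constructor
    · intro h
      by_contra hnot
      refine h ⟨s, i, j, hij, x, x', ?_, rfl⟩
      rwa [Function.update_self]
    · rintro hmem ⟨s', i', j', hij', x₁, x₁', hnot, heq⟩
      obtain ⟨rfl, rfl, rfl, h1, h2⟩ := scl_inj μ hb hij hij' heq
      rw [e.injective h1, e.injective h2] at hmem
      rw [Function.update_self] at hnot
      exact hnot hmem
  · right
    refine ⟨¬ c ∈ SF μ e y, fun z => not_congr ?_⟩
    constructor
    · rintro ⟨s', i, j, hij, x, x', hnot, rfl⟩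
      by_cases hs : s' = s
      · subst hs
        exact (hc ⟨i, j, hij, x, x', rfl⟩).elim
      · rw [Function.update_of_ne hs] at hnot
        exact ⟨s', i, j, hij, x, x', hnot, rfl⟩
    · rintro ⟨s', i, j, hij, x, x', hnot, rfl⟩
      by_cases hs : s' = s
      · subst hs
        exact (hc ⟨i, j, hij, x, x', rfl⟩).elim
      · refine ⟨s', i, j, hij, x, x', ?_, rfl⟩
        rwa [Function.update_of_ne hs]

end

/-- Monotonicity of the gates. -/
theorem val_mono {Λ : Type} {S : ℕ} {isAnd : Fin S → Bool} {left right : Fin S → Λ ⊕ Fin S}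
    (acyclic : ∀ i j, (left i = Sum.inr j → j < i) ∧ (right i = Sum.inr j → j < i))
    {val : (Λ → Prop) → Fin S → Prop}
    (hval : ∀ x i, val x i ↔ if isAnd i = true then
      (Sum.elim x (val x) (left i) ∧ Sum.elim x (val x) (right i)) else
      (Sum.elim x (val x) (left i) ∨ Sum.elim x (val x) (right i)))
    {x x' : Λ → Prop} (hx : ∀ c, x c → x' c) : ∀ i, val x i → val x' i := by
  intro i
  induction i using WellFoundedLT.induction with
  | ind i ih =>
    have hl := elim_mono (v := val x) (v' := val x') hx (left i)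
      (fun j hj => ih j ((acyclic i j).1 hj))
    have hr := elim_mono (v := val x) (v' := val x') hx (right i)
      (fun j hj => ih j ((acyclic i j).2 hj))
    rw [hval x i, hval x' i]
    split_ifs
    · exact fun h => ⟨hl h.1, hr h.2⟩
    · exact fun h => h.imp hl hr

/-- The main bound: a small monotone circuit which accepts only unsatisfiable formulas accepts very
few of the formulas given by colourings. -/
theorem sel_bound {n K b β : ℕ} (hK : 2 ≤ K) (hb : 1 ≤ b) (hn : β + (K + 1) * b ≤ n)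
    (hw : 32 * (n + 2) ^ 6 ≤ 2 ^ b) (μ : Fin β ⊕ Fin (K + 1) × Fin b ↪ Fin n)
    (e : Fin (2 ^ b) ≃ (Fin b → Bool)) {S : ℕ} {isAnd : Fin S → Bool}
    {left right : Fin S → Finset (Fin n × Bool) ⊕ Fin S} (out : Finset (Fin n × Bool) ⊕ Fin S)
    (acyclic : ∀ i j, (left i = Sum.inr j → j < i) ∧ (right i = Sum.inr j → j < i))
    {val : (Finset (Fin n × Bool) → Prop) → Fin S → Prop}
    (hval : ∀ x i, val x i ↔ if isAnd i = true then
      (Sum.elim x (val x) (left i) ∧ Sum.elim x (val x) (right i)) else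
      (Sum.elim x (val x) (left i) ∨ Sum.elim x (val x) (right i)))
    (hS : 2 * S * (64 * (n + 2) ^ 12) ^ (K + 1) ≤ 2 ^ ((K + 1) * b))
    (hsound : ∀ y : (Fin β → Bool) → Set (PE (K + 1) (2 ^ b)), (∃ s, TK (y s)) →
      ¬ Sum.elim (fun c => c ∈ SF μ e y) (val fun c => c ∈ SF μ e y) out) :
    (univ.filter fun ω : (Fin β → Bool) → (Fin (K + 1) × Fin (2 ^ b) → Fin K) =>
      Sum.elim (fun c => c ∈ SF μ e fun s => negC (fun e : PE (K + 1) (2 ^ b) => e.1.1)
        (fun e => e.1.2) (ω s))
        (val fun c => c ∈ SF μ e fun s => negC (fun e : PE (K + 1) (2 ^ b) => e.1.1)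
        (fun e => e.1.2) (ω s)) out).card * 2 ^ 2 ^ β ≤
      Fintype.card ((Fin β → Bool) → (Fin (K + 1) × Fin (2 ^ b) → Fin K)) := by
  set X := Fin (K + 1) × Fin (2 ^ b) → Fin K with hX
  set a₁ : PE (K + 1) (2 ^ b) → Fin (K + 1) × Fin (2 ^ b) := fun e => e.1.1 with ha₁
  set a₂ : PE (K + 1) (2 ^ b) → Fin (K + 1) × Fin (2 ^ b) := fun e => e.1.2 with ha₂
  set zz : ((Fin β → Bool) → Option X) → (Fin β → Bool) → Set (PE (K + 1) (2 ^ b)) :=
    fun y s => match y s with
      | some χ => negC a₁ a₂ χ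
      | none => ∅ with hzz
  set ACC : ((Fin β → Bool) → Set (PE (K + 1) (2 ^ b))) → Prop := fun y =>
    Sum.elim (fun c => c ∈ SF μ e y) (val fun c => c ∈ SF μ e y) out with hACC
  have hACCmono : ∀ y y' : (Fin β → Bool) → Set (PE (K + 1) (2 ^ b)), (∀ s, y s ⊆ y' s) →
      ACC y' → ACC y := by
    intro y y' h
    have hsub := SF_anti μ e h
    exact elim_mono (fun c hc => hsub hc) out
      (fun j _ => val_mono acyclic hval (fun c hc => hsub hc) j)
  have hX0 : 0 < Fintype.card X := Fintype.card_pos_iff.2 ⟨fun _ => ⟨0, by omega⟩⟩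
  have hUU : UU (Fin (K + 1) × Fin (2 ^ b)) K ≤ 2 ^ ((K + 1 + b) * K) := by
    refine (UU_le _ _).trans ?_
    rw [Fintype.card_prod, Fintype.card_fin, Fintype.card_fin, pow_mul]
    apply Nat.pow_le_pow_left
    have hw1 : 1 ≤ 2 ^ b := Nat.one_le_two_pow
    calc (K + 1) * 2 ^ b + 1 ≤ 2 * (K + 1) * 2 ^ b := by nlinarith
      _ ≤ 2 ^ (K + 1) * 2 ^ b := Nat.mul_le_mul_right _ (two_mul_le_two_pow _ (by omega))
      _ = 2 ^ (K + 1 + b) := by rw [pow_add 2 (K + 1) b]
  have hSn : S ≤ 2 ^ n := by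
    have h1 : 1 ≤ (64 * (n + 2) ^ 12) ^ (K + 1) := Nat.one_le_pow _ _ (by positivity)
    calc S ≤ 2 * S * 1 := by omega
      _ ≤ 2 * S * (64 * (n + 2) ^ 12) ^ (K + 1) := Nat.mul_le_mul_left _ h1
      _ ≤ 2 ^ ((K + 1) * b) := hS
      _ ≤ 2 ^ n := Nat.pow_le_pow_right (by norm_num) (by omega)
  have hKn : K + 1 ≤ n := by nlinarith
  have hsmall : (3 * S + 1) * UU (Fin (K + 1) × Fin (2 ^ b)) K * 2 ≤ 2 ^ (n + 2) ^ 2 := by
    have h2 : 3 * S + 1 ≤ 2 ^ (n + 2) := by
      rw [pow_add]
      have : 1 ≤ 2 ^ n := Nat.one_le_two_pow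
      omega
    calc (3 * S + 1) * UU (Fin (K + 1) × Fin (2 ^ b)) K * 2
        ≤ 2 ^ (n + 2) * 2 ^ ((K + 1 + b) * K) * 2 :=
          Nat.mul_le_mul_right _ (Nat.mul_le_mul h2 hUU)
      _ = 2 ^ (n + 2 + (K + 1 + b) * K + 1) := by rw [← pow_add, ← pow_succ]
      _ ≤ 2 ^ (n + 2) ^ 2 := by
          apply Nat.pow_le_pow_right (by norm_num)
          nlinarith
  set m := Fintype.card X / 2 with hm
  have hblock : ∀ (y : (Fin β → Bool) → Option X) (s : Fin β → Bool),
      (univ.filter fun χ : X => ACC (zz (Function.update y s (some χ)))).card ≤ m := by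
    intro y s
    have hzu : ∀ χ, zz (Function.update y s (some χ)) =
        Function.update (zz y) s (negC a₁ a₂ χ) := by
      intro χ
      funext s'
      by_cases hs : s' = s
      · subst hs
        rw [Function.update_self]
        simp only [hzz, Function.update_self]
      · rw [Function.update_of_ne hs]
        simp only [hzz]
        rw [Function.update_of_ne hs]
    set gt : ℕ → Set (PE (K + 1) (2 ^ b)) → Prop := fun i z =>
      if h : i < S then ¬ val (fun c => c ∈ SF μ e (Function.update (zz y) s z)) ⟨i, h⟩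
      else False with hgt
    have hgtv : ∀ (i : Fin S) z, gt i.val z ↔
        ¬ val (fun c => c ∈ SF μ e (Function.update (zz y) s z)) i := by
      intro i z
      simp [hgt]
    have havail : ∀ (o : Finset (Fin n × Bool) ⊕ Fin S) (m : ℕ),
        (∀ j, o = Sum.inr j → j.val < m) →
        Avail gt m (fun z => ¬ Sum.elim (fun c => c ∈ SF μ e (Function.update (zz y) s z))
          (val fun c => c ∈ SF μ e (Function.update (zz y) s z)) o) := by
      intro o m ho
      rcases o with c | j
      · exact Or.inl (SF_leaf μ e hb (zz y) s c)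
      · exact Or.inr ⟨j.val, ho j rfl, fun z => (hgtv j z).symm⟩
    have hSLP : IsSLP gt S := by
      intro i hi
      set i' : Fin S := ⟨i, hi⟩ with hi'
      have heq : ∀ z, gt i z ↔
          ¬ val (fun c => c ∈ SF μ e (Function.update (zz y) s z)) i' := fun z => hgtv i' z
      right
      refine ⟨_, _, havail (left i') i (fun j hj => (acyclic i' j).1 hj),
        havail (right i') i (fun j hj => (acyclic i' j).2 hj), ?_⟩
      by_cases hA : isAnd i' = true
      · right
        intro z
        rw [heq, hval, if_pos hA, not_and_or]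
      · left
        intro z
        rw [heq, hval, if_neg hA, not_or]
    have hfew := few_rejected (I := Fin (K + 1)) (w := 2 ^ b) (K := K) (a := a₁) (b := a₂) hK
      (by
        rintro ⟨e, he⟩ h
        simp only [ha₁, ha₂] at h
        rw [h] at he
        exact lt_irrefl _ he) ((n + 2) ^ 2) S (Nat.one_le_pow _ _ (by omega))
      (by
        calc 4 * (8 * ((n + 2) ^ 2) ^ 2 * K ^ 2) ≤ 4 * (8 * ((n + 2) ^ 2) ^ 2 * (n + 2) ^ 2) := by
              apply Nat.mul_le_mul_left
              apply Nat.mul_le_mul_left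
              exact Nat.pow_le_pow_left (by omega) _
          _ = 32 * (n + 2) ^ 6 := by ring
          _ ≤ 2 ^ b := hw)
      (by
        calc 2 * S * ((8 * ((n + 2) ^ 2) ^ 2 * K ^ 2) ^ 2) ^ (K + 1)
            ≤ 2 * S * (64 * (n + 2) ^ 12) ^ (K + 1) := by
              apply Nat.mul_le_mul_left
              apply Nat.pow_le_pow_left
              calc (8 * ((n + 2) ^ 2) ^ 2 * K ^ 2) ^ 2
                  ≤ (8 * ((n + 2) ^ 2) ^ 2 * (n + 2) ^ 2) ^ 2 := by
                    apply Nat.pow_le_pow_left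
                    apply Nat.mul_le_mul_left
                    exact Nat.pow_le_pow_left (by omega) _
                _ = 64 * (n + 2) ^ 12 := by ring
          _ ≤ 2 ^ ((K + 1) * b) := hS
          _ = (2 ^ b) ^ (K + 1) := by rw [← pow_mul, mul_comm])
      gt hSLP _ (havail out S (fun j _ => j.isLt))
      (fun φ => by
        apply hsound
        refine ⟨s, ?_⟩
        rw [Function.update_self]
        exact TK_pos φ)
    rw [hm, Nat.le_div_iff_mul_le (by norm_num)]
    have h5 : (univ.filter fun χ : X => ACC (zz (Function.update y s (some χ)))).card * 2 *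
        2 ^ (n + 2) ^ 2 ≤ Fintype.card X * 2 ^ (n + 2) ^ 2 := by
      calc (univ.filter fun χ : X => ACC (zz (Function.update y s (some χ)))).card * 2 *
          2 ^ (n + 2) ^ 2
          = ((univ.filter fun χ : X => ACC (zz (Function.update y s (some χ)))).card *
            2 ^ (n + 2) ^ 2) * 2 := by ring
        _ ≤ ((3 * S + 1) * UU (Fin (K + 1) × Fin (2 ^ b)) K * Fintype.card X) * 2 := by
            apply Nat.mul_le_mul_right
            refine le_trans (Nat.mul_le_mul_right _ (le_of_eq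
              (filter_card_congr _ fun χ _ => ?_))) hfew
            rw [hzu, not_not]
        _ = ((3 * S + 1) * UU (Fin (K + 1) × Fin (2 ^ b)) K * 2) * Fintype.card X := by ring
        _ ≤ 2 ^ (n + 2) ^ 2 * Fintype.card X := Nat.mul_le_mul_right _ hsmall
        _ = _ := by ring
    exact Nat.le_of_mul_le_mul_right h5 (by positivity)
  obtain ⟨x₀⟩ : Nonempty X := Fintype.card_pos_iff.1 hX0
  have hprod := prod_bound (ι := Fin β → Bool) x₀ (fun y => ACC (zz y))
    (by
      intro y s h
      refine hACCmono _ _ ?_ h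
      intro s'
      by_cases hs : s' = s
      · subst hs
        simp only [hzz, Function.update_self]
        exact Set.empty_subset _
      · simp only [hzz]
        rw [Function.update_of_ne hs]) m hblock
  have hι : Fintype.card (Fin β → Bool) = 2 ^ β := by
    rw [Fintype.card_fun, Fintype.card_bool, Fintype.card_fin]
  rw [hι] at hprod
  calc (univ.filter fun ω : (Fin β → Bool) → X => ACC fun s => negC a₁ a₂ (ω s)).card * 2 ^ 2 ^ β
      ≤ m ^ 2 ^ β * 2 ^ 2 ^ β := Nat.mul_le_mul_right _ hprod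
    _ = (m * 2) ^ 2 ^ β := by rw [mul_pow]
    _ ≤ (Fintype.card X) ^ 2 ^ β := Nat.pow_le_pow_left (Nat.div_mul_le_self _ _) _
    _ = Fintype.card ((Fin β → Bool) → X) := by
        rw [← hι]
        exact (Fintype.card_fun (α := Fin β → Bool) (β := X)).symm

end Pool.Agent.T9h16
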