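import Pool.Agent.T9h16.Grid

set_option autoImplicit false

namespace Pool.Agent.T9h16

open Finset
open scoped Classical

/-- Two block variables which can belong to the same minterm of the block function. -/
def compat {g w : ℕ} (e e' : BE g w) : Prop :=
  e ≠ e' ∧ (e.1.1 = e'.1.1 → e.1.2 = e'.1.2) ∧ (e.2.1 = e'.2.1 → e.2.2 = e'.2.2)

theorem compat.symm {g w : ℕ} {e e' : BE g w} (h : compat e e') : compat e' e :=
  ⟨h.1.symm, fun h' => (h.2.1 h'.symm).symm, fun h' => (h.2.2 h'.symm).symm⟩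

/-- The minterm of two transversals. -/
def mint {g w : ℕ} (φ ψ : Fin g → Fin w) : Finset (BE g w) :=
  univ.image fun xy : Fin g × Fin g => ((xy.1, φ xy.1), (xy.2, ψ xy.2))

theorem mem_mint {g w : ℕ} {φ ψ : Fin g → Fin w} {e : BE g w} :
    e ∈ mint φ ψ ↔ ∃ x y, ((x, φ x), (y, ψ y)) = e := by
  simp only [mint, mem_image, mem_univ, true_and, Prod.exists]

theorem card_mint {g w : ℕ} (φ ψ : Fin g → Fin w) : (mint φ ψ).card = g * g := by
  rw [mint, card_image_of_injective, card_univ, Fintype.card_prod, Fintype.card_fin]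
  rintro ⟨x, y⟩ ⟨x', y'⟩ h
  simp only [Prod.mk.injEq] at h
  exact Prod.ext h.1.1 h.2.1

theorem mint_compat {g w : ℕ} {φ ψ : Fin g → Fin w} {e e' : BE g w} (he : e ∈ mint φ ψ)
    (he' : e' ∈ mint φ ψ) (h : e ≠ e') : compat e e' := by
  rw [mem_mint] at he he'
  obtain ⟨x, y, rfl⟩ := he
  obtain ⟨x', y', rfl⟩ := he'
  refine ⟨h, ?_, ?_⟩
  · intro hx
    simp only at hx ⊢
    rw [hx]
  · intro hy
    simp only at hy ⊢
    rw [hy]

theorem compat_card {g w : ℕ} (S : Finset (BE g w)) (hS : ∀ e ∈ S, ∀ e' ∈ S, e ≠ e' → compat e e') :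
    S.card ≤ g * g ∧ (S.card = g * g → 1 ≤ g →
      ∃ φ ψ : Fin g → Fin w, mint φ ψ ⊆ S) := by
  have hinj : Set.InjOn (fun e : BE g w => (e.1.1, e.2.1)) S := by
    intro e he e' he' h
    by_contra hne
    have hc := hS e he e' he' hne
    simp only [Prod.mk.injEq] at h
    exact hne (Prod.ext (Prod.ext h.1 (hc.2.1 h.1)) (Prod.ext h.2 (hc.2.2 h.2)))
  have hle : S.card ≤ g * g := by
    have := card_le_card_of_injOn (s := S) (t := (univ : Finset (Fin g × Fin g)))
      (fun e : BE g w => (e.1.1, e.2.1)) (fun _ _ => mem_univ _) hinj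
    simpa using this
  refine ⟨hle, fun hcard hg => ?_⟩
  have himg : S.image (fun e : BE g w => (e.1.1, e.2.1)) = univ := by
    apply eq_univ_of_card
    rw [card_image_of_injOn hinj, hcard, Fintype.card_prod, Fintype.card_fin]
  have hex : ∀ q : Fin g × Fin g, ∃ e ∈ S, (e.1.1, e.2.1) = q := by
    intro q
    have : q ∈ S.image (fun e : BE g w => (e.1.1, e.2.1)) := by rw [himg]; exact mem_univ _
    rw [mem_image] at this
    exact this
  choose f hfS hfx using hex
  set x₀ : Fin g := ⟨0, hg⟩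
  refine ⟨fun x => (f (x, x₀)).1.2, fun y => (f (x₀, y)).2.2, fun e he => ?_⟩
  rw [mem_mint] at he
  obtain ⟨x, y, rfl⟩ := he
  have h1 : (f (x, y)).1.1 = x := congrArg Prod.fst (hfx (x, y))
  have h2 : (f (x, y)).2.1 = y := congrArg Prod.snd (hfx (x, y))
  have h3 : (f (x, x₀)).1.1 = x := congrArg Prod.fst (hfx (x, x₀))
  have h4 : (f (x₀, y)).2.1 = y := congrArg Prod.snd (hfx (x₀, y))
  have h5 : (f (x, y)).1.2 = (f (x, x₀)).1.2 := by
    by_cases h : f (x, y) = f (x, x₀)
    · rw [h]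
    · exact (hS _ (hfS _) _ (hfS _) h).2.1 (by rw [h1, h3])
  have h6 : (f (x, y)).2.2 = (f (x₀, y)).2.2 := by
    by_cases h : f (x, y) = f (x₀, y)
    · rw [h]
    · exact (hS _ (hfS _) _ (hfS _) h).2.2 (by rw [h2, h4])
  have : ((x, (f (x, x₀)).1.2), (y, (f (x₀, y)).2.2)) = f (x, y) := by
    rw [← h5, ← h6]
    exact Prod.ext (Prod.ext h1.symm rfl) (Prod.ext h2.symm rfl)
  rw [this]
  exact hfS _

theorem TC_iff_mint {g w : ℕ} (z : Set (BE g w)) :
    TC z ↔ ∃ φ ψ : Fin g → Fin w, ∀ e ∈ mint φ ψ, e ∈ z := by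
  constructor
  · rintro ⟨φ, ψ, h⟩
    refine ⟨φ, ψ, fun e he => ?_⟩
    rw [mem_mint] at he
    obtain ⟨x, y, rfl⟩ := he
    exact h x y
  · rintro ⟨φ, ψ, h⟩
    exact ⟨φ, ψ, fun x y => h _ (mem_mint.2 ⟨x, y, rfl⟩)⟩

section star

variable {n t g w : ℕ} {ι : Type} (U : Finset (Fin n)) (cen : Fin n → Prop)
  (lab : Fin n → Fin t × BE g w) (c : ι → Fin n) (rep : ι → BE g w → Fin n)

/-- Adjacency of two labelled leaves. -/
def leafRel (a b : Fin n) : Prop :=
  ¬ cen a ∧ ¬ cen b ∧ (lab a).1 = (lab b).1 ∧ compat (lab a).2 (lab b).2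

/-- Adjacency of a centre and a leaf. -/
def spoke (y : ι → Set (BE g w)) (a b : Fin n) : Prop := ∃ i e, e ∈ y i ∧ a = c i ∧ b = rep i e

/-- The star host graph. -/
def starG (y : ι → Set (BE g w)) : SimpleGraph (Fin n) where
  Adj a b := a ≠ b ∧ (a ∈ U ∨ b ∈ U ∨ leafRel cen lab a b ∨ spoke c rep y a b ∨ spoke c rep y b a)
  symm := ⟨by
    rintro a b ⟨hne, h⟩
    refine ⟨hne.symm, ?_⟩
    rcases h with h | h | h | h | h
    · exact Or.inr (Or.inl h)
    · exact Or.inl h
    · exact Or.inr (Or.inr (Or.inl ⟨h.2.1, h.1, h.2.2.1.symm, h.2.2.2.symm⟩))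
    · exact Or.inr (Or.inr (Or.inr (Or.inr h)))
    · exact Or.inr (Or.inr (Or.inr (Or.inl h)))⟩
  loopless := ⟨fun a h => h.1 rfl⟩

variable {U cen lab c rep}

theorem starG_mono {y y' : ι → Set (BE g w)} (h : ∀ i, y i ⊆ y' i) :
    starG U cen lab c rep y ≤ starG U cen lab c rep y' := by
  rintro a b ⟨hne, hab⟩
  refine ⟨hne, ?_⟩
  rcases hab with h1 | h1 | h1 | ⟨i, e, he, h1⟩ | ⟨i, e, he, h1⟩
  · exact Or.inl h1
  · exact Or.inr (Or.inl h1)
  · exact Or.inr (Or.inr (Or.inl h1))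
  · exact Or.inr (Or.inr (Or.inr (Or.inl ⟨i, e, h i he, h1⟩)))
  · exact Or.inr (Or.inr (Or.inr (Or.inr ⟨i, e, h i he, h1⟩)))

/-- The hypotheses on the centres and representatives. -/
structure StarData (U : Finset (Fin n)) (cen : Fin n → Prop) (lab : Fin n → Fin t × BE g w)
    (c : ι → Fin n) (rep : ι → BE g w → Fin n) : Prop where
  cU : ∀ i, c i ∉ U
  cc : ∀ i, cen (c i)
  rU : ∀ i e, rep i e ∉ U
  rc : ∀ i e, ¬ cen (rep i e)
  rl : ∀ i e, (lab (rep i e)).2 = e
  rg : ∀ i e e', (lab (rep i e)).1 = (lab (rep i e')).1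
  inj : ∀ i i' e e', c i = c i' → (lab (rep i e)).1 = (lab (rep i' e')).1 → i = i'

theorem StarData.spoke_iff (h : StarData U cen lab c rep) {i : ι} {e : BE g w}
    (y : ι → Set (BE g w)) : spoke c rep y (c i) (rep i e) ↔ e ∈ y i := by
  constructor
  · rintro ⟨i', e', he', h1, h2⟩
    have h3 : e = e' := by
      have := h.rl i e
      rw [h2, h.rl] at this
      exact this.symm
    subst h3
    have h4 : i = i' := h.inj i i' e e h1 (by rw [h2])
    subst h4
    exact he'
  · intro he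
    exact ⟨i, e, he, rfl, rfl⟩

theorem starG_leaf (h : StarData U cen lab c rep) (R : Fin n → Fin n → Prop)
    (hR : ∀ i e, R (c i) (rep i e)) (a b : Fin n) :
    (∃ t : Prop, ∀ y : ι → Set (BE g w), (starG U cen lab c rep y).Adj a b ↔ t) ∨
    (∃ i e, (∀ y : ι → Set (BE g w), (starG U cen lab c rep y).Adj a b ↔ e ∈ y i) ∧
      (R a b ∨ R b a)) := by
  by_cases hne : a = b
  · left
    exact ⟨False, fun y => ⟨fun h => h.1 hne, False.elim⟩⟩
  by_cases hcon : a ∈ U ∨ b ∈ U ∨ leafRel cen lab a b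
  · left
    refine ⟨True, fun y => ⟨fun _ => trivial, fun _ => ⟨hne, ?_⟩⟩⟩
    rcases hcon with h1 | h1 | h1
    · exact Or.inl h1
    · exact Or.inr (Or.inl h1)
    · exact Or.inr (Or.inr (Or.inl h1))
  push Not at hcon
  by_cases h1 : ∃ i e, a = c i ∧ b = rep i e
  · obtain ⟨i, e, rfl, rfl⟩ := h1
    right
    refine ⟨i, e, fun y => ?_, Or.inl (hR i e)⟩
    constructor
    · rintro ⟨-, hh | hh | hh | hh | ⟨i', e', -, -, h2⟩⟩
      · exact (hcon.1 hh).elim
      · exact (hcon.2.1 hh).elim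
      · exact (hcon.2.2 hh).elim
      · exact (h.spoke_iff y).1 hh
      · exact (h.rc i' e' (h2 ▸ h.cc i)).elim
    · intro he
      exact ⟨hne, Or.inr (Or.inr (Or.inr (Or.inl ⟨i, e, he, rfl, rfl⟩)))⟩
  by_cases h2 : ∃ i e, b = c i ∧ a = rep i e
  · obtain ⟨i, e, rfl, rfl⟩ := h2
    right
    refine ⟨i, e, fun y => ?_, Or.inr (hR i e)⟩
    constructor
    · rintro ⟨-, hh | hh | hh | ⟨i', e', -, -, h2⟩ | hh⟩
      · exact (hcon.1 hh).elim
      · exact (hcon.2.1 hh).elim
      · exact (hcon.2.2 hh).elim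
      · exact (h.rc i' e' (h2 ▸ h.cc i)).elim
      · exact (h.spoke_iff y).1 hh
    · intro he
      exact ⟨hne, Or.inr (Or.inr (Or.inr (Or.inr ⟨i, e, he, rfl, rfl⟩)))⟩
  left
  refine ⟨False, fun y => ⟨?_, False.elim⟩⟩
  rintro ⟨-, hh | hh | hh | ⟨i', e', -, hh⟩ | ⟨i', e', -, hh⟩⟩
  · exact hcon.1 hh
  · exact hcon.2.1 hh
  · exact hcon.2.2 hh
  · exact h1 ⟨i', e', hh⟩
  · exact h2 ⟨i', e', hh⟩

theorem starG_clique (h : StarData U cen lab c rep) (hg : 1 ≤ g) (y : ι → Set (BE g w)) :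
    (∃ s : Finset (Fin n), (starG U cen lab c rep y).IsClique (s : Set (Fin n)) ∧
      U.card + 1 + g * g ≤ s.card) ↔ ∃ i, TC (y i) := by
  constructor
  · rintro ⟨s, hs, hcard⟩
    have hadj : ∀ a ∈ s, ∀ b ∈ s, a ≠ b → (starG U cen lab c rep y).Adj a b :=
      fun a ha b hb hab => hs ha hb hab
    set sC := (s \ U).filter cen with hsC
    set sL := (s \ U).filter fun a => ¬ cen a with hsL
    have hsplit : s.card ≤ U.card + (sC.card + sL.card) := by
      have h1 : (s \ U).card = sC.card + sL.card := (card_filter_add_card_filter_not cen).symm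
      have h2 : s.card ≤ U.card + (s \ U).card := by
        have := card_le_card (show s ⊆ U ∪ (s \ U) from fun a ha => by
          by_cases haU : a ∈ U <;> simp [haU, ha])
        exact this.trans (card_union_le _ _)
      omega
    have memC : ∀ a ∈ sC, a ∈ s ∧ a ∉ U ∧ cen a := by
      intro a ha
      rw [hsC, mem_filter, mem_sdiff] at ha
      exact ⟨ha.1.1, ha.1.2, ha.2⟩
    have memL : ∀ a ∈ sL, a ∈ s ∧ a ∉ U ∧ ¬ cen a := by
      intro a ha
      rw [hsL, mem_filter, mem_sdiff] at ha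
      exact ⟨ha.1.1, ha.1.2, ha.2⟩
    have hC1 : sC.card ≤ 1 := by
      rw [card_le_one]
      intro a ha b hb
      by_contra hab
      obtain ⟨has, haU, hac⟩ := memC a ha
      obtain ⟨hbs, hbU, hbc⟩ := memC b hb
      rcases (hadj a has b hbs hab).2 with hh | hh | hh | ⟨i, e, -, -, hh⟩ | ⟨i, e, -, -, hh⟩
      · exact haU hh
      · exact hbU hh
      · exact hh.1 hac
      · exact h.rc i e (hh ▸ hbc)
      · exact h.rc i e (hh ▸ hac)
    have hLL : ∀ a ∈ sL, ∀ b ∈ sL, a ≠ b → leafRel cen lab a b := by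
      intro a ha b hb hab
      obtain ⟨has, haU, hac⟩ := memL a ha
      obtain ⟨hbs, hbU, hbc⟩ := memL b hb
      rcases (hadj a has b hbs hab).2 with hh | hh | hh | ⟨i, e, -, hh, -⟩ | ⟨i, e, -, hh, -⟩
      · exact (haU hh).elim
      · exact (hbU hh).elim
      · exact hh
      · exact (hac (hh ▸ h.cc i)).elim
      · exact (hbc (hh ▸ h.cc i)).elim
    have hinj : Set.InjOn (fun a => (lab a).2) sL := by
      intro a ha b hb hab
      by_contra hne
      exact (hLL a ha b hb hne).2.2.2.1 hab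
    have hS := compat_card (sL.image fun a => (lab a).2) (by
      intro e he e' he' hee
      rw [mem_image] at he he'
      obtain ⟨a, ha, rfl⟩ := he
      obtain ⟨b, hb, rfl⟩ := he'
      exact (hLL a ha b hb (fun hh => hee (by rw [hh]))).2.2.2)
    rw [card_image_of_injOn hinj] at hS
    have hLc : sL.card = g * g := by have := hS.1; omega
    have hCc : sC.card = 1 := by omega
    obtain ⟨a, haC⟩ := card_eq_one.1 hCc
    obtain ⟨has, haU, hac⟩ := memC a (by rw [haC]; exact mem_singleton_self a)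
    obtain ⟨φ, ψ, hφ⟩ := hS.2 hLc hg
    -- every leaf is a representative for the centre `a`
    have hrep : ∀ x ∈ sL, ∃ i, a = c i ∧ x = rep i (lab x).2 ∧ (lab x).2 ∈ y i := by
      intro x hx
      obtain ⟨hxs, hxU, hxc⟩ := memL x hx
      have hax : a ≠ x := fun hh => hxc (hh ▸ hac)
      rcases (hadj a has x hxs hax).2 with hh | hh | hh | ⟨i, e, he, h1, h2⟩ | ⟨i, e, -, hh, -⟩
      · exact (haU hh).elim
      · exact (hxU hh).elim
      · exact (hh.1 hac).elim
      · have h3 : (lab x).2 = e := by rw [h2, h.rl]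
        exact ⟨i, h1, by rw [h3]; exact h2, by rw [h3]; exact he⟩
      · exact (hxc (hh ▸ h.cc i)).elim
    have hpos : 0 < sL.card := by
      rw [hLc]
      positivity
    obtain ⟨x₀, hx₀⟩ := card_pos.1 hpos
    obtain ⟨i₀, ha₀, hx₀r, -⟩ := hrep x₀ hx₀
    refine ⟨i₀, (TC_iff_mint _).2 ⟨φ, ψ, fun e he => ?_⟩⟩
    have := hφ he
    rw [mem_image] at this
    obtain ⟨x, hx, rfl⟩ := this
    obtain ⟨i, ha, hxr, hxy⟩ := hrep x hx
    have hgrp : (lab x).1 = (lab x₀).1 := by
      by_cases hxx : x = x₀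
      · rw [hxx]
      · exact (hLL x hx x₀ hx₀ hxx).2.2.1
    have : i = i₀ := by
      apply h.inj i i₀ (lab x).2 (lab x₀).2 (ha.symm.trans ha₀)
      rw [← hxr, ← hx₀r]
      exact hgrp
    rw [← this]
    exact hxy
  · rintro ⟨i, hi⟩
    obtain ⟨φ, ψ, hφ⟩ := (TC_iff_mint _).1 hi
    have hrinj : Function.Injective (rep i) := by
      intro e e' hee
      have := h.rl i e
      rw [hee, h.rl] at this
      exact this.symm
    have hd1 : Disjoint ({c i} : Finset (Fin n)) ((mint φ ψ).image (rep i)) := by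
      rw [disjoint_singleton_left, mem_image]
      rintro ⟨e, -, he⟩
      exact h.rc i e (he ▸ h.cc i)
    have hd2 : Disjoint U ({c i} ∪ (mint φ ψ).image (rep i)) := by
      rw [disjoint_union_right]
      constructor
      · rw [disjoint_singleton_right]
        exact h.cU i
      · rw [disjoint_right]
        intro a ha
        rw [mem_image] at ha
        obtain ⟨e, -, rfl⟩ := ha
        exact h.rU i e
    refine ⟨U ∪ ({c i} ∪ (mint φ ψ).image (rep i)), ?_, ?_⟩
    · intro a ha b hb hab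
      rw [mem_coe, mem_union, mem_union, mem_singleton, mem_image] at ha hb
      refine ⟨hab, ?_⟩
      rcases ha with ha | rfl | ⟨e, he, rfl⟩
      · exact Or.inl ha
      · rcases hb with hb | rfl | ⟨e', he', rfl⟩
        · exact Or.inr (Or.inl hb)
        · exact (hab rfl).elim
        · exact Or.inr (Or.inr (Or.inr (Or.inl ⟨i, e', hφ e' he', rfl, rfl⟩)))
      · rcases hb with hb | rfl | ⟨e', he', rfl⟩
        · exact Or.inr (Or.inl hb)
        · exact Or.inr (Or.inr (Or.inr (Or.inr ⟨i, e, hφ e he, rfl, rfl⟩)))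
        · refine Or.inr (Or.inr (Or.inl ⟨h.rc i e, h.rc i e', h.rg i e e', ?_⟩))
          rw [h.rl, h.rl]
          exact mint_compat he he' (fun hh => hab (by rw [hh]))
    · rw [card_union_of_disjoint hd2, card_union_of_disjoint hd1, card_singleton,
        card_image_of_injective _ hrinj, card_mint]
      omega

end star

end Pool.Agent.T9h16
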