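import Pool.Agent.T9h16.Chain

set_option autoImplicit false

namespace Pool.Agent.T9h16

open Finset
open scoped Classical

/-- The counting theorem in terms of the total number of `neg` gates. -/
theorem chain_count_total {Λ ι : Type} {r : ℕ} [Fintype ι] (hr : 2 ≤ r) (C : Circ Λ)
    (hs : C.size ≤ 2 ^ r) (M : Emb Λ ι r)
    (val : (ι → Set (BE (GG r) (2 * r))) → Fin C.size → Prop)
    (hval : ∀ y, C.Run (M.X y) (val y)) (hout : ∀ y, val y C.out ↔ ∃ i, TC (y i)) :
    Fintype.card ι + 1 ≤ 2 ^ (univ.filter fun i => C.kind i = .neg).card := by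
  set N : Finset (Fin C.size) := univ.filter fun i => C.kind i = .neg with hN
  set lev : Fin C.size → ℕ := fun i => (N.filter fun j => j ≤ i).card with hlevdef
  have hmono : ∀ i j : Fin C.size, j < i → lev j ≤ lev i := by
    intro i j hji
    apply card_le_card
    intro k hk
    rw [mem_filter] at hk ⊢
    exact ⟨hk.1, hk.2.trans hji.le⟩
  have hstrict : ∀ i j : Fin C.size, C.kind i = .neg → j < i → lev j < lev i := by
    intro i j hi hji
    apply card_lt_card
    refine ⟨?_, fun hcon => ?_⟩
    · intro k hk
      rw [mem_filter] at hk ⊢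
      exact ⟨hk.1, hk.2.trans hji.le⟩
    · have : i ∈ N.filter fun k => k ≤ j := by
        apply hcon
        rw [mem_filter, hN, mem_filter]
        exact ⟨⟨mem_univ _, hi⟩, le_rfl⟩
      rw [mem_filter] at this
      exact absurd this.2 (not_le.2 hji)
  have h := chain_count hr C hs M val hval hout lev
    (fun i j => ⟨fun hj => hmono i j ((C.acyclic i j).1 hj),
      fun _ hj => hmono i j ((C.acyclic i j).2 hj)⟩)
    (fun i j hi hj => hstrict i j hi ((C.acyclic i j).1 hj)) N.card
    (fun i _ => card_le_card (filter_subset _ _))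
  refine h.trans (le_of_eq ?_)
  have hone : ∀ ℓ, (univ.filter fun i => C.kind i = .neg ∧ lev i = ℓ).card ≤ 1 := by
    intro ℓ
    rw [card_le_one]
    intro i hi j hj
    simp only [mem_filter, mem_univ, true_and] at hi hj
    rcases lt_trichotomy i j with hij | hij | hij
    · have := hstrict j i hj.1 hij
      omega
    · exact hij
    · have := hstrict i j hi.1 hij
      omega
  have hpow : ∀ ℓ, (univ.filter fun i => C.kind i = .neg ∧ lev i = ℓ).card + 1 =
      2 ^ (univ.filter fun i => C.kind i = .neg ∧ lev i = ℓ).card := by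
    intro ℓ
    have := hone ℓ
    interval_cases (univ.filter fun i => C.kind i = .neg ∧ lev i = ℓ).card <;> rfl
  rw [prod_congr rfl fun ℓ _ => hpow ℓ, prod_pow_eq_pow_sum]
  congr 1
  have hmaps : ∀ i ∈ N, lev i ∈ range (N.card + 1) := by
    intro i _
    rw [mem_range]
    exact Nat.lt_succ_of_le (card_le_card (filter_subset _ _))
  have hsum := card_eq_sum_card_fiberwise hmaps
  have heq : ∑ ℓ ∈ range (N.card + 1), (univ.filter fun i => C.kind i = .neg ∧ lev i = ℓ).card =
      ∑ ℓ ∈ range (N.card + 1), (N.filter fun i => lev i = ℓ).card := by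
    apply sum_congr rfl
    intro ℓ _
    rw [hN, filter_filter]
  exact heq.trans hsum.symm

end Pool.Agent.T9h16
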