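import Pool.Agent.T9h16.Match
import Pool.Agent.T9h16.Coloring

set_option autoImplicit false

namespace Pool.Agent.T9h16

open Finset
open scoped Classical

theorem exists_matching {n : ℕ} (L : Finset (Fin n × Fin n)) (D : ℕ) (hD1 : 1 ≤ D)
    (hD : ∀ v, (L.filter fun p => p.1 = v ∨ p.2 = v).card ≤ D) (m : ℕ)
    (hm : 2 * m * D ≤ L.card) :
    ∃ f : Fin m → Fin n × Fin n, (∀ i, f i ∈ L) ∧
      (∀ i j, i ≠ j → (f i).1 ≠ (f j).1 ∧ (f i).1 ≠ (f j).2 ∧ (f i).2 ≠ (f j).2) := by
  induction m with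
  | zero => exact ⟨fun i => i.elim0, fun i => i.elim0, fun i => i.elim0⟩
  | succ m ih =>
    obtain ⟨f, hfL, hf⟩ := ih (le_trans (Nat.mul_le_mul_right _ (by omega)) hm)
    set T : Finset (Fin n × Fin n) := univ.biUnion fun i : Fin m =>
      (L.filter fun p => p.1 = (f i).1 ∨ p.2 = (f i).1) ∪
        (L.filter fun p => p.1 = (f i).2 ∨ p.2 = (f i).2) with hT
    have hTc : T.card ≤ m * (2 * D) := by
      calc T.card ≤ ∑ i : Fin m, ((L.filter fun p => p.1 = (f i).1 ∨ p.2 = (f i).1) ∪
              (L.filter fun p => p.1 = (f i).2 ∨ p.2 = (f i).2)).card := card_biUnion_le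
        _ ≤ ∑ _i : Fin m, 2 * D := by
            apply sum_le_sum
            intro i _
            refine (card_union_le _ _).trans ?_
            have h1 := hD (f i).1
            have h2 := hD (f i).2
            omega
        _ = m * (2 * D) := by rw [sum_const, card_univ, Fintype.card_fin, smul_eq_mul]
    have hlt : T.card < L.card := by
      have h1 : m * (2 * D) < 2 * (m + 1) * D := by
        have : 2 * (m + 1) * D = m * (2 * D) + 2 * D := by ring
        omega
      omega
    obtain ⟨p, hpL, hpT⟩ := exists_mem_notMem_of_card_lt_card hlt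
    have hp : ∀ i : Fin m, p.1 ≠ (f i).1 ∧ p.2 ≠ (f i).1 ∧ p.1 ≠ (f i).2 ∧ p.2 ≠ (f i).2 := by
      intro i
      rw [hT, mem_biUnion] at hpT
      have h1 : ¬ (p.1 = (f i).1 ∨ p.2 = (f i).1) := fun h =>
        hpT ⟨i, mem_univ _, mem_union_left _ (mem_filter.2 ⟨hpL, h⟩)⟩
      have h2 : ¬ (p.1 = (f i).2 ∨ p.2 = (f i).2) := fun h =>
        hpT ⟨i, mem_univ _, mem_union_right _ (mem_filter.2 ⟨hpL, h⟩)⟩
      push Not at h1 h2
      exact ⟨h1.1, h1.2, h2.1, h2.2⟩
    refine ⟨Fin.cons p f, ?_, ?_⟩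
    · intro i
      refine Fin.cases ?_ (fun j => ?_) i
      · exact hpL
      · exact hfL j
    · intro i j
      refine Fin.cases ?_ (fun i => ?_) i
      · refine Fin.cases ?_ (fun j => ?_) j
        · intro h
          exact (h rfl).elim
        · intro _
          exact ⟨(hp j).1, (hp j).2.2.1, (hp j).2.2.2⟩
      · refine Fin.cases ?_ (fun j => ?_) j
        · intro _
          exact ⟨(hp i).1.symm, (hp i).2.1.symm, (hp i).2.2.2.symm⟩
        · intro h
          exact hf i j (fun h' => h (by rw [h']))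

theorem light_set {n k : ℕ} (hn : 4 * k ≤ n) (P : Finset {p : Fin n × Fin n // p.1 < p.2}) :
    ∃ U : Finset (Fin n), U.card = k ∧
      P.card ≤ 2 * (P.filter fun p => p.1.1 ∉ U ∧ p.1.2 ∉ U).card := by
  rcases Nat.eq_zero_or_pos k with hk | hk
  · subst hk
    refine ⟨∅, card_empty, ?_⟩
    rw [filter_true_of_mem (fun p _ => ⟨notMem_empty _, notMem_empty _⟩)]
    omega
  set I : ℕ → Finset (Fin n) := fun j => univ.filter fun v : Fin n => v.val / k = j with hI
  have hIk : ∀ j ∈ range 4, k ≤ (I j).card := by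
    intro j hj
    rw [mem_range] at hj
    have hjk : ∀ i : Fin k, j * k + i.val < n := by
      intro i
      have h1 : (j + 1) * k ≤ 4 * k := Nat.mul_le_mul_right _ (by omega)
      have h2 : (j + 1) * k = j * k + k := by ring
      have := i.isLt
      omega
    have := card_le_card_of_injOn (s := (univ : Finset (Fin k))) (t := I j)
      (fun i => ⟨j * k + i.val, hjk i⟩) (by
        intro i _
        simp only [hI, coe_filter, mem_univ, true_and, Set.mem_ofPred_eq]
        rw [Nat.add_comm, Nat.add_mul_div_right _ _ hk, Nat.div_eq_of_lt i.isLt, zero_add]) (by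
        intro i _ i' _ h
        simp only [Fin.mk.injEq] at h
        apply Fin.ext
        omega)
    simpa using this
  have hsum : ∑ j ∈ range 4, ((P.filter fun p => p.1.1.val / k = j).card +
      (P.filter fun p => p.1.2.val / k = j).card) ≤ 2 * P.card := by
    rw [sum_add_distrib, sum_card_fiberwise_eq_card_filter, sum_card_fiberwise_eq_card_filter]
    have h1 := card_filter_le P fun p => p.1.1.val / k ∈ range 4
    have h2 := card_filter_le P fun p => p.1.2.val / k ∈ range 4
    omega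
  have hex : ∃ j ∈ range 4, 2 * ((P.filter fun p => p.1.1.val / k = j).card +
      (P.filter fun p => p.1.2.val / k = j).card) ≤ P.card := by
    apply exists_le_of_sum_le (by simp)
    rw [← mul_sum, sum_const, card_range, smul_eq_mul]
    omega
  obtain ⟨j, hj, hjP⟩ := hex
  obtain ⟨U, hUI, hUk⟩ := exists_subset_card_eq (hIk j hj)
  refine ⟨U, hUk, ?_⟩
  have hcov : P ⊆ (P.filter fun p => p.1.1 ∉ U ∧ p.1.2 ∉ U) ∪
      ((P.filter fun p => p.1.1.val / k = j) ∪ (P.filter fun p => p.1.2.val / k = j)) := by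
    intro p hp
    rw [mem_union, mem_union, mem_filter, mem_filter, mem_filter]
    by_cases h1 : p.1.1 ∈ U
    · right; left
      have := hUI h1
      simp only [hI, mem_filter, mem_univ, true_and] at this
      exact ⟨hp, this⟩
    · by_cases h2 : p.1.2 ∈ U
      · right; right
        have := hUI h2
        simp only [hI, mem_filter, mem_univ, true_and] at this
        exact ⟨hp, this⟩
      · left
        exact ⟨hp, h1, h2⟩
  have h1 := card_le_card hcov
  have h2 := card_union_le (P.filter fun p => p.1.1 ∉ U ∧ p.1.2 ∉ U)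
    ((P.filter fun p => p.1.1.val / k = j) ∪ (P.filter fun p => p.1.2.val / k = j))
  have h3 := card_union_le (P.filter fun p => p.1.1.val / k = j)
    (P.filter fun p => p.1.2.val / k = j)
  omega

/-- The number of pairs at a vertex is at most the number of its neighbours. -/
theorem touch_le {n : ℕ} (P : Finset {p : Fin n × Fin n // p.1 < p.2}) (v : Fin n) :
    (P.filter fun p => p.1.1 = v ∨ p.1.2 = v).card ≤
      (univ.filter fun x : Fin n => ∃ p ∈ P, p.1 = (v, x) ∨ p.1 = (x, v)).card := by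
  apply card_le_card_of_injOn (fun p => if p.1.1 = v then p.1.2 else p.1.1)
  · intro p hp
    rw [mem_coe, mem_filter] at hp
    rw [mem_coe, mem_filter]
    refine ⟨mem_univ _, p, hp.1, ?_⟩
    by_cases h : p.1.1 = v
    · left
      change p.1 = (v, if p.1.1 = v then p.1.2 else p.1.1)
      rw [if_pos h]
      exact Prod.ext h rfl
    · right
      change p.1 = ((if p.1.1 = v then p.1.2 else p.1.1), v)
      rw [if_neg h]
      exact Prod.ext rfl (hp.2.resolve_left h)
  · intro p hp q hq hpq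
    rw [mem_coe, mem_filter] at hp hq
    apply Subtype.ext
    simp only at hpq
    by_cases h : p.1.1 = v
    · rw [if_pos h] at hpq
      by_cases h' : q.1.1 = v
      · rw [if_pos h'] at hpq
        exact Prod.ext (h.trans h'.symm) hpq
      · rw [if_neg h'] at hpq
        exfalso
        have h1 := hq.2.resolve_left h'
        have h2 := p.2
        have h3 := q.2
        rw [h, hpq] at h2
        rw [h1] at h3
        exact lt_asymm h2 h3
    · rw [if_neg h] at hpq
      have hp2 := hp.2.resolve_left h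
      by_cases h' : q.1.1 = v
      · rw [if_pos h'] at hpq
        exfalso
        have h2 := p.2
        have h3 := q.2
        rw [hp2, hpq] at h2
        rw [h'] at h3
        exact lt_asymm h2 h3
      · rw [if_neg h'] at hpq
        exact Prod.ext hpq (hp2.trans (hq.2.resolve_left h').symm)

/-- Case of many pairs at vertices of large degree. -/
theorem unneg_star {n k g w : ℕ} (P : Finset {p : Fin n × Fin n // p.1 < p.2})
    (hg : 1 ≤ g) (hk : g * g + 1 ≤ k) (U₀ : Finset (Fin n)) (hU₀ : U₀.card = k)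
    (hP : ∀ p ∈ P, p.1.1 ∉ U₀ ∧ p.1.2 ∉ U₀) (t ℓ : ℕ) (ht : 1 ≤ t) (hw : 1 ≤ w)
    (hℓ1 : 1 ≤ ℓ) (hℓ : 4 * (g * w) ^ 2 ≤ 2 ^ ℓ) (C : Finset (Fin n))
    (hC : ∀ v ∈ C, 2 * (t * (g * w) ^ 2) * ℓ ≤
      (univ.filter fun x : Fin n => ∃ p ∈ P, p.1 = (v, x) ∨ p.1 = (x, v)).card) :
    ∃ (ι : Type) (_ : Fintype ι), C.card * t ≤ 4 * Fintype.card ι ∧
      ∃ G : (ι → Set (BE g w)) → SimpleGraph (Fin n),
        (∀ y y', (∀ i, y i ⊆ y' i) → G y ≤ G y') ∧
        (∀ a b : Fin n, (∃ t : Prop, ∀ y, (G y).Adj a b ↔ t) ∨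
          ((∃ i e, ∀ y, (G y).Adj a b ↔ e ∈ y i) ∧ (∃ p ∈ P, p.1 = (a, b) ∨ p.1 = (b, a)))) ∧
        (∀ y, (∃ c : Finset (Fin n), (G y).IsClique (c : Set (Fin n)) ∧ k ≤ c.card) ↔
          ∃ i, TC (y i)) := by
  have hcardB : Fintype.card (BE g w) = (g * w) ^ 2 := by
    simp only [Fintype.card_prod, Fintype.card_fin]
    ring
  have hb : 1 ≤ (g * w) ^ 2 := Nat.one_le_pow _ _ (Nat.mul_pos hg hw)
  have hBpos : 0 < Fintype.card (BE g w) := by rw [hcardB]; exact hb
  have hBne : Nonempty (BE g w) := Fintype.card_pos_iff.1 hBpos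
  obtain ⟨e₀⟩ := hBne
  obtain ⟨χ, good, hχ, hgood⟩ := exists_coloring (V := Fin n) (B := BE g w) t ℓ C
    (fun v => univ.filter fun x : Fin n => ∃ p ∈ P, p.1 = (v, x) ∨ p.1 = (x, v))
    (by rw [hcardB]; exact hℓ) (by rw [hcardB]; exact hC) ⟨(⟨0, ht⟩, e₀)⟩
  have hgprop : ∀ q : {q // q ∈ good}, q.1.1 ∈ C ∧ (χ q.1.1).1 = true ∧
      ∀ e, ∃ x, (∃ p ∈ P, p.1 = (q.1.1, x) ∨ p.1 = (x, q.1.1)) ∧ χ x = (false, (q.1.2, e)) := by
    rintro ⟨q, hq⟩
    obtain ⟨h1, h2, h3⟩ := hgood q hq
    refine ⟨h1, h2, fun e => ?_⟩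
    obtain ⟨x, hx, hx'⟩ := h3 e
    rw [mem_filter] at hx
    exact ⟨x, hx.2, hx'⟩
  choose rep hrepP hrepχ using fun q : {q // q ∈ good} => (hgprop q).2.2
  obtain ⟨U, hUU, hUc⟩ := exists_subset_card_eq (show k - 1 - g * g ≤ U₀.card by omega)
  have hcU : ∀ v ∈ C, v ∉ U := by
    intro v hv hvU
    have h1 := hC v hv
    have h2 : 1 ≤ 2 * (t * (g * w) ^ 2) * ℓ := by
      have : 1 ≤ t * (g * w) ^ 2 := Nat.mul_pos ht hb
      exact Nat.mul_pos (by omega) hℓ1
    obtain ⟨x, hx⟩ := card_pos.1 (lt_of_lt_of_le h2 h1)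
    rw [mem_filter] at hx
    obtain ⟨p, hp, h3 | h3⟩ := hx.2
    · apply (hP p hp).1
      rw [h3]
      exact hUU hvU
    · apply (hP p hp).2
      rw [h3]
      exact hUU hvU
  have hdata : StarData (n := n) (t := t) (g := g) (w := w) (ι := {q // q ∈ good}) U
      (fun x => (χ x).1 = true) (fun x => (χ x).2) (fun q => q.1.1) rep := by
    refine ⟨fun q => hcU _ (hgprop q).1, fun q => (hgprop q).2.1, ?_, ?_, ?_, ?_, ?_⟩
    · intro q e hU
      obtain ⟨p, hp, h3 | h3⟩ := hrepP q e
      · apply (hP p hp).2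
        rw [h3]
        exact hUU hU
      · apply (hP p hp).1
        rw [h3]
        exact hUU hU
    · intro q e
      rw [hrepχ]
      simp
    · intro q e
      rw [hrepχ]
    · intro q e e'
      rw [hrepχ, hrepχ]
    · intro q q' e e' h1 h2
      rw [hrepχ, hrepχ] at h2
      exact Subtype.ext (Prod.ext h1 h2)
  refine ⟨{q // q ∈ good}, inferInstance, ?_, starG U (fun x => (χ x).1 = true)
    (fun x => (χ x).2) (fun q => q.1.1) rep, fun y y' => starG_mono, ?_, ?_⟩
  · rw [Fintype.card_coe]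
    exact hχ
  · intro a b
    rcases starG_leaf hdata (fun a b => ∃ p ∈ P, p.1 = (a, b) ∨ p.1 = (b, a))
      (fun q e => hrepP q e) a b with h | ⟨i, e, h, h'⟩
    · exact Or.inl h
    · right
      refine ⟨⟨i, e, h⟩, ?_⟩
      rcases h' with h' | ⟨p, hp, h'⟩
      · exact h'
      · exact ⟨p, hp, h'.symm⟩
  · intro y
    rw [← starG_clique hdata hg y, hUc]
    have : k - 1 - g * g + 1 + g * g = k := by omega
    rw [this]

/-- Case of many disjoint pairs. -/
theorem unneg_match {n k g w : ℕ} (P : Finset {p : Fin n × Fin n // p.1 < p.2})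
    (hg : 1 ≤ g) (hk : 2 * (g * g) ≤ k) (U₀ : Finset (Fin n)) (hU₀ : U₀.card = k)
    (hP : ∀ p ∈ P, p.1.1 ∉ U₀ ∧ p.1.2 ∉ U₀) (M D : ℕ) (hD1 : 1 ≤ D)
    (hD : ∀ v, (P.filter fun p => p.1.1 = v ∨ p.1.2 = v).card ≤ D)
    (hM : 2 * (M * (g * w) ^ 2) * D ≤ P.card) :
    ∃ G : (Fin M → Set (BE g w)) → SimpleGraph (Fin n),
        (∀ y y', (∀ i, y i ⊆ y' i) → G y ≤ G y') ∧
        (∀ a b : Fin n, (∃ t : Prop, ∀ y, (G y).Adj a b ↔ t) ∨
          ((∃ i e, ∀ y, (G y).Adj a b ↔ e ∈ y i) ∧ (∃ p ∈ P, p.1 = (a, b) ∨ p.1 = (b, a)))) ∧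
        (∀ y, (∃ c : Finset (Fin n), (G y).IsClique (c : Set (Fin n)) ∧ k ≤ c.card) ↔
          ∃ i, TC (y i)) := by
  have hcardJ : Fintype.card (Fin M × BE g w) = M * (g * w) ^ 2 := by
    simp only [Fintype.card_prod, Fintype.card_fin]
    ring
  set L : Finset (Fin n × Fin n) := P.image Subtype.val with hL
  have hLc : L.card = P.card := card_image_of_injective _ Subtype.val_injective
  have hLD : ∀ v, (L.filter fun p => p.1 = v ∨ p.2 = v).card ≤ D := by
    intro v
    refine le_trans ?_ (hD v)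
    rw [hL, filter_image]
    exact card_image_le
  obtain ⟨f, hfL, hf⟩ := exists_matching L D hD1 hLD (M * (g * w) ^ 2) (by rw [hLc]; exact hM)
  have hfP : ∀ i, ∃ p ∈ P, p.1 = f i := by
    intro i
    have := hfL i
    rw [hL, mem_image] at this
    exact this
  set σ : Fin M × BE g w ≃ Fin (M * (g * w) ^ 2) := Fintype.equivFinOfCardEq hcardJ with hσ
  set F : Bool → Fin M → BE g w → Fin n := fun β i e =>
    if β = true then (f (σ (i, e))).2 else (f (σ (i, e))).1 with hF
  have hFt : ∀ i e, F true i e = (f (σ (i, e))).2 := fun i e => by simp [hF]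
  have hFf : ∀ i e, F false i e = (f (σ (i, e))).1 := fun i e => by simp [hF]
  obtain ⟨U, hUU, hUc⟩ := exists_subset_card_eq (show k - 2 * (g * g) ≤ U₀.card by omega)
  have hne : ∀ i, (f i).1 ≠ (f i).2 := by
    intro i
    obtain ⟨p, hp, h⟩ := hfP i
    rw [← h]
    exact ne_of_lt p.2
  have hdata : MatchData U F := by
    constructor
    · intro β i e hU
      obtain ⟨p, hp, h⟩ := hfP (σ (i, e))
      cases β
      · rw [hFf, ← h] at hU
        exact (hP p hp).1 (hUU hU)
      · rw [hFt, ← h] at hU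
        exact (hP p hp).2 (hUU hU)
    · intro β β' i i' e e' h
      by_cases hii : σ (i, e) = σ (i', e')
      · have h1 := σ.injective hii
        simp only [Prod.mk.injEq] at h1
        obtain ⟨rfl, rfl⟩ := h1
        refine ⟨?_, rfl, rfl⟩
        cases β <;> cases β'
        · rfl
        · rw [hFt, hFf] at h
          exact (hne _ h).elim
        · rw [hFt, hFf] at h
          exact (hne _ h.symm).elim
        · rfl
      · exfalso
        have h1 := hf _ _ hii
        have h2 := hf _ _ (Ne.symm hii)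
        cases β <;> cases β'
        · rw [hFf, hFf] at h
          exact h1.1 h
        · rw [hFf, hFt] at h
          exact h1.2.1 h
        · rw [hFt, hFf] at h
          exact h2.2.1 h.symm
        · rw [hFt, hFt] at h
          exact h1.2.2 h
  refine ⟨matchG U F, fun y y' => matchG_mono, ?_, ?_⟩
  · intro a b
    rcases matchG_leaf hdata (fun a b => ∃ p ∈ P, p.1 = (a, b) ∨ p.1 = (b, a))
      (fun i e => by
        obtain ⟨p, hp, h⟩ := hfP (σ (i, e))
        exact ⟨p, hp, Or.inl (by rw [h, hFf, hFt])⟩) a b with h | ⟨i, e, h, h'⟩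
    · exact Or.inl h
    · right
      refine ⟨⟨i, e, h⟩, ?_⟩
      rcases h' with h' | ⟨p, hp, h'⟩
      · exact h'
      · exact ⟨p, hp, h'.symm⟩
  · intro y
    rw [← matchG_clique hdata hg y, hUc]
    have : k - 2 * (g * g) + 2 * (g * g) = k := by omega
    rw [this]

end Pool.Agent.T9h16
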