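import Pool.Agent.T9h16.Unneg

set_option autoImplicit false

namespace Pool.Agent.T9h16

open Finset
open scoped Classical

/-- Disjoint copies of the block function on the variables of an arbitrary large set `P'`, none of
which touches the set `U₀` of `k` vertices. -/
theorem unneg_core (n k r g w ℓ M : ℕ) (P' : Finset {p : Fin n × Fin n // p.1 < p.2})
    (hg : 1 ≤ g) (hw : 1 ≤ w) (hk : 2 * (g * g) ≤ k) (hnr : n ≤ 2 ^ r)
    (hℓ1 : 1 ≤ ℓ) (hℓ : 4 * (g * w) ^ 2 ≤ 2 ^ ℓ)
    (U₀ : Finset (Fin n)) (hU₀ : U₀.card = k) (hP'U : ∀ p ∈ P', p.1.1 ∉ U₀ ∧ p.1.2 ∉ U₀)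
    (hP : 32 * (r + 1) * ((g * w) ^ 2) ^ 2 * ℓ * M ≤ P'.card) :
    ∃ (ι : Type) (_ : Fintype ι), M ≤ Fintype.card ι ∧
      ∃ G : (ι → Set (BE g w)) → SimpleGraph (Fin n),
        (∀ y y', (∀ i, y i ⊆ y' i) → G y ≤ G y') ∧
        (∀ a b : Fin n, (∃ t : Prop, ∀ y, (G y).Adj a b ↔ t) ∨
          ((∃ i e, ∀ y, (G y).Adj a b ↔ e ∈ y i) ∧ (∃ p ∈ P', p.1 = (a, b) ∨ p.1 = (b, a)))) ∧
        (∀ y, (∃ c : Finset (Fin n), (G y).IsClique (c : Set (Fin n)) ∧ k ≤ c.card) ↔
          ∃ i, TC (y i)) := by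
  have hgg : 1 ≤ g * g := Nat.mul_pos hg hg
  set b : ℕ := (g * w) ^ 2 with hb
  have hb1 : 1 ≤ b := Nat.one_le_pow _ _ (Nat.mul_pos hg hw)
  set D : ℕ := 2 * b * ℓ with hD
  have hD1 : 1 ≤ D := Nat.mul_pos (by omega) hℓ1
  have hbig : 64 * (r + 1) * b ^ 2 * ℓ * M ≤ 2 * P'.card := by
    have : 64 * (r + 1) * b ^ 2 * ℓ * M = 2 * (32 * (r + 1) * b ^ 2 * ℓ * M) := by ring
    rw [this]
    exact Nat.mul_le_mul_left _ hP
  set N : Fin n → Finset (Fin n) := fun v =>
    univ.filter fun x : Fin n => ∃ p ∈ P', p.1 = (v, x) ∨ p.1 = (x, v) with hN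
  have htouch : ∀ v, (P'.filter fun p => p.1.1 = v ∨ p.1.2 = v).card ≤ (N v).card :=
    fun v => touch_le P' v
  have hNn : ∀ v, (N v).card ≤ n := fun v => by
    have := card_le_univ (N v)
    rwa [Fintype.card_fin] at this
  set hi : Finset (Fin n) := univ.filter fun v => D ≤ (N v).card with hhi
  set S := ∑ v ∈ hi, (N v).card with hS
  by_cases hA : P'.card ≤ 2 * S
  · -- many pairs at vertices of large degree
    set cls : Fin n → ℕ := fun v => Nat.log 2 ((N v).card / D) with hcls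
    have hcls1 : ∀ v ∈ hi, cls v ∈ range (r + 1) := by
      intro v _
      rw [mem_range]
      apply Nat.lt_succ_of_le
      have h1 : (N v).card / D ≤ 2 ^ r := (Nat.div_le_self _ _).trans ((hNn v).trans hnr)
      calc Nat.log 2 ((N v).card / D) ≤ Nat.log 2 (2 ^ r) := Nat.log_mono_right h1
        _ = r := Nat.log_pow (by norm_num) r
    set C : ℕ → Finset (Fin n) := fun i => hi.filter fun v => cls v = i with hC
    have hfib : S = ∑ i ∈ range (r + 1), ∑ v ∈ C i, (N v).card :=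
      (sum_fiberwise_of_maps_to hcls1 _).symm
    have hpow : ∀ i, ∀ v ∈ C i, D * 2 ^ i ≤ (N v).card ∧ (N v).card ≤ D * 2 ^ (i + 1) := by
      intro i v hv
      rw [hC, mem_filter, hhi, mem_filter] at hv
      obtain ⟨⟨-, h1⟩, h2⟩ := hv
      have h3 : (N v).card / D ≠ 0 := by
        have := Nat.div_pos h1 hD1
        omega
      have h4 := Nat.pow_log_le_self 2 h3
      have h5 := Nat.lt_pow_succ_log_self (b := 2) (by norm_num) ((N v).card / D)
      change 2 ^ cls v ≤ _ at h4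
      change _ < 2 ^ (cls v + 1) at h5
      rw [h2] at h4 h5
      constructor
      · calc D * 2 ^ i ≤ D * ((N v).card / D) := Nat.mul_le_mul_left _ h4
          _ ≤ (N v).card := Nat.mul_div_le _ _
      · calc (N v).card ≤ D * ((N v).card / D + 1) := (Nat.lt_mul_div_succ _ hD1).le
          _ ≤ D * 2 ^ (i + 1) := Nat.mul_le_mul_left _ h5
    have hex : ∃ i ∈ range (r + 1), S ≤ (r + 1) * ((C i).card * (D * 2 ^ (i + 1))) := by
      apply exists_le_of_sum_le (nonempty_range_iff.2 (by omega))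
      rw [sum_const, card_range, smul_eq_mul, ← mul_sum]
      apply Nat.mul_le_mul_left
      rw [hfib]
      apply sum_le_sum
      intro i _
      calc ∑ v ∈ C i, (N v).card ≤ ∑ _v ∈ C i, D * 2 ^ (i + 1) :=
            sum_le_sum fun v hv => (hpow i v hv).2
        _ = (C i).card * (D * 2 ^ (i + 1)) := by rw [sum_const, smul_eq_mul]
    obtain ⟨i, -, hi'⟩ := hex
    obtain ⟨ι, i1, h1, G, h2⟩ := unneg_star P' hg (by omega) U₀ hU₀ hP'U (2 ^ i) ℓ
      Nat.one_le_two_pow hw hℓ1 hℓ (C i) (fun v hv => by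
        refine le_trans (le_of_eq ?_) (hpow i v hv).1
        rw [hD, hb]
        ring)
    refine ⟨ι, i1, ?_, G, h2⟩
    -- arithmetic
    have e1 : 64 * (r + 1) * b ^ 2 * ℓ * M ≤ 64 * (r + 1) * b ^ 2 * ℓ * Fintype.card ι := by
      calc 64 * (r + 1) * b ^ 2 * ℓ * M ≤ 2 * P'.card := hbig
        _ ≤ 2 * (2 * S) := Nat.mul_le_mul_left _ hA
        _ ≤ 2 * (2 * ((r + 1) * ((C i).card * (D * 2 ^ (i + 1))))) :=
            Nat.mul_le_mul_left _ (Nat.mul_le_mul_left _ hi')
        _ = 16 * (r + 1) * b * ℓ * ((C i).card * 2 ^ i) := by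
            rw [hD]
            ring
        _ ≤ 16 * (r + 1) * b * ℓ * (4 * Fintype.card ι) := Nat.mul_le_mul_left _ h1
        _ = 64 * (r + 1) * b * ℓ * Fintype.card ι := by ring
        _ ≤ 64 * (r + 1) * b ^ 2 * ℓ * Fintype.card ι := by
            apply Nat.mul_le_mul_right
            apply Nat.mul_le_mul_right
            apply Nat.mul_le_mul_left
            exact Nat.le_self_pow (by norm_num) b
    have hpos : 0 < 64 * (r + 1) * b ^ 2 * ℓ := by positivity
    exact Nat.le_of_mul_le_mul_left e1 hpos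
  · -- many pairs between vertices of small degree
    rw [not_le] at hA
    set P'' := P'.filter fun p => p.1.1 ∉ hi ∧ p.1.2 ∉ hi with hP''
    have hcov : P' ⊆ P'' ∪ hi.biUnion fun v => P'.filter fun p => p.1.1 = v ∨ p.1.2 = v := by
      intro p hp
      rw [mem_union, mem_biUnion]
      by_cases h1 : p.1.1 ∈ hi
      · right
        exact ⟨p.1.1, h1, mem_filter.2 ⟨hp, Or.inl rfl⟩⟩
      · by_cases h2 : p.1.2 ∈ hi
        · right
          exact ⟨p.1.2, h2, mem_filter.2 ⟨hp, Or.inr rfl⟩⟩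
        · left
          exact mem_filter.2 ⟨hp, h1, h2⟩
    have hcount : P'.card ≤ P''.card + S := by
      calc P'.card ≤ _ := card_le_card hcov
        _ ≤ P''.card + (hi.biUnion fun v => P'.filter fun p => p.1.1 = v ∨ p.1.2 = v).card :=
            card_union_le _ _
        _ ≤ P''.card + ∑ v ∈ hi, (P'.filter fun p => p.1.1 = v ∨ p.1.2 = v).card :=
            Nat.add_le_add_left card_biUnion_le _
        _ ≤ P''.card + S := Nat.add_le_add_left (sum_le_sum fun v _ => htouch v) _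
    have hP''D : ∀ v, (P''.filter fun p => p.1.1 = v ∨ p.1.2 = v).card ≤ D := by
      intro v
      by_cases hv : v ∈ hi
      · have : P''.filter (fun p => p.1.1 = v ∨ p.1.2 = v) = ∅ := by
          apply filter_eq_empty_iff.2
          intro p hp hpv
          have := (mem_filter.1 hp).2
          rcases hpv with h | h
          · exact this.1 (h ▸ hv)
          · exact this.2 (h ▸ hv)
        rw [this, card_empty]
        omega
      · have h1 : ¬ D ≤ (N v).card := fun h => hv (mem_filter.2 ⟨mem_univ _, h⟩)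
        have h2 : (P''.filter fun p => p.1.1 = v ∨ p.1.2 = v).card ≤
            (P'.filter fun p => p.1.1 = v ∨ p.1.2 = v).card :=
          card_le_card (filter_subset_filter _ (filter_subset _ _))
        have := htouch v
        omega
    have hMm : 2 * (M * (g * w) ^ 2) * D ≤ P''.card := by
      have e1 : 4 * (2 * (M * (g * w) ^ 2) * D) ≤ 64 * (r + 1) * b ^ 2 * ℓ * M := by
        rw [← hb, hD]
        calc 4 * (2 * (M * b) * (2 * b * ℓ)) = 16 * 1 * b ^ 2 * ℓ * M := by ring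
          _ ≤ 64 * (r + 1) * b ^ 2 * ℓ * M := by
              apply Nat.mul_le_mul_right
              apply Nat.mul_le_mul_right
              apply Nat.mul_le_mul_right
              exact Nat.mul_le_mul (by norm_num) (by omega)
      omega
    obtain ⟨G, h2, h3, h4⟩ := unneg_match P'' hg hk U₀ hU₀
      (fun p hp => hP'U p (mem_filter.1 hp).1) M D hD1 hP''D hMm
    refine ⟨Fin M, inferInstance, by rw [Fintype.card_fin], G, h2, fun a b => ?_, h4⟩
    rcases h3 a b with h | ⟨h, p, hp, h'⟩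
    · exact Or.inl h
    · exact Or.inr ⟨h, p, (mem_filter.1 hp).1, h'⟩

/-- A set of `k` vertices avoided by many pairs. -/
theorem light_set' {n k : ℕ} (hkn : k ≤ n) (P : Finset {p : Fin n × Fin n // p.1 < p.2}) :
    ∃ U : Finset (Fin n), U.card = k ∧
      P.card * ((n - k) * (n - k - 1)) ≤
        n * (n - 1) * (P.filter fun p => p.1.1 ∉ U ∧ p.1.2 ∉ U).card := by
  set A : Finset (Finset (Fin n)) := powersetCard k univ with hA
  have hAc : A.card = n.choose k := by rw [hA, card_powersetCard, card_univ, Fintype.card_fin]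
  have hpair : ∀ p ∈ P, (A.filter fun U => p.1.1 ∉ U ∧ p.1.2 ∉ U).card = (n - 2).choose k := by
    intro p _
    have h1 : A.filter (fun U => p.1.1 ∉ U ∧ p.1.2 ∉ U) =
        powersetCard k (univ \ {p.1.1, p.1.2}) := by
      ext U
      rw [mem_filter, hA, mem_powersetCard, mem_powersetCard]
      constructor
      · rintro ⟨⟨-, h⟩, h1, h2⟩
        refine ⟨fun x hx => ?_, h⟩
        rw [mem_sdiff, mem_insert, mem_singleton]
        refine ⟨mem_univ _, ?_⟩
        rintro (rfl | rfl)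
        · exact h1 hx
        · exact h2 hx
      · rintro ⟨h, h'⟩
        refine ⟨⟨subset_univ _, h'⟩, fun hx => ?_, fun hx => ?_⟩
        · have := h hx
          simp at this
        · have := h hx
          simp at this
    rw [h1, card_powersetCard, card_sdiff_of_subset (subset_univ _), card_univ, Fintype.card_fin,
      card_pair (ne_of_lt p.2)]
  have hsum : ∑ U ∈ A, (P.filter fun p => p.1.1 ∉ U ∧ p.1.2 ∉ U).card =
      P.card * (n - 2).choose k := by
    simp only [card_filter]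
    rw [sum_comm]
    calc ∑ p ∈ P, ∑ U ∈ A, (if p.1.1 ∉ U ∧ p.1.2 ∉ U then 1 else 0)
        = ∑ p ∈ P, (A.filter fun U => p.1.1 ∉ U ∧ p.1.2 ∉ U).card := by
          simp only [card_filter]
      _ = ∑ _p ∈ P, (n - 2).choose k := sum_congr rfl hpair
      _ = P.card * (n - 2).choose k := by rw [sum_const, smul_eq_mul]
  have hne : A.Nonempty := by
    rw [← card_pos, hAc]
    exact Nat.choose_pos hkn
  have hex : ∃ U ∈ A, P.card * (n - 2).choose k ≤
      n.choose k * (P.filter fun p => p.1.1 ∉ U ∧ p.1.2 ∉ U).card := by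
    apply exists_le_of_sum_le hne
    rw [sum_const, smul_eq_mul, ← mul_sum, hsum, hAc]
  obtain ⟨U, hUA, hU⟩ := hex
  refine ⟨U, (mem_powersetCard.1 hUA).2, ?_⟩
  set Q := (P.filter fun p => p.1.1 ∉ U ∧ p.1.2 ∉ U).card
  -- binomial coefficients
  rcases lt_or_ge n 2 with hn | hn
  · have : (n - k) * (n - k - 1) = 0 := by
      have : n - k - 1 = 0 := by omega
      rw [this, mul_zero]
    rw [this, mul_zero]
    exact Nat.zero_le _
  rcases lt_or_ge (n - k) 2 with hnk | hnk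
  · have : (n - k) * (n - k - 1) = 0 := by
      have : n - k - 1 = 0 := by omega
      rw [this, mul_zero]
    rw [this, mul_zero]
    exact Nat.zero_le _
  obtain ⟨m, rfl⟩ : ∃ m, n = m + 2 := ⟨n - 2, by omega⟩
  have c1 := Nat.choose_mul_succ_eq m k
  have c2 := Nat.choose_mul_succ_eq (m + 1) k
  have e1 : m + 2 - 2 = m := rfl
  have e2 : m + 2 - 1 = m + 1 := rfl
  have e3 : m + 2 - k - 1 = m + 1 - k := by omega
  rw [e1] at hU
  rw [e2, e3]
  have hpos : 0 < (m + 2).choose k := Nat.choose_pos hkn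
  apply Nat.le_of_mul_le_mul_left _ hpos
  calc (m + 2).choose k * (P.card * ((m + 2 - k) * (m + 1 - k)))
      = P.card * (((m + 2).choose k * (m + 2 - k)) * (m + 1 - k)) := by ring
    _ = P.card * (((m + 1).choose k * (m + 1 - k)) * (m + 2)) := by
        have : m + 1 + 1 = m + 2 := rfl
        rw [this] at c2
        rw [← c2]
        ring
    _ = (P.card * m.choose k) * ((m + 2) * (m + 1)) := by
        rw [← c1]
        ring
    _ ≤ ((m + 2).choose k * Q) * ((m + 2) * (m + 1)) := Nat.mul_le_mul_right _ hU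
    _ = (m + 2).choose k * ((m + 2) * (m + 1) * Q) := by ring

/-- Disjoint copies of the block function on the variables of an arbitrary large set `P`. -/
theorem unneg_emb (n k r g w ℓ M : ℕ) (P : Finset {p : Fin n × Fin n // p.1 < p.2})
    (hg : 1 ≤ g) (hw : 1 ≤ w) (hk : 2 * (g * g) ≤ k) (hkn : k ≤ n) (hnr : n ≤ 2 ^ r)
    (hℓ1 : 1 ≤ ℓ) (hℓ : 4 * (g * w) ^ 2 ≤ 2 ^ ℓ)
    (hP : 32 * (r + 1) * ((g * w) ^ 2) ^ 2 * ℓ * M * (n * (n - 1)) ≤
      P.card * ((n - k) * (n - k - 1))) (hn : 2 ≤ n) :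
    ∃ (ι : Type) (_ : Fintype ι), M ≤ Fintype.card ι ∧
      ∃ G : (ι → Set (BE g w)) → SimpleGraph (Fin n),
        (∀ y y', (∀ i, y i ⊆ y' i) → G y ≤ G y') ∧
        (∀ a b : Fin n, (∃ t : Prop, ∀ y, (G y).Adj a b ↔ t) ∨
          ((∃ i e, ∀ y, (G y).Adj a b ↔ e ∈ y i) ∧ (∃ p ∈ P, p.1 = (a, b) ∨ p.1 = (b, a)))) ∧
        (∀ y, (∃ c : Finset (Fin n), (G y).IsClique (c : Set (Fin n)) ∧ k ≤ c.card) ↔
          ∃ i, TC (y i)) := by
  obtain ⟨U₀, hU₀, hUP⟩ := light_set' hkn P
  set P' := P.filter fun p => p.1.1 ∉ U₀ ∧ p.1.2 ∉ U₀ with hP'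
  have hnn : 0 < n * (n - 1) := Nat.mul_pos (by omega) (by omega)
  have hbig : 32 * (r + 1) * ((g * w) ^ 2) ^ 2 * ℓ * M ≤ P'.card := by
    apply Nat.le_of_mul_le_mul_left _ hnn
    calc n * (n - 1) * (32 * (r + 1) * ((g * w) ^ 2) ^ 2 * ℓ * M)
        = 32 * (r + 1) * ((g * w) ^ 2) ^ 2 * ℓ * M * (n * (n - 1)) := by ring
      _ ≤ P.card * ((n - k) * (n - k - 1)) := hP
      _ ≤ n * (n - 1) * P'.card := hUP
  obtain ⟨ι, i1, h1, G, h2, h3, h4⟩ := unneg_core n k r g w ℓ M P' hg hw hk hnr hℓ1 hℓ U₀ hU₀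
    (fun p hp => (mem_filter.1 hp).2) hbig
  refine ⟨ι, i1, h1, G, h2, fun a b => ?_, h4⟩
  rcases h3 a b with h | ⟨h, p, hp, h'⟩
  · exact Or.inl h
  · exact Or.inr ⟨h, p, (mem_filter.1 hp).1, h'⟩

end Pool.Agent.T9h16
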