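import Pool.Agent.T9h16.Total
import Pool.Agent.T9h16.Arith
import Pool.Agent.T9h16.UnnegEmb

/-!
# Circuits for an NP-complete problem have to negate almost all of their variables

If `P = NP`, then the clique problem (for instance: does a graph with `n` vertices have a clique with
`n / 2` vertices?) has circuits of polynomial size.  Let `P` be any set of edge variables, and consider
circuits of AND, OR and NOT gates (fan-in two) whose inputs are the variables themselves and, for free,
arbitrary functions (of arbitrary complexity) of the variables outside of `P`, for example their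
negations.  If such a circuit with `s` gates, `t` of them NOT gates, decides whether a graph with `n`
vertices has a clique with at least `k` vertices, and if `k ≥ 2 ^ 24 * (log₂ (n + s + 1)) ^ 5`, then

  `|P| * (1 - k / n) ^ 2 ≤ 2 ^ 59 * 2 ^ t * (log₂ (n + s + 1)) ^ 15`.

For `t = 0` this contains circuits of AND and OR gates with negations at the inputs only: in
polynomial size, the variables which do not occur negated are at most polylogarithmically many.
(`O(log n)` variables can be freed from their negations at the expense of a polynomial factor.)  In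
general, `log₂ |P| - O(log log n)` NOT gates are needed, while `⌈log₂ (|P| + 1)⌉` NOT gates are as
powerful as an unlimited number of them (Markov, Fischer).
-/

set_option autoImplicit false

namespace Pool.Agent.T9h16.UnnegatedVariables

open Pool.Agent.T9h16

/-- The circuit: gate `i` is an AND gate if `kind i = 0`, an OR gate if `kind i = 1` (with operands
`a i`, `b i`) and a NOT gate if `kind i = 2` (with operand `a i`).  Operands are variables `x_e`,
`e = (u, v)` with `u < v`, or functions `h j` of the graph which do not depend on the variables in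
`P`, or earlier gates; `o` is the output gate. -/
theorem result (n k s κ : ℕ) (P : Finset {p : Fin n × Fin n // p.1 < p.2})
    (h : Fin κ → SimpleGraph (Fin n) → Prop)
    (hindep : ∀ (j : Fin κ) (G G' : SimpleGraph (Fin n)),
      (∀ e : {p : Fin n × Fin n // p.1 < p.2}, e ∉ P →
        (G.Adj e.1.1 e.1.2 ↔ G'.Adj e.1.1 e.1.2)) → (h j G ↔ h j G'))
    (kind : Fin s → Fin 3)
    (a b : Fin s → ({p : Fin n × Fin n // p.1 < p.2} ⊕ Fin κ) ⊕ Fin s) (o : Fin s)
    (hacyclic : ∀ i j : Fin s, (a i = Sum.inr j → j < i) ∧ (b i = Sum.inr j → j < i))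
    (hcomputes : ∀ G : SimpleGraph (Fin n), ∃ val : Fin s → Prop,
      (∀ i : Fin s, val i ↔
        if kind i = 0 then
          Sum.elim (Sum.elim (fun e => G.Adj e.1.1 e.1.2) (fun j => h j G)) val (a i) ∧
          Sum.elim (Sum.elim (fun e => G.Adj e.1.1 e.1.2) (fun j => h j G)) val (b i)
        else if kind i = 1 then
          Sum.elim (Sum.elim (fun e => G.Adj e.1.1 e.1.2) (fun j => h j G)) val (a i) ∨
          Sum.elim (Sum.elim (fun e => G.Adj e.1.1 e.1.2) (fun j => h j G)) val (b i)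
        else
          ¬ Sum.elim (Sum.elim (fun e => G.Adj e.1.1 e.1.2) (fun j => h j G)) val (a i)) ∧
      (val o ↔ ∃ c : Finset (Fin n), G.IsClique (c : Set (Fin n)) ∧ k ≤ c.card))
    (hk : 2 ^ 24 * Real.logb 2 (n + s + 1) ^ 5 ≤ k) (hkn : k ≤ n) :
    (P.card : ℝ) * (1 - k / n) ^ 2 ≤
      2 ^ 59 * 2 ^ (Finset.univ.filter fun i => kind i = 2).card *
        Real.logb 2 (n + s + 1) ^ 15 := by
  classical
  have hs : 1 ≤ s := by
    have := o.isLt
    omega
  obtain ⟨r, hr, hsr, hrL⟩ := exists_exponent (n + s) (by omega)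
  have hrL' : (r : ℝ) ≤ 3 * Real.logb 2 (n + s + 1) := by
    have : ((n + s : ℕ) : ℝ) + 1 = (n : ℝ) + s + 1 := by push_cast; ring
    rwa [this] at hrL
  have hL0 : 0 ≤ Real.logb 2 ((n : ℝ) + s + 1) := by
    have : (0 : ℝ) ≤ r := by positivity
    linarith
  have hsr1 : s ≤ 2 ^ r := by omega
  have hnr : n ≤ 2 ^ r := by omega
  set t := (Finset.univ.filter fun i => kind i = 2).card with ht
  have hr2 : 4 ≤ r ^ 2 := by nlinarith
  have hGG : 16 ≤ GG r := by
    rw [GG]
    calc 16 = 4 * 4 * 1 := rfl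
      _ ≤ 4 * r ^ 2 * LL r := Nat.mul_le_mul (Nat.mul_le_mul_left _ hr2) (one_le_LL r)
  have hPn : P.card ≤ n ^ 2 := by
    calc P.card ≤ Fintype.card {p : Fin n × Fin n // p.1 < p.2} := Finset.card_le_univ P
      _ ≤ Fintype.card (Fin n × Fin n) := Fintype.card_subtype_le _
      _ = n ^ 2 := by rw [Fintype.card_prod, Fintype.card_fin, sq]
  have h2t : 1 ≤ 2 ^ t := Nat.one_le_two_pow
  -- the clique size is large
  have hA : 2 * (GG r * GG r) ≤ k := by
    have h1 : 2 * (GG r * GG r) ≤ 2 ^ 16 * r ^ 5 := by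
      calc 2 * (GG r * GG r) = 2 ^ 5 * r ^ 4 * LL r ^ 2 := by rw [GG]; ring
        _ ≤ 2 ^ 5 * r ^ 4 * (2 ^ 11 * r) := Nat.mul_le_mul_left _ (LL_sq r (by omega))
        _ = 2 ^ 16 * r ^ 5 := by ring
    have h2 : ((2 ^ 16 * r ^ 5 : ℕ) : ℝ) ≤ k := by
      have h3 : (r : ℝ) ^ 5 ≤ (3 * Real.logb 2 (n + s + 1)) ^ 5 :=
        pow_le_pow_left₀ (by positivity) hrL' 5
      have h4 : 0 ≤ Real.logb 2 ((n : ℝ) + s + 1) ^ 5 := by positivity
      calc ((2 ^ 16 * r ^ 5 : ℕ) : ℝ) = 2 ^ 16 * (r : ℝ) ^ 5 := by push_cast; ring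
        _ ≤ 2 ^ 16 * (3 * Real.logb 2 (n + s + 1)) ^ 5 :=
            mul_le_mul_of_nonneg_left h3 (by positivity)
        _ = (2 ^ 16 * 3 ^ 5) * Real.logb 2 (n + s + 1) ^ 5 := by ring
        _ ≤ 2 ^ 24 * Real.logb 2 (n + s + 1) ^ 5 :=
            mul_le_mul_of_nonneg_right (by norm_num) h4
        _ ≤ k := hk
    exact h1.trans (by exact_mod_cast h2)
  have hn2 : 2 ≤ n := by
    have : 16 * 16 ≤ GG r * GG r := Nat.mul_le_mul hGG hGG
    omega
  -- the combinatorial bound
  have key : P.card * ((n - k) * (n - k - 1)) ≤ (17 * 2 ^ 29) * r ^ 15 * 2 ^ t * (n * (n - 1)) := by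
    set b₀ : ℕ := (GG r * (2 * r)) ^ 2 with hb₀
    have hb₀2 : b₀ ^ 2 ≤ 2 ^ 23 * r ^ 13 := by
      have h5 : b₀ ^ 2 = 2 ^ 12 * r ^ 12 * LL r ^ 4 := by rw [hb₀, GG]; ring
      rw [h5]
      calc 2 ^ 12 * r ^ 12 * LL r ^ 4 ≤ 2 ^ 12 * r ^ 12 * (2 ^ 11 * r) :=
            Nat.mul_le_mul_left _ (LL_pow_four r (by omega))
        _ = 2 ^ 23 * r ^ 13 := by ring
    have hb₀1 : b₀ ≤ 2 ^ 17 * r ^ 7 := by
      have h5 : b₀ = 64 * r ^ 6 * LL r ^ 2 := by rw [hb₀, GG]; ring
      rw [h5]
      calc 64 * r ^ 6 * LL r ^ 2 ≤ 64 * r ^ 6 * (2 ^ 11 * r) :=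
            Nat.mul_le_mul_left _ (LL_sq r (by omega))
        _ = 2 ^ 17 * r ^ 7 := by ring
    have hℓ : 4 * b₀ ≤ 2 ^ (17 * r) := by
      have h1 : r ≤ 2 ^ r := (Nat.lt_two_pow_self).le
      calc 4 * b₀ ≤ 4 * (2 ^ 17 * r ^ 7) := Nat.mul_le_mul_left _ hb₀1
        _ ≤ 4 * (2 ^ 17 * (2 ^ r) ^ 7) :=
            Nat.mul_le_mul_left _ (Nat.mul_le_mul_left _ (Nat.pow_le_pow_left h1 7))
        _ = 2 ^ (19 + 7 * r) := by
            rw [← pow_mul, mul_comm r 7, pow_add, show (2 : ℕ) ^ 19 = 4 * 2 ^ 17 by norm_num,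
              mul_assoc]
        _ ≤ 2 ^ (17 * r) := Nat.pow_le_pow_right (by norm_num) (by omega)
    by_cases hbig : 32 * (r + 1) * b₀ ^ 2 * (17 * r) * 2 ^ t * (n * (n - 1)) ≤
        P.card * ((n - k) * (n - k - 1))
    · exfalso
      obtain ⟨ι, i1, hι, G, hmono, hleaf, hcl⟩ := unneg_emb n k r (GG r) (2 * r) (17 * r) (2 ^ t)
        P (by omega) (by omega) hA hkn hnr (by omega) hℓ hbig hn2
      choose v hv using hcomputes
      have hleaf' : ∀ e : {p : Fin n × Fin n // p.1 < p.2},
          (∃ q : Prop, ∀ y, (G y).Adj e.1.1 e.1.2 ↔ q) ∨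
            ((∃ i b, ∀ y, (G y).Adj e.1.1 e.1.2 ↔ b ∈ y i) ∧ e ∈ P) := by
        intro e
        rcases hleaf e.1.1 e.1.2 with h1 | ⟨h1, p, hp, h2 | h2⟩
        · exact Or.inl h1
        · have : p = e := Subtype.ext h2
          exact Or.inr ⟨h1, this ▸ hp⟩
        · exfalso
          have h3 := p.2
          have h4 := e.2
          rw [h2] at h3
          exact lt_asymm h3 h4
      have hconst : ∀ y y' : ι → Set (BE (GG r) (2 * r)),
          ∀ e : {p : Fin n × Fin n // p.1 < p.2}, e ∉ P →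
            ((G y).Adj e.1.1 e.1.2 ↔ (G y').Adj e.1.1 e.1.2) := by
        intro y y' e he
        rcases hleaf' e with ⟨q, hq⟩ | ⟨-, h1⟩
        · rw [hq, hq]
        · exact (he h1).elim
      set M : Emb ({p : Fin n × Fin n // p.1 < p.2} ⊕ Fin κ) ι r :=
        { X := fun y => Sum.elim (fun e => (G y).Adj e.1.1 e.1.2) (fun j => h j (G y))
          mono := by
            intro y y' hyy e
            rcases e with e | j
            · exact fun hadj => hmono y y' hyy hadj
            · exact (hindep j (G y) (G y') (hconst y y')).1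
          leaf := by
            intro e
            rcases e with e | j
            · rcases hleaf' e with ⟨q, hq⟩ | ⟨⟨i, b, hib⟩, -⟩
              · exact Or.inl ⟨q, hq⟩
              · exact Or.inr ⟨i, b, hib⟩
            · left
              exact ⟨h j (G fun _ => ∅), fun y => hindep j _ _ (hconst _ _)⟩ } with hM
      set C : Circ ({p : Fin n × Fin n // p.1 < p.2} ⊕ Fin κ) :=
        { size := s
          kind := fun i => if kind i = 0 then .conj else if kind i = 1 then .disj else .neg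
          left := a
          right := b
          out := o
          acyclic := hacyclic } with hC
      have hneg : ∀ i, C.kind i = .neg ↔ kind i = 2 := by
        intro i
        change (if kind i = 0 then Kind.conj else if kind i = 1 then Kind.disj else Kind.neg) =
          Kind.neg ↔ _
        generalize kind i = k
        fin_cases k <;> simp
      have hrun : ∀ y, C.Run (M.X y) (v (G y)) := by
        intro y i
        rw [(hv (G y)).1 i]
        by_cases h0 : kind i = 0
        · have hk : C.kind i = .conj := if_pos h0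
          rw [Circ.step_conj hk, if_pos h0]
        · by_cases h1 : kind i = 1
          · have hk : C.kind i = .disj := (if_neg h0).trans (if_pos h1)
            rw [Circ.step_disj hk, if_neg h0, if_pos h1]
          · have hk : C.kind i = .neg := (if_neg h0).trans (if_neg h1)
            rw [Circ.step_neg hk, if_neg h0, if_neg h1]
      have hout : ∀ y, v (G y) o ↔ ∃ i, TC (y i) := by
        intro y
        rw [(hv (G y)).2, ← hcl y]
      have hcount := chain_count_total hr C hsr1 M (fun y => v (G y)) hrun hout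
      have hcard : (Finset.univ.filter fun i => C.kind i = .neg).card = t := by
        rw [ht]
        congr 1
        ext i
        simp only [Finset.mem_filter, Finset.mem_univ, true_and]
        exact hneg i
      rw [hcard] at hcount
      omega
    · rw [not_le] at hbig
      calc P.card * ((n - k) * (n - k - 1))
          ≤ 32 * (r + 1) * b₀ ^ 2 * (17 * r) * 2 ^ t * (n * (n - 1)) := hbig.le
        _ ≤ 32 * (2 * r) * (2 ^ 23 * r ^ 13) * (17 * r) * 2 ^ t * (n * (n - 1)) := by
            apply Nat.mul_le_mul_right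
            apply Nat.mul_le_mul_right
            apply Nat.mul_le_mul_right
            exact Nat.mul_le_mul (Nat.mul_le_mul_left _ (by omega)) hb₀2
        _ = (17 * 2 ^ 29) * r ^ 15 * 2 ^ t * (n * (n - 1)) := by ring
  -- squares
  have key2 : P.card * (n - k) ^ 2 ≤ 2 ^ 35 * r ^ 15 * 2 ^ t * n ^ 2 := by
    have hr15 : 1 ≤ r ^ 15 := Nat.one_le_pow _ _ (by omega)
    rcases lt_or_ge (n - k) 2 with h1 | h1
    · have h2 : (n - k) ^ 2 ≤ 1 := by
        have : n - k ≤ 1 := by omega
        exact Nat.pow_le_one_iff (by norm_num) |>.2 this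
      calc P.card * (n - k) ^ 2 ≤ n ^ 2 * 1 := Nat.mul_le_mul hPn h2
        _ = 1 * 1 * 1 * n ^ 2 := by ring
        _ ≤ 2 ^ 35 * r ^ 15 * 2 ^ t * n ^ 2 := by
            apply Nat.mul_le_mul_right
            exact Nat.mul_le_mul (Nat.mul_le_mul (by norm_num) hr15) h2t
    · have h2 : (n - k) ^ 2 ≤ 2 * ((n - k) * (n - k - 1)) := by
        obtain ⟨m, hm⟩ : ∃ m, n - k = m + 2 := ⟨n - k - 2, by omega⟩
        rw [hm]
        have : m + 2 - 1 = m + 1 := rfl
        rw [this]
        nlinarith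
      calc P.card * (n - k) ^ 2 ≤ P.card * (2 * ((n - k) * (n - k - 1))) :=
            Nat.mul_le_mul_left _ h2
        _ = 2 * (P.card * ((n - k) * (n - k - 1))) := by ring
        _ ≤ 2 * ((17 * 2 ^ 29) * r ^ 15 * 2 ^ t * (n * (n - 1))) := Nat.mul_le_mul_left _ key
        _ ≤ 2 * ((17 * 2 ^ 29) * r ^ 15 * 2 ^ t * (n * n)) := by
            apply Nat.mul_le_mul_left
            apply Nat.mul_le_mul_left
            exact Nat.mul_le_mul_left _ (Nat.sub_le _ _)
        _ = (17 * 2 ^ 30) * (r ^ 15 * 2 ^ t * n ^ 2) := by ring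
        _ ≤ 2 ^ 35 * (r ^ 15 * 2 ^ t * n ^ 2) := Nat.mul_le_mul_right _ (by norm_num)
        _ = 2 ^ 35 * r ^ 15 * 2 ^ t * n ^ 2 := by ring
  have hn0 : (0 : ℝ) < n := by exact_mod_cast (by omega : 0 < n)
  have key3 : (P.card : ℝ) * (1 - k / n) ^ 2 ≤ 2 ^ 35 * (r : ℝ) ^ 15 * 2 ^ t := by
    have h1 : (P.card : ℝ) * ((n : ℝ) - k) ^ 2 ≤ 2 ^ 35 * (r : ℝ) ^ 15 * 2 ^ t * (n : ℝ) ^ 2 := by
      rw [← Nat.cast_sub hkn]
      exact_mod_cast key2
    have h2 : (1 - (k : ℝ) / n) ^ 2 = ((n : ℝ) - k) ^ 2 / (n : ℝ) ^ 2 := by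
      rw [← div_pow]
      congr 1
      field_simp
    rw [h2, ← mul_div_assoc, div_le_iff₀ (by positivity)]
    exact h1
  have h3 : (r : ℝ) ^ 15 ≤ (3 * Real.logb 2 (n + s + 1)) ^ 15 :=
    pow_le_pow_left₀ (by positivity) hrL' 15
  calc (P.card : ℝ) * (1 - k / n) ^ 2 ≤ 2 ^ 35 * (r : ℝ) ^ 15 * 2 ^ t := key3
    _ ≤ 2 ^ 35 * (3 * Real.logb 2 (n + s + 1)) ^ 15 * 2 ^ t := by
        apply mul_le_mul_of_nonneg_right _ (by positivity)
        exact mul_le_mul_of_nonneg_left h3 (by positivity)
    _ = (2 ^ 35 * 3 ^ 15) * (2 ^ t * Real.logb 2 (n + s + 1) ^ 15) := by ring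
    _ ≤ 2 ^ 59 * (2 ^ t * Real.logb 2 (n + s + 1) ^ 15) := by
        apply mul_le_mul_of_nonneg_right _ (by positivity)
        norm_num
    _ = 2 ^ 59 * 2 ^ t * Real.logb 2 (n + s + 1) ^ 15 := by ring

end Pool.Agent.T9h16.UnnegatedVariables
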