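import Pool.Agent.T9h16.Grid

set_option autoImplicit false

namespace Pool.Agent.T9h16

open Finset
open scoped Classical

/-- The class of a structured vertex: extra vertices are identified with universal ones. -/
def red {p g w u n' : ℕ} (hu : 0 < u) : Ver p g w n' → Ver p g w u :=
  Sum.map id (Sum.map id fun j => ⟨j.val % u, Nat.mod_lt _ hu⟩)

/-- A section of `red`. -/
def sec {p g w u n' : ℕ} (hun : u ≤ n') : Ver p g w u ↪ Ver p g w n' where
  toFun := Sum.map id (Sum.map id (Fin.castLE hun))
  inj' := by
    intro x y h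
    rcases x with a | a | a <;> rcases y with b | b | b <;> simp_all [Fin.ext_iff]

theorem red_sec {p g w u n' : ℕ} (hu : 0 < u) (hun : u ≤ n') (v : Ver p g w u) :
    red hu (sec hun v) = v := by
  rcases v with a | a | a
  · rfl
  · rfl
  · change Sum.inr (Sum.inr (⟨(Fin.castLE hun a).val % u, _⟩ : Fin u)) = _
    congr 2
    apply Fin.ext
    simp [Nat.mod_eq_of_lt a.isLt]

/-- The small host graph. -/
def lowG {p g w u n' : ℕ} (hun : u ≤ n') (y : Fin p × Fin p → Set (BE g w)) :
    SimpleGraph (Ver p g w n') := (HH y).map (sec hun)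

/-- The large host graph. -/
def highG {p g w u n' : ℕ} (hu : 0 < u) (y : Fin p × Fin p → Set (BE g w)) :
    SimpleGraph (Ver p g w n') := (HH y).comap (red hu)

theorem lowG_le_highG {p g w u n' : ℕ} (hu : 0 < u) (hun : u ≤ n')
    (y : Fin p × Fin p → Set (BE g w)) :
    (lowG hun y : SimpleGraph (Ver p g w n')) ≤ highG hu y := by
  rw [lowG, SimpleGraph.map_le_iff_le_comap]
  intro a b h
  change (HH y).Adj (red hu (sec hun a)) (red hu (sec hun b))
  rw [red_sec, red_sec]
  exact h

theorem host_clique {p g w u n' : ℕ} (hg : 1 ≤ g) (hu : 0 < u) (hun : u ≤ n')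
    (y : Fin p × Fin p → Set (BE g w)) (G : SimpleGraph (Ver p g w n')) (h1 : lowG hun y ≤ G)
    (h2 : G ≤ highG hu y) :
    (∃ c : Finset (Ver p g w n'), G.IsClique (c : Set (Ver p g w n')) ∧ u + 2 * g ≤ c.card) ↔
      ∃ i, TC (y i) := by
  rw [← HH_clique (u := u) hg y]
  constructor
  · rintro ⟨c, hc, hcard⟩
    have hadj : ∀ a ∈ c, ∀ b ∈ c, a ≠ b → (HH y).Adj (red hu a) (red hu b) :=
      fun a ha b hb hab => h2 (hc ha hb hab)
    have hinj : Set.InjOn (red (p := p) (g := g) (w := w) (n' := n') hu) (c : Set _) := by
      intro a ha b hb hab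
      by_contra hne
      exact (hadj a ha b hb hne).ne hab
    refine ⟨c.image (red hu), ?_, ?_⟩
    · intro a ha b hb hab
      rw [mem_coe, mem_image] at ha hb
      obtain ⟨a, ha, rfl⟩ := ha
      obtain ⟨b, hb, rfl⟩ := hb
      exact hadj a ha b hb (fun h => hab (by rw [h]))
    · rw [card_image_of_injOn hinj]
      exact hcard
  · rintro ⟨c, hc, hcard⟩
    refine ⟨c.map (sec hun), ?_, ?_⟩
    · rw [coe_map]
      exact (hc.map (f := sec hun)).mono h1
    · rw [card_map]
      exact hcard

theorem ncard_map {V W : Type} (f : V ↪ W) (R : SimpleGraph V) :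
    (R.map f).edgeSet.ncard = R.edgeSet.ncard := by
  rw [SimpleGraph.edgeSet_map]
  exact Set.ncard_image_of_injective _ f.sym2Map.injective

theorem ncard_edgeSet_le {V : Type} [Fintype V] (R : SimpleGraph V) :
    R.edgeSet.ncard ≤ (Fintype.card V).choose 2 := by
  have h := SimpleGraph.card_edgeFinset_le_card_choose_two (G := R)
  rw [← SimpleGraph.coe_edgeFinset, Set.ncard_coe_finset]
  exact h

theorem lowG_edges {p g w u n' : ℕ} (hun : u ≤ n') (y : Fin p × Fin p → Set (BE g w)) :
    (lowG hun y : SimpleGraph (Ver p g w n')).edgeSet.ncard ≤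
      (2 * (p * (g * w)) + u).choose 2 := by
  have h3 : Fintype.card (Ver p g w u) = 2 * (p * (g * w)) + u := by
    simp only [Fintype.card_sum, Fintype.card_prod, Fintype.card_fin]
    ring
  rw [lowG, ncard_map, ← h3]
  exact ncard_edgeSet_le _

theorem class_card {u n' : ℕ} (j : Fin n') :
    (univ.filter fun i : Fin n' => i ≠ j ∧ i.val % u = j.val % u).card ≤ n' / u := by
  have hsub : insert j (univ.filter fun i : Fin n' => i ≠ j ∧ i.val % u = j.val % u) =
      univ.filter fun i : Fin n' => i.val % u = j.val % u := by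
    ext i
    simp only [mem_insert, mem_filter, mem_univ, true_and]
    by_cases h : i = j
    · simp [h]
    · simp [h]
  have hcard : (insert j (univ.filter fun i : Fin n' => i ≠ j ∧ i.val % u = j.val % u)).card =
      (univ.filter fun i : Fin n' => i ≠ j ∧ i.val % u = j.val % u).card + 1 := by
    apply card_insert_of_notMem
    simp
  have hle : (univ.filter fun i : Fin n' => i.val % u = j.val % u).card ≤ n' / u + 1 := by
    have := card_le_card_of_injOn (s := univ.filter fun i : Fin n' => i.val % u = j.val % u)
      (t := range (n' / u + 1)) (fun i => i.val / u) (by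
        intro i _
        rw [mem_coe, mem_range]
        exact Nat.lt_succ_of_le (Nat.div_le_div_right i.isLt.le)) (by
        intro a ha b hb hab
        simp only [coe_filter, mem_univ, true_and, Set.mem_ofPred_eq] at ha hb
        apply Fin.ext
        rw [← Nat.div_add_mod a.val u, ← Nat.div_add_mod b.val u, ha, hb]
        simp only at hab
        rw [hab])
    rwa [card_range] at this
  rw [← hsub, hcard] at hle
  omega

theorem card_le_degree_add {V : Type} [Fintype V] (F : SimpleGraph V) (v : V) (T : Finset V)
    (h : ∀ x, x ≠ v → ¬ F.Adj v x → x ∈ T) : Fintype.card V ≤ F.degree v + 1 + T.card := by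
  have : (univ : Finset V) ⊆ (F.neighborFinset v ∪ {v}) ∪ T := by
    intro x _
    by_cases hx : x = v
    · simp [hx]
    · by_cases hadj : F.Adj v x
      · simp [hadj]
      · rw [mem_union]
        right
        exact h x hx hadj
  calc Fintype.card V = (univ : Finset V).card := rfl
    _ ≤ ((F.neighborFinset v ∪ {v}) ∪ T).card := card_le_card this
    _ ≤ (F.neighborFinset v ∪ {v}).card + T.card := card_union_le _ _
    _ ≤ ((F.neighborFinset v).card + 1) + T.card := by
        apply Nat.add_le_add_right
        refine (card_union_le _ _).trans ?_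
        rw [card_singleton]
    _ = F.degree v + 1 + T.card := by rw [SimpleGraph.card_neighborFinset_eq_degree]

theorem highG_edges {p g w u n' : ℕ} (hu : 0 < u) (y : Fin p × Fin p → Set (BE g w)) (n : ℕ)
    (hn : 2 * (p * (g * w)) + n' = n) :
    n * n ≤ 2 * (highG hu y : SimpleGraph (Ver p g w n')).edgeSet.ncard + n +
      (2 * (p * (g * w))) ^ 2 + n' * (n' / u) := by
  set F : SimpleGraph (Ver p g w n') := highG hu y with hF
  have hcard : Fintype.card (Ver p g w n') = n := by
    simp only [Fintype.card_sum, Fintype.card_prod, Fintype.card_fin]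
    rw [← hn]
    ring
  have hout1 : ∀ (v : Fin p × (Fin g × Fin w)) (x : Fin n'),
      F.Adj (Sum.inl v) (Sum.inr (Sum.inr x)) := fun v x => by
    change adjV y (red (n' := n') hu (Sum.inl v)) (red (n' := n') hu (Sum.inr (Sum.inr x)))
    trivial
  have hout2 : ∀ (v : Fin p × (Fin g × Fin w)) (x : Fin n'),
      F.Adj (Sum.inr (Sum.inl v)) (Sum.inr (Sum.inr x)) := fun v x => by
    change adjV y (red (n' := n') hu (Sum.inr (Sum.inl v)))
      (red (n' := n') hu (Sum.inr (Sum.inr x)))
    trivial
  have hout3 : ∀ j x : Fin n', ¬ j.val % u = x.val % u →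
      F.Adj (Sum.inr (Sum.inr j)) (Sum.inr (Sum.inr x)) := fun j x h => by
    change adjV y (red (n' := n') hu (Sum.inr (Sum.inr j)))
      (red (n' := n') hu (Sum.inr (Sum.inr x)))
    change (⟨j.val % u, _⟩ : Fin u) ≠ ⟨x.val % u, _⟩
    exact fun h' => h (congrArg Fin.val h')
  have hmain : ∀ v : Ver p g w n', (∀ j, v ≠ Sum.inr (Sum.inr j)) →
      n ≤ F.degree v + 1 + 2 * (p * (g * w)) := by
    intro v hv
    have := card_le_degree_add F v ((univ : Finset (Fin p × (Fin g × Fin w))).disjSum
      ((univ : Finset (Fin p × (Fin g × Fin w))).disjSum (∅ : Finset (Fin n')))) (by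
        intro x hx hadj
        rcases x with x | x | x
        · simp
        · simp
        · exfalso
          apply hadj
          rcases v with v | v | v
          · exact hout1 v x
          · exact hout2 v x
          · exact (hv v rfl).elim)
    rw [hcard, card_disjSum, card_disjSum, card_univ, card_empty] at this
    simp only [Fintype.card_prod, Fintype.card_fin] at this
    omega
  have hext : ∀ j : Fin n', n ≤ F.degree (Sum.inr (Sum.inr j)) + 1 + n' / u := by
    intro j
    have := card_le_degree_add F (Sum.inr (Sum.inr j)) ((∅ : Finset (Fin p × (Fin g × Fin w))).disjSum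
      ((∅ : Finset (Fin p × (Fin g × Fin w))).disjSum
        (univ.filter fun i : Fin n' => i ≠ j ∧ i.val % u = j.val % u))) (by
        intro x hx hadj
        rcases x with x | x | x
        · exact (hadj (hout1 x j).symm).elim
        · exact (hadj (hout2 x j).symm).elim
        · simp only [inr_mem_disjSum, mem_filter, mem_univ, true_and]
          refine ⟨fun h => hx (by rw [h]), ?_⟩
          by_contra hne
          exact hadj (hout3 j x (fun h => hne h.symm)))
    rw [hcard, card_disjSum, card_disjSum, card_empty] at this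
    have := class_card (u := u) j
    omega
  have hsum := F.sum_degrees_eq_twice_card_edges
  have hnc : F.edgeSet.ncard = F.edgeFinset.card := by
    rw [Set.ncard_eq_toFinset_card']
    rfl
  rw [hnc, ← hsum, Fintype.sum_sum_type, Fintype.sum_sum_type]
  have e1 : (p * (g * w)) * n ≤ (∑ a : Fin p × (Fin g × Fin w), F.degree (Sum.inl a)) +
      (p * (g * w)) * (1 + 2 * (p * (g * w))) := by
    have : ∑ _a : Fin p × (Fin g × Fin w), n ≤ ∑ a : Fin p × (Fin g × Fin w),
        (F.degree (Sum.inl a) + (1 + 2 * (p * (g * w)))) := by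
      apply sum_le_sum
      intro a _
      have := hmain (Sum.inl a) (by simp)
      omega
    rw [sum_add_distrib, sum_const, sum_const, card_univ] at this
    simpa using this
  have e2 : (p * (g * w)) * n ≤ (∑ a : Fin p × (Fin g × Fin w), F.degree (Sum.inr (Sum.inl a))) +
      (p * (g * w)) * (1 + 2 * (p * (g * w))) := by
    have : ∑ _a : Fin p × (Fin g × Fin w), n ≤ ∑ a : Fin p × (Fin g × Fin w),
        (F.degree (Sum.inr (Sum.inl a)) + (1 + 2 * (p * (g * w)))) := by
      apply sum_le_sum
      intro a _
      have := hmain (Sum.inr (Sum.inl a)) (by simp)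
      omega
    rw [sum_add_distrib, sum_const, sum_const, card_univ] at this
    simpa using this
  have e3 : n' * n ≤ (∑ j : Fin n', F.degree (Sum.inr (Sum.inr j))) + n' * (1 + n' / u) := by
    have : ∑ _j : Fin n', n ≤ ∑ j : Fin n', (F.degree (Sum.inr (Sum.inr j)) + (1 + n' / u)) := by
      apply sum_le_sum
      intro j _
      have := hext j
      omega
    rw [sum_add_distrib, sum_const, sum_const, card_univ] at this
    simpa using this
  have e4 : n * n = (p * (g * w)) * n + (p * (g * w)) * n + n' * n := by
    rw [← hn]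
    ring
  have e5 : (p * (g * w)) * (1 + 2 * (p * (g * w))) + (p * (g * w)) * (1 + 2 * (p * (g * w))) +
      n' * (1 + n' / u) = n + (2 * (p * (g * w))) ^ 2 + n' * (n' / u) := by
    rw [← hn]
    ring
  omega

end Pool.Agent.T9h16
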