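import Pool.Agent.T9h16.Arith

set_option autoImplicit false

namespace Pool.Agent.T9h16

theorem wa1 {δ ε : ℝ} (h0 : 0 < δ) (h2 : δ ≤ 1 / 2) (hε : 35 * δ ≤ ε) :
    (1 + 5 * δ) ^ 2 ≤ 1 + ε := by
  have : δ * δ ≤ δ * (1 / 2) := mul_le_mul_of_nonneg_left h2 h0.le
  linarith [this, sq δ, show (1 + 5 * δ) ^ 2 = 1 + 10 * δ + 25 * (δ * δ) by ring]

theorem wa2 {δ x k g : ℝ} (hxk : x ≤ k) (hgx : 2 * g ≤ δ * x) : (1 - δ) * x ≤ k - 2 * g := by
  linarith [show (1 - δ) * x = x - δ * x by ring]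

theorem wa3 {δ : ℝ} (h0 : 0 < δ) (h2 : δ ≤ 1 / 2) : 1 ≤ 1 + δ - 2 * δ ^ 2 := by
  have : δ * δ ≤ δ * (1 / 2) := mul_le_mul_of_nonneg_left h2 h0.le
  linarith [sq δ]

theorem wa4 {δ x a k g : ℝ} (h63 : 63 ≤ δ * x) (hax : a ≤ 2 * δ * x)
    (hkx : k ≤ x + 1) (hg : 0 ≤ g) : 2 * a + (k - 2 * g) ≤ (1 + 5 * δ) * x := by
  linarith [show (1 + 5 * δ) * x = x + 5 * (δ * x) by ring,
    show 2 * δ * x = 2 * (δ * x) by ring]

theorem wa5 {δ x a k g : ℝ} (h0 : 0 ≤ x) (h63 : 63 ≤ δ * x) (h2 : δ ≤ 1 / 2)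
    (hax : a ≤ 2 * δ * x) (hkx : k ≤ x + 1) (hg : 0 ≤ g) : 2 * a + (k - 2 * g) ≤ x * x := by
  have h1 := wa4 h63 hax hkx hg
  have h3 : δ * x ≤ 1 / 2 * x := mul_le_mul_of_nonneg_right h2 h0
  have h4 : 126 ≤ x := by linarith
  have h5 : 126 * x ≤ x * x := mul_le_mul_of_nonneg_right h4 h0
  linarith [show (1 + 5 * δ) * x = x + 5 * (δ * x) by ring]

theorem window_arith (ε : ℝ) (hε : 0 < ε) : ∃ T : ℕ, 2 ≤ T ∧ ∀ n m a g : ℕ,
    64 ≤ a → 4 * g ≤ a → T * a ≤ Nat.sqrt n + 1 → (1 + ε) / 2 * n ≤ m →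
    m + (1 + ε) / 2 * (n * Real.sqrt n) ≤ (n.choose 2 : ℕ) →
    2 * g < Nat.sqrt n + 1 ∧ 2 * a + (Nat.sqrt n + 1 - 2 * g) ≤ n ∧
      (2 * a + (Nat.sqrt n + 1 - 2 * g)).choose 2 ≤ m ∧
      2 * m + n + (2 * a) ^ 2 + n * (n / (Nat.sqrt n + 1 - 2 * g)) ≤ n * n := by
  obtain ⟨T₀, hT₀⟩ := exists_nat_ge (35 / ε)
  refine ⟨T₀ + 2, by omega, ?_⟩
  intro n m a g ha hg hTa hm hM
  set T : ℝ := ((T₀ + 2 : ℕ) : ℝ) with hT
  have hT2 : 2 ≤ T := by
    rw [hT]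
    push_cast
    have : (0 : ℝ) ≤ T₀ := Nat.cast_nonneg _
    linarith
  have hTε : 35 ≤ ε * T := by
    have h1 : 35 / ε ≤ T := by
      rw [hT]
      push_cast
      linarith
    rw [div_le_iff₀ hε] at h1
    linarith
  set x : ℝ := Real.sqrt n with hx
  have hx0 : 0 ≤ x := Real.sqrt_nonneg _
  have hxx : x * x = n := Real.mul_self_sqrt (Nat.cast_nonneg _)
  set k : ℕ := Nat.sqrt n + 1 with hk
  have hkx : (k : ℝ) ≤ x + 1 := by
    have := Real.nat_sqrt_le_real_sqrt (a := n)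
    rw [hk]
    push_cast
    linarith
  have hxk : x ≤ k := by
    have := Real.real_sqrt_lt_nat_sqrt_succ (a := n)
    rw [hk]
    push_cast
    linarith
  have ha' : (64 : ℝ) ≤ a := by exact_mod_cast ha
  have hTa' : T * a ≤ k := by
    rw [hT]
    exact_mod_cast hTa
  have hTx : 63 * T ≤ x := by nlinarith
  set δ : ℝ := 1 / T with hδ
  have hT0 : 0 < T := by linarith
  have hδT : δ * T = 1 := by
    rw [hδ]
    field_simp
  have hδ0 : 0 < δ := by rw [hδ]; positivity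
  have hδ2 : δ ≤ 1 / 2 := by
    rw [hδ]
    apply one_div_le_one_div_of_le
    · norm_num
    · exact hT2
  have hδε : 35 * δ ≤ ε := by
    have : 35 * δ ≤ (ε * T) * δ := mul_le_mul_of_nonneg_right hTε hδ0.le
    calc 35 * δ ≤ (ε * T) * δ := this
      _ = ε * (δ * T) := by ring
      _ = ε := by rw [hδT, mul_one]
  have hδx : 63 ≤ δ * x := by
    have := mul_le_mul_of_nonneg_left hTx hδ0.le
    calc (63 : ℝ) = δ * (63 * T) := by rw [show δ * (63 * T) = 63 * (δ * T) by ring, hδT, mul_one]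
      _ ≤ δ * x := this
  have hax : (a : ℝ) ≤ 2 * δ * x := by
    have h1 : T * a ≤ x + 1 := hTa'.trans hkx
    have h2 := mul_le_mul_of_nonneg_left h1 hδ0.le
    have h3 : δ * (T * a) = a := by rw [← mul_assoc, hδT, one_mul]
    rw [h3] at h2
    nlinarith
  have hgx : 2 * (g : ℝ) ≤ δ * x := by
    have : 4 * (g : ℝ) ≤ a := by exact_mod_cast hg
    linarith
  have h2gk : 2 * g < k := by
    have : (2 : ℝ) * g < k := by nlinarith
    exact_mod_cast this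
  have hsub : ((k - 2 * g : ℕ) : ℝ) = k - 2 * g := by
    rw [Nat.cast_sub h2gk.le]
    push_cast
    ring
  refine ⟨h2gk, ?_, ?_, ?_⟩
  · have : ((2 * a + (k - 2 * g) : ℕ) : ℝ) ≤ n := by
      push_cast [hsub]
      rw [← hxx]
      exact wa5 hx0 hδx hδ2 hax hkx (Nat.cast_nonneg _)
    exact_mod_cast this
  · have h1 : (2 * a + (k - 2 * g)).choose 2 ≤ (2 * a + (k - 2 * g)) * (2 * a + (k - 2 * g)) / 2 := by
      rw [Nat.choose_two_right]
      apply Nat.div_le_div_right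
      exact Nat.mul_le_mul_left _ (Nat.sub_le _ _)
    have h2 : (((2 * a + (k - 2 * g)) * (2 * a + (k - 2 * g)) / 2 : ℕ) : ℝ) ≤
        ((2 * a + (k - 2 * g) : ℕ) : ℝ) * ((2 * a + (k - 2 * g) : ℕ) : ℝ) / 2 := by
      have := Nat.cast_div_le (α := ℝ) (m := (2 * a + (k - 2 * g)) * (2 * a + (k - 2 * g))) (n := 2)
      push_cast at this ⊢
      exact this
    have h3 : ((2 * a + (k - 2 * g) : ℕ) : ℝ) ≤ (1 + 5 * δ) * x := by
      push_cast [hsub]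
      exact wa4 hδx hax hkx (Nat.cast_nonneg _)
    have h4 : (0 : ℝ) ≤ ((2 * a + (k - 2 * g) : ℕ) : ℝ) := Nat.cast_nonneg _
    have h5 : ((2 * a + (k - 2 * g) : ℕ) : ℝ) * ((2 * a + (k - 2 * g) : ℕ) : ℝ) ≤
        ((1 + 5 * δ) * x) * ((1 + 5 * δ) * x) := mul_le_mul h3 h3 h4 (by positivity)
    have h6 : ((1 + 5 * δ) * x) * ((1 + 5 * δ) * x) = (1 + 5 * δ) ^ 2 * n := by
      rw [← hxx]
      ring
    have h7 : (1 + 5 * δ) ^ 2 ≤ 1 + ε := wa1 hδ0 hδ2 hδε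
    have h8 : (1 + 5 * δ) ^ 2 * (n : ℝ) ≤ (1 + ε) * n :=
      mul_le_mul_of_nonneg_right h7 (Nat.cast_nonneg _)
    have h9 : (((2 * a + (k - 2 * g)).choose 2 : ℕ) : ℝ) ≤ m := by
      have h1' : (((2 * a + (k - 2 * g)).choose 2 : ℕ) : ℝ) ≤
          (((2 * a + (k - 2 * g)) * (2 * a + (k - 2 * g)) / 2 : ℕ) : ℝ) := by exact_mod_cast h1
      linarith
    exact_mod_cast h9
  · have h1 : ((n.choose 2 : ℕ) : ℝ) = n * (n - 1) / 2 := Nat.cast_choose_two ℝ n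
    rw [h1] at hM
    have hk2g : (1 - δ) * x ≤ ((k - 2 * g : ℕ) : ℝ) := by
      rw [hsub]
      exact wa2 hxk hgx
    have hpos : 0 < (1 - δ) * x := by
      apply mul_pos
      · linarith
      · nlinarith
    have h2 : ((n / (k - 2 * g) : ℕ) : ℝ) ≤ (1 + 2 * δ) * x := by
      have h3 : ((n / (k - 2 * g) : ℕ) : ℝ) ≤ (n : ℝ) / ((k - 2 * g : ℕ) : ℝ) := Nat.cast_div_le
      refine h3.trans ?_
      rw [div_le_iff₀ (lt_of_lt_of_le hpos hk2g)]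
      have h4 : (1 + 2 * δ) * x * ((1 - δ) * x) ≤ (1 + 2 * δ) * x * ((k - 2 * g : ℕ) : ℝ) :=
        mul_le_mul_of_nonneg_left hk2g (by positivity)
      refine le_trans ?_ h4
      rw [← hxx]
      have h5 : (1 + 2 * δ) * x * ((1 - δ) * x) = (1 + δ - 2 * δ ^ 2) * (x * x) := by ring
      rw [h5]
      have h6 : 1 ≤ 1 + δ - 2 * δ ^ 2 := wa3 hδ0 hδ2
      calc x * x = 1 * (x * x) := by ring
        _ ≤ (1 + δ - 2 * δ ^ 2) * (x * x) := mul_le_mul_of_nonneg_right h6 (mul_nonneg hx0 hx0)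
    have h3 : (n : ℝ) * ((n / (k - 2 * g) : ℕ) : ℝ) ≤ (1 + 2 * δ) * (n * x) := by
      have := mul_le_mul_of_nonneg_left h2 (Nat.cast_nonneg (α := ℝ) n)
      linarith
    have h4 : (2 * (a : ℝ)) ^ 2 ≤ δ * (n * x) := by
      have h5 : (2 * (a : ℝ)) ^ 2 ≤ (4 * δ * x) ^ 2 :=
        pow_le_pow_left₀ (by positivity) (by linarith) 2
      have h6 : (4 * δ * x) ^ 2 = 16 * δ * (δ * n) := by
        rw [← hxx]
        ring
      have h7 : 16 * δ * (δ * n) ≤ δ * (n * x) := by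
        have h8 : 16 * δ ≤ x := by
          have : 1 ≤ T := by linarith
          linarith
        have h9 : (0 : ℝ) ≤ δ * n := mul_nonneg hδ0.le (Nat.cast_nonneg _)
        calc 16 * δ * (δ * n) ≤ x * (δ * n) := mul_le_mul_of_nonneg_right h8 h9
          _ = δ * (n * x) := by ring
      linarith
    have hnx : (0 : ℝ) ≤ n * x := mul_nonneg (Nat.cast_nonneg _) hx0
    have h5 : (1 + 3 * δ) * (n * x) ≤ (1 + ε) * (n * x) :=
      mul_le_mul_of_nonneg_right (by linarith) hnx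
    have h6 : ((2 * m + n + (2 * a) ^ 2 + n * (n / (k - 2 * g)) : ℕ) : ℝ) ≤ ((n * n : ℕ) : ℝ) := by
      have e1 : ((2 * m + n + (2 * a) ^ 2 + n * (n / (k - 2 * g)) : ℕ) : ℝ) =
          2 * (m : ℝ) + n + (2 * (a : ℝ)) ^ 2 + n * ((n / (k - 2 * g) : ℕ) : ℝ) := by
        push_cast
        ring
      have e2 : ((n * n : ℕ) : ℝ) = (n : ℝ) * n := by push_cast; ring
      rw [e1, e2]
      linarith [show (1 + 3 * δ) * (n * x) = (1 + 2 * δ) * (n * x) + δ * (n * x) by ring,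
        show (n : ℝ) * (n - 1) / 2 = (n * n - n) / 2 by ring,
        show (1 + ε) / 2 * (n * x) = ((1 + ε) * (n * x)) / 2 by ring]
    exact_mod_cast h6

end Pool.Agent.T9h16
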