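import Pool.Agent.T9h16.Window

set_option autoImplicit false

namespace Pool.Agent.T9h16

open Finset
open scoped Classical

/-- Block edges. -/
def crossE (p g w n' : ℕ) : Set (Sym2 (Ver p g w n')) :=
  Set.range fun q : (Fin p × (Fin g × Fin w)) × (Fin p × (Fin g × Fin w)) =>
    s(Sum.inl q.1, Sum.inr (Sum.inl q.2))

theorem crossE_card (p g w n' : ℕ) : (crossE p g w n').ncard ≤ (p * (g * w)) ^ 2 := by
  rw [crossE, ← Set.image_univ]
  refine (Set.ncard_image_le (Set.toFinite _)).trans (le_of_eq ?_)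
  rw [Set.ncard_univ, Nat.card_eq_fintype_card]
  simp only [Fintype.card_prod, Fintype.card_fin]
  ring

theorem HH_split {p g w u : ℕ} (y : Fin p × Fin p → Set (BE g w)) (a b : Ver p g w u)
    (h : (HH y).Adj a b) : (HH (fun _ => ∅)).Adj a b ∨
      (∃ q : (Fin p × (Fin g × Fin w)) × (Fin p × (Fin g × Fin w)),
        s(a, b) = s(Sum.inl q.1, Sum.inr (Sum.inl q.2))) := by
  change adjV y a b at h
  rcases a with a | a | a <;> rcases b with b | b | b
  · exact Or.inl h
  · exact Or.inr ⟨(a, b), rfl⟩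
  · exact Or.inl h
  · exact Or.inr ⟨(b, a), Sym2.eq_swap⟩
  · exact Or.inl h
  · exact Or.inl h
  · exact Or.inl h
  · exact Or.inl h
  · exact Or.inl h

theorem lowG_edgeSet_subset {p g w u n' : ℕ} (hun : u ≤ n') (y : Fin p × Fin p → Set (BE g w)) :
    (lowG hun y : SimpleGraph (Ver p g w n')).edgeSet ⊆
      (lowG hun (fun _ => ∅) : SimpleGraph (Ver p g w n')).edgeSet ∪ crossE p g w n' := by
  intro e
  induction e with
  | h a b =>
    intro h
    rw [SimpleGraph.mem_edgeSet, lowG, SimpleGraph.map_adj] at h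
    obtain ⟨a', b', hab, rfl, rfl⟩ := h
    rcases HH_split y a' b' hab with h | ⟨q, hq⟩
    · left
      rw [SimpleGraph.mem_edgeSet, lowG, SimpleGraph.map_adj]
      exact ⟨a', b', h, rfl, rfl⟩
    · right
      refine ⟨q, ?_⟩
      have := congrArg (Sym2.map (sec (p := p) (g := g) (w := w) hun)) hq
      rw [Sym2.map_mk, Sym2.map_mk] at this
      exact this.symm

theorem lowG_mono {p g w u n' : ℕ} (hun : u ≤ n') {y y' : Fin p × Fin p → Set (BE g w)}
    (h : ∀ i, y i ⊆ y' i) : (lowG hun y : SimpleGraph (Ver p g w n')) ≤ lowG hun y' :=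
  SimpleGraph.map_monotone _ (HH_mono h)

theorem highG_mono {p g w u n' : ℕ} (hu : 0 < u) {y y' : Fin p × Fin p → Set (BE g w)}
    (h : ∀ i, y i ⊆ y' i) : (highG hu y : SimpleGraph (Ver p g w n')) ≤ highG hu y' := by
  intro a b hab
  exact HH_mono h hab

theorem lowG_leaf {p g w u n' : ℕ} (hun : u ≤ n') (a b : Ver p g w n') :
    (∃ t : Prop, ∀ y : Fin p × Fin p → Set (BE g w), (lowG hun y).Adj a b ↔ t) ∨
    (∃ i e, ∀ y : Fin p × Fin p → Set (BE g w), (lowG hun y).Adj a b ↔ e ∈ y i) := by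
  by_cases ha : ∃ u', sec hun u' = a
  · by_cases hb : ∃ v', sec hun v' = b
    · obtain ⟨a', rfl⟩ := ha
      obtain ⟨b', rfl⟩ := hb
      simp only [lowG, SimpleGraph.map_adj_apply]
      exact HH_leaf a' b'
    · left
      refine ⟨False, fun y => ?_⟩
      simp only [lowG, SimpleGraph.map_adj, iff_false, not_exists, not_and]
      rintro u' v' _ _ h
      exact hb ⟨v', h⟩
  · left
    refine ⟨False, fun y => ?_⟩
    simp only [lowG, SimpleGraph.map_adj, iff_false, not_exists, not_and]
    rintro u' v' _ h _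
    exact ha ⟨u', h⟩

/-- The window embedding: all graphs used have between `m` and `m + (p * (g * w)) ^ 2` edges. -/
theorem window_emb (n k p g w m : ℕ) (hg : 1 ≤ g) (hk : 2 * g < k)
    (hn : 2 * (p * (g * w)) + (k - 2 * g) ≤ n)
    (hlow : (2 * (p * (g * w)) + (k - 2 * g)).choose 2 ≤ m)
    (hhigh : 2 * m + n + (2 * (p * (g * w))) ^ 2 + n * (n / (k - 2 * g)) ≤ n * n) :
    ∃ G : (Fin p × Fin p → Set (BE g w)) → SimpleGraph (Fin n),
      (∀ y y', (∀ i, y i ⊆ y' i) → G y ≤ G y') ∧
      (∀ a b : Fin n, (∃ t : Prop, ∀ y, (G y).Adj a b ↔ t) ∨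
        (∃ i e, ∀ y, (G y).Adj a b ↔ e ∈ y i)) ∧
      (∀ y, (∃ c : Finset (Fin n), (G y).IsClique (c : Set (Fin n)) ∧ k ≤ c.card) ↔
        ∃ i, TC (y i)) ∧
      (∀ y, m ≤ (G y).edgeSet.ncard ∧ (G y).edgeSet.ncard ≤ m + (p * (g * w)) ^ 2) := by
  set u := k - 2 * g with hu
  have hu0 : 0 < u := by omega
  have hku : k = u + 2 * g := by omega
  obtain ⟨n', hn'⟩ : ∃ n', 2 * (p * (g * w)) + n' = n := ⟨n - 2 * (p * (g * w)), by omega⟩
  have hun : u ≤ n' := by omega
  have hcard : Fintype.card (Ver p g w n') = Fintype.card (Fin n) := by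
    simp only [Fintype.card_sum, Fintype.card_prod, Fintype.card_fin]
    rw [← hn']
    ring
  set E : Ver p g w n' ≃ Fin n := Fintype.equivOfCardEq hcard with hE
  set y₀ : Fin p × Fin p → Set (BE g w) := fun _ => ∅ with hy₀
  set L : SimpleGraph (Ver p g w n') := lowG hun y₀ with hL
  set H : SimpleGraph (Ver p g w n') := highG hu0 y₀ with hH
  have hLm : L.edgeSet.ncard ≤ m := (lowG_edges hun y₀).trans hlow
  have hHm : m ≤ H.edgeSet.ncard := by
    have h1 := highG_edges hu0 y₀ n hn'
    have h2 : n' * (n' / u) ≤ n * (n / u) :=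
      Nat.mul_le_mul (by omega) (Nat.div_le_div_right (by omega))
    rw [← hH] at h1
    omega
  have hLH : L ≤ H := lowG_le_highG hu0 hun y₀
  obtain ⟨T, hLT, hTH, hT⟩ := Set.exists_subsuperset_card_eq
    (SimpleGraph.edgeSet_mono hLH) hLm hHm
  set Q : SimpleGraph (Ver p g w n') := SimpleGraph.fromEdgeSet T with hQ
  have hQT : Q.edgeSet = T := by
    rw [hQ, SimpleGraph.edgeSet_fromEdgeSet]
    rw [sdiff_eq_left]
    rw [Set.disjoint_left]
    intro e he hd
    have := H.not_isDiag_of_mem_edgeSet (hTH he)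
    exact this (by simpa using hd)
  have hLQ : L ≤ Q := by
    rw [← SimpleGraph.edgeSet_subset_edgeSet, hQT]
    exact hLT
  have hQH : Q ≤ H := by
    rw [← SimpleGraph.edgeSet_subset_edgeSet, hQT]
    exact hTH
  have hempty : ∀ y : Fin p × Fin p → Set (BE g w), ∀ i, y₀ i ⊆ y i :=
    fun y i => Set.empty_subset _
  refine ⟨fun y => (Q ⊔ lowG hun y).map E.toEmbedding, ?_, ?_, ?_, ?_⟩
  · intro y y' h
    exact SimpleGraph.map_monotone _ (sup_le_sup_left (lowG_mono hun h) Q)
  · intro a b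
    obtain ⟨a, rfl⟩ := E.surjective a
    obtain ⟨b, rfl⟩ := E.surjective b
    have hadj : ∀ y : Fin p × Fin p → Set (BE g w),
        ((Q ⊔ lowG hun y).map E.toEmbedding).Adj (E a) (E b) ↔
          (Q.Adj a b ∨ (lowG hun y).Adj a b) := by
      intro y
      exact SimpleGraph.map_adj_apply (f := E.toEmbedding)
    simp only [hadj]
    rcases lowG_leaf hun a b with ⟨t, ht⟩ | ⟨i, e, hie⟩
    · left
      exact ⟨Q.Adj a b ∨ t, fun y => by rw [ht]⟩
    · by_cases hq : Q.Adj a b
      · left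
        exact ⟨True, fun y => by simp [hq]⟩
      · right
        exact ⟨i, e, fun y => by rw [hie]; simp [hq]⟩
  · intro y
    rw [← host_clique hg hu0 hun y (Q ⊔ lowG hun y) le_sup_right
      (sup_le (hQH.trans (highG_mono hu0 (hempty y))) (lowG_le_highG hu0 hun y))]
    constructor
    · rintro ⟨c, hc, hck⟩
      refine ⟨c.map E.symm.toEmbedding, ?_, by rw [card_map]; omega⟩
      intro a ha b hb hab
      simp only [coe_map, Set.mem_image, mem_coe] at ha hb
      obtain ⟨a, ha, rfl⟩ := ha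
      obtain ⟨b, hb, rfl⟩ := hb
      have := hc ha hb (fun h => hab (by rw [h]))
      rw [SimpleGraph.map_adj] at this
      obtain ⟨a', b', h, rfl, rfl⟩ := this
      simpa using h
    · rintro ⟨c, hc, hck⟩
      refine ⟨c.map E.toEmbedding, ?_, by rw [card_map]; omega⟩
      rw [coe_map]
      exact hc.map
  · intro y
    have hcardmap : ((Q ⊔ lowG hun y).map E.toEmbedding).edgeSet.ncard =
        (Q ⊔ lowG hun y).edgeSet.ncard := ncard_map _ _
    rw [hcardmap]
    constructor
    · rw [← hT, ← hQT]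
      apply Set.ncard_le_ncard _ (Set.toFinite _)
      exact SimpleGraph.edgeSet_mono le_sup_left
    · have hsub : (Q ⊔ lowG hun y).edgeSet ⊆ T ∪ crossE p g w n' := by
        rw [SimpleGraph.edgeSet_sup, hQT]
        intro e he
        rcases he with he | he
        · exact Or.inl he
        · rcases lowG_edgeSet_subset hun y he with h | h
          · exact Or.inl (hLT h)
          · exact Or.inr h
      calc (Q ⊔ lowG hun y).edgeSet.ncard ≤ (T ∪ crossE p g w n').ncard :=
            Set.ncard_le_ncard hsub (Set.toFinite _)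
        _ ≤ T.ncard + (crossE p g w n').ncard := Set.ncard_union_le _ _
        _ ≤ m + (p * (g * w)) ^ 2 := by
            rw [hT]
            exact Nat.add_le_add_left (crossE_card p g w n') m

end Pool.Agent.T9h16
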